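import Pool.Agent.W_35cfd6_h24.Kap1

/-!
# The trace: Frobenius linearity on `UU p`
-/

set_option autoImplicit false

namespace Pool.Agent.W_35cfd6_h24

open MvPowerSeries

variable {p : ℕ}

theorem Kap2_char [Fact p.Prime] : CharP (LL p) p :=
  charP_of_injective_algebraMap (algebraMap (ZMod p) (LL p)).injective p

theorem Kap2_LL [Fact p.Prime] (e : ℕ) (a : LL p) (M : ℤ) :
    (a ^ p ^ e).coeff M = if (p : ℤ) ^ e ∣ M then a.coeff (M / (p : ℤ) ^ e) else 0 := by
  classical
  have := Kap2_char (p := p)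
  have hq : ((p : ℤ) ^ e) ≠ 0 := pow_ne_zero _ (by exact_mod_cast (Fact.out : p.Prime).ne_zero)
  have hq' : p ^ e ≠ 0 := pow_ne_zero _ (Fact.out : p.Prime).ne_zero
  induction a using AddMonoidAlgebra.induction_linear with
  | zero =>
    rw [zero_pow hq']
    simp
  | add x y hx hy =>
    rw [add_pow_char_pow, AddMonoidAlgebra.coeff_add, Finsupp.add_apply, hx, hy,
      AddMonoidAlgebra.coeff_add, Finsupp.add_apply]
    split_ifs
    · rfl
    · rw [add_zero]
  | single m r =>
    rw [AddMonoidAlgebra.single_pow, ZMod.pow_card_pow, AddMonoidAlgebra.coeff_single,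
      AddMonoidAlgebra.coeff_single, Finsupp.single_apply, Finsupp.single_apply]
    have h1 : (p ^ e) • m = (p : ℤ) ^ e * m := by
      rw [nsmul_eq_mul]
      push_cast
      rfl
    rw [h1]
    by_cases hd : (p : ℤ) ^ e ∣ M
    · obtain ⟨N, rfl⟩ := hd
      rw [if_pos (dvd_mul_right _ _), Int.mul_ediv_cancel_left _ hq]
      simp only [mul_right_inj' hq]
    · rw [if_neg hd, if_neg]
      rintro rfl
      exact hd (dvd_mul_right _ _)

theorem Kap2_ne [Fact p.Prime] (e : ℕ) : p ^ e ≠ 0 :=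
  pow_ne_zero _ (Fact.out : p.Prime).ne_zero

theorem Kap2_zne [Fact p.Prime] (e : ℕ) : ((p : ℤ) ^ e) ≠ 0 :=
  pow_ne_zero _ (by exact_mod_cast (Fact.out : p.Prime).ne_zero)

theorem Kap2_coeff_pow [Fact p.Prime] (e : ℕ) (u : UU p) (ε : V →₀ ℕ) :
    coeff ε (u ^ p ^ e) =
      (coeff ε (MvPowerSeries.expand (p ^ e) (Kap2_ne e) u)) ^ p ^ e := by
  have := Kap2_char (p := p)
  rw [← MvPowerSeries.map_iterateFrobenius_expand p (Fact.out : p.Prime).ne_zero u e, coeff_map,
    iterateFrobenius_def]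

/-- Coefficients of a `q`-th power, `q = p^e`, at multiples of `q`. In characteristic `p`,
`u ^ q` is obtained from `u` by raising the coefficients (in the Laurent polynomials, hence also
in `ZMod p`, where `c ^ q = c`) to the power `q` and multiplying all exponents by `q`. Proof for
example by induction on `e` from `e = 1`, or: modulo the ideal of power series with zero
coefficients at all exponents `≤ α`, `u` is a finite sum of terms `c * mono β m`
(`add_pow_char_pow` / `sum_pow_char_pow`). -/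
theorem co_pow_mul [Fact p.Prime] (e : ℕ) (u : UU p) (α : V →₀ ℕ) (m : ℤ) :
    co (u ^ p ^ e) (p ^ e • α) ((p : ℤ) ^ e * m) = co u α m := by
  rw [co, Kap2_coeff_pow, coeff_expand_smul, Kap2_LL, if_pos (dvd_mul_right _ _),
    Int.mul_ediv_cancel_left _ (Kap2_zne e), co]

/-- The coefficients of `u ^ q` at other exponents vanish. -/
theorem co_pow_ne [Fact p.Prime] (e : ℕ) (u : UU p) (ε : V →₀ ℕ) (m : ℤ)
    (h : co (u ^ p ^ e) ε m ≠ 0) : (∃ α, ε = p ^ e • α) ∧ (p : ℤ) ^ e ∣ m := by
  rw [co, Kap2_coeff_pow, Kap2_LL] at h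
  refine ⟨?_, ?_⟩
  · have h1 : ∀ i, p ^ e ∣ ε i := by
      intro i
      by_contra hi
      rw [coeff_expand_of_not_dvd _ _ _ hi] at h
      apply h
      split_ifs
      · simp
      · rfl
    refine ⟨ε.mapRange (fun n => n / p ^ e) (Nat.zero_div _), ?_⟩
    refine Finsupp.ext fun i => ?_
    rw [Finsupp.smul_apply, Finsupp.mapRange_apply, smul_eq_mul, Nat.mul_div_cancel' (h1 i)]
  · by_contra hd
    rw [if_neg hd] at h
    exact h rfl

/-- Frobenius linearity of the trace on `UU p`: compare coefficients with `co_mul`. The coefficient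
of `v ^ q * u` at `(q α + ones (q - 1), q m)` is the sum over `β ≤ α` (if
`q β ≤ q α + ones (q - 1)` then `β ≤ α`) and over `m'` of
`co v β m' * co u (q (α - β) + ones (q - 1)) (q (m - m'))`. -/
theorem kap_pow_mul [Fact p.Prime] (e : ℕ) (v u : UU p) :
    kap e (v ^ p ^ e * u) = v * kap e u := by
  classical
  refine ext_co fun α m => ?_
  rw [co_kap, co_mul, co_mul]
  symm
  refine Finset.sum_of_injOn
    (fun y : (V →₀ ℕ) × (V →₀ ℕ) => (p ^ e • y.1, p ^ e • y.2 + ones (p ^ e - 1))) ?_ ?_ ?_ ?_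
  · rintro ⟨a, b⟩ _ ⟨a', b'⟩ _ h
    simp only [Prod.mk.injEq, add_left_inj] at h
    rw [nsmul_right_inj (Kap2_ne e), nsmul_right_inj (Kap2_ne e)] at h
    rw [h.1, h.2]
  · rintro ⟨a, b⟩ h
    have h' : a + b = α := Finset.HasAntidiagonal.mem_antidiagonal.1 h
    refine Finset.mem_coe.2 (Finset.HasAntidiagonal.mem_antidiagonal.2 ?_)
    simp only
    rw [← add_assoc, ← smul_add, h']
  · rintro ⟨a, b⟩ h hn
    rw [Finset.HasAntidiagonal.mem_antidiagonal] at h
    simp only at h
    refine finsum_eq_zero_of_forall_eq_zero fun M => ?_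
    by_contra hM
    obtain ⟨⟨β, rfl⟩, _⟩ := co_pow_ne e v a M (left_ne_zero_of_mul hM)
    apply hn
    have hle : β ≤ α := by
      intro i
      have h1 := DFunLike.congr_fun h i
      rw [Finsupp.add_apply, Finsupp.add_apply, Finsupp.smul_apply, Finsupp.smul_apply,
        smul_eq_mul, smul_eq_mul] at h1
      have h2 : ones (p ^ e - 1) i = p ^ e - 1 := rfl
      rw [h2] at h1
      have hpos : 0 < p ^ e := Nat.pos_of_ne_zero (Kap2_ne e)
      by_contra hlt
      push Not at hlt
      have h3 : p ^ e * (α i + 1) ≤ p ^ e * β i := Nat.mul_le_mul_left _ hlt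
      rw [mul_add, mul_one] at h3
      omega
    refine ⟨(β, α - β), ?_, ?_⟩
    · refine Finset.mem_coe.2 (Finset.HasAntidiagonal.mem_antidiagonal.2 ?_)
      exact add_tsub_cancel_of_le hle
    · have h4 : p ^ e • β + (p ^ e • (α - β) + ones (p ^ e - 1)) = p ^ e • β + b := by
        rw [← add_assoc, ← smul_add, add_tsub_cancel_of_le hle, h]
      simp only
      rw [add_left_cancel h4]
  · rintro ⟨a, b⟩ _
    simp only
    have hg : Function.Injective fun m' : ℤ => (p : ℤ) ^ e * m' :=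
      fun x y hxy => mul_left_cancel₀ (Kap2_zne e) hxy
    have h1 := finsum_mem_range (f := fun M : ℤ => co (v ^ p ^ e) (p ^ e • a) M *
      co u (p ^ e • b + ones (p ^ e - 1)) ((p : ℤ) ^ e * m - M)) hg
    rw [finsum_mem_def, Set.indicator_eq_self.2] at h1
    · rw [h1]
      refine finsum_congr fun m' => ?_
      rw [co_pow_mul, co_kap, mul_sub]
    · intro M hM
      obtain ⟨_, N, rfl⟩ := co_pow_ne e v _ M (left_ne_zero_of_mul (Function.mem_support.1 hM))
      exact ⟨N, rfl⟩

theorem kap_sX_pow_mul [Fact p.Prime] (e K : ℕ) (u : UU p) :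
    kap e (sX ^ (p ^ e * K) * u) = sX ^ K * kap e u := by
  have h1 : (sX ^ (p ^ e * K) : UU p) = (sX ^ K) ^ p ^ e := by
    rw [← pow_mul, mul_comm]
  rw [h1, kap_pow_mul]

theorem kap_dvd [Fact p.Prime] (e K : ℕ) {u : UU p} (h : sX ^ (p ^ e * K) ∣ u) :
    sX ^ K ∣ kap e u := by
  obtain ⟨c, rfl⟩ := h
  rw [kap_sX_pow_mul]
  exact dvd_mul_right _ _

/-- The coefficients of a product under the trace: only the coefficients of `F` at
`q α + ones (q - 1) - (exponent of u)` matter. (Direct from `co_kap` and `co_mul`.) -/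
theorem co_kap_mul [Fact p.Prime] (e : ℕ) (F u : UU p) (α : V →₀ ℕ) (m : ℤ) :
    co (kap e (F * u)) α m =
      ∑ x ∈ Finset.HasAntidiagonal.antidiagonal (p ^ e • α + ones (p ^ e - 1)),
        ∑ᶠ M : ℤ, co F x.1 M * co u x.2 ((p : ℤ) ^ e * m - M) := by
  rw [co_kap, co_mul]

end Pool.Agent.W_35cfd6_h24
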