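import Pool.Agent.W_35cfd6_h24.Kap1

/-!
# The trace commutes with `G`
-/

set_option autoImplicit false

namespace Pool.Agent.W_35cfd6_h24

open MvPowerSeries

variable {p : ℕ}

theorem choose_eq [Fact p.Prime] (e i : ℕ) (hi : i ≤ p ^ e - 1) :
    (((p ^ e - 1).choose i : ℕ) : ZMod p) = (-1) ^ i := by
  have hq : 1 ≤ p ^ e := Nat.one_le_pow _ _ (Fact.out : p.Prime).pos
  induction i with
  | zero => simp
  | succ i ih =>
    have h1 : (p ^ e).choose (i + 1) = (p ^ e - 1).choose i + (p ^ e - 1).choose (i + 1) := by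
      conv_lhs => rw [← Nat.sub_add_cancel hq]
      exact Nat.choose_succ_succ _ _
    have h2 : (((p ^ e).choose (i + 1) : ℕ) : ZMod p) = 0 := by
      rw [ZMod.natCast_eq_zero_iff]
      exact (Fact.out : p.Prime).dvd_choose_pow (Nat.succ_ne_zero i) (by omega)
    rw [h1, Nat.cast_add, ih (by omega)] at h2
    rw [pow_succ]
    linear_combination h2

/-- In `ZMod p` and for `q = p^e`, `C(q - 1, i)^2 = 1` for `i ≤ q - 1`: since
`(1 + X)^(q - 1) (1 + X) = 1 + X^q`, `C(q - 1, i) = (-1)^i`. -/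
theorem choose_sq [Fact p.Prime] (e i : ℕ) (hi : i ≤ p ^ e - 1) :
    (((p ^ e - 1).choose i : ℕ) : ZMod p) ^ 2 = 1 := by
  rw [choose_eq e i hi, ← pow_mul, mul_comm, pow_mul, neg_one_sq, one_pow]

theorem KapG_coeff_pow {S : Type*} [CommRing S] (a b : S) (n k : ℕ) :
    ((Polynomial.C a * Polynomial.X + Polynomial.C b) ^ n).coeff k =
      a ^ k * b ^ (n - k) * (n.choose k : ℕ) := by
  rw [add_pow, Polynomial.finsetSum_coeff]
  have h1 : ∀ m ∈ Finset.range (n + 1), ((Polynomial.C a * Polynomial.X) ^ m *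
      Polynomial.C b ^ (n - m) * ((n.choose m : ℕ) : Polynomial S)).coeff k =
      if k = m then a ^ m * b ^ (n - m) * (n.choose m : ℕ) else 0 := by
    intro m _
    have h2 : (Polynomial.C a * Polynomial.X) ^ m *
        Polynomial.C b ^ (n - m) * ((n.choose m : ℕ) : Polynomial S) =
        Polynomial.C (a ^ m * b ^ (n - m) * (n.choose m : ℕ)) * Polynomial.X ^ m := by
      rw [Polynomial.C_mul, Polynomial.C_mul, Polynomial.C_pow, Polynomial.C_pow, map_natCast]
      ring
    rw [h2, Polynomial.coeff_C_mul_X_pow]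
  rw [Finset.sum_congr rfl h1, Finset.sum_ite_eq]
  split_ifs with h3
  · rfl
  · rw [Finset.mem_range, not_lt] at h3
    rw [Nat.choose_eq_zero_of_lt (by omega), Nat.cast_zero, mul_zero]

/-- One block. `x = X (some i₀)`, `y = X (some i₁)` with `i₀ ≠ i₁`, `A, B` power series in `s` with
`A ^ 2 - s B ^ 2 = 1`, `i, j ≤ m` with `m + 1 = q` a power of `p`. The polynomial
`(A x + B y)^i (s B x + A y)^j` in `x, y` has degree `i + j ≤ 2 m`, so it contains `x^m y^m` only if
`i = j = m`, and then the coefficient is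
`∑_k C(m, k) A^k B^(m-k) * C(m, m - k) (s B)^(m-k) A^k = ∑_k (A^2)^k (s B^2)^(m-k)`
(as `C(m, k)^2 = 1`), which is `1` because `(A^2 - s B^2) * ∑_k (A^2)^k (s B^2)^(m-k) =
(A^2)^q - (s B^2)^q = (A^2 - s B^2)^q = 1`. This lemma is the pure algebra in a commutative ring `S`
of characteristic `p` (take `S = (ZMod p)[[s]]`), with polynomials in `x` only (put `y = 1`; by
homogeneity the coefficient of `x^m y^(i+j-m)` is the coefficient of `x^m`). -/
theorem block_coeff [Fact p.Prime] {S : Type*} [CommRing S] [CharP S p] (e : ℕ) (A B s : S)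
    (h : A ^ 2 - s * B ^ 2 = 1) :
    ((Polynomial.C A * Polynomial.X + Polynomial.C B) ^ (p ^ e - 1) *
      (Polynomial.C (s * B) * Polynomial.X + Polynomial.C A) ^ (p ^ e - 1)).coeff (p ^ e - 1) =
      1 := by
  have hq : 1 ≤ p ^ e := Nat.one_le_pow _ _ (Fact.out : p.Prime).pos
  rw [Polynomial.coeff_mul]
  have h1 : ∀ x ∈ Finset.HasAntidiagonal.antidiagonal (p ^ e - 1),
      ((Polynomial.C A * Polynomial.X + Polynomial.C B) ^ (p ^ e - 1)).coeff x.1 *
      ((Polynomial.C (s * B) * Polynomial.X + Polynomial.C A) ^ (p ^ e - 1)).coeff x.2 =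
      (A ^ 2) ^ x.1 * (s * B ^ 2) ^ x.2 := by
    intro x hx
    rw [Finset.HasAntidiagonal.mem_antidiagonal] at hx
    rw [KapG_coeff_pow, KapG_coeff_pow]
    have h2 : p ^ e - 1 - x.1 = x.2 := by omega
    have h3 : p ^ e - 1 - x.2 = x.1 := by omega
    have h4 : (p ^ e - 1).choose x.2 = (p ^ e - 1).choose x.1 := by
      rw [← Nat.choose_symm (show x.1 ≤ p ^ e - 1 by omega), h2]
    have h5 : ((((p ^ e - 1).choose x.1 : ℕ) : S)) ^ 2 = 1 := by
      have h6 := congrArg (ZMod.castHom (dvd_refl p) S) (choose_sq (p := p) e x.1 (by omega))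
      rwa [map_pow, map_natCast, map_one] at h6
    rw [h2, h3, h4]
    linear_combination (A ^ x.1 * B ^ x.2 * ((s * B) ^ x.2 * A ^ x.1)) * h5 +
      0 * h
  rw [Finset.sum_congr rfl h1]
  have h2 : ∑ x ∈ Finset.HasAntidiagonal.antidiagonal (p ^ e - 1),
      (A ^ 2) ^ x.1 * (s * B ^ 2) ^ x.2 =
      ∑ i ∈ Finset.range (p ^ e), (A ^ 2) ^ i * (s * B ^ 2) ^ (p ^ e - 1 - i) := by
    rw [Finset.Nat.sum_antidiagonal_eq_sum_range_succ_mk, Nat.succ_eq_add_one,
      Nat.sub_add_cancel hq]
  rw [h2]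
  have h3 := (Commute.all (A ^ 2) (s * B ^ 2)).geom_sum₂_mul (p ^ e)
  rw [h, mul_one] at h3
  rw [h3, ← sub_pow_expChar_pow, h, one_pow]

/-- The homogenisation of a polynomial. -/
noncomputable def KapG_H (i₀ i₁ : Fin 4) (n : ℕ) (g : Polynomial (PowerSeries (ZMod p))) : FF p :=
  ∑ k ∈ Finset.range (n + 1), ev (g.coeff k) * (X (some i₀) ^ k * X (some i₁) ^ (n - k))

theorem KapG_H_one (i₀ i₁ : Fin 4) : KapG_H (p := p) i₀ i₁ 0 1 = 1 := by
  simp [KapG_H]

theorem KapG_H_mul (i₀ i₁ : Fin 4) (n : ℕ) (g : Polynomial (PowerSeries (ZMod p)))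
    (hg : g.natDegree ≤ n) (a b : PowerSeries (ZMod p)) :
    KapG_H i₀ i₁ n g * (ev a * X (some i₀) + ev b * X (some i₁)) =
      KapG_H i₀ i₁ (n + 1) (g * (Polynomial.C a * Polynomial.X + Polynomial.C b)) := by
  have h1 : KapG_H i₀ i₁ (n + 1) (g * (Polynomial.C a * Polynomial.X + Polynomial.C b)) =
      (∑ k ∈ Finset.range (n + 1), ev (a * g.coeff k) *
        (X (some i₀) ^ (k + 1) * X (some i₁) ^ (n - k))) +
      ∑ k ∈ Finset.range (n + 2), ev (b * g.coeff k) *
        (X (some i₀) ^ k * X (some i₁) ^ (n + 1 - k)) := by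
    rw [KapG_H, Finset.sum_range_succ' _ (n + 1), Finset.sum_range_succ' _ (n + 1), ← add_assoc,
      ← Finset.sum_add_distrib]
    congr 1
    · refine Finset.sum_congr rfl fun k _ => ?_
      have h2 : (g * (Polynomial.C a * Polynomial.X + Polynomial.C b)).coeff (k + 1) =
          a * g.coeff k + b * g.coeff (k + 1) := by
        rw [mul_add, ← mul_assoc, Polynomial.coeff_add, Polynomial.coeff_mul_X,
          Polynomial.coeff_mul_C, Polynomial.coeff_mul_C]
        ring
      rw [h2, map_add, Nat.add_sub_add_right]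
      ring
    · have h2 : (g * (Polynomial.C a * Polynomial.X + Polynomial.C b)).coeff 0 =
          b * g.coeff 0 := by
        rw [Polynomial.mul_coeff_zero, Polynomial.coeff_add, Polynomial.mul_coeff_zero,
          Polynomial.coeff_X_zero, mul_zero, zero_add, Polynomial.coeff_C_zero, mul_comm]
      rw [h2]
  rw [h1, Finset.sum_range_succ _ (n + 1),
    Polynomial.coeff_eq_zero_of_natDegree_lt (Nat.lt_succ_of_le hg), mul_zero, map_zero, zero_mul,
    add_zero, ← Finset.sum_add_distrib, KapG_H, Finset.sum_mul]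
  refine Finset.sum_congr rfl fun k hk => ?_
  rw [Finset.mem_range] at hk
  rw [show n + 1 - k = (n - k) + 1 by omega, map_mul, map_mul]
  ring

theorem KapG_natDegree (a b : PowerSeries (ZMod p)) (i : ℕ) :
    ((Polynomial.C a * Polynomial.X + Polynomial.C b) ^ i).natDegree ≤ i := by
  refine (Polynomial.natDegree_pow_le).trans ?_
  have h1 : (Polynomial.C a * Polynomial.X + Polynomial.C b).natDegree ≤ 1 :=
    Polynomial.natDegree_linear_le
  calc i * (Polynomial.C a * Polynomial.X + Polynomial.C b).natDegree ≤ i * 1 :=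
        Nat.mul_le_mul_left _ h1
    _ = i := mul_one i

theorem KapG_H_pow (i₀ i₁ : Fin 4) (n : ℕ) (g : Polynomial (PowerSeries (ZMod p)))
    (hg : g.natDegree ≤ n) (a b : PowerSeries (ZMod p)) (i : ℕ) :
    KapG_H i₀ i₁ n g * (ev a * X (some i₀) + ev b * X (some i₁)) ^ i =
      KapG_H i₀ i₁ (n + i) (g * (Polynomial.C a * Polynomial.X + Polynomial.C b) ^ i) := by
  induction i with
  | zero => simp
  | succ i ih =>
    rw [pow_succ, ← mul_assoc, ih, pow_succ, ← mul_assoc, ← add_assoc]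
    apply KapG_H_mul
    exact Polynomial.natDegree_mul_le.trans (Nat.add_le_add hg (KapG_natDegree a b i))

theorem KapG_block (i₀ i₁ : Fin 4) (a b a' b' : PowerSeries (ZMod p)) (i j : ℕ) :
    (ev a * X (some i₀) + ev b * X (some i₁) : FF p) ^ i *
      (ev a' * X (some i₀) + ev b' * X (some i₁)) ^ j =
      KapG_H i₀ i₁ (i + j) ((Polynomial.C a * Polynomial.X + Polynomial.C b) ^ i *
        (Polynomial.C a' * Polynomial.X + Polynomial.C b') ^ j) := by
  have h1 := KapG_H_pow (p := p) i₀ i₁ 0 1 (by simp) a b i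
  rw [KapG_H_one, one_mul, one_mul, zero_add] at h1
  rw [h1]
  exact KapG_H_pow i₀ i₁ i _ (KapG_natDegree a b i) a' b' j

/-- the exponent with given entries -/
noncomputable def KapG_ex (r k₀ k₁ k₂ k₃ : ℕ) : V →₀ ℕ :=
  Finsupp.equivFunOnFinite.symm fun v => v.elim r ![k₀, k₁, k₂, k₃]

theorem KapG_monomial (d : V →₀ ℕ) : (monomial d 1 : FF p) =
    sX ^ d none * (X (some 0) ^ d (some 0) * X (some 1) ^ d (some 1) *
      (X (some 2) ^ d (some 2) * X (some 3) ^ d (some 3))) := by
  rw [MvPowerSeries.monomial_one_eq, Finsupp.prod_fintype _ _ (fun i => pow_zero _),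
    Fintype.prod_option, Fin.prod_univ_four]
  ring

theorem KapG_term (r k₀ k₁ k₂ k₃ : ℕ) (c c' : PowerSeries (ZMod p)) :
    (sX ^ r * (ev c * (X (some 0) ^ k₀ * X (some 1) ^ k₁) *
      (ev c' * (X (some 2) ^ k₂ * X (some 3) ^ k₃))) : FF p) =
    monomial (KapG_ex r k₀ k₁ k₂ k₃) 1 * ev (c * c') := by
  rw [KapG_monomial, map_mul]
  have h0 : KapG_ex r k₀ k₁ k₂ k₃ none = r := rfl
  have h1 : KapG_ex r k₀ k₁ k₂ k₃ (some 0) = k₀ := rfl
  have h2 : KapG_ex r k₀ k₁ k₂ k₃ (some 1) = k₁ := rfl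
  have h3 : KapG_ex r k₀ k₁ k₂ k₃ (some 2) = k₂ := rfl
  have h4 : KapG_ex r k₀ k₁ k₂ k₃ (some 3) = k₃ := rfl
  rw [h0, h1, h2, h3, h4]
  ring

theorem KapG_coeff_zero (d e' : V →₀ ℕ) (c : PowerSeries (ZMod p)) (j : Fin 4)
    (hj : e' (some j) ≠ d (some j)) : coeff e' (monomial d 1 * ev c : FF p) = 0 := by
  rw [coeff_monomial_mul]
  split_ifs with h1
  · rw [coeff_ev, if_neg, mul_zero]
    intro h2
    have h3 := DFunLike.congr_fun h2 (some j)
    rw [Finsupp.single_eq_of_ne (by simp), Finsupp.tsub_apply] at h3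
    have h4 := h1 (some j)
    omega
  · rfl

theorem KapG_zero [Fact p.Prime] (e : ℕ) (d : V →₀ ℕ) (c : PowerSeries (ZMod p))
    (h01 : d (some 0) + d (some 1) ≤ 2 * (p ^ e - 1))
    (h23 : d (some 2) + d (some 3) ≤ 2 * (p ^ e - 1)) (hne : ∃ j : Fin 4, d (some j) ≠ p ^ e - 1) :
    kapF e (monomial d 1 * ev c : FF p) = 0 := by
  ext α
  rw [coeff_kapF, map_zero]
  by_contra hcon
  have h1 : ∀ j : Fin 4, p ^ e * α (some j) + (p ^ e - 1) = d (some j) := by
    intro j
    by_contra hj
    exact hcon (KapG_coeff_zero d _ c j hj)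
  have h2 := h1 0
  have h3 := h1 1
  have h4 := h1 2
  have h5 := h1 3
  obtain ⟨j, hj⟩ := hne
  fin_cases j
  · exact hj (show d (some 0) = p ^ e - 1 by omega)
  · exact hj (show d (some 1) = p ^ e - 1 by omega)
  · exact hj (show d (some 2) = p ^ e - 1 by omega)
  · exact hj (show d (some 3) = p ^ e - 1 by omega)

theorem KapG_kap_monomial [Fact p.Prime] (e : ℕ) (ρ : V →₀ ℕ) (hρ : ∀ v, ρ v ≤ p ^ e - 1) :
    kapF e (monomial ρ (1 : ZMod p)) = if ρ = ones (p ^ e - 1) then 1 else 0 := by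
  classical
  have hq : 1 ≤ p ^ e := Nat.one_le_pow _ _ (Fact.out : p.Prime).pos
  ext α
  rw [coeff_kapF, coeff_monomial]
  split_ifs with h1 h2 h2
  · have h3 : α = 0 := by
      ext v
      have h4 := DFunLike.congr_fun h1 v
      have h5 := hρ v
      rw [← h4] at h5
      have h6 : p ^ e * α v + (p ^ e - 1) ≤ p ^ e - 1 := h5
      have h7 : p ^ e * α v = 0 := by omega
      have h8 := Nat.mul_eq_zero.1 h7
      change α v = 0
      omega
    rw [h3, coeff_zero_one]
  · exfalso
    apply h2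
    rw [← h1]
    ext v
    have h4 := DFunLike.congr_fun h1 v
    have h5 := hρ v
    rw [← h4] at h5
    have h6 : p ^ e * α v + (p ^ e - 1) ≤ p ^ e - 1 := h5
    change p ^ e * α v + (p ^ e - 1) = p ^ e - 1
    omega
  · rw [coeff_one, if_neg]
    rintro rfl
    apply h1
    rw [smul_zero, zero_add, h2]
  · rw [map_zero]

/-- The trace of the image of a monomial `x^ρ`, `ρ_v ≤ q - 1`. Proof: by `lin_monomial` the image is
`s^(ρ none) * (block of x_0, x_1) * (block of x_2, x_3)`, the blocks being forms of degree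
`ρ_0 + ρ_1`, `ρ_2 + ρ_3 ≤ 2 (q - 1)` in `x_0, x_1` resp. `x_2, x_3`. A coefficient seen by the trace
has all `x`-exponents `≥ q - 1`, which forces `ρ (some i) = q - 1` for all `i`; by `block_coeff`
(homogeneous form) the coefficient, a power series in `s`, of `(x_0 x_1 x_2 x_3)^(q-1)` is then
`s^(ρ none)`, and its trace in `s` is `1` if `ρ none = q - 1` and `0` if `ρ none < q - 1`. -/
theorem kapF_GG_monomial [Fact p.Prime] (P : Par p) (e : ℕ) (ρ : V →₀ ℕ)
    (hρ : ∀ v, ρ v ≤ p ^ e - 1) :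
    kapF e (GG P (monomial ρ (1 : ZMod p))) = if ρ = ones (p ^ e - 1) then 1 else 0 := by
  classical
  have hP : GG P (monomial ρ (1 : ZMod p)) = sX ^ ρ none *
      (KapG_H 0 1 (ρ (some 0) + ρ (some 1))
        ((Polynomial.C P.a * Polynomial.X + Polynomial.C P.b) ^ ρ (some 0) *
          (Polynomial.C (PowerSeries.X * P.b) * Polynomial.X + Polynomial.C P.a) ^ ρ (some 1)) *
      KapG_H 2 3 (ρ (some 2) + ρ (some 3))
        ((Polynomial.C P.c * Polynomial.X + Polynomial.C P.d) ^ ρ (some 2) *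
          (Polynomial.C (PowerSeries.X * P.d) * Polynomial.X + Polynomial.C P.c) ^ ρ (some 3))) := by
    rw [GG, lin_monomial, ← KapG_block, ← KapG_block]
    simp only [Par.mat, Fin.prod_univ_four, Fin.sum_univ_four]
    simp [mul_assoc]
  have hC : CharP (PowerSeries (ZMod p)) p :=
    charP_of_injective_algebraMap (algebraMap (ZMod p) (PowerSeries (ZMod p))).injective p
  rw [hP, KapG_H, KapG_H, Finset.sum_mul_sum, Finset.mul_sum, kapF_sum]
  by_cases hall : ∀ j : Fin 4, ρ (some j) = p ^ e - 1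
  · have h0 := hall 0
    have h1 := hall 1
    have h2 := hall 2
    have h3 := hall 3
    rw [h0, h1, h2, h3, Finset.sum_eq_single (p ^ e - 1)]
    · rw [Finset.mul_sum, kapF_sum, Finset.sum_eq_single (p ^ e - 1)]
      · rw [KapG_term, block_coeff e P.a P.b PowerSeries.X P.hab,
          block_coeff e P.c P.d PowerSeries.X P.hcd, mul_one, map_one (ev (p := p) (A := ZMod p)),
          mul_one,
          show p ^ e - 1 + (p ^ e - 1) - (p ^ e - 1) = p ^ e - 1 by omega]
        have h4 : KapG_ex (ρ none) (p ^ e - 1) (p ^ e - 1) (p ^ e - 1) (p ^ e - 1) = ρ := by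
          ext v
          rcases v with _ | j
          · rfl
          · fin_cases j
            · exact h0.symm
            · exact h1.symm
            · exact h2.symm
            · exact h3.symm
        rw [h4]
        exact KapG_kap_monomial e ρ hρ
      · intro l hl hne
        rw [Finset.mem_range] at hl
        rw [KapG_term]
        refine KapG_zero e _ _ ?_ ?_ ⟨2, hne⟩
        · change p ^ e - 1 + (p ^ e - 1 + (p ^ e - 1) - (p ^ e - 1)) ≤ _
          omega
        · change l + (p ^ e - 1 + (p ^ e - 1) - l) ≤ _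
          omega
      · intro hn
        exact absurd (Finset.mem_range.2 (by omega)) hn
    · intro k hk hne
      rw [Finset.mem_range] at hk
      rw [Finset.mul_sum, kapF_sum]
      refine Finset.sum_eq_zero fun l hl => ?_
      rw [Finset.mem_range] at hl
      rw [KapG_term]
      refine KapG_zero e _ _ ?_ ?_ ⟨0, hne⟩
      · change k + (p ^ e - 1 + (p ^ e - 1) - k) ≤ _
        omega
      · change l + (p ^ e - 1 + (p ^ e - 1) - l) ≤ _
        omega
    · intro hn
      exact absurd (Finset.mem_range.2 (by omega)) hn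
  · rw [if_neg]
    · refine Finset.sum_eq_zero fun k hk => ?_
      rw [Finset.mem_range] at hk
      rw [Finset.mul_sum, kapF_sum]
      refine Finset.sum_eq_zero fun l hl => ?_
      rw [Finset.mem_range] at hl
      rw [KapG_term]
      have h0 := hρ (some 0)
      have h1 := hρ (some 1)
      have h2 := hρ (some 2)
      have h3 := hρ (some 3)
      refine KapG_zero e _ _ ?_ ?_ ?_
      · change k + (ρ (some 0) + ρ (some 1) - k) ≤ _
        omega
      · change l + (ρ (some 2) + ρ (some 3) - l) ≤ _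
        omega
      · by_contra hcon
        push Not at hcon
        apply hall
        have h4 : k = p ^ e - 1 := hcon 0
        have h5 : ρ (some 0) + ρ (some 1) - k = p ^ e - 1 := hcon 1
        have h6 : l = p ^ e - 1 := hcon 2
        have h7 : ρ (some 2) + ρ (some 3) - l = p ^ e - 1 := hcon 3
        intro j
        fin_cases j
        · exact (show ρ (some 0) = p ^ e - 1 by omega)
        · exact (show ρ (some 1) = p ^ e - 1 by omega)
        · exact (show ρ (some 2) = p ^ e - 1 by omega)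
        · exact (show ρ (some 3) = p ^ e - 1 by omega)
    · rintro h
      apply hall
      intro j
      rw [h]
      rfl

theorem KapG_coeff_pow_smul [Fact p.Prime] (s : FF p) (e : ℕ) (i : V →₀ ℕ) :
    coeff ((p ^ e) • i) (s ^ p ^ e) = coeff i s := by
  have hp : p ≠ 0 := (Fact.out : p.Prime).ne_zero
  have : ExpChar (ZMod p) p := ExpChar.prime Fact.out
  rw [← map_iterateFrobenius_expand p hp s e, coeff_map, coeff_expand_smul, iterateFrobenius_def,
    ZMod.pow_card_pow]

theorem KapG_coeff_pow_of_not_dvd [Fact p.Prime] (s : FF p) (e : ℕ) {i : V →₀ ℕ} {j : V}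
    (h : ¬ p ^ e ∣ i j) : coeff i (s ^ p ^ e) = 0 := by
  have hp : p ≠ 0 := (Fact.out : p.Prime).ne_zero
  have : ExpChar (ZMod p) p := ExpChar.prime Fact.out
  rw [← map_iterateFrobenius_expand p hp s e, coeff_map, coeff_expand_of_not_dvd _ _ _ h, map_zero]

/-- the components of a power series -/
noncomputable def KapG_co (e : ℕ) (f : FF p) (ρ : V →₀ ℕ) : FF p :=
  fun α => coeff (p ^ e • α + ρ) f

theorem KapG_coeff_co (e : ℕ) (f : FF p) (ρ α : V →₀ ℕ) :
    coeff α (KapG_co e f ρ) = coeff (p ^ e • α + ρ) f := rfl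

theorem KapG_decomp [Fact p.Prime] (e : ℕ) (f : FF p) :
    ∑ ρ ∈ Finset.Icc 0 (ones (p ^ e - 1)), KapG_co e f ρ ^ p ^ e * monomial ρ 1 = f := by
  classical
  have hq : 0 < p ^ e := pow_pos (Fact.out : p.Prime).pos e
  ext γ
  let β : V →₀ ℕ := γ.mapRange (fun t => t / p ^ e) (by simp)
  let α0 : V →₀ ℕ := γ.mapRange (fun t => t % p ^ e) (by simp)
  have hγ : p ^ e • β + α0 = γ := by
    ext j
    simp only [β, α0, Finsupp.coe_add, Finsupp.coe_smul, Pi.add_apply, Pi.smul_apply,
      Finsupp.mapRange_apply, smul_eq_mul]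
    exact Nat.div_add_mod _ _
  have hbox : ∀ α : V →₀ ℕ, α ∈ Finset.Icc 0 (ones (p ^ e - 1)) ↔ ∀ j, α j < p ^ e := by
    intro α
    rw [Finset.mem_Icc]
    constructor
    · rintro ⟨-, h⟩ j
      have h1 : α j ≤ p ^ e - 1 := h j
      omega
    · intro h
      refine ⟨zero_le, fun j => ?_⟩
      have h1 := h j
      change α j ≤ p ^ e - 1
      omega
  have hα0 : α0 ∈ Finset.Icc 0 (ones (p ^ e - 1)) := by
    rw [hbox]
    intro j
    exact Nat.mod_lt _ hq
  rw [map_sum, Finset.sum_eq_single α0]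
  · rw [coeff_mul_monomial, if_pos (by rw [← hγ]; exact le_add_self), mul_one]
    have h2 : γ - α0 = p ^ e • β := by
      rw [← hγ, add_tsub_cancel_right]
    rw [h2, KapG_coeff_pow_smul, KapG_coeff_co, hγ]
  · intro α hα hne
    rw [coeff_mul_monomial]
    split_ifs with hle
    · have hex : ∃ j, ¬ p ^ e ∣ (γ - α) j := by
        by_contra hcon
        push Not at hcon
        apply hne
        ext j
        have h1 := hcon j
        have h2 := (hbox α).1 hα j
        have h3 : α j ≤ γ j := hle j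
        have h4 : (γ - α) j = γ j - α j := rfl
        rw [h4] at h1
        obtain ⟨c, hc⟩ := h1
        have h5 : γ j = α j + p ^ e * c := by omega
        change α j = γ j % p ^ e
        rw [h5, Nat.add_mul_mod_self_left, Nat.mod_eq_of_lt h2]
      obtain ⟨j, hj⟩ := hex
      rw [KapG_coeff_pow_of_not_dvd _ e hj, zero_mul]
    · rfl
  · intro h
    exact absurd hα0 h

/-- The trace commutes with `G`. Proof: write `f = ∑_ρ f_ρ ^ q * x^ρ`, the finite sum over the
exponents `ρ` with all `ρ v ≤ q - 1`, where `f_ρ = fun α => coeff (q α + ρ) f` (the coefficient of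
`f_ρ ^ q` at `q α` is `coeff α f_ρ`, at exponents not divisible by `q` it is zero). Then
`G f = ∑_ρ (G f_ρ)^q G x^ρ`, so by `kapF_pow_mul` and `kapF_GG_monomial` both sides are equal to
`G f_ρ` for `ρ = ones (q - 1)`. -/
theorem kapF_GG [Fact p.Prime] (P : Par p) (e : ℕ) (f : FF p) :
    kapF e (GG P f) = GG P (kapF e f) := by
  conv_lhs => rw [← KapG_decomp e f]
  conv_rhs => rw [← KapG_decomp e f]
  rw [map_sum, kapF_sum, kapF_sum, map_sum]
  refine Finset.sum_congr rfl fun ρ hρ => ?_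
  have hρ' : ∀ v, ρ v ≤ p ^ e - 1 := fun v => (Finset.mem_Icc.1 hρ).2 v
  rw [map_mul, map_pow, kapF_pow_mul, kapF_pow_mul, map_mul, kapF_GG_monomial P e ρ hρ',
    KapG_kap_monomial e ρ hρ']
  split_ifs
  · rw [map_one]
  · rw [map_zero]

theorem kapF_GE_zpow [Fact p.Prime] (P : Par p) (e : ℕ) (j : ℤ) (f : FF p) :
    kapF e ((GE P ^ j) f) = (GE P ^ j) (kapF e f) :=
  GE_zpow_ind P (fun g => kapF e (g f) = g (kapF e f)) rfl
    (fun g hg => by beta_reduce; rw [kapF_GG, hg]) (fun g hg => by beta_reduce; rw [kapF_GG, hg]) j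

end Pool.Agent.W_35cfd6_h24
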