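import Pool.Agent.W_35cfd6_h24.Th2
import Pool.Agent.W_35cfd6_h24.Kap2
import Pool.Agent.W_35cfd6_h24.KapG

/-!
# Approximate maps: `kap e (F * f)` is congruent to an element of `RR P` modulo `s^j`
-/

set_option autoImplicit false

namespace Pool.Agent.W_35cfd6_h24

open MvPowerSeries

variable {p : ℕ}

/-- From `row_kap` and `row_iota_mul`. -/
theorem row_kap_iota_mul [Fact p.Prime] (e : ℕ) (F : FF p) (u : UU p) (m : ℤ) :
    row m (kap e (iota F * u)) = kapF e (F * row ((p : ℤ) ^ e * m) u) := by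
  rw [row_kap, row_iota_mul]

/-- If `s^K` divides `G F - F` then it divides `G^J F - F` for all integers `J`: the set of `J` with
this property contains `0`, and `G^(J+1) F - F = G (G^J F - F) + (G F - F)`,
`G^(J-1) F - F = G⁻¹ (G^J F - F) - G⁻¹ (G F - F)`. -/
theorem GE_zpow_sub_dvd (P : Par p) {K : ℕ} {F : FF p} (h : sX ^ K ∣ GG P F - F) (J : ℤ) :
    sX ^ K ∣ (GE P ^ J) F - F := by
  induction J using Int.induction_on with
  | zero =>
    rw [GE_zpow_zero, sub_self]
    exact dvd_zero _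
  | succ i ih =>
    have h1 : (GE P ^ ((i : ℤ) + 1)) F - F = GG P ((GE P ^ (i : ℤ)) F - F) + (GG P F - F) := by
      rw [GE_zpow_succ, map_sub]
      ring
    rw [h1]
    exact dvd_add (GG_dvd P ih) h
  | pred i ih =>
    have h2 : (GE P ^ (-(i : ℤ))) F = GG P ((GE P ^ (-(i : ℤ) - 1)) F) := by
      rw [← GE_zpow_succ, sub_add_cancel]
    rw [← GG_dvd_iff P, map_sub, ← h2]
    have h3 : (GE P ^ (-(i : ℤ))) F - GG P F = ((GE P ^ (-(i : ℤ))) F - F) - (GG P F - F) := by
      ring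
    rw [h3]
    exact dvd_sub ih h

/-- Let `q = p^e`, `n ≥ 1`, `f ∈ RR P` homogeneous of degree `q n`. Put
`r = ∑_(m < 3 n) th P n m (kapF e (F * row (q m) f))`, in `RR P` by `th_mem` (`kapF e (F * row ..)`
is homogeneous of degree `n`: degree `4 (q - 1) + q n`). Let `M = m + 3 n J`, `0 ≤ m < 3 n`. Row `M`
of `kap e (iota F * f)` is `kapF e (F * row (q m + 3 (q n) J) f)` which by `RR_row_iter` and `eE_mul`
is `kapF e (F * s^(q E) G^J f₀) = s^E kapF e (F * G^J f₀)`, `E = eE n m J ≥ 0`,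
`f₀ = row (q m) f`. As `s^(q j)` divides `G^J F - F` (`GE_zpow_sub_dvd`), modulo `s^j` (`kapF_dvd`),
`kapF e (F * G^J f₀)` is `kapF e (G^J F * G^J f₀) = G^J (kapF e (F * f₀))` (`kapF_GE_zpow`). Row `M`
of `r` is `s^E G^J (kapF e (F * f₀))` (`row_th`, `row_th_ne` for the other `m`). So all rows of the
difference are divisible by `s^j` (`sX_pow_dvd_iff_row`). -/
theorem approx_hom [Fact p.Prime] (P : Par p) {e j : ℕ} {F : FF p}
    (hF : IsHom (4 * (p ^ e - 1)) F) (hG : sX ^ (p ^ e * j) ∣ GG P F - F) {n : ℕ} (hn : 1 ≤ n)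
    {f : UU p} (hf : f ∈ RR P) (hh : IsHom (p ^ e * n) f) :
    ∃ r ∈ RR P, IsHom n r ∧ sX ^ j ∣ kap e (iota F * f) - r := by
  classical
  have hq : 1 ≤ p ^ e := Nat.one_le_pow _ _ (Fact.out : p.Prime).pos
  have hn' : (0 : ℤ) < 3 * n := by
    have : (1 : ℤ) ≤ n := by exact_mod_cast hn
    omega
  have hb : ∀ m ∈ Finset.range (3 * n), (0 : ℤ) ≤ (m : ℤ) ∧ (m : ℤ) ≤ 3 * n := by
    intro m hm
    rw [Finset.mem_range] at hm
    omega
  have hk : ∀ m : ℤ, IsHom n (kapF e (F * row m f)) := by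
    intro m
    apply IsHom.kapF
    rw [add_comm]
    exact hF.mul (hh.row m)
  refine ⟨∑ m ∈ Finset.range (3 * n), th P n m (kapF e (F * row ((p : ℤ) ^ e * m) f)),
    Subring.sum_mem _ fun m hm => th_mem P hn (hb m hm).1 (hb m hm).2 (hk _),
    IsHom.sum _ fun m hm => isHom_th P hn (hb m hm).1 (hb m hm).2 (hk _), ?_⟩
  rw [sX_pow_dvd_iff_row]
  intro M
  have h2 := Int.emod_nonneg M hn'.ne'
  have h3 := Int.emod_lt_of_pos M hn'
  have h4 : M = M % (3 * n) + 3 * n * (M / (3 * n)) := (Int.emod_add_mul_ediv M (3 * n)).symm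
  generalize M % (3 * n) = m at h2 h3 h4
  generalize M / (3 * n) = J at h4
  have hrow : row M (∑ m ∈ Finset.range (3 * n), th P n m (kapF e (F * row ((p : ℤ) ^ e * m) f))) =
      sX ^ (eE n m J).toNat * (GE P ^ J) (kapF e (F * row ((p : ℤ) ^ e * m) f)) := by
    rw [row_sum, Finset.sum_eq_single m.toNat]
    · have h1 : ((m.toNat : ℕ) : ℤ) = m := Int.toNat_of_nonneg h2
      rw [h1, h4]
      exact row_th P hn h2 h3.le _ J
    · intro m' hm hne
      have hm2 := Finset.mem_range.1 hm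
      refine row_th_ne P hn (hb m' hm).1 (hb m' hm).2 _ ?_
      rintro ⟨k, hk⟩
      have hm' : (m' : ℤ) < 3 * n := by exact_mod_cast hm2
      have hm0 : (0 : ℤ) ≤ (m' : ℤ) := Int.natCast_nonneg m'
      have hk2 : m - m' = 3 * n * (k - J) := by
        rw [mul_sub, ← hk, h4]
        ring
      have hk0 : k - J = 0 := by
        by_contra hk1
        rcases lt_or_gt_of_ne hk1 with h5 | h5
        · have : (3 * n : ℤ) * (k - J) ≤ (3 * n : ℤ) * (-1) :=
            mul_le_mul_of_nonneg_left (by omega) (by positivity)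
          omega
        · have : (3 * n : ℤ) * 1 ≤ (3 * n : ℤ) * (k - J) :=
            mul_le_mul_of_nonneg_left (by omega) (by positivity)
          omega
      rw [hk0, mul_zero] at hk2
      omega
    · intro hne
      exfalso
      apply hne
      rw [Finset.mem_range]
      omega
  rw [row_sub, row_kap_iota_mul, hrow]
  have hqn : 1 ≤ p ^ e * n := Nat.mul_pos hq hn
  have hqz : (0 : ℤ) ≤ (p : ℤ) ^ e := by positivity
  have h5 := RR_row_iter P hqn hf hh (m := (p : ℤ) ^ e * m) (by positivity) (by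
    push_cast
    have := mul_le_mul_of_nonneg_left h3.le hqz
    linarith) J
  have h6 : (p : ℤ) ^ e * m + 3 * ((p ^ e * n : ℕ) : ℤ) * J = (p : ℤ) ^ e * M := by
    rw [h4]
    push_cast
    ring
  have h7 : eE (p ^ e * n) ((p : ℤ) ^ e * m) J = ((p ^ e : ℕ) : ℤ) * eE n m J := by
    rw [← eE_mul]
    push_cast
    rfl
  have h8 : (eE (p ^ e * n) ((p : ℤ) ^ e * m) J).toNat = p ^ e * (eE n m J).toNat := by
    rw [h7, Int.toNat_mul (by positivity) (eE_nonneg n h2 h3.le J), Int.toNat_natCast]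
  rw [h6, h8] at h5
  rw [h5, mul_left_comm F, kapF_sX_pow_mul, ← mul_sub]
  refine dvd_mul_of_dvd_right ?_ _
  rw [← kapF_GE_zpow, map_mul, ← kapF_sub, ← sub_mul]
  refine kapF_dvd e j (dvd_mul_of_dvd_left ?_ _)
  rw [← neg_sub, dvd_neg]
  exact GE_zpow_sub_dvd P hG J

/-- In degree `0`: `f = iota (row 0 f)` (`RR_hom_zero`), so `kap e (iota F * f)` is homogeneous of
degree `0` and its rows `m ≠ 0` vanish; use `RR_of_hom_zero`. -/
theorem approx_zero [Fact p.Prime] (P : Par p) {e : ℕ} {F : FF p}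
    (hF : IsHom (4 * (p ^ e - 1)) F) {f : UU p} (hf : f ∈ RR P) (hh : IsHom 0 f) :
    kap e (iota F * f) ∈ RR P := by
  have h1 : IsHom 0 (kap e (iota F * f)) := by
    apply IsHom.kap
    rw [mul_zero, zero_add]
    have h2 := hF.iota.mul hh
    rwa [add_zero] at h2
  refine RR_of_hom_zero h1 fun m hm => ?_
  rw [row_kap_iota_mul, RR_row_of_hom_zero hf hh, mul_zero, kapF_zero]
  exact mul_ne_zero (pow_ne_zero _ (by exact_mod_cast (Fact.out : p.Prime).ne_zero)) hm

/-- The general case. `cmp n (kap e (iota F * f)) = kap e (iota F * cmp (q n) f)` (`cmp_kap`,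
`IsHom.cmp_mul`); choose `r_n` for every `n` by `approx_hom`, `approx_zero` and let `r` have
coefficient `coeff e (r_(dg e))` at `e`, so `cmp n r = r_n`; conclude by `RR_of_cmp` and
`dvd_of_cmp`. -/
theorem approx_all [Fact p.Prime] (P : Par p) {e j : ℕ} {F : FF p}
    (hF : IsHom (4 * (p ^ e - 1)) F) (hG : sX ^ (p ^ e * j) ∣ GG P F - F)
    {f : UU p} (hf : f ∈ RR P) : ∃ r ∈ RR P, sX ^ j ∣ kap e (iota F * f) - r := by
  classical
  have hcmp : ∀ n, cmp n (kap e (iota F * f)) = kap e (iota F * cmp (p ^ e * n) f) := by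
    intro n
    rw [cmp_kap, hF.iota.cmp_mul]
  have hex : ∀ n, ∃ r : UU p, r ∈ RR P ∧ IsHom n r ∧
      sX ^ j ∣ kap e (iota F * cmp (p ^ e * n) f) - r := by
    intro n
    rcases Nat.eq_zero_or_pos n with rfl | hn
    · rw [mul_zero]
      refine ⟨_, approx_zero P hF (RR_cmp hf 0) (isHom_cmp 0 f), ?_, ?_⟩
      · apply IsHom.kap
        rw [mul_zero, zero_add]
        have h2 := hF.iota.mul (isHom_cmp 0 f)
        rwa [add_zero] at h2
      · rw [sub_self]
        exact dvd_zero _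
    · obtain ⟨r, h1, h2, h3⟩ := approx_hom P hF hG hn (RR_cmp hf (p ^ e * n)) (isHom_cmp _ f)
      exact ⟨r, h1, h2, h3⟩
  choose r hr1 hr2 hr3 using hex
  let R : UU p := fun e' => coeff e' (r (dg e'))
  have hR : ∀ n, cmp n R = r n := by
    intro n
    refine MvPowerSeries.ext fun e' => ?_
    rw [coeff_cmp]
    split_ifs with h1
    · have h2 : coeff e' R = coeff e' (r (dg e')) := rfl
      rw [h2, h1]
    · by_contra h2
      exact h1 (hr2 n e' fun h3 => h2 h3.symm)
  refine ⟨R, RR_of_cmp fun n => ?_, dvd_of_cmp fun n => ?_⟩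
  · rw [hR]
    exact hr1 n
  · rw [cmp_sub, hcmp, hR]
    exact hr3 n

/-- The element `s` of `RR P`. -/
noncomputable def sR (P : Par p) : RR P := ⟨sX, sX_mem_RR P⟩

/-- Consequence A. Let `I` be an ideal of `RR P` containing `s^j`, and let `s u^q` be in the ideal
generated by the `q`-th powers of elements of `I`. Then `u ∈ I`: write `s u^q = ∑ a_i^q b_i` with
`a_i ∈ I` (`Submodule.span_induction` or `Ideal.map` as span of the image) and apply
`kap e (iota F * _)`: `u = u * kap e (iota F * s) = kap e (iota F * s * u^q) =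
∑ a_i kap e (iota F * b_i)` (`kap_pow_mul`; `kap e (iota (s F)) = 1` as `kapF e (s F) = 1` and the
rows `m ≠ 0` vanish), and `kap e (iota F * b_i) = r_i` modulo `s^j` with `r_i ∈ RR P`
(`approx_all`). So `u - ∑ a_i r_i = s^j w` with `w ∈ UU p`, and `w ∈ RR P` by `RR_of_sX_pow_mul`;
hence `u ∈ I`. -/
theorem claimA_aux [Fact p.Prime] (P : Par p) [CharP (RR P) p] {e j : ℕ} {F : FF p}
    (hF : IsHom (4 * (p ^ e - 1)) F) (hG : sX ^ (p ^ e * j) ∣ GG P F - F)
    (hk : kapF e (sX * F) = 1) (I : Ideal (RR P)) (hI : sR P ^ j ∈ I) (u : RR P)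
    (hu : sR P * u ^ p ^ e ∈ I.map (iterateFrobenius (RR P) p e)) : u ∈ I := by
  have hkap0 : kap e (0 : UU p) = 0 := by
    have h1 := kap_sub e (0 : UU p) 0
    rwa [sub_self, sub_self] at h1
  have key : ∀ x ∈ I.map (iterateFrobenius (RR P) p e), ∀ b : RR P,
      ∃ y ∈ I, (sX : UU p) ^ j ∣ kap e (iota F * ((b * x : RR P) : UU p)) - (y : UU p) := by
    intro x hx
    induction hx using Submodule.span_induction with
    | mem x hx =>
      intro b
      obtain ⟨a, ha, rfl⟩ := hx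
      obtain ⟨r, hr, hd⟩ := approx_all P hF hG (f := (b : UU p)) b.2
      refine ⟨a * ⟨r, hr⟩, Ideal.mul_mem_right _ _ ha, ?_⟩
      have h1 : iota F * ((b * iterateFrobenius (RR P) p e a : RR P) : UU p) =
          (a : UU p) ^ p ^ e * (iota F * (b : UU p)) := by
        rw [iterateFrobenius_def, Subring.coe_mul, Subring.coe_pow]
        ring
      rw [h1, kap_pow_mul, Subring.coe_mul, ← mul_sub]
      exact dvd_mul_of_dvd_right hd _
    | zero =>
      intro b
      refine ⟨0, zero_mem _, ?_⟩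
      rw [mul_zero, Subring.coe_zero, mul_zero, hkap0, sub_zero]
      exact dvd_zero _
    | add x x' _ _ ih ih' =>
      intro b
      obtain ⟨y, hy, h1⟩ := ih b
      obtain ⟨y', hy', h1'⟩ := ih' b
      refine ⟨y + y', add_mem hy hy', ?_⟩
      have h2 : kap e (iota F * ((b * (x + x') : RR P) : UU p)) - ((y + y' : RR P) : UU p) =
          (kap e (iota F * ((b * x : RR P) : UU p)) - (y : UU p)) +
            (kap e (iota F * ((b * x' : RR P) : UU p)) - (y' : UU p)) := by
        rw [mul_add, Subring.coe_add, Subring.coe_add, mul_add, kap_add]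
        ring
      rw [h2]
      exact dvd_add h1 h1'
    | smul c x _ ih =>
      intro b
      obtain ⟨y, hy, h1⟩ := ih (b * c)
      refine ⟨y, hy, ?_⟩
      rwa [smul_eq_mul, ← mul_assoc]
  obtain ⟨y, hy, hd⟩ := key _ hu 1
  have h1 : kap e (iota F * sX) = (1 : UU p) := by
    refine ext_row fun m => ?_
    rw [← iota_sX, ← map_mul, row_kap, row_iota, row_one, mul_comm F]
    by_cases hm : m = 0
    · rw [if_pos hm, if_pos (by rw [hm, mul_zero]), hk]
    · rw [if_neg hm, if_neg, kapF_zero]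
      exact mul_ne_zero (pow_ne_zero _ (by exact_mod_cast (Fact.out : p.Prime).ne_zero)) hm
  have h2 : iota F * ((1 * (sR P * u ^ p ^ e) : RR P) : UU p) =
      (u : UU p) ^ p ^ e * (iota F * sX) := by
    rw [one_mul, Subring.coe_mul, Subring.coe_pow]
    have h3 : ((sR P : RR P) : UU p) = sX := rfl
    rw [h3]
    ring
  rw [h2, kap_pow_mul, h1, mul_one] at hd
  obtain ⟨w, hw⟩ := hd
  have hwR : w ∈ RR P := by
    refine RR_of_sX_pow_mul (K := j) ?_
    rw [← hw]
    exact sub_mem u.2 y.2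
  have h3 : u = y + sR P ^ j * ⟨w, hwR⟩ := by
    apply Subtype.ext
    rw [Subring.coe_add, Subring.coe_mul, Subring.coe_pow]
    change (u : UU p) = (y : UU p) + sX ^ j * w
    rw [← hw]
    ring
  rw [h3]
  exact add_mem hy (Ideal.mul_mem_right _ _ hI)

end Pool.Agent.W_35cfd6_h24
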