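import Pool.Agent.W_35cfd6_h24.Psi

/-!
# Existence of approximate invariants with good trace
-/

set_option autoImplicit false

namespace Pool.Agent.W_35cfd6_h24

open MvPowerSeries

variable {p : ℕ}

theorem ExF_dbl_expo (T m : ℕ) : dbl (expo T m) = expo (2 * T) m := by
  ext v
  rcases v with _ | j
  · simp [dbl, expo, xone]
    omega
  · simp [dbl, expo, xone]

theorem ExF_index (q m : ℕ) (α : V →₀ ℕ) (h : dg α = 0) :
    q • α + ones m = expo (q * α none + m) m := by
  have h1 : ∀ j : Fin 4, α (some j) = 0 := by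
    intro j
    have h2 : ∑ j : Fin 4, α (some j) = 0 := h
    exact (Finset.sum_eq_zero_iff.mp h2) j (Finset.mem_univ j)
  ext v
  rcases v with _ | j
  · simp [expo, xone, ones]
  · simp [expo, xone, ones, h1 j]

theorem ExF_zero (α : V →₀ ℕ) (h : dg α = 0) (h0 : α none = 0) : α = 0 := by
  have h1 : ∀ j : Fin 4, α (some j) = 0 := by
    intro j
    have h2 : ∑ j : Fin 4, α (some j) = 0 := h
    exact (Finset.sum_eq_zero_iff.mp h2) j (Finset.mem_univ j)
  ext v
  rcases v with _ | j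
  · simpa using h0
  · simpa using h1 j

/-- Let `e, a` be as in `Par.Good.approx` for `j`, `q = p^e`, `m = q - 1 ≥ 1`, `K = 2 q j + 2`.
By `Psi_even` and `exists_eps`, `Psi m a = eps Ψ`; by `Psi_dvd` and `dvd_of_eps_dvd`, `Ψ = s F`;
`F` is homogeneous of degree `4 m` (`Psi_hom`, `isHom_eps_iff`, `IsHom.of_sX_pow_mul`). By `Psi_GG`
and `eps_lin`, `s^(2 (q j + 1))` divides `eps (G Ψ - Ψ)`, so `s^(q j + 1)` divides
`G Ψ - Ψ = s (G F - F)`, so `s^(q j)` divides `G F - F`. The coefficient of `kapF e (s F)` at `α` is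
that of `Ψ` at `q α + ones m`, of degree `q dg α + 4 m`; it is zero unless `dg α = 0`, i.e.
`α = single none t`, and then `q α + ones m = expo (q t + m) m`, whose double is
`expo (2 (q t + m)) m`; by `coeff_Psi` the coefficient is `1` if `2 (q t + m) = 2 m`, i.e. `t = 0`,
and `0` otherwise. -/
theorem exists_F [Fact p.Prime] (hp : p ≠ 2) {P : Par p} (hP : P.Good) (j : ℕ) :
    ∃ e : ℕ, 1 ≤ e ∧ ∃ F : FF p, IsHom (4 * (p ^ e - 1)) F ∧
      sX ^ (p ^ e * j) ∣ GG P F - F ∧ kapF e (sX * F) = 1 := by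
  classical
  obtain ⟨e, a, he, ha, happ⟩ := hP.approx j
  have hp2 : 2 ≤ p := (Fact.out : p.Prime).two_le
  have hq : 2 ≤ p ^ e := hp2.trans (Nat.le_self_pow (by omega) p)
  have hm : 1 ≤ p ^ e - 1 := by omega
  obtain ⟨Ψ, hΨ⟩ := exists_eps (Psi (p ^ e - 1) a : FF p)
    (fun e' h => Psi_even hp (p ^ e - 1) a e' h)
  have hdvd : (sX : FF p) ∣ Ψ := by
    refine dvd_of_eps_dvd Ψ ?_
    rw [hΨ]
    exact Psi_dvd hp hm ha
  obtain ⟨F, hF⟩ := hdvd
  have hhom : IsHom (4 * (p ^ e - 1)) Ψ := by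
    rw [← isHom_eps_iff, hΨ]
    exact Psi_hom hm ha
  refine ⟨e, he, F, ?_, ?_, ?_⟩
  · refine IsHom.of_sX_pow_mul (K := 1) ?_
    rw [pow_one, ← hF]
    exact hhom
  · have h1 : sX ^ (2 * p ^ e * j + 2) ∣ lin (P.mat.map sq) (Psi (p ^ e - 1) a : FF p) -
        Psi (p ^ e - 1) a := Psi_GG P hm ha happ
    rw [← hΨ, ← eps_lin, ← map_sub] at h1
    have h2 : 2 * p ^ e * j + 2 = 2 * (p ^ e * j + 1) := by ring
    rw [h2, eps_dvd_iff] at h1
    have h3 : lin P.mat Ψ - Ψ = sX ^ 1 * (GG P F - F) := by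
      have h4 : GG P (sX : FF p) = sX := GG_sX P
      have h5 : lin P.mat Ψ = GG P Ψ := rfl
      rw [h5, hF, map_mul, h4, pow_one, mul_sub]
    rw [h3] at h1
    exact dvd_of_sX_mul_dvd h1
  · rw [← hF]
    ext α
    rw [coeff_kapF, coeff_one]
    by_cases hd : dg α = 0
    · rw [ExF_index _ _ α hd, ← coeff_eps_dbl, hΨ, ExF_dbl_expo, coeff_Psi hp he ha]
      by_cases h0 : α none = 0
      · rw [if_pos (ExF_zero α hd h0), if_pos]
        rw [h0]
        ring
      · have h1 : α ≠ 0 := by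
          intro h
          rw [h] at h0
          exact h0 rfl
        rw [if_neg h1, if_neg]
        intro h2
        have h3 : 0 < p ^ e * α none := Nat.mul_pos (by omega) (Nat.pos_of_ne_zero h0)
        omega
    · have h1 : α ≠ 0 := by
        intro h
        rw [h] at hd
        exact hd dg_zero
      rw [if_neg h1]
      by_contra h2
      have h3 := hhom _ h2
      rw [dg_add, dg_smul, dg_ones] at h3
      have h4 : 0 < p ^ e * dg α := Nat.mul_pos (by omega) (Nat.pos_of_ne_zero hd)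
      omega

end Pool.Agent.W_35cfd6_h24
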