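import Pool.Agent.W_MP_35cfd6_ag.Final

/-!
# The abstract criterion: lengths and free ranks

Uses the definitions of `Pool.Agent.W_MP_35cfd6_ag.Defs`.
-/

set_option autoImplicit false

namespace Pool.Agent.W_35cfd6_h24

open IsLocalRing Pool.Agent.W_MP_35cfd6_ag

section
variable {R : Type*} [CommRing R] [IsLocalRing R] [IsNoetherianRing R]

/-- Between `I` and `J`, `I < J`, with `I` containing a power of the maximal ideal there is an
element `u` of `J`, not in `I`, with `m u ⊆ I`: take `x ∈ J` not in `I` and the least `k` with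
`m^k x ⊆ I`; then `k ≥ 1` and `u ∈ m^(k-1) x` not in `I` will do. -/
theorem exists_socle {I J : Ideal R} (hIJ : I < J) {n : ℕ} (hn : maximalIdeal R ^ n ≤ I) :
    ∃ u ∈ J, u ∉ I ∧ ∀ a ∈ maximalIdeal R, a * u ∈ I := by
  classical
  obtain ⟨x, hxJ, hxI⟩ := Set.exists_of_ssubset hIJ
  have hex : ∃ k, ∀ b ∈ maximalIdeal R ^ k, b * x ∈ I :=
    ⟨n, fun b hb => I.mul_mem_right x (hn hb)⟩
  have hk := Nat.find_spec hex
  cases h : Nat.find hex with
  | zero =>
    rw [h, pow_zero] at hk
    exact absurd (by simpa using hk 1 (by simp)) hxI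
  | succ k =>
    have hmin := Nat.find_min hex (m := k) (by omega)
    push Not at hmin
    obtain ⟨b, hb, hbx⟩ := hmin
    refine ⟨b * x, J.mul_mem_left b hxJ, hbx, fun a ha => ?_⟩
    rw [h] at hk
    rw [← mul_assoc]
    exact hk (a * b) (by rw [pow_succ']; exact Ideal.mul_mem_mul ha hb)

/-- Additivity of the length of `J / I` (`Module.length` is additive in exact sequences:
`0 → I' / I → J / I → J / I' → 0`). -/
theorem length_between_add {I I' J : Ideal R} (h1 : I ≤ I') (h2 : I' ≤ J) :
    Module.length R (J ⧸ (Submodule.comap J.subtype I)) =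
      Module.length R (I' ⧸ (Submodule.comap I'.subtype I)) +
        Module.length R (J ⧸ (Submodule.comap J.subtype I')) := by
  refine Module.length_eq_add_of_exact (Submodule.mapQ (Submodule.comap I'.subtype I)
    (Submodule.comap J.subtype I) (Submodule.inclusion h2) ?_)
    (Submodule.factor (Submodule.comap_mono h1)) ?_ (Submodule.factor_surjective _) ?_
  · intro x hx
    exact hx
  · rw [← LinearMap.ker_eq_bot, Submodule.ker_mapQ]
    rw [eq_bot_iff]
    rintro _ ⟨y, hy, rfl⟩
    rw [Submodule.mem_bot, Submodule.mkQ_apply, Submodule.Quotient.mk_eq_zero]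
    exact hy
  · intro x
    obtain ⟨y, rfl⟩ := Submodule.Quotient.mk_surjective _ x
    constructor
    · intro h
      change (Submodule.Quotient.mk y : J ⧸ (Submodule.comap J.subtype I')) = 0 at h
      rw [Submodule.Quotient.mk_eq_zero] at h
      exact ⟨Submodule.Quotient.mk ⟨y, h⟩, rfl⟩
    · rintro ⟨z, hz⟩
      obtain ⟨w, rfl⟩ := Submodule.Quotient.mk_surjective _ z
      rw [← hz]
      change (Submodule.Quotient.mk (Submodule.inclusion h2 w) :
        J ⧸ (Submodule.comap J.subtype I')) = 0
      rw [Submodule.Quotient.mk_eq_zero]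
      exact w.2

/-- `ℓ(R / I) = ℓ(J / I) + ℓ(R / J)`. -/
theorem length_quot_eq {I J : Ideal R} (h : I ≤ J) :
    Module.length R (R ⧸ I) = Module.length R (J ⧸ (Submodule.comap J.subtype I)) +
      Module.length R (R ⧸ J) := by
  refine Module.length_eq_add_of_exact (Submodule.mapQ (Submodule.comap J.subtype I) I J.subtype
    le_rfl) (Submodule.factor h) ?_ (Submodule.factor_surjective _) ?_
  · rw [← LinearMap.ker_eq_bot, Submodule.ker_mapQ]
    exact Submodule.mkQ_map_self _
  · intro x
    obtain ⟨y, rfl⟩ := Submodule.Quotient.mk_surjective _ x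
    constructor
    · intro h
      change (Submodule.Quotient.mk y : R ⧸ J) = 0 at h
      rw [Submodule.Quotient.mk_eq_zero] at h
      exact ⟨Submodule.Quotient.mk ⟨y, h⟩, rfl⟩
    · rintro ⟨z, hz⟩
      obtain ⟨w, rfl⟩ := Submodule.Quotient.mk_surjective _ z
      rw [← hz]
      change (Submodule.Quotient.mk (w : R) : R ⧸ J) = 0
      rw [Submodule.Quotient.mk_eq_zero]
      exact w.2

/-- If `m u ⊆ I`, `u ∉ I`, then `(I + (u)) / I` has length one: it is the image of `R / m`, and it
is not zero. -/
theorem length_socle {I : Ideal R} {u : R} (hu : u ∉ I) (hm : ∀ a ∈ maximalIdeal R, a * u ∈ I) :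
    Module.length R ((I ⊔ Ideal.span {u} : Ideal R) ⧸
      (Submodule.comap (I ⊔ Ideal.span {u} : Ideal R).subtype I)) = 1 := by
  rw [Module.length_eq_one_iff, isSimpleModule_iff_isCoatom]
  have huJ : u ∈ I ⊔ Ideal.span {u} :=
    Ideal.mem_sup_right (Ideal.mem_span_singleton_self u)
  constructor
  · intro h
    have : (⟨u, huJ⟩ : (I ⊔ Ideal.span {u} : Ideal R)) ∈
        Submodule.comap (I ⊔ Ideal.span {u} : Ideal R).subtype I := by
      rw [h]; exact Submodule.mem_top
    exact hu this
  · intro L hL
    obtain ⟨x, hxL, hxI⟩ := Set.exists_of_ssubset hL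
    rw [eq_top_iff]
    -- `x = i + a u` with `a` a unit
    obtain ⟨x, hx⟩ := x
    obtain ⟨i, hi, b, hb, rfl⟩ := Submodule.mem_sup.1 hx
    obtain ⟨a, rfl⟩ := Ideal.mem_span_singleton'.1 hb
    have hxI' : i + a * u ∉ I := hxI
    have hau : IsUnit a := by
      by_contra hnu
      exact hxI' (I.add_mem hi (hm a ((mem_maximalIdeal _).2 hnu)))
    obtain ⟨a, rfl⟩ := hau
    have hIL : ∀ (y : R) (hy : y ∈ I),
        (⟨y, Ideal.mem_sup_left hy⟩ : (I ⊔ Ideal.span {u} : Ideal R)) ∈ L := by
      intro y hy
      exact hL.le hy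
    have huL : (⟨u, huJ⟩ : (I ⊔ Ideal.span {u} : Ideal R)) ∈ L := by
      have h1 := L.smul_mem ((a⁻¹ : Rˣ) : R) (L.sub_mem hxL (hIL i hi))
      convert h1 using 1
      apply Subtype.ext
      change u = ((a⁻¹ : Rˣ) : R) * ((i + a * u) - i)
      rw [add_sub_cancel_left, ← mul_assoc, Units.inv_mul, one_mul]
    rintro ⟨y, hy⟩ -
    obtain ⟨j, hj, b, hb, rfl⟩ := Submodule.mem_sup.1 hy
    obtain ⟨c, rfl⟩ := Ideal.mem_span_singleton'.1 hb
    have h2 := L.add_mem (hIL j hj) (L.smul_mem c huL)
    exact h2

/-- If `s ∈ m` and `s v ∉ K` then `(K + (v)) / K` has length at least two: the submodule generated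
by `s v` is neither zero nor everything (if `v = k + a s v` then `(1 - a s) v ∈ K`, `v ∈ K`). -/
theorem two_le_length {K : Ideal R} {s v : R} (hs : s ∈ maximalIdeal R) (hv : s * v ∉ K) :
    2 ≤ Module.length R ((K ⊔ Ideal.span {v} : Ideal R) ⧸
      (Submodule.comap (K ⊔ Ideal.span {v} : Ideal R).subtype K)) := by
  have h1 : K ≤ K ⊔ Ideal.span {s * v} := le_sup_left
  have h2 : K ⊔ Ideal.span {s * v} ≤ K ⊔ Ideal.span {v} := by
    refine sup_le le_sup_left ?_
    rw [Ideal.span_singleton_le_iff_mem]
    exact Ideal.mem_sup_right (Ideal.mem_span_singleton'.2 ⟨s, rfl⟩)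
  rw [length_between_add h1 h2]
  have e1 : 1 ≤ Module.length R ((K ⊔ Ideal.span {s * v} : Ideal R) ⧸
      (Submodule.comap (K ⊔ Ideal.span {s * v} : Ideal R).subtype K)) := by
    rw [Order.one_le_iff_pos, Module.length_pos_iff, Submodule.Quotient.nontrivial_iff]
    intro h
    have : (⟨s * v, Ideal.mem_sup_right (Ideal.mem_span_singleton_self _)⟩ :
        (K ⊔ Ideal.span {s * v} : Ideal R)) ∈
        Submodule.comap (K ⊔ Ideal.span {s * v} : Ideal R).subtype K := by
      rw [h]; exact Submodule.mem_top
    exact hv this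
  have e2 : 1 ≤ Module.length R ((K ⊔ Ideal.span {v} : Ideal R) ⧸
      (Submodule.comap (K ⊔ Ideal.span {v} : Ideal R).subtype (K ⊔ Ideal.span {s * v}))) := by
    rw [Order.one_le_iff_pos, Module.length_pos_iff, Submodule.Quotient.nontrivial_iff]
    intro h
    have h3 : (⟨v, Ideal.mem_sup_right (Ideal.mem_span_singleton_self _)⟩ :
        (K ⊔ Ideal.span {v} : Ideal R)) ∈
        Submodule.comap (K ⊔ Ideal.span {v} : Ideal R).subtype (K ⊔ Ideal.span {s * v}) := by
      rw [h]; exact Submodule.mem_top
    have h4 : v ∈ K ⊔ Ideal.span {s * v} := h3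
    obtain ⟨k, hk, b, hb, hkb⟩ := Submodule.mem_sup.1 h4
    obtain ⟨a, rfl⟩ := Ideal.mem_span_singleton'.1 hb
    have hu : IsUnit (1 - a * s) := by
      by_contra hnu
      have h5 : 1 - a * s ∈ maximalIdeal R := (mem_maximalIdeal _).2 hnu
      have h6 : (1 : R) ∈ maximalIdeal R := by
        have := (maximalIdeal R).add_mem h5 ((maximalIdeal R).mul_mem_left a hs)
        rwa [sub_add_cancel] at this
      exact (mem_maximalIdeal _).1 h6 isUnit_one
    have h7 : (1 - a * s) * v ∈ K := by
      have : (1 - a * s) * v = k := by linear_combination -hkb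
      rw [this]; exact hk
    have h8 : v ∈ K := (Ideal.unit_mul_mem_iff_mem K hu).1 h7
    exact hv (K.mul_mem_left s h8)
  calc (2 : ℕ∞) = 1 + 1 := by norm_num
    _ ≤ _ := add_le_add e1 e2

end

section
variable {p : ℕ} [Fact p.Prime] {R : Type*} [CommRing R] [CharP R p]

theorem frobPow_mono (e : ℕ) {I J : Ideal R} (h : I ≤ J) : frobPow p e I ≤ frobPow p e J :=
  Ideal.map_mono h

/-- `(I + (u))^[q] = I^[q] + (u^q)`. -/
theorem frobPow_sup_span (e : ℕ) (I : Ideal R) (u : R) :
    frobPow p e (I ⊔ Ideal.span {u}) = frobPow p e I ⊔ Ideal.span {u ^ p ^ e} := by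
  unfold frobPow
  rw [Ideal.map_sup, Ideal.map_span, Set.image_singleton, iterateFrobenius_def]

variable [IsLocalRing R] [IsNoetherianRing R]

/-- The main inequality on lengths, by induction on the length of `J / I` (finite, as
`m^n ≤ I`). If `I = J` both sides are zero. Otherwise take `u` as in `exists_socle` and
`I' = I ⊔ (u)`, `I < I' ≤ J`; `ℓ(J / I) = 1 + ℓ(J / I')` and
`ℓ(J^[q] / I^[q]) = ℓ(I'^[q] / I^[q]) + ℓ(J^[q] / I'^[q])` (`length_between_add`, `frobPow_mono`),
where the first term is at least `2` by `two_le_length` (`frobPow_sup_span`; `s u^q ∉ I^[q]` by the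
hypothesis `hA`, since `u ∉ I`), and `I'` satisfies the same hypotheses (`hA` is for all ideals
containing `s^j`). -/
theorem length_frob_ge {s : R} (hs : s ∈ maximalIdeal R) {e j : ℕ}
    (hA : ∀ I : Ideal R, s ^ j ∈ I → ∀ u : R, s * u ^ p ^ e ∈ frobPow p e I → u ∈ I)
    {n : ℕ} {I J : Ideal R} (hIJ : I ≤ J) (hn : maximalIdeal R ^ n ≤ I) (hj : s ^ j ∈ I) :
    2 * Module.length R (J ⧸ (Submodule.comap J.subtype I)) ≤
      Module.length R (frobPow p e J ⧸
        (Submodule.comap (frobPow p e J).subtype (frobPow p e I))) := by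
  -- Noetherian induction on `I`
  induction I using IsNoetherian.induction with
  | hgt I ih =>
    rcases hIJ.eq_or_lt with rfl | hlt
    · have : Subsingleton (I ⧸ (Submodule.comap I.subtype I)) := by
        rw [Submodule.Quotient.subsingleton_iff]
        rw [eq_top_iff]
        intro x _
        exact x.2
      rw [Module.length_eq_zero (R := R) (M := I ⧸ (Submodule.comap I.subtype I)), mul_zero]
      exact zero_le
    · obtain ⟨u, huJ, huI, hm⟩ := exists_socle hlt hn
      have h1 : I ≤ I ⊔ Ideal.span {u} := le_sup_left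
      have h1' : I < I ⊔ Ideal.span {u} := by
        refine lt_of_le_of_ne h1 fun h => huI ?_
        rw [h]
        exact Ideal.mem_sup_right (Ideal.mem_span_singleton_self u)
      have h2 : I ⊔ Ideal.span {u} ≤ J := by
        refine sup_le hIJ ?_
        rw [Ideal.span_singleton_le_iff_mem]
        exact huJ
      have h3 := ih (I ⊔ Ideal.span {u}) h1' h2 (hn.trans h1) (h1 hj)
      rw [length_between_add h1 h2, length_between_add (frobPow_mono e h1) (frobPow_mono e h2),
        length_socle huI hm, mul_add, mul_one]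
      refine add_le_add ?_ h3
      have h4 : s * u ^ p ^ e ∉ frobPow p e I := fun h => huI (hA I hj u h)
      have h5 := two_le_length hs h4
      rw [← frobPow_sup_span] at h5
      exact h5

/-- The free rank is bounded by the residue field contribution if all `p^(-e)`-linear maps preserve
the maximal ideal: let `i : R^n → F^e_* R`, `π : F^e_* R → R^n` with `π i = 1`, `n` the free rank
(`freeRank_mem`). Each component of `π` maps `F^e_* m` to `m`, so `π` induces a surjective linear map
`F^e_* (R / m) → (R / m)^n` over the residue field. -/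
theorem freeRank_le (e : ℕ) [Module.Finite R (FPush p e R)]
    [Module.Finite (ResidueField R) (FPush p e (ResidueField R))]
    (hB : ∀ φ : FPush p e R →ₗ[R] R, ∀ x : R, x ∈ maximalIdeal R →
      φ (show FPush p e R from x) ∈ maximalIdeal R) :
    freeRank R (FPush p e R) ≤
      Module.finrank (ResidueField R) (FPush p e (ResidueField R)) := by
  obtain ⟨i, π, hπ⟩ := freeRank_mem (R := R) (M := FPush p e R)
  -- the images of the basis vectors are independent over the residue field
  let x : Fin (freeRank R (FPush p e R)) → R := fun k => i (Pi.single k 1)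
  let v : Fin (freeRank R (FPush p e R)) → FPush p e (ResidueField R) := fun k => residue R (x k)
  have hv : LinearIndependent (ResidueField R) v := by
    rw [Fintype.linearIndependent_iff]
    intro c hc k
    choose r hr using fun k => residue_surjective (R := R) (c k)
    have h1 : (∑ k, r k ^ p ^ e * x k) ∈ maximalIdeal R := by
      rw [← residue_eq_zero_iff, map_sum]
      refine Eq.trans ?_ hc
      refine Finset.sum_congr rfl fun k _ => ?_
      rw [map_mul, map_pow, hr]
      exact (fpush_smul (c k) (v k)).symm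
    have h2 : (show FPush p e R from (∑ k, r k ^ p ^ e * x k)) = i r := by
      have h3 : r = ∑ k, r k • (Pi.single k (1 : R) : Fin (freeRank R (FPush p e R)) → R) := by
        ext l
        simp [Finset.sum_apply, Pi.single_apply]
      conv_rhs => rw [h3, map_sum]
      refine Finset.sum_congr rfl fun k _ => ?_
      rw [map_smul]
      exact (fpush_smul (r k) (i (Pi.single k 1))).symm
    have h4 : ((LinearMap.proj k).comp π : FPush p e R →ₗ[R] R) (i r) ∈ maximalIdeal R := by
      rw [← h2]
      exact hB ((LinearMap.proj k).comp π) _ h1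
    have h5 : ((LinearMap.proj k).comp π : FPush p e R →ₗ[R] R) (i r) = r k := by
      rw [LinearMap.comp_apply, ← LinearMap.comp_apply π i, hπ]
      rfl
    rw [h5] at h4
    rw [← hr k, residue_eq_zero_iff]
    exact h4
  have := hv.fintype_card_le_finrank
  rwa [Fintype.card_fin] at this

/-- `F`-finiteness for all `e`: `iterateFrobenius` is a composite of finite ring homomorphisms. -/
theorem fpush_finite_of_frobenius (h : (frobenius R p).Finite) (e : ℕ) :
    Module.Finite R (FPush p e R) := by
  have h : ∀ e, (iterateFrobenius R p e).Finite := by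
    intro e
    induction e with
    | zero =>
      rw [iterateFrobenius_zero]
      exact RingHom.Finite.id R
    | succ e ih =>
      have : iterateFrobenius R p (e + 1) = (iterateFrobenius R p e).comp (frobenius R p) := by
        rw [iterateFrobenius_add, iterateFrobenius_one]
      rw [this]
      exact RingHom.Finite.comp ih h
  have h1 := h e
  exact h1

theorem fpush_residue_finite (h : (frobenius R p).Finite) (e : ℕ) :
    Module.Finite (ResidueField R) (FPush p e (ResidueField R)) := by
  refine finite_fpush_field ?_ e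
  have h1 : ((frobenius (ResidueField R) p).comp (residue R)) =
      (residue R).comp (frobenius R p) := by
    ext x
    simp [frobenius_def]
  have h2 : ((frobenius (ResidueField R) p).comp (residue R)).Finite := by
    rw [h1]
    exact RingHom.Finite.comp (RingHom.Finite.of_surjective _ residue_surjective) h
  exact RingHom.Finite.of_comp_finite h2

/-- The abstract criterion. Given `I < J` primary to the maximal ideal, `s^j ∈ I` for some `j`; take
`e` from `hA`. All lengths are finite (`pow_le_frobPow`, `isFiniteLength_quot`). By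
`length_quot_eq` and `length_frob_ge`,
`HK_I(e) - HK_J(e) = ℓ(J^[q] / I^[q]) ≥ 2 ℓ(J / I)`, `ℓ(J / I) ≥ 1`, so the right side is `≥ 2`,
whereas the left side is `≤ 1` by `freeRank_le`. -/
theorem abstract_main {s : R} (hs : s ∈ maximalIdeal R) (hF : (frobenius R p).Finite)
    (hA : ∀ j : ℕ, ∃ e : ℕ, 1 ≤ e ∧ ∀ I : Ideal R, s ^ j ∈ I →
      ∀ u : R, s * u ^ p ^ e ∈ frobPow p e I → u ∈ I)
    (hB : ∀ e : ℕ, 1 ≤ e → ∀ φ : FPush p e R →ₗ[R] R, ∀ x : R, x ∈ maximalIdeal R →
      φ (show FPush p e R from x) ∈ maximalIdeal R) :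
    ∀ I J : Ideal R, I < J → I.radical = maximalIdeal R → J.radical = maximalIdeal R →
      ∃ e : ℕ, (freeRank R (FPush p e R) : ℚ) /
          (Module.finrank (ResidueField R) (FPush p e (ResidueField R)) : ℚ) ≠
        ((HK p I e : ℚ) - (HK p J e : ℚ)) / (lengthBetween I J : ℚ) := by
  intro I J hIJ hI _
  obtain ⟨n, hn⟩ := Ideal.exists_pow_le_of_le_radical_of_fg hI.ge
    (IsNoetherian.noetherian (maximalIdeal R))
  have hsI : s ∈ I.radical := by rw [hI]; exact hs
  obtain ⟨j, hj⟩ := hsI
  obtain ⟨e, he, hAe⟩ := hA j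
  refine ⟨e, ?_⟩
  have := fpush_finite_of_frobenius hF e
  have := fpush_residue_finite hF e
  have h1 := freeRank_le e (hB e he)
  have h2 := length_frob_ge hs hAe hIJ.le hn hj
  obtain ⟨N, hN⟩ := pow_le_frobPow (p := p) hn e
  have hNJ : maximalIdeal R ^ N ≤ frobPow p e J := hN.trans (Ideal.map_mono hIJ.le)
  have hl := length_quot_eq (frobPow_mono (p := p) e hIJ.le)
  have fI' := Module.length_ne_top_iff.2 (isFiniteLength_quot hN)
  have fJ' := Module.length_ne_top_iff.2 (isFiniteLength_quot hNJ)
  have fB' : Module.length R (frobPow p e J ⧸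
        (Submodule.comap (frobPow p e J).subtype (frobPow p e I))) ≠ ⊤ := by
    intro h
    rw [h, top_add] at hl
    exact fI' hl
  have hpos : 1 ≤ Module.length R (J ⧸ (Submodule.comap J.subtype I)) := by
    rw [Order.one_le_iff_pos, Module.length_pos_iff, Submodule.Quotient.nontrivial_iff]
    intro h
    apply hIJ.not_ge
    intro x hx
    have h3 : (⟨x, hx⟩ : J) ∈ Submodule.comap J.subtype I := by
      rw [h]; exact Submodule.mem_top
    exact h3
  have fB : Module.length R (J ⧸ (Submodule.comap J.subtype I)) ≠ ⊤ := by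
    intro h
    rw [h] at h2
    apply fB'
    rw [← top_le_iff]
    refine le_trans (le_of_eq ?_) h2
    simp
  obtain ⟨kI, hkI⟩ := ENat.ne_top_iff_exists.1 fI'
  obtain ⟨kJ, hkJ⟩ := ENat.ne_top_iff_exists.1 fJ'
  obtain ⟨lB, hlB⟩ := ENat.ne_top_iff_exists.1 fB
  obtain ⟨kB, hkB⟩ := ENat.ne_top_iff_exists.1 fB'
  rw [← hkI, ← hkJ, ← hkB] at hl
  rw [← hlB, ← hkB] at h2
  rw [← hlB] at hpos
  have n1 : kI = kB + kJ := by exact_mod_cast hl
  have n2 : 2 * lB ≤ kB := by exact_mod_cast h2
  have n3 : 1 ≤ lB := by exact_mod_cast hpos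
  have hHI : HK p I e = kI := by
    unfold HK
    rw [← hkI, ENat.toNat_natCast]
  have hHJ : HK p J e = kJ := by
    unfold HK
    rw [← hkJ, ENat.toNat_natCast]
  have hLB : lengthBetween I J = lB := by
    unfold lengthBetween
    rw [← hlB, ENat.toNat_natCast]
  rw [hHI, hHJ, hLB]
  have q1 : (kI : ℚ) = kB + kJ := by exact_mod_cast n1
  have q2 : 2 * (lB : ℚ) ≤ kB := by exact_mod_cast n2
  have q3 : (1 : ℚ) ≤ lB := by exact_mod_cast n3
  have r1 : (2 : ℚ) ≤ ((kI : ℚ) - kJ) / lB := by
    rw [le_div_iff₀ (by linarith)]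
    linarith
  have r2 : (freeRank R (FPush p e R) : ℚ) /
          (Module.finrank (ResidueField R) (FPush p e (ResidueField R)) : ℚ) ≤ 1 := by
    refine div_le_one_of_le₀ (by exact_mod_cast h1) (by positivity)
  intro h
  rw [h] at r2
  linarith

end

end Pool.Agent.W_35cfd6_h24
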