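import Mathlib

/-!
# Supports of almost integral Hahn series (Mathlib only)
-/

set_option autoImplicit false

namespace Pool.Agent.W_35cfd6_h24

/-- The support of a product is contained in any additive submonoid containing the supports of the
factors (Mathlib: `HahnSeries.support_mul_subset` or similar). -/
theorem hahn_support_mul {Γ : Type*} [AddCommGroup Γ] [LinearOrder Γ] [IsOrderedAddMonoid Γ]
    {K : Type*} [Field K] (C : AddSubmonoid Γ) {x y : HahnSeries Γ K}
    (hx : x.support ⊆ (C : Set Γ)) (hy : y.support ⊆ (C : Set Γ)) :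
    (x * y).support ⊆ (C : Set Γ) := by
  intro z hz
  obtain ⟨a, ha, b, hb, rfl⟩ := HahnSeries.support_mul_subset hz
  exact C.add_mem (hx ha) (hy hb)

/-- The series with support in `C`. -/
def Hahn1_ring {Γ : Type*} [AddCommGroup Γ] [LinearOrder Γ] [IsOrderedAddMonoid Γ]
    {K : Type*} [Field K] (C : AddSubmonoid Γ) : Subring (HahnSeries Γ K) where
  carrier := {x | x.support ⊆ (C : Set Γ)}
  mul_mem' := fun hx hy => hahn_support_mul C hx hy
  one_mem' := by
    intro z hz
    by_cases h : z = 0
    · rw [h]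
      exact C.zero_mem
    · exact absurd (by rw [HahnSeries.coeff_one, if_neg h]) hz
  zero_mem' := by
    intro z hz
    exact absurd HahnSeries.coeff_zero hz
  add_mem' := by
    intro x y hx hy z hz
    by_cases h : x.coeff z = 0
    · refine hy ?_
      intro h2
      apply hz
      rw [HahnSeries.coeff_add, h, h2, add_zero]
    · exact hx h
  neg_mem' := by
    intro x hx z hz
    refine hx ?_
    intro h
    apply hz
    rw [HahnSeries.coeff_neg, h, neg_zero]

theorem Hahn1_mem {Γ : Type*} [AddCommGroup Γ] [LinearOrder Γ] [IsOrderedAddMonoid Γ]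
    {K : Type*} [Field K] {C : AddSubmonoid Γ} {x : HahnSeries Γ K} :
    x ∈ Hahn1_ring C ↔ x.support ⊆ (C : Set Γ) := Iff.rfl

/-- The part of `y` with exponents `< v`. -/
def Hahn1_lt {Γ : Type*} [LinearOrder Γ] {K : Type*} [Field K] (y : HahnSeries Γ K) (v : Γ) :
    HahnSeries Γ K where
  coeff := fun γ => if γ < v then y.coeff γ else 0
  isPWO_support' := y.isPWO_support.mono fun γ hγ => by
    intro h
    apply hγ
    change (if γ < v then y.coeff γ else 0) = 0
    rw [h, ite_self]

theorem Hahn1_coeff_lt {Γ : Type*} [LinearOrder Γ] {K : Type*} [Field K] (y : HahnSeries Γ K)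
    (v γ : Γ) : (Hahn1_lt y v).coeff γ = if γ < v then y.coeff γ else 0 := rfl

/-- Let `C` be a submonoid of the ordered group `Γ` such that `γ ∈ C` whenever there is `δ` with
`δ + j γ ∈ C` for all natural numbers `j`. If `d ≠ 0` and all `d y^j` have support in `C` then `y`
has support in `C`.

Proof. Suppose not; let `v` be the least element of the support of `y` which is not in `C` (the
support is well ordered). Let `y₁` be the part of `y` with exponents `< v` (support in `C`), and
`y₂ = y - y₁`, whose least exponent is `v`. For every `j`,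
`d y₂^j = ∑_i C(j, i) (d y^i) (-y₁)^(j - i)` has support in `C` (`hahn_support_mul`, and sums). As
`K` is a field the least exponent of `d y₂^j` is `order d + j v`, which therefore is in `C`, for all
`j`. By hypothesis `v ∈ C`: contradiction. -/
theorem hahn_support_of_almost {Γ : Type*} [AddCommGroup Γ] [LinearOrder Γ]
    [IsOrderedAddMonoid Γ] {K : Type*} [Field K] (C : AddSubmonoid Γ)
    (hC : ∀ γ δ : Γ, (∀ j : ℕ, δ + j • γ ∈ C) → γ ∈ C) (y d : HahnSeries Γ K) (hd : d ≠ 0)
    (h : ∀ j : ℕ, (d * y ^ j).support ⊆ (C : Set Γ)) : y.support ⊆ (C : Set Γ) := by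
  by_contra hcon
  obtain ⟨w, hw⟩ := Set.not_subset.1 hcon
  have hwf : (y.support \ (C : Set Γ)).IsWF := y.isWF_support.mono Set.diff_subset
  have hne : (y.support \ (C : Set Γ)).Nonempty := ⟨w, hw⟩
  obtain ⟨v, hv⟩ : ∃ v, v = hwf.min hne := ⟨_, rfl⟩
  have hvm : v ∈ y.support \ (C : Set Γ) := by
    rw [hv]
    exact hwf.min_mem hne
  have hlt : ∀ γ, γ < v → y.coeff γ ≠ 0 → γ ∈ C := by
    intro γ hγ hγ0
    by_contra h1
    exact hwf.not_lt_min hne (show γ ∈ y.support \ (C : Set Γ) from ⟨hγ0, h1⟩) (hv ▸ hγ)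
  have hy1 : Hahn1_lt y v ∈ Hahn1_ring C := by
    intro γ hγ
    have h1 : (Hahn1_lt y v).coeff γ ≠ 0 := hγ
    rw [Hahn1_coeff_lt] at h1
    split_ifs at h1 with h2
    · exact hlt γ h2 h1
    · exact absurd rfl h1
  obtain ⟨z, hz⟩ : ∃ z, z = y - Hahn1_lt y v := ⟨_, rfl⟩
  have hzc : ∀ γ, z.coeff γ = if γ < v then 0 else y.coeff γ := by
    intro γ
    rw [hz, HahnSeries.coeff_sub, Hahn1_coeff_lt]
    split_ifs
    · exact sub_self _
    · exact sub_zero _
  have hzv : z.coeff v ≠ 0 := by
    rw [hzc, if_neg (lt_irrefl v)]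
    exact hvm.1
  have hz0 : z ≠ 0 := by
    intro h1
    rw [h1] at hzv
    exact hzv HahnSeries.coeff_zero
  have hzo : z.order = v := by
    refine le_antisymm (HahnSeries.order_le_of_coeff_ne_zero hzv) ?_
    by_contra h1
    have h2 := hzc z.order
    rw [if_pos (not_le.1 h1)] at h2
    exact hz0 (HahnSeries.coeff_order_eq_zero.1 h2)
  apply hvm.2
  refine hC v d.order fun j => ?_
  have hmem : d * z ^ j ∈ Hahn1_ring C := by
    rw [hz, sub_eq_add_neg, add_pow, Finset.mul_sum]
    refine Subring.sum_mem _ fun i _ => ?_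
    rw [← mul_assoc, ← mul_assoc]
    exact Subring.mul_mem _ (Subring.mul_mem _ (h i) (Subring.pow_mem _ (Subring.neg_mem _ hy1) _))
      (natCast_mem _ _)
  have hord : (d * z ^ j).order = d.order + j • v := by
    rw [HahnSeries.order_mul hd (pow_ne_zero j hz0), HahnSeries.order_pow, hzo]
  rw [← hord]
  exact hmem fun h3 => mul_ne_zero hd (pow_ne_zero j hz0) (HahnSeries.coeff_order_eq_zero.1 h3)

end Pool.Agent.W_35cfd6_h24
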