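import Pool.Agent.W_35cfd6_h24.Norm1
import Pool.Agent.W_35cfd6_h24.Hahn1

/-!
# Normality, II: `RR P` is integrally closed
-/

set_option autoImplicit false

namespace Pool.Agent.W_35cfd6_h24

open MvPowerSeries

variable {p : ℕ}

/-- `RR P` is integrally closed. Let `x` in the fraction field `K` be integral over `RR P`; it is
almost integral (`IsIntegral.isAlmostIntegral`): there is `d ≠ 0` in `RR P` with `d x^j` in `RR P`
for all `j`. Let `ψ : RR P → HahnSeries G7 (ZMod p)` be the restriction of `toHahn p`, injective, and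
`Ψ : K → HahnSeries G7 (ZMod p)` its extension (`IsFractionRing.lift`), `y = Ψ x`. Then
`ψ d * y^j = ψ (d x^j)` has support in `CC` (`RR_support`, `toHahn_coeff`, `toHahn_coeff_ne`), so by
`hahn_support_of_almost` and `CC_root` `y` has support in `CC`, and by `exists_of_support`
`y = toHahn p Y` with `Y` supported in the cone. Write `x = f / h`; then `ψ h * y = ψ f`, so
`f = h * Y` (`toHahn_injective`) and `Y ∈ RR P` by `RR_div`. So `x = Y` (cancel `h`). -/
theorem isIntegrallyClosed_RR [Fact p.Prime] (P : Par p) : IsIntegrallyClosed (RR P) := by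
  classical
  let ψ : RR P →+* HahnSeries G7 (ZMod p) := (toHahn p).comp (RR P).subtype
  have hψ : Function.Injective ψ := (toHahn_injective p).comp Subtype.val_injective
  have : IsDomain (RR P) := hψ.isDomain ψ
  rw [isIntegrallyClosed_iff (FractionRing (RR P))]
  intro x hx
  obtain ⟨d, hd, hdx⟩ := hx.isAlmostIntegral
  let Ψ : FractionRing (RR P) →+* HahnSeries G7 (ZMod p) := IsFractionRing.lift hψ
  have hΨ : ∀ a, Ψ (algebraMap (RR P) _ a) = ψ a := fun a => IsFractionRing.lift_algebraMap hψ a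
  have hd0 : d ≠ 0 := nonZeroDivisors.ne_zero hd
  have hsup : ∀ a : RR P, (ψ a).support ⊆ (CC : Set G7) := by
    intro a γ hγ
    rw [HahnSeries.mem_support] at hγ
    by_cases h : ∃ e m, code e m = γ
    · obtain ⟨e, m, rfl⟩ := h
      refine RR_support P a.2 ?_
      rw [← toHahn_coeff]
      exact hγ
    · push Not at h
      exact absurd (toHahn_coeff_ne _ h) hγ
  have h1 : ∀ j : ℕ, (ψ d * Ψ x ^ j).support ⊆ (CC : Set G7) := by
    intro j
    obtain ⟨a, ha⟩ := hdx j
    have h2 : ψ d * Ψ x ^ j = ψ a := by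
      rw [← hΨ, ← hΨ, ← map_pow, ← map_mul, ha, Algebra.smul_def]
    rw [h2]
    exact hsup a
  have h2 := hahn_support_of_almost CC CC_root (Ψ x) (ψ d)
    (fun h => hd0 (hψ (h.trans (map_zero ψ).symm))) h1
  obtain ⟨Y, hY, hs⟩ := exists_of_support _ h2
  obtain ⟨f, h, hh, hfh⟩ := IsFractionRing.div_surjective (A := RR P) x
  have hh0 : h ≠ 0 := nonZeroDivisors.ne_zero hh
  have hK : algebraMap (RR P) (FractionRing (RR P)) h ≠ 0 := by
    intro h3
    exact hh0 (IsFractionRing.injective (RR P) (FractionRing (RR P)) (h3.trans (map_zero _).symm))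
  have hfx : algebraMap (RR P) (FractionRing (RR P)) f = algebraMap _ _ h * x := by
    rw [← hfh, mul_div_cancel₀ _ hK]
  have h3 : (f : UU p) = (h : UU p) * Y := by
    apply toHahn_injective p
    rw [map_mul, hY]
    have h4 := congrArg Ψ hfx
    rw [map_mul, hΨ, hΨ] at h4
    exact h4
  have h5 : Y ∈ RR P := by
    refine RR_div P f.2 h.2 (fun h6 => hh0 (Subtype.ext h6)) h3 hs
  refine ⟨⟨Y, h5⟩, ?_⟩
  have h6 : f = h * ⟨Y, h5⟩ := Subtype.ext h3
  rw [h6, map_mul] at hfx
  exact mul_left_cancel₀ hK hfx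

end Pool.Agent.W_35cfd6_h24
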