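import Pool.Agent.W_35cfd6_h24.K7
import Pool.Agent.W_35cfd6_h24.Norm2
import Pool.Agent.W_35cfd6_h24.ExF
import Pool.Agent.W_35cfd6_h24.Approx
import Pool.Agent.W_35cfd6_h24.Fin1
import Pool.Agent.W_35cfd6_h67.Main

/-!
# The counterexample: assembly, with the non-degeneracy of the ring

The ring is not a field, of dimension more than two and `F`-split. The last two facts follow from
the positive theorem `Pool.Agent.UL35.main`.
-/

set_option autoImplicit false

namespace Pool.Agent.W_35cfd6_h24

open IsLocalRing MvPowerSeries Pool.Agent.W_MP_35cfd6_ag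

/-- The counterexample: for every odd prime `p` there is a complete local `F`-finite normal domain
`R` of characteristic `p`, not a field, such that for every pair `I < J` of ideals primary to the maximal ideal
the normalised free rank of `F^e_* R` differs for some `e` from
`(HK_I(e) - HK_J(e)) / ℓ(J / I)`. -/
theorem main_not_field (p : ℕ) [Fact p.Prime] (hp : p ≠ 2) :
    ∃ (R : Type) (_ : CommRing R) (_ : IsDomain R) (_ : IsLocalRing R) (_ : IsNoetherianRing R)
      (_ : IsIntegrallyClosed R) (_ : CharP R p),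
      IsAdicComplete (maximalIdeal R) R ∧ (frobenius R p).Finite ∧ ¬ IsField R ∧
      ∀ I J : Ideal R, I < J → I.radical = maximalIdeal R → J.radical = maximalIdeal R →
        ∃ e : ℕ, (freeRank R (FPush p e R) : ℚ) /
            (Module.finrank (ResidueField R) (FPush p e (ResidueField R)) : ℚ) ≠
          ((HK p I e : ℚ) - (HK p J e : ℚ)) / (lengthBetween I J : ℚ) := by
  obtain ⟨P, hP⟩ := exists_good hp
  have h1 := isDomain_RR P
  have h2 := isLocalRing_RR P
  have h3 := isNoetherianRing_RR P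
  have h4 := isIntegrallyClosed_RR P
  have h5 := charP_RR P
  have hF := frobenius_finite_RR P
  have hs : sR P ∈ maximalIdeal (RR P) := by
    rw [mem_maximalIdeal_RR]
    change co (sX : UU p) 0 0 = 0
    exact (sX_pow_dvd_iff_co 1 (sX : UU p)).1 (by rw [pow_one]) 0 0 (by simp)
  have hs0 : sR P ≠ 0 := fun h => by
    have h6 : (sX : UU p) = 0 := congrArg Subtype.val h
    have h7 : (sX : UU p) ^ 1 * 1 = sX ^ 1 * 0 := by rw [pow_one, h6, zero_mul, zero_mul]
    exact one_ne_zero (sX_pow_mul_cancel h7)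
  have hnf : ¬ IsField (RR P) := by
    rw [IsLocalRing.isField_iff_maximalIdeal_eq]
    intro h
    rw [h, Ideal.mem_bot] at hs
    exact hs0 hs
  refine ⟨RR P, inferInstance, h1, h2, h3, h4, h5, isAdicComplete_RR P, hF, hnf, ?_⟩
  refine abstract_main (s := sR P) ?_ hF ?_ ?_
  · exact hs
  · intro j
    obtain ⟨e, he, F, hF, hG, hk⟩ := exists_F hp hP j
    exact ⟨e, he, fun I hI u hu => claimA_aux P hF hG hk I hI u hu⟩
  · intro e _ φ x hx
    rw [mem_maximalIdeal_RR] at hx ⊢
    let φ' : RR P →+ RR P :=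
      { toFun := fun f => φ (show FPush p e (RR P) from f)
        map_zero' := φ.map_zero
        map_add' := fun a b => φ.map_add _ _ }
    refine claimB hp hP e φ' (fun r f => ?_) hx
    have h := φ.map_smul r (show FPush p e (RR P) from f)
    rw [fpush_smul] at h
    exact h

/-- The counterexample, with `2 < dim R` and `R` `F`-split. -/
theorem main_nondegenerate (p : ℕ) [Fact p.Prime] (hp : p ≠ 2) :
    ∃ (R : Type) (_ : CommRing R) (_ : IsDomain R) (_ : IsLocalRing R) (_ : IsNoetherianRing R)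
      (_ : IsIntegrallyClosed R) (_ : CharP R p),
      IsAdicComplete (maximalIdeal R) R ∧ (frobenius R p).Finite ∧ 2 < ringKrullDim R ∧
      (∃ φ : FPush p 1 R →ₗ[R] R, φ (show FPush p 1 R from (1 : R)) = 1) ∧
      ∀ I J : Ideal R, I < J → I.radical = maximalIdeal R → J.radical = maximalIdeal R →
        ∃ e : ℕ, (freeRank R (FPush p e R) : ℚ) /
            (Module.finrank (ResidueField R) (FPush p e (ResidueField R)) : ℚ) ≠
          ((HK p I e : ℚ) - (HK p J e : ℚ)) / (lengthBetween I J : ℚ) := by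
  obtain ⟨R, i1, i2, i3, i4, i5, i6, hc, hF, hR, h⟩ := main_not_field p hp
  have hF' : Module.Finite R (FPush p 1 R) := fpush_finite_of_frobenius hF 1
  have key : ¬ (ringKrullDim R ≤ 2 ∨ ¬ Pool.Agent.UL35.FSplit p R ∨
      ∃ 𝔞 : Ideal R, 𝔞 ≠ ⊥ ∧ Pool.Agent.UL35.IsFDual p 𝔞 ∧
        (Pool.Agent.UL35.QGorPunctured 𝔞 ∨ Pool.Agent.UL35.FGPunctured 𝔞)) := by
    intro h0
    obtain ⟨I, J, hIJ, hI, hJ, hall⟩ := Pool.Agent.UL35.main hR hF' h0
    obtain ⟨e, he⟩ := h I J hIJ hI hJ
    exact he (hall e)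
  have k1 : 2 < ringKrullDim R := not_le.1 fun h1 => key (Or.inl h1)
  have k2 : Pool.Agent.UL35.FSplit p R := by
    by_contra h1
    exact key (Or.inr (Or.inl h1))
  exact ⟨R, i1, i2, i3, i4, i5, i6, hc, hF, k1, k2, h⟩

end Pool.Agent.W_35cfd6_h24
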