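import Pool.Agent.W_35cfd6_h24.Rows

/-!
# Divisibility by powers of `s`
-/

set_option autoImplicit false

namespace Pool.Agent.W_35cfd6_h24

open MvPowerSeries

variable {p : ℕ}

section
variable {A : Type*} [CommRing A]

theorem coeff_sX_pow_mul (K : ℕ) (f : MvPowerSeries V A) (e : V →₀ ℕ) :
    coeff e (sX ^ K * f) = if K ≤ e none then coeff (e - Finsupp.single none K) f else 0 := by
  classical
  rw [sX, X_pow_eq, coeff_monomial_mul, one_mul]
  simp only [Finsupp.single_le_iff]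

theorem coeff_add_sX_pow_mul (K : ℕ) (f : MvPowerSeries V A) (e : V →₀ ℕ) :
    coeff (e + Finsupp.single none K) (sX ^ K * f) = coeff e f := by
  rw [coeff_sX_pow_mul, if_pos (by simp), add_tsub_cancel_right]

theorem sX_pow_dvd_iff (K : ℕ) (f : MvPowerSeries V A) :
    sX ^ K ∣ f ↔ ∀ e, e none < K → coeff e f = 0 := by
  exact X_pow_dvd_iff

/-- An element divisible by arbitrarily high powers of `s` is zero. -/
theorem eq_zero_of_dvd (f : MvPowerSeries V A) (h : ∀ K : ℕ, ∃ K', K ≤ K' ∧ sX ^ K' ∣ f) :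
    f = 0 := by
  refine MvPowerSeries.ext fun e => ?_
  obtain ⟨K', hK, hd⟩ := h (e none + 1)
  rw [(sX_pow_dvd_iff K' f).1 hd e (by omega), map_zero]

/-- `s` is a nonzerodivisor. -/
theorem sX_pow_mul_cancel {K : ℕ} {f g : MvPowerSeries V A} (h : sX ^ K * f = sX ^ K * g) :
    f = g := by
  refine MvPowerSeries.ext fun e => ?_
  rw [← coeff_add_sX_pow_mul K f e, h, coeff_add_sX_pow_mul]

theorem dvd_of_sX_mul_dvd {K L : ℕ} {f : MvPowerSeries V A} (h : sX ^ (K + L) ∣ sX ^ L * f) :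
    sX ^ K ∣ f := by
  obtain ⟨c, hc⟩ := h
  refine ⟨c, sX_pow_mul_cancel (K := L) ?_⟩
  rw [hc, pow_add]
  ring

end

/-- Put `s = 0`. -/
def Dvd_zz (f : FF p) : FF p := fun e => if e none = 0 then coeff e f else 0

theorem Dvd_coeff_zz (f : FF p) (e : V →₀ ℕ) :
    coeff e (Dvd_zz f) = if e none = 0 then coeff e f else 0 := rfl

theorem Dvd_zz_iff (f : FF p) : sX ∣ f ↔ Dvd_zz f = 0 := by
  rw [sX, X_dvd_iff]
  constructor
  · intro h
    refine MvPowerSeries.ext fun e => ?_
    rw [Dvd_coeff_zz, map_zero]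
    split_ifs with h1
    · exact h e h1
    · rfl
  · intro h e he
    have h1 := congrArg (coeff e) h
    rwa [Dvd_coeff_zz, if_pos he, map_zero] at h1

theorem Dvd_zz_mul (f g : FF p) : Dvd_zz (f * g) = Dvd_zz f * Dvd_zz g := by
  classical
  refine MvPowerSeries.ext fun e => ?_
  rw [Dvd_coeff_zz, coeff_mul, coeff_mul]
  split_ifs with h
  · refine Finset.sum_congr rfl fun q hq => ?_
    rw [Finset.HasAntidiagonal.mem_antidiagonal] at hq
    have h1 : q.1 none + q.2 none = 0 := by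
      rw [← Finsupp.add_apply, hq, h]
    rw [Dvd_coeff_zz, Dvd_coeff_zz, if_pos (by omega), if_pos (by omega)]
  · symm
    refine Finset.sum_eq_zero fun q hq => ?_
    rw [Finset.HasAntidiagonal.mem_antidiagonal] at hq
    have h1 : q.1 none + q.2 none = e none := by
      rw [← Finsupp.add_apply, hq]
    rw [Dvd_coeff_zz, Dvd_coeff_zz]
    by_cases h2 : q.1 none = 0
    · rw [if_neg (by omega : ¬ q.2 none = 0), mul_zero]
    · rw [if_neg h2, zero_mul]

theorem sX_prime [Fact p.Prime] : Prime (sX : FF p) := by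
  refine ⟨fun h => ?_, fun h => ?_, fun a b hab => ?_⟩
  · have h1 := congrArg (coeff (Finsupp.single none 1)) h
    rw [sX, X, coeff_monomial_same, map_zero] at h1
    exact one_ne_zero h1
  · rw [isUnit_iff_constantCoeff, sX, constantCoeff_X] at h
    exact not_isUnit_zero h
  · rw [Dvd_zz_iff, Dvd_zz_mul, mul_eq_zero] at hab
    rwa [Dvd_zz_iff, Dvd_zz_iff]

/-- If `s` does not divide `g` and `s^K` divides `g f` then `s^K` divides `f`: `s` is prime. -/
theorem dvd_of_dvd_mul_left [Fact p.Prime] {K : ℕ} {f g : FF p} (hg : ¬ sX ∣ g)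
    (h : sX ^ K ∣ g * f) : sX ^ K ∣ f := by
  exact sX_prime.pow_dvd_of_dvd_mul_left K hg h

theorem sX_pow_dvd_iff_co (K : ℕ) (u : UU p) :
    sX ^ K ∣ u ↔ ∀ e m, e none < K → co u e m = 0 := by
  rw [sX_pow_dvd_iff]
  constructor
  · intro h e m he
    rw [co, h e he]
    simp
  · intro h e he
    exact AddMonoidAlgebra.ext (Finsupp.ext fun m => by simpa [co] using h e m he)

theorem sX_pow_dvd_iff_row (K : ℕ) (u : UU p) : sX ^ K ∣ u ↔ ∀ m, sX ^ K ∣ row m u := by
  rw [sX_pow_dvd_iff_co]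
  constructor
  · intro h m
    rw [sX_pow_dvd_iff]
    intro e he
    exact h e m he
  · intro h e m he
    exact (sX_pow_dvd_iff K (row m u)).1 (h m) e he

theorem sX_pow_dvd_mono (e : V →₀ ℕ) (m : ℤ) : (sX ^ (e none) : UU p) ∣ mono e m := by
  rw [sX_pow_dvd_iff_co]
  intro e' m' he
  rw [co_mono, if_neg]
  rintro ⟨rfl, _⟩
  exact lt_irrefl _ he

end Pool.Agent.W_35cfd6_h24
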