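import Pool.Agent.W_35cfd6_h24.Rows
import Pool.Agent.W_35cfd6_h24.Dvd

/-!
# Homogeneous elements and components (degree in the `x`-variables)
-/

set_option autoImplicit false

namespace Pool.Agent.W_35cfd6_h24

open MvPowerSeries

variable {p : ℕ}

theorem dg_add (e e' : V →₀ ℕ) : dg (e + e') = dg e + dg e' := by
  simp [dg, Finset.sum_add_distrib]

theorem dg_smul (n : ℕ) (e : V →₀ ℕ) : dg (n • e) = n * dg e := by
  simp [dg, Finset.mul_sum]

theorem dg_zero : dg 0 = 0 := by
  simp [dg]

theorem dg_single_none (n : ℕ) : dg (Finsupp.single none n) = 0 := by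
  simp [dg]

theorem dg_single_some (j : Fin 4) (n : ℕ) : dg (Finsupp.single (some j) n) = n := by
  classical
  rw [dg, Finset.sum_eq_single j]
  · rw [Finsupp.single_eq_same]
  · intro j' _ hj
    rw [Finsupp.single_eq_of_ne]
    intro h
    exact hj (Option.some_injective _ h)
  · intro h
    exact absurd (Finset.mem_univ j) h

theorem dg_ones (n : ℕ) : dg (ones n) = 4 * n := by
  simp [dg, ones]

theorem dg_xone (n : ℕ) : dg (xone n) = 4 * n := by
  simp [dg, xone]

theorem ones_none (n : ℕ) : ones n none = n := by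
  rfl

theorem xone_none (n : ℕ) : xone n none = 0 := by
  rfl

/-- There are finitely many exponents with given degree and bounded `s`-exponent. -/
theorem finite_dg (n L : ℕ) : {e : V →₀ ℕ | dg e = n ∧ e none < L}.Finite := by
  refine (Set.finite_Iic (Finsupp.equivFunOnFinite.symm
    (fun v : V => v.elim L fun _ => n) : V →₀ ℕ)).subset ?_
  rintro e ⟨he, hL⟩ v
  rcases v with _ | j
  · exact hL.le
  · have h1 : e (some j) ≤ ∑ j : Fin 4, e (some j) :=
      Finset.single_le_sum (f := fun j => e (some j)) (fun _ _ => Nat.zero_le _) (Finset.mem_univ j)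
    exact h1.trans he.le

section
variable {A : Type*} [CommRing A]

theorem coeff_cmp (n : ℕ) (u : MvPowerSeries V A) (e : V →₀ ℕ) :
    coeff e (cmp n u) = if dg e = n then coeff e u else 0 := by
  rfl

@[simp] theorem cmp_zero (n : ℕ) : cmp n (0 : MvPowerSeries V A) = 0 := by
  ext e
  simp [coeff_cmp]

@[simp] theorem cmp_add (n : ℕ) (u v : MvPowerSeries V A) :
    cmp n (u + v) = cmp n u + cmp n v := by
  ext e
  rw [coeff_cmp, map_add, map_add, coeff_cmp, coeff_cmp]
  split_ifs <;> simp

@[simp] theorem cmp_neg (n : ℕ) (u : MvPowerSeries V A) : cmp n (-u) = -cmp n u := by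
  ext e
  rw [coeff_cmp, map_neg, map_neg, coeff_cmp]
  split_ifs <;> simp

@[simp] theorem cmp_sub (n : ℕ) (u v : MvPowerSeries V A) :
    cmp n (u - v) = cmp n u - cmp n v := by
  rw [sub_eq_add_neg, cmp_add, cmp_neg, sub_eq_add_neg]

theorem cmp_sum {ι : Type*} (s : Finset ι) (n : ℕ) (u : ι → MvPowerSeries V A) :
    cmp n (∑ i ∈ s, u i) = ∑ i ∈ s, cmp n (u i) := by
  classical
  induction s using Finset.induction_on with
  | empty => simp
  | insert a s ha ih => rw [Finset.sum_insert ha, Finset.sum_insert ha, cmp_add, ih]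

theorem ext_cmp {u v : MvPowerSeries V A} (h : ∀ n, cmp n u = cmp n v) : u = v := by
  ext e
  have h1 := congrArg (coeff e) (h (dg e))
  rwa [coeff_cmp, coeff_cmp, if_pos rfl, if_pos rfl] at h1

theorem isHom_cmp (n : ℕ) (u : MvPowerSeries V A) : IsHom n (cmp n u) := by
  intro e he
  by_contra h
  rw [coeff_cmp, if_neg h] at he
  exact he rfl

theorem IsHom.cmp_self {n : ℕ} {u : MvPowerSeries V A} (h : IsHom n u) : cmp n u = u := by
  ext e
  rw [coeff_cmp]
  split_ifs with h1
  · rfl
  · by_contra h2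
    exact h1 (h e fun h3 => h2 h3.symm)

theorem IsHom.cmp_ne {n m : ℕ} {u : MvPowerSeries V A} (h : IsHom n u) (hm : m ≠ n) :
    cmp m u = 0 := by
  ext e
  rw [coeff_cmp, map_zero]
  split_ifs with h1
  · by_contra h2
    exact hm (h1.symm.trans (h e h2))
  · rfl

theorem IsHom.zero (n : ℕ) : IsHom n (0 : MvPowerSeries V A) := by
  intro e he
  rw [map_zero] at he
  exact absurd rfl he

theorem IsHom.one : IsHom 0 (1 : MvPowerSeries V A) := by
  classical
  intro e he
  rw [coeff_one] at he
  split_ifs at he with h1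
  · rw [h1, dg_zero]
  · exact absurd rfl he

theorem IsHom.sX : IsHom 0 (X none : MvPowerSeries V A) := by
  classical
  intro e he
  rw [coeff_X] at he
  split_ifs at he with h1
  · rw [h1, dg_single_none]
  · exact absurd rfl he

theorem IsHom.X (j : Fin 4) : IsHom 1 (MvPowerSeries.X (some j) : MvPowerSeries V A) := by
  classical
  intro e he
  rw [coeff_X] at he
  split_ifs at he with h1
  · rw [h1, dg_single_some]
  · exact absurd rfl he

theorem IsHom.monomial (e : V →₀ ℕ) (a : A) : IsHom (dg e) (MvPowerSeries.monomial e a) := by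
  classical
  intro e' he
  rw [coeff_monomial] at he
  split_ifs at he with h1
  · rw [h1]
  · exact absurd rfl he

theorem IsHom.add {n : ℕ} {u v : MvPowerSeries V A} (hu : IsHom n u) (hv : IsHom n v) :
    IsHom n (u + v) := by
  intro e he
  rw [map_add] at he
  by_cases h1 : coeff e u = 0
  · rw [h1, zero_add] at he
    exact hv e he
  · exact hu e h1

theorem IsHom.neg {n : ℕ} {u : MvPowerSeries V A} (hu : IsHom n u) : IsHom n (-u) := by
  intro e he
  rw [map_neg] at he
  exact hu e (neg_ne_zero.1 he)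

theorem IsHom.sub {n : ℕ} {u v : MvPowerSeries V A} (hu : IsHom n u) (hv : IsHom n v) :
    IsHom n (u - v) := by
  rw [sub_eq_add_neg]
  exact hu.add hv.neg

theorem IsHom.sum {ι : Type*} (s : Finset ι) {n : ℕ} {u : ι → MvPowerSeries V A}
    (hu : ∀ i ∈ s, IsHom n (u i)) : IsHom n (∑ i ∈ s, u i) := by
  classical
  induction s using Finset.induction_on with
  | empty =>
    rw [Finset.sum_empty]
    exact IsHom.zero n
  | insert a s ha ih =>
    rw [Finset.sum_insert ha]
    exact (hu a (Finset.mem_insert_self a s)).add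
      (ih fun i hi => hu i (Finset.mem_insert_of_mem hi))

theorem IsHom.mul {n m : ℕ} {u v : MvPowerSeries V A} (hu : IsHom n u) (hv : IsHom m v) :
    IsHom (n + m) (u * v) := by
  classical
  intro e he
  rw [coeff_mul] at he
  obtain ⟨x, hx, hx2⟩ := Finset.exists_ne_zero_of_sum_ne_zero he
  rw [← Finset.HasAntidiagonal.mem_antidiagonal.1 hx, dg_add, hu x.1 (left_ne_zero_of_mul hx2),
    hv x.2 (right_ne_zero_of_mul hx2)]

theorem IsHom.pow {n : ℕ} {u : MvPowerSeries V A} (hu : IsHom n u) (k : ℕ) :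
    IsHom (k * n) (u ^ k) := by
  induction k with
  | zero =>
    rw [pow_zero, Nat.zero_mul]
    exact IsHom.one
  | succ k ih =>
    rw [pow_succ, Nat.succ_mul]
    exact ih.mul hu

theorem IsHom.sX_pow_mul {n K : ℕ} {u : MvPowerSeries V A} (hu : IsHom n u) :
    IsHom n (MvPowerSeries.X none ^ K * u) := by
  have h1 := ((IsHom.sX (A := A)).pow K).mul hu
  rwa [Nat.mul_zero, Nat.zero_add] at h1

theorem IsHom.of_sX_pow_mul {n K : ℕ} {u : MvPowerSeries V A}
    (hu : IsHom n (MvPowerSeries.X none ^ K * u)) : IsHom n u := by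
  intro e he
  have h1 := hu (e + Finsupp.single none K) (by
    rw [coeff_add_sX_pow_mul]
    exact he)
  rwa [dg_add, dg_single_none, Nat.add_zero] at h1

/-- The component of a product. -/
theorem cmp_mul (n : ℕ) (u v : MvPowerSeries V A) :
    cmp n (u * v) = ∑ x ∈ Finset.HasAntidiagonal.antidiagonal n, cmp x.1 u * cmp x.2 v := by
  classical
  ext e
  rw [coeff_cmp, map_sum, coeff_mul]
  have h1 : ∀ x ∈ Finset.HasAntidiagonal.antidiagonal n, coeff e (cmp x.1 u * cmp x.2 v) =
      ∑ y ∈ Finset.HasAntidiagonal.antidiagonal e,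
        (if dg y.1 = x.1 then coeff y.1 u else 0) * (if dg y.2 = x.2 then coeff y.2 v else 0) := by
    intro x _
    rw [coeff_mul]
    exact Finset.sum_congr rfl fun y _ => by rw [coeff_cmp, coeff_cmp]
  rw [Finset.sum_congr rfl h1, Finset.sum_comm]
  have h2 : ∀ y ∈ Finset.HasAntidiagonal.antidiagonal e,
      ∑ x ∈ Finset.HasAntidiagonal.antidiagonal n,
        (if dg y.1 = x.1 then coeff y.1 u else 0) * (if dg y.2 = x.2 then coeff y.2 v else 0) =
      if dg e = n then coeff y.1 u * coeff y.2 v else 0 := by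
    intro y hy
    have h3 : dg e = dg y.1 + dg y.2 := by rw [← Finset.HasAntidiagonal.mem_antidiagonal.1 hy, dg_add]
    have h7 : ∀ x ∈ Finset.HasAntidiagonal.antidiagonal n, x ≠ (dg y.1, dg y.2) →
        (if dg y.1 = x.1 then coeff y.1 u else 0) *
          (if dg y.2 = x.2 then coeff y.2 v else 0) = 0 := by
      intro x _ hxy
      by_cases h5 : dg y.1 = x.1
      · by_cases h6 : dg y.2 = x.2
        · exact absurd (Prod.ext h5.symm h6.symm) hxy
        · rw [if_neg h6, mul_zero]
      · rw [if_neg h5, zero_mul]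
    by_cases h4 : dg e = n
    · rw [if_pos h4, Finset.sum_eq_single (dg y.1, dg y.2) h7, if_pos rfl, if_pos rfl]
      intro h5
      exact absurd (Finset.HasAntidiagonal.mem_antidiagonal.2 (h3.symm.trans h4)) h5
    · rw [if_neg h4]
      refine Finset.sum_eq_zero fun x hx => h7 x hx ?_
      rintro rfl
      exact h4 (h3.trans (Finset.HasAntidiagonal.mem_antidiagonal.1 hx))
  rw [Finset.sum_congr rfl h2]
  split_ifs
  · rfl
  · rw [Finset.sum_const_zero]

theorem IsHom.cmp_mul {k : ℕ} {u : MvPowerSeries V A} (hu : IsHom k u) (n : ℕ)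
    (v : MvPowerSeries V A) : cmp (n + k) (u * v) = u * cmp n v := by
  classical
  rw [Pool.Agent.W_35cfd6_h24.cmp_mul, Finset.sum_eq_single (k, n)]
  · rw [hu.cmp_self]
  · intro x hx hxk
    rw [Finset.HasAntidiagonal.mem_antidiagonal] at hx
    have h1 : x.1 ≠ k := by
      intro h1
      apply hxk
      apply Prod.ext h1
      simp only
      omega
    rw [hu.cmp_ne h1, zero_mul]
  · intro h1
    exact absurd (Finset.HasAntidiagonal.mem_antidiagonal.2 (Nat.add_comm k n)) h1

theorem IsHom.cmp_mul_of_lt {k n : ℕ} {u : MvPowerSeries V A} (hu : IsHom k u) (hn : n < k)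
    (v : MvPowerSeries V A) : cmp n (u * v) = 0 := by
  classical
  rw [Pool.Agent.W_35cfd6_h24.cmp_mul]
  refine Finset.sum_eq_zero fun x hx => ?_
  rw [Finset.HasAntidiagonal.mem_antidiagonal] at hx
  rw [hu.cmp_ne (show x.1 ≠ k by omega), zero_mul]

theorem cmp_sX_pow_mul (n K : ℕ) (u : MvPowerSeries V A) :
    cmp n (MvPowerSeries.X none ^ K * u) = MvPowerSeries.X none ^ K * cmp n u := by
  have h1 := ((IsHom.sX (A := A)).pow K)
  rw [Nat.mul_zero] at h1
  exact h1.cmp_mul n u

theorem cmp_dvd {n K : ℕ} {u : MvPowerSeries V A} (h : MvPowerSeries.X none ^ K ∣ u) :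
    MvPowerSeries.X none ^ K ∣ cmp n u := by
  obtain ⟨c, rfl⟩ := h
  rw [cmp_sX_pow_mul]
  exact dvd_mul_right _ _

theorem dvd_of_cmp {K : ℕ} {u : MvPowerSeries V A}
    (h : ∀ n, MvPowerSeries.X none ^ K ∣ cmp n u) : MvPowerSeries.X none ^ K ∣ u := by
  refine (sX_pow_dvd_iff K u).2 fun e he => ?_
  have h1 := (sX_pow_dvd_iff K _).1 (h (dg e)) e he
  rwa [coeff_cmp, if_pos rfl] at h1

end

theorem row_cmp (m : ℤ) (n : ℕ) (u : UU p) : row m (cmp n u) = cmp n (row m u) := by
  ext e
  rw [coeff_row, co, coeff_cmp, coeff_cmp, coeff_row, co]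
  split_ifs
  · rfl
  · simp

theorem IsHom.row {n : ℕ} {u : UU p} (hu : IsHom n u) (m : ℤ) : IsHom n (row m u) := by
  intro e he
  apply hu e
  intro h
  rw [coeff_row, co, h] at he
  simp at he

theorem isHom_of_row {n : ℕ} {u : UU p} (h : ∀ m, IsHom n (row m u)) : IsHom n u := by
  intro e he
  by_contra hne
  apply he
  refine AddMonoidAlgebra.ext (Finsupp.ext fun m => ?_)
  by_contra h1
  exact hne (h m e h1)

theorem IsHom.iota {n : ℕ} {f : FF p} (hf : IsHom n f) : IsHom n (iota f) := by
  intro e he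
  apply hf e
  intro h
  rw [Pool.Agent.W_35cfd6_h24.iota, coeff_map, h, map_zero] at he
  exact he rfl

theorem IsHom.mono (e : V →₀ ℕ) (m : ℤ) : IsHom (dg e) (mono e m : UU p) := by
  exact IsHom.monomial e _

/-- A homogeneous element has only finitely many rows that are not divisible by `s^K`. Proof: a row
not divisible by `s^K` has a nonzero coefficient at some `e` with `dg e = n`, `e none < K`
(finitely many, `finite_dg`), and each coefficient of `u` has finite support in `m`. -/
theorem finite_rows {n : ℕ} {u : UU p} (hu : IsHom n u) (K : ℕ) :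
    {m : ℤ | ¬ (MvPowerSeries.X none : FF p) ^ K ∣ Pool.Agent.W_35cfd6_h24.row m u}.Finite := by
  refine ((finite_dg n K).biUnion fun e _ => finite_co u e).subset ?_
  intro m hm
  rw [Set.mem_ofPred_eq] at hm
  rw [sX_pow_dvd_iff] at hm
  push Not at hm
  obtain ⟨e, he, hne⟩ := hm
  rw [coeff_row] at hne
  have h1 : dg e = n := (hu.row m) e hne
  exact Set.mem_biUnion (show e ∈ {e : V →₀ ℕ | dg e = n ∧ e none < K} from ⟨h1, he⟩) hne

end Pool.Agent.W_35cfd6_h24
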