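import Mathlib

/-!
# Definitions for the counterexample to Q1 of MP_35cfd6_ag

`V = Option (Fin 4)` indexes the variables: `none` is `s`, `some j` is `x_j`.
`FF p` = power series over `F_p` in `s, x_0, .., x_3`.
`UU p` = power series in the same variables over the Laurent polynomials `F_p[T, T^-1]`.
The degree `dg` counts only the `x`-variables.
-/

set_option autoImplicit false

namespace Pool.Agent.W_35cfd6_h24

open MvPowerSeries

/-- The variables: `none` is `s`, `some j` is `x_j`. -/
abbrev V := Option (Fin 4)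

/-- Power series over `F_p` in `s` and `x_0, .., x_3`. -/
abbrev FF (p : ℕ) := MvPowerSeries V (ZMod p)

/-- Laurent polynomials in `T` over `F_p`. -/
abbrev LL (p : ℕ) := AddMonoidAlgebra (ZMod p) ℤ

/-- Power series in `s` and `x_0, .., x_3` over the Laurent polynomials in `T`. -/
abbrev UU (p : ℕ) := MvPowerSeries V (LL p)

variable {p : ℕ}

/-- Degree in the `x`-variables. -/
def dg (e : V →₀ ℕ) : ℕ := ∑ j : Fin 4, e (some j)

/-- `co u e m` is the coefficient of `s^(e none) x^e T^m` in `u`. -/
noncomputable def co (u : UU p) (e : V →₀ ℕ) (m : ℤ) : ZMod p := (MvPowerSeries.coeff e u).coeff m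

/-- The coefficient of `T^m` in `u`, a power series in `s` and the `x_j`. -/
noncomputable def row (m : ℤ) (u : UU p) : FF p := fun e => co u e m

/-- The element of `UU p` with given coefficients. -/
noncomputable def mkU (f : (V →₀ ℕ) → ℤ → ZMod p) (hf : ∀ e, (Function.support (f e)).Finite) :
    UU p := fun e => AddMonoidAlgebra.ofCoeff (Finsupp.ofSupportFinite (f e) (hf e))

/-- `s`, in any power series ring in the variables `V`. -/
noncomputable abbrev sX {A : Type*} [CommRing A] : MvPowerSeries V A := X none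

/-- Homogeneous of degree `n` in the `x`-variables (coefficients are power series in `s`). -/
def IsHom {A : Type*} [CommRing A] (n : ℕ) (u : MvPowerSeries V A) : Prop :=
  ∀ e, coeff e u ≠ 0 → dg e = n

/-- The homogeneous component of degree `n` in the `x`-variables. -/
def cmp {A : Type*} [CommRing A] (n : ℕ) (u : MvPowerSeries V A) : MvPowerSeries V A :=
  fun e => if dg e = n then coeff e u else 0

/-- The monomial `T^m s^(e none) x^e`. -/
noncomputable def mono (e : V →₀ ℕ) (m : ℤ) : UU p :=
  monomial e (AddMonoidAlgebra.single m 1)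

/-- The inclusion of `FF p` in `UU p`. -/
noncomputable def iota : FF p →+* UU p := MvPowerSeries.map (algebraMap (ZMod p) (LL p))

/-- `x_j ↦ T^(-3) x_j`. -/
noncomputable def Dsub : UU p →+* UU p :=
  MvPowerSeries.rescale (fun v : V => v.elim (1 : LL p) fun _ => AddMonoidAlgebra.single (-3) 1)

/-- Matrices of size 4 over `F_p[[s]]`. -/
abbrev MT (p : ℕ) := Matrix (Fin 4) (Fin 4) (PowerSeries (ZMod p))

section
variable {A : Type*} [CommRing A] [Algebra (ZMod p) A]

theorem hasSubst_sX : PowerSeries.HasSubst (sX : MvPowerSeries V A) :=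
  PowerSeries.HasSubst.of_constantCoeff_zero (by simp)

/-- `c ↦ c(s)`, for power series `c` over `F_p` in one variable. -/
noncomputable def ev : PowerSeries (ZMod p) →ₐ[ZMod p] MvPowerSeries V A :=
  PowerSeries.substAlgHom hasSubst_sX

/-- The images of the variables under the linear substitution with matrix `N`:
`s ↦ s`, `x_i ↦ ∑ j, N i j (s) x_j`. -/
noncomputable def lvec (N : MT p) : V → MvPowerSeries V A := fun v =>
  v.elim sX fun i => ∑ j : Fin 4, ev (N i j) * X (some j)

theorem hasSubst_lvec (N : MT p) : HasSubst (lvec (A := A) N) := by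
  refine hasSubst_of_constantCoeff_zero fun v => ?_
  rcases v with _ | j
  · simp [lvec]
  · simp [lvec]

/-- The linear substitution `s ↦ s`, `x_i ↦ ∑ j, N i j (s) x_j`. -/
noncomputable def lin (N : MT p) : MvPowerSeries V A →ₐ[A] MvPowerSeries V A :=
  substAlgHom (hasSubst_lvec N)

end

/-- Two pairs `(a, b)`, `(c, d)` of power series in `s` over `F_p` with `a^2 - s b^2 = 1` and
`c^2 - s d^2 = 1`, i.e. the matrices `(a, b; s b, a)` and `(c, d; s d, c)` of determinant `1`. -/
structure Par (p : ℕ) where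
  a : PowerSeries (ZMod p)
  b : PowerSeries (ZMod p)
  c : PowerSeries (ZMod p)
  d : PowerSeries (ZMod p)
  hab : a ^ 2 - PowerSeries.X * b ^ 2 = 1
  hcd : c ^ 2 - PowerSeries.X * d ^ 2 = 1

/-- The inverse matrices. -/
def Par.inv (P : Par p) : Par p where
  a := P.a
  b := -P.b
  c := P.c
  d := -P.d
  hab := by rw [neg_sq]; exact P.hab
  hcd := by rw [neg_sq]; exact P.hcd

/-- The block matrix of a pair. -/
noncomputable def Par.mat (P : Par p) : MT p :=
  !![P.a, P.b, 0, 0;
     PowerSeries.X * P.b, P.a, 0, 0;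
     0, 0, P.c, P.d;
     0, 0, PowerSeries.X * P.d, P.c]

/-- The substitution `G`: `s ↦ s`, `x_0 ↦ a x_0 + b x_1`, `x_1 ↦ s b x_0 + a x_1`,
`x_2 ↦ c x_2 + d x_3`, `x_3 ↦ s d x_2 + c x_3`. -/
noncomputable def GG (P : Par p) {A : Type*} [CommRing A] [Algebra (ZMod p) A] :
    MvPowerSeries V A →ₐ[A] MvPowerSeries V A := lin P.mat

/-- The exponent `(n, .., n)`. -/
noncomputable def ones (n : ℕ) : V →₀ ℕ := Finsupp.equivFunOnFinite.symm fun _ => n

/-- The exponent of `(x_0 x_1 x_2 x_3)^D`. -/
noncomputable def xone (D : ℕ) : V →₀ ℕ :=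
  Finsupp.equivFunOnFinite.symm fun v => v.elim 0 fun _ => D

/-- The trace on `FF p`, `q = p^e`: the coefficient at `α` of `kapF e f` is the coefficient of `f`
at `q α + (q - 1, .., q - 1)`. -/
noncomputable def kapF (e : ℕ) (f : FF p) : FF p := fun α => coeff (p ^ e • α + ones (p ^ e - 1)) f

theorem kap_support [Fact p.Prime] (e : ℕ) (u : UU p) (α : V →₀ ℕ) :
    (Function.support fun m : ℤ =>
      co u (p ^ e • α + ones (p ^ e - 1)) ((p : ℤ) ^ e * m)).Finite := by
  have h : (Function.support fun m : ℤ => co u (p ^ e • α + ones (p ^ e - 1)) m).Finite := by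
    refine (MvPowerSeries.coeff (p ^ e • α + ones (p ^ e - 1)) u).coeff.support.finite_toSet.subset
      fun m hm => ?_
    simpa [co] using hm
  refine (h.preimage (f := fun m : ℤ => (p : ℤ) ^ e * m) ?_).subset fun m hm => hm
  intro a _ b _ hab
  have hp : ((p : ℤ) ^ e) ≠ 0 := pow_ne_zero _ (by exact_mod_cast (Fact.out : p.Prime).ne_zero)
  exact mul_left_cancel₀ hp hab

/-- The trace on `UU p`: the coefficient at `(α, m)` of `kap e u` is the coefficient of `u` at
`(q α + (q - 1, .., q - 1), q m)`. -/
noncomputable def kap [Fact p.Prime] (e : ℕ) (u : UU p) : UU p :=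
  mkU (fun α m => co u (p ^ e • α + ones (p ^ e - 1)) ((p : ℤ) ^ e * m)) (kap_support e u)

/-- The pairs `(a, b)` with `a(T) = b(s T)`: `a_m = s^m b_m` for `m ≥ 0` and `s^(-m) a_m = b_m`
for `m ≤ 0`. -/
def PPset (p : ℕ) : Set (UU p × UU p) :=
  {z | ∀ m : ℤ, sX ^ (-m).toNat * row m z.1 = sX ^ m.toNat * row m z.2}

end Pool.Agent.W_35cfd6_h24
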