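import Pool.Agent.W_35cfd6_h24.Defs

/-!
# The units of `F_p[[σ]]`: definitions
-/

set_option autoImplicit false

namespace Pool.Agent.W_35cfd6_h24

variable {p : ℕ}

/-- `c(σ) ↦ c(σ^2)`. -/
noncomputable def sq : PowerSeries (ZMod p) →ₐ[ZMod p] PowerSeries (ZMod p) :=
  PowerSeries.expand 2 two_ne_zero

/-- The eigenvalue `a(σ^2) + σ b(σ^2)` of the first block. -/
noncomputable def Par.wU (P : Par p) : PowerSeries (ZMod p) := sq P.a + PowerSeries.X * sq P.b

/-- The eigenvalue `a(σ^2) - σ b(σ^2)` of the first block. -/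
noncomputable def Par.wU' (P : Par p) : PowerSeries (ZMod p) := sq P.a - PowerSeries.X * sq P.b

/-- The eigenvalue `c(σ^2) + σ d(σ^2)` of the second block. -/
noncomputable def Par.wV (P : Par p) : PowerSeries (ZMod p) := sq P.c + PowerSeries.X * sq P.d

/-- The eigenvalue `c(σ^2) - σ d(σ^2)` of the second block. -/
noncomputable def Par.wV' (P : Par p) : PowerSeries (ZMod p) := sq P.c - PowerSeries.X * sq P.d

/-- The properties of the two eigenvalues used: multiplicative independence, and superlinear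
approximation of the second by powers of the first. -/
structure Par.Good (P : Par p) : Prop where
  indep1 : ∀ a b : ℕ, P.wU ^ a * P.wV ^ b = 1 → a = 0 ∧ b = 0
  indep2 : ∀ a b : ℕ, P.wU ^ a = P.wV ^ b → a = 0 ∧ b = 0
  approx : ∀ j : ℕ, ∃ e a : ℕ, 1 ≤ e ∧ a ≤ p ^ e - 1 ∧
    PowerSeries.X ^ (2 * p ^ e * j + 2) ∣ P.wV - P.wU ^ a

end Pool.Agent.W_35cfd6_h24
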