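import Pool.Agent.W_35cfd6_h24.Lin
import Pool.Agent.W_35cfd6_h24.Units

/-!
# The substitution `s ↦ s^2`

The ring `FF p` with `s` replaced by `σ`, `σ^2 = s`, is again `FF p`; the inclusion is `eps`.
-/

set_option autoImplicit false

namespace Pool.Agent.W_35cfd6_h24

open MvPowerSeries

variable {p : ℕ}

/-- The images of the variables under `eps`. -/
noncomputable def epsv : V → FF p := fun v => v.elim (sX ^ 2) fun j => X (some j)

theorem hasSubst_epsv : HasSubst (epsv : V → FF p) := by
  refine hasSubst_of_constantCoeff_zero fun v => ?_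
  rcases v with _ | j
  · simp [epsv]
  · simp [epsv]

/-- The substitution `s ↦ s^2`, `x_j ↦ x_j`. -/
noncomputable def eps : FF p →ₐ[ZMod p] FF p := substAlgHom hasSubst_epsv

/-- Doubling of the exponent of `s`. -/
noncomputable def dbl (e : V →₀ ℕ) : V →₀ ℕ := e + Finsupp.single none (e none)

/-- An exponent with even `s`-exponent is a double. -/
theorem exists_dbl (e : V →₀ ℕ) (h : Even (e none)) : ∃ e', e = dbl e' := by
  obtain ⟨k, hk⟩ := h
  refine ⟨e.update none k, ?_⟩
  ext v
  rcases v with _ | j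
  · simp [dbl, hk]
  · simp [dbl]

theorem Eps_dbl_none (e : V →₀ ℕ) : dbl e none = 2 * e none := by
  simp [dbl, two_mul]

theorem Eps_dbl_some (e : V →₀ ℕ) (j : Fin 4) : dbl e (some j) = e (some j) := by
  simp [dbl]

theorem Eps_dbl_inj {e e' : V →₀ ℕ} (h : dbl e = dbl e') : e = e' := by
  ext v
  rcases v with _ | j
  · have := congrArg (fun f => f none) h
    simp only [Eps_dbl_none] at this
    omega
  · have := congrArg (fun f => f (some j)) h
    simpa only [Eps_dbl_some] using this

theorem dg_dbl (e : V →₀ ℕ) : dg (dbl e) = dg e := by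
  simp [dg, Eps_dbl_some]

theorem eps_sX : eps (sX : FF p) = sX ^ 2 := by
  exact substAlgHom_X hasSubst_epsv none

theorem eps_X (j : Fin 4) : eps (X (some j) : FF p) = X (some j) := by
  exact substAlgHom_X hasSubst_epsv (some j)

theorem Eps_monomial_prod (d : V →₀ ℕ) : (monomial d (1 : ZMod p) : FF p) =
    sX ^ d none * ∏ i : Fin 4, X (some i) ^ d (some i) := by
  have h : subst (X : V → FF p) (monomial d (1 : ZMod p) : FF p) = monomial d (1 : ZMod p) := by
    rw [subst_self]; rfl
  rw [← h, subst_monomial HasSubst.X, map_one, one_mul,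
    Finsupp.prod_fintype _ _ (fun _ => pow_zero _), Fintype.prod_option]

theorem Eps_prod (d : V →₀ ℕ) : (d.prod fun v n => (epsv v : FF p) ^ n) =
    monomial (dbl d) (1 : ZMod p) := by
  rw [Eps_monomial_prod, Finsupp.prod_fintype _ _ (fun _ => pow_zero _), Fintype.prod_option,
    Eps_dbl_none, pow_mul]
  simp only [Eps_dbl_some]
  rfl

theorem Eps_coeff (f : FF p) (e : V →₀ ℕ) :
    coeff e (eps f) = ∑ᶠ d, coeff d f • coeff e (monomial (dbl d) (1 : ZMod p) : FF p) := by
  rw [eps, substAlgHom_apply, coeff_subst hasSubst_epsv]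
  refine finsum_congr fun d => ?_
  rw [Eps_prod]

/-- `MvPowerSeries.coeff_subst`: the image of the monomial `d` is the monomial `dbl d`, and `dbl` is
injective. -/
theorem coeff_eps_dbl (f : FF p) (e : V →₀ ℕ) : coeff (dbl e) (eps f) = coeff e f := by
  classical
  rw [Eps_coeff, finsum_eq_single _ e]
  · rw [coeff_monomial, if_pos rfl, smul_eq_mul, mul_one]
  · intro d hd
    rw [coeff_monomial, if_neg fun h => hd (Eps_dbl_inj h).symm, smul_zero]

theorem coeff_eps_odd (f : FF p) (e : V →₀ ℕ) (h : Odd (e none)) : coeff e (eps f) = 0 := by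
  classical
  rw [Eps_coeff]
  refine (finsum_congr fun d => ?_).trans finsum_zero
  rw [coeff_monomial, if_neg, smul_zero]
  rintro rfl
  rw [Eps_dbl_none] at h
  exact (Nat.not_odd_iff_even.2 (even_two_mul _)) h

theorem Eps_sq_even (c : PowerSeries (ZMod p)) (n : ℕ) :
    PowerSeries.coeff (2 * n) (sq c) = PowerSeries.coeff n c := by
  rw [sq, PowerSeries.coeff_expand_mul]

theorem Eps_sq_odd (c : PowerSeries (ZMod p)) {n : ℕ} (hn : ¬ 2 ∣ n) :
    PowerSeries.coeff n (sq c) = 0 := by
  rw [sq, PowerSeries.coeff_expand_of_not_dvd _ _ _ hn]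

theorem eps_injective : Function.Injective (eps : FF p →ₐ[ZMod p] FF p) := by
  intro f g h
  refine MvPowerSeries.ext fun e => ?_
  rw [← coeff_eps_dbl f e, h, coeff_eps_dbl]

theorem eps_ev (c : PowerSeries (ZMod p)) : eps (ev c : FF p) = ev (sq c) := by
  refine MvPowerSeries.ext fun e => ?_
  rcases Nat.even_or_odd (e none) with h | h
  · obtain ⟨e', rfl⟩ := exists_dbl e h
    rw [coeff_eps_dbl, coeff_ev, coeff_ev, Eps_dbl_none, Eps_sq_even]
    have h1 : (dbl e' = Finsupp.single none (2 * e' none)) ↔ e' = Finsupp.single none (e' none) := by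
      rw [show Finsupp.single (none : V) (2 * e' none) = dbl (Finsupp.single none (e' none)) by
        ext v
        rcases v with _ | j
        · simp [dbl, two_mul]
        · simp [dbl]]
      exact ⟨fun h => Eps_dbl_inj h, fun h => congrArg dbl h⟩
    simp only [h1]
  · rw [coeff_eps_odd _ _ h, coeff_ev, Eps_sq_odd, map_zero, ite_self]
    rw [← even_iff_two_dvd, Nat.not_even_iff_odd]
    exact h

theorem isHom_eps_iff (n : ℕ) (f : FF p) : IsHom n (eps f) ↔ IsHom n f := by
  constructor
  · intro h e he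
    rw [← coeff_eps_dbl] at he
    rw [← dg_dbl]
    exact h _ he
  · intro h e he
    rcases Nat.even_or_odd (e none) with h1 | h1
    · obtain ⟨e', rfl⟩ := exists_dbl e h1
      rw [coeff_eps_dbl] at he
      rw [dg_dbl]
      exact h _ he
    · exact absurd (coeff_eps_odd _ _ h1) he

theorem eps_dvd_iff (K : ℕ) (f : FF p) : sX ^ (2 * K) ∣ eps f ↔ sX ^ K ∣ f := by
  rw [sX_pow_dvd_iff, sX_pow_dvd_iff]
  constructor
  · intro h e he
    rw [← coeff_eps_dbl]
    refine h _ ?_
    rw [Eps_dbl_none]
    omega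
  · intro h e he
    rcases Nat.even_or_odd (e none) with h1 | h1
    · obtain ⟨e', rfl⟩ := exists_dbl e h1
      rw [coeff_eps_dbl]
      refine h _ ?_
      rw [Eps_dbl_none] at he
      omega
    · exact coeff_eps_odd _ _ h1

/-- If `s` divides `eps f` then `s` divides `f`. -/
theorem dvd_of_eps_dvd (f : FF p) (h : sX ∣ eps f) : sX ∣ f := by
  have h' : (sX : FF p) ^ 1 ∣ eps f := by rwa [pow_one]
  rw [sX_pow_dvd_iff] at h'
  suffices (sX : FF p) ^ 1 ∣ f by rwa [pow_one] at this
  rw [sX_pow_dvd_iff]
  intro e he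
  rw [← coeff_eps_dbl]
  refine h' _ ?_
  rw [Eps_dbl_none]
  omega

/-- A power series in which only even powers of `s` occur is in the image. -/
theorem exists_eps (g : FF p) (h : ∀ e, Odd (e none) → coeff e g = 0) : ∃ f, eps f = g := by
  refine ⟨fun e => coeff (dbl e) g, MvPowerSeries.ext fun e => ?_⟩
  rcases Nat.even_or_odd (e none) with h1 | h1
  · obtain ⟨e', rfl⟩ := exists_dbl e h1
    rw [coeff_eps_dbl]
    rfl
  · rw [coeff_eps_odd _ _ h1, h _ h1]

/-- Both sides are substitutions (composition: `MvPowerSeries.subst_comp_subst_apply`) with the same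
images of the variables. -/
theorem eps_lin (N : MT p) (f : FF p) : eps (lin N f) = lin (N.map sq) (eps f) := by
  have h1 : (fun v => eps (lvec (A := ZMod p) N v)) =
      fun v => lin (N.map sq) (epsv (p := p) v) := by
    funext v
    rcases v with _ | i
    · change eps (sX : FF p) = lin (N.map sq) (sX ^ 2)
      rw [eps_sX, map_pow, lin_sX]
    · change eps (∑ j : Fin 4, ev (N i j) * X (some j)) = lin (N.map sq) (X (some i))
      rw [lin_X, map_sum]
      refine Finset.sum_congr rfl fun j _ => ?_
      rw [map_mul, eps_ev, eps_X, Matrix.map_apply]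
  have h2 : ∀ (K : MT p) (g : FF p), lin K g = subst (lvec K) g := fun K g =>
    substAlgHom_apply (hasSubst_lvec K) g
  have h3 : ∀ g : FF p, eps g = subst epsv g := fun g => substAlgHom_apply hasSubst_epsv g
  rw [h2 N, h2 (N.map sq), h3, h3, subst_comp_subst_apply (hasSubst_lvec N) hasSubst_epsv,
    subst_comp_subst_apply hasSubst_epsv (hasSubst_lvec _)]
  simp only [h2, h3] at h1
  rw [h1]

end Pool.Agent.W_35cfd6_h24
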