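import Pool.Agent.W_35cfd6_h24.Th2

/-!
# Generation in degree one, I: the predicate `Gd`
-/

set_option autoImplicit false

namespace Pool.Agent.W_35cfd6_h24

open MvPowerSeries

variable {p : ℕ}

/-- The generators of degree one, `th(1, m, x_j)`, `0 ≤ m ≤ 2`. -/
noncomputable def gens (P : Par p) (w : Fin 3 × Fin 4) : UU p :=
  th P 1 ((w.1 : ℕ) : ℤ) (X (some w.2))

theorem Gen1_lt (w : Fin 3 × Fin 4) : ((w.1 : ℕ) : ℤ) < 3 := by
  have := w.1.isLt
  omega

theorem gens_mem (P : Par p) (w : Fin 3 × Fin 4) : gens P w ∈ RR P := by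
  have h1 := Gen1_lt w
  refine th_mem P le_rfl (Int.natCast_nonneg _) ?_ (IsHom.X w.2)
  rw [Nat.cast_one, mul_one]
  exact h1.le

theorem gens_hom (P : Par p) (w : Fin 3 × Fin 4) : IsHom 1 (gens P w) := by
  have h1 := Gen1_lt w
  refine isHom_th P le_rfl (Int.natCast_nonneg _) ?_ (IsHom.X w.2)
  rw [Nat.cast_one, mul_one]
  exact h1.le

theorem Gen1_sX_mul {A : Type*} [CommRing A] {n : ℕ} {u : MvPowerSeries V A} (hu : IsHom n u) :
    IsHom n (sX * u) := by
  have h := IsHom.sX_pow_mul (K := 1) hu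
  rwa [pow_one] at h

theorem Gen1_hom_mul {A : Type*} [CommRing A] {n : ℕ} {u v : MvPowerSeries V A}
    (hu : IsHom 0 u) (hv : IsHom n v) : IsHom n (u * v) := by
  have h := hu.mul hv
  rwa [Nat.zero_add] at h

/-- `u` is in `RR P`, homogeneous of degree `n`, and congruent modulo `s` to a homogeneous
polynomial of degree `n` in the generators of degree one. -/
def Gd (P : Par p) (n : ℕ) (u : UU p) : Prop :=
  u ∈ RR P ∧ IsHom n u ∧ ∃ Q : MvPolynomial (Fin 3 × Fin 4) (ZMod p), Q.IsHomogeneous n ∧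
    ∃ v ∈ RR P, IsHom n v ∧ u = MvPolynomial.aeval (gens P) Q + sX * v

theorem Gd.add {P : Par p} {n : ℕ} {u v : UU p} (hu : Gd P n u) (hv : Gd P n v) :
    Gd P n (u + v) := by
  obtain ⟨hu1, hu2, Q, hQ, a, ha1, ha2, hua⟩ := hu
  obtain ⟨hv1, hv2, R, hR, b, hb1, hb2, hvb⟩ := hv
  refine ⟨add_mem hu1 hv1, hu2.add hv2, Q + R, hQ.add hR, a + b, add_mem ha1 hb1,
    ha2.add hb2, ?_⟩
  rw [hua, hvb, map_add]
  ring

theorem Gd.sub {P : Par p} {n : ℕ} {u v : UU p} (hu : Gd P n u) (hv : Gd P n v) :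
    Gd P n (u - v) := by
  obtain ⟨hu1, hu2, Q, hQ, a, ha1, ha2, hua⟩ := hu
  obtain ⟨hv1, hv2, R, hR, b, hb1, hb2, hvb⟩ := hv
  refine ⟨sub_mem hu1 hv1, hu2.sub hv2, Q - R, hQ.sub hR, a - b, sub_mem ha1 hb1,
    ha2.sub hb2, ?_⟩
  rw [hua, hvb, map_sub]
  ring

theorem Gd.zero (P : Par p) (n : ℕ) : Gd P n 0 := by
  refine ⟨zero_mem _, IsHom.zero n, 0, MvPolynomial.isHomogeneous_zero _ _ n, 0, zero_mem _,
    IsHom.zero n, ?_⟩
  rw [map_zero, mul_zero, add_zero]

theorem Gd.sum {ι : Type*} (s : Finset ι) {P : Par p} {n : ℕ} {u : ι → UU p}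
    (hu : ∀ i ∈ s, Gd P n (u i)) : Gd P n (∑ i ∈ s, u i) := by
  classical
  induction s using Finset.induction_on with
  | empty =>
    rw [Finset.sum_empty]
    exact Gd.zero P n
  | insert a s ha ih =>
    rw [Finset.sum_insert ha]
    exact (hu a (Finset.mem_insert_self a s)).add
      (ih fun i hi => hu i (Finset.mem_insert_of_mem hi))

/-- Multiplication by a power series in `s`: `c = c(0) + s c'`. -/
theorem Gd.ev_mul {P : Par p} {n : ℕ} {u : UU p} (hu : Gd P n u) (c : PowerSeries (ZMod p)) :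
    Gd P n (iota (ev c) * u) := by
  obtain ⟨hu1, hu2, Q, hQ, v, hv1, hv2, huv⟩ := hu
  have hc := PowerSeries.eq_X_mul_shift_add_const c
  set c' : PowerSeries (ZMod p) := PowerSeries.mk fun n => PowerSeries.coeff (n + 1) c with hc'
  set a : ZMod p := PowerSeries.constantCoeff c with ha
  have hev : (iota (ev c) : UU p) = algebraMap (ZMod p) (UU p) a + sX * iota (ev c') := by
    have h1 : (ev c : FF p) = sX * ev c' + algebraMap (ZMod p) (FF p) a := by
      conv_lhs => rw [hc]
      have h2 : PowerSeries.C a = algebraMap (ZMod p) (PowerSeries (ZMod p)) a := rfl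
      rw [map_add, map_mul, ev_X, h2, AlgHom.commutes]
    have h3 : iota (algebraMap (ZMod p) (FF p) a) = algebraMap (ZMod p) (UU p) a := by
      have h4 : algebraMap (ZMod p) (FF p) a = C a := rfl
      rw [h4]
      unfold iota
      rw [MvPowerSeries.map_C, MvPowerSeries.algebraMap_apply]
    rw [h1, map_add, map_mul, iota_sX, add_comm, h3]
  have hmem : (algebraMap (ZMod p) (UU p) a) ∈ RR P := by
    have h2 : (algebraMap (ZMod p) (UU p) a) =
        iota (ev (algebraMap (ZMod p) (PowerSeries (ZMod p)) a)) := by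
      rw [AlgHom.commutes]
      have h3 : algebraMap (ZMod p) (FF p) a = C a := rfl
      rw [h3]
      unfold iota
      rw [MvPowerSeries.map_C, MvPowerSeries.algebraMap_apply]
    rw [h2]
    exact ev_mem_RR P _
  have hhom : IsHom 0 (algebraMap (ZMod p) (UU p) a) := by
    rw [MvPowerSeries.algebraMap_apply, ← MvPowerSeries.monomial_zero_eq_C_apply]
    have h2 := IsHom.monomial (0 : V →₀ ℕ) (algebraMap (ZMod p) (LL p) a)
    rwa [dg_zero] at h2
  refine ⟨mul_mem (ev_mem_RR P c) hu1, Gen1_hom_mul ((IsHom.ev c).iota) hu2, MvPolynomial.C a * Q,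
    ?_, algebraMap (ZMod p) (UU p) a * v + iota (ev c') * u,
    add_mem (mul_mem hmem hv1) (mul_mem (ev_mem_RR P c') hu1),
    (Gen1_hom_mul hhom hv2).add (Gen1_hom_mul ((IsHom.ev c').iota) hu2), ?_⟩
  · have h4 := (MvPolynomial.isHomogeneous_C (Fin 3 × Fin 4) a).mul hQ
    rwa [Nat.zero_add] at h4
  · rw [hev, map_mul, MvPolynomial.aeval_C]
    generalize algebraMap (ZMod p) (UU p) a = α
    generalize (iota (ev c') : UU p) = β
    rw [huv]
    ring

theorem Gd.mul {P : Par p} {n m : ℕ} {u v : UU p} (hu : Gd P n u) (hv : Gd P m v) :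
    Gd P (n + m) (u * v) := by
  obtain ⟨hu1, hu2, Q, hQ, a, ha1, ha2, hua⟩ := hu
  obtain ⟨hv1, hv2, R, hR, b, hb1, hb2, hvb⟩ := hv
  refine ⟨mul_mem hu1 hv1, hu2.mul hv2, Q * R, hQ.mul hR, a * v + (u - sX * a) * b,
    add_mem (mul_mem ha1 hv1) (mul_mem (sub_mem hu1 (mul_mem (sX_mem_RR P) ha1)) hb1),
    (ha2.mul hv2).add ((hu2.sub (Gen1_sX_mul ha2)).mul hb2), ?_⟩
  have h1 : MvPolynomial.aeval (Pool.Agent.W_35cfd6_h24.gens P) Q = u - sX * a := by
    rw [hua]; ring
  have h2 : MvPolynomial.aeval (Pool.Agent.W_35cfd6_h24.gens P) R = v - sX * b := by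
    rw [hvb]; ring
  rw [map_mul, h1, h2]
  ring

/-- `u' = u - s w` with `w` homogeneous (`IsHom.of_sX_pow_mul`) and in `RR P`
(`RR_of_sX_pow_mul`). -/
theorem Gd.congr {P : Par p} {n : ℕ} {u u' : UU p} (hu : Gd P n u) (hu' : u' ∈ RR P)
    (h' : IsHom n u') (h : sX ∣ u - u') : Gd P n u' := by
  obtain ⟨hu1, hu2, Q, hQ, a, ha1, ha2, hua⟩ := hu
  obtain ⟨w, hw⟩ := h
  have hw1 : w ∈ RR P := by
    refine RR_of_sX_pow_mul (K := 1) ?_
    rw [pow_one, ← hw]
    exact sub_mem hu1 hu'
  have hw2 : IsHom n w := by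
    refine IsHom.of_sX_pow_mul (K := 1) ?_
    rw [pow_one, ← hw]
    exact hu2.sub h'
  refine ⟨hu', h', Q, hQ, a - w, sub_mem ha1 hw1, ha2.sub hw2, ?_⟩
  have h1 : u' = u - sX * w := by rw [← hw]; ring
  rw [h1, hua]
  ring

/-- Degree zero: by `RR_hom_zero`, `u = iota f` with `f` homogeneous of degree `0`, i.e. a power
series in `s`, `f = c + s g`; take `Q = C c`. -/
theorem Gd.of_hom_zero {P : Par p} {u : UU p} (hu : u ∈ RR P) (h : IsHom 0 u) : Gd P 0 u := by
  have h1 : Gd P 0 (1 : UU p) := by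
    refine ⟨one_mem _, IsHom.one, 1, MvPolynomial.isHomogeneous_one _ _, 0, zero_mem _,
      IsHom.zero 0, ?_⟩
    rw [map_one, mul_zero, add_zero]
  have hrow : IsHom 0 (row 0 u) := h.row 0
  have h2 : row 0 u = ev (PowerSeries.mk fun n => coeff (Finsupp.single none n) (row 0 u)) := by
    refine MvPowerSeries.ext fun e => ?_
    rw [coeff_ev]
    split_ifs with h3
    · rw [PowerSeries.coeff_mk, ← h3]
      rfl
    · by_contra h4
      have h5 := hrow e h4
      apply h3
      ext v
      rcases v with _ | j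
      · rw [Finsupp.single_eq_same]
      · rw [Finsupp.single_eq_of_ne (by simp)]
        have h6 : e (some j) ≤ dg e :=
          Finset.single_le_sum (f := fun j => e (some j)) (fun _ _ => Nat.zero_le _)
            (Finset.mem_univ j)
        omega
  have h3 := h1.ev_mul (PowerSeries.mk fun n => coeff (Finsupp.single none n) (row 0 u))
  rw [← h2, mul_one, ← RR_hom_zero hu h] at h3
  exact h3

theorem Gd.gens (P : Par p) (w : Fin 3 × Fin 4) : Gd P 1 (Pool.Agent.W_35cfd6_h24.gens P w) := by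
  refine ⟨gens_mem P w, gens_hom P w, MvPolynomial.X w, MvPolynomial.isHomogeneous_X _ w, 0,
    zero_mem _, IsHom.zero 1, ?_⟩
  rw [MvPolynomial.aeval_X, mul_zero, add_zero]

/-- A homogeneous element of degree one of `FF p` is a combination of the `x_j` with coefficients
power series in `s`. -/
theorem exists_lin_comb {f : FF p} (hf : IsHom 1 f) :
    ∃ c : Fin 4 → PowerSeries (ZMod p), f = ∑ j : Fin 4, ev (c j) * X (some j) := by
  classical
  refine ⟨fun j => PowerSeries.mk fun n =>
    coeff (Finsupp.single none n + Finsupp.single (some j) 1) f, ?_⟩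
  set g : Fin 4 → PowerSeries (ZMod p) := fun j => PowerSeries.mk fun n =>
    coeff (Finsupp.single none n + Finsupp.single (some j) 1) f with hg
  have hhom : IsHom 1 (∑ j : Fin 4, (ev (g j) : FF p) * X (some j)) :=
    IsHom.sum _ fun j _ => Gen1_hom_mul (IsHom.ev _) (IsHom.X j)
  refine MvPowerSeries.ext fun e => ?_
  by_cases he : dg e = 1
  · obtain ⟨j, hj⟩ : ∃ j : Fin 4, e (some j) ≠ 0 := by
      by_contra hcon
      push Not at hcon
      have : dg e = 0 := Finset.sum_eq_zero fun j _ => hcon j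
      omega
    have hsum : ∑ j' ∈ Finset.univ.erase j, e (some j') + e (some j) = 1 := by
      rw [Finset.sum_erase_add _ _ (Finset.mem_univ j)]
      exact he
    have hj1 : e (some j) = 1 := by omega
    have hj0 : ∀ j', j' ≠ j → e (some j') = 0 := by
      intro j' hj'
      have h1 : e (some j') ≤ ∑ j' ∈ Finset.univ.erase j, e (some j') :=
        Finset.single_le_sum (f := fun j' => e (some j')) (fun _ _ => Nat.zero_le _)
          (Finset.mem_erase.2 ⟨hj', Finset.mem_univ _⟩)
      omega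
    have hee : e = Finsupp.single none (e none) + Finsupp.single (some j) 1 := by
      ext v
      rcases v with _ | j'
      · simp
      · by_cases hjj : j' = j
        · rw [hjj, Finsupp.add_apply, Finsupp.single_eq_same,
            Finsupp.single_eq_of_ne (by simp), hj1]
        · rw [Finsupp.add_apply, Finsupp.single_eq_of_ne (by simp),
            Finsupp.single_eq_of_ne (by simpa using hjj), hj0 j' hjj, add_zero]
    rw [map_sum, Finset.sum_eq_single j]
    · have h2 : (X (some j) : FF p) = monomial (Finsupp.single (some j) 1) 1 := rfl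
      have h3 : coeff e (ev (g j) * (X (some j) : FF p)) =
          coeff (Finsupp.single none (e none)) (ev (g j) : FF p) := by
        rw [h2]
        conv_lhs => rw [hee]
        rw [coeff_add_mul_monomial, mul_one]
      rw [h3, coeff_ev, if_pos (by simp), Finsupp.single_eq_same, hg]
      simp only [PowerSeries.coeff_mk]
      rw [← hee]
      rfl
    · intro j' _ hj'
      have h2 : (X (some j') : FF p) = monomial (Finsupp.single (some j') 1) 1 := rfl
      rw [h2, coeff_mul_monomial, if_neg]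
      intro h3
      have h4 := h3 (some j')
      rw [Finsupp.single_eq_same, hj0 j' hj'] at h4
      omega
    · intro h
      exact absurd (Finset.mem_univ j) h
  · have h1 : coeff e f = 0 := by
      by_contra h2
      exact he (hf e h2)
    have h2 : coeff e (∑ j : Fin 4, (ev (g j) : FF p) * X (some j)) = 0 := by
      by_contra h3
      exact he (hhom e h3)
    rw [h1, h2]

/-- From `exists_lin_comb`, `th_add`, `th_ev_mul` and `Gd.ev_mul`, `Gd.gens`. -/
theorem Gd.th_one {P : Par p} {m : ℤ} (h0 : 0 ≤ m) (h1 : m < 3) {f : FF p} (hf : IsHom 1 f) :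
    Gd P 1 (th P 1 m f) := by
  obtain ⟨c, rfl⟩ := exists_lin_comb hf
  have hm1 : m ≤ 3 * ((1 : ℕ) : ℤ) := by rw [Nat.cast_one, mul_one]; exact h1.le
  have hsum : ∀ s : Finset (Fin 4), Gd P 1 (th P 1 m (∑ j ∈ s, ev (c j) * X (some j))) := by
    classical
    intro s
    induction s using Finset.induction_on with
    | empty =>
      rw [Finset.sum_empty]
      have h2 := th_sub P le_rfl h0 hm1 (0 : FF p) 0
      rw [sub_zero, sub_self] at h2
      rw [h2]
      exact Gd.zero P 1
    | insert a s ha ih =>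
      rw [Finset.sum_insert ha, th_add P le_rfl h0 hm1, th_ev_mul P le_rfl h0 hm1]
      refine Gd.add (Gd.ev_mul ?_ _) ih
      obtain ⟨k, rfl⟩ := Int.eq_ofNat_of_zero_le h0
      have hk : k < 3 := by omega
      exact Gd.gens P (⟨k, hk⟩, a)
  exact hsum _

/-- From `RR_decomp` and `Gd.th_one`. -/
theorem Gd.of_hom_one {P : Par p} {u : UU p} (hu : u ∈ RR P) (h : IsHom 1 u) : Gd P 1 u := by
  rw [RR_decomp P le_rfl hu h]
  refine Gd.sum _ fun m hm => ?_
  rw [Finset.mem_range] at hm
  exact Gd.th_one (Int.natCast_nonneg _) (by omega) (h.row _)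

end Pool.Agent.W_35cfd6_h24
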