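import Pool.Agent.W_35cfd6_h24.Gen1

/-!
# Generation in degree one, II: the products of theta functions modulo `s`
-/

set_option autoImplicit false

namespace Pool.Agent.W_35cfd6_h24

open MvPowerSeries

variable {p : ℕ}

/-- For `0 < m < 3 n` a theta function is congruent to its row `m` modulo `s` (`th_approx` with
`L = 1`, `K = 0`). -/
theorem th_mod_mid (P : Par p) {n : ℕ} (hn : 1 ≤ n) {m : ℤ} (h0 : 0 < m) (h1 : m < 3 * n)
    (h : FF p) : sX ∣ th P n m h - iota h * mono 0 m := by
  have hh : (sX : FF p) ^ 0 ∣ h := by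
    rw [pow_zero]
    exact one_dvd h
  have h2 := th_approx (L := 1) P hn (m := m) (by push_cast; omega) (by push_cast; omega) hh
  rwa [zero_add, pow_one] at h2

theorem Gen2_row_mono (M m : ℤ) :
    row M (mono 0 m : UU p) = if M = m then 1 else 0 := by
  rw [row_mono]
  rfl

theorem Gen2_mul {a a' b b' : UU p} (h : sX ∣ a - a') (h' : sX ∣ b - b') :
    sX ∣ a * b - a' * b' := by
  have h1 : a * b - a' * b' = (a - a') * b + a' * (b - b') := by ring
  rw [h1]
  exact dvd_add (Dvd.dvd.mul_right h _) (Dvd.dvd.mul_left h' _)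

/-- For `m = 0` a theta function is congruent to its rows `0` and `3 n` modulo `s`: all other rows
`3 n j` have `eE n 0 j = 3 n j (j - 1) / 2 ≥ 1`. -/
theorem th_mod_zero (P : Par p) {n : ℕ} (hn : 1 ≤ n) (h : FF p) :
    sX ∣ th P n 0 h - (iota h + iota (GG P h) * mono 0 (3 * n)) := by
  have hn' : (1 : ℤ) ≤ n := by exact_mod_cast hn
  rw [← pow_one (sX : UU p), sX_pow_dvd_iff_row]
  intro M
  rw [pow_one, row_sub, row_add, row_iota, row_iota_mul, Gen2_row_mono]
  by_cases hM : (3 * n : ℤ) ∣ M - 0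
  · obtain ⟨j, hj⟩ := hM
    have hMj : M = 0 + 3 * n * j := by rw [zero_add]; linarith
    rw [hMj, row_th P hn le_rfl (by omega) h j, zero_add]
    by_cases hj0 : j = 0
    · subst hj0
      have h3 : ¬ ((3 * n * 0 : ℤ) = 3 * n) := by omega
      rw [if_pos (mul_zero _), if_neg h3, eE_zero]
      simp
    by_cases hj1 : j = 1
    · subst hj1
      have h3 : ¬ ((3 * n * 1 : ℤ) = 0) := by omega
      rw [if_neg h3, if_pos (mul_one _), eE_one, zpow_one, GE_apply]
      simp
    · have h4 : ¬ (3 * n * j : ℤ) = 0 := by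
        intro h5
        rcases mul_eq_zero.1 h5 with h6 | h6
        · omega
        · exact hj0 h6
      have h5 : ¬ (3 * n * j : ℤ) = 3 * n := by
        intro h6
        have h7 : (3 * n : ℤ) * (j - 1) = 0 := by rw [mul_sub, h6]; ring
        rcases mul_eq_zero.1 h7 with h8 | h8
        · omega
        · exact hj1 (by linarith)
      rw [if_neg h4, if_neg h5, mul_zero, add_zero, sub_zero]
      have h6 : 1 ≤ (eE n 0 j).toNat := by
        have h7 : 1 ≤ j * (j - 1) / 2 := by
          have h8 : 2 ≤ j * (j - 1) := by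
            rcases lt_or_gt_of_ne hj0 with h9 | h9
            · nlinarith
            · have : 2 ≤ j := by omega
              nlinarith
          omega
        have h8 : 1 ≤ eE n 0 j := by
          unfold eE
          rw [mul_zero, zero_add]
          nlinarith
        omega
      refine Dvd.dvd.mul_right ?_ _
      exact dvd_pow_self _ (by omega)
  · have h1 : ¬ M = 0 := by
      rintro rfl
      exact hM (by simp)
    have h2 : ¬ M = 3 * n := by
      rintro rfl
      exact hM (by simp)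
    rw [row_th_ne P hn le_rfl (by omega) h hM, if_neg h1, if_neg h2]
    simp

/-- (i) `th(1, m₁, y) th(n, m₂, h) = th(n + 1, m₁ + m₂, y h)` modulo `s` for `0 < m₁ < 3`,
`0 < m₂ < 3 n`: both sides are `y h T^(m₁ + m₂)` modulo `s`. -/
theorem th_mul_mid (P : Par p) {n : ℕ} (hn : 1 ≤ n) {m₁ m₂ : ℤ} (h0 : 0 < m₁) (h1 : m₁ < 3)
    (h2 : 0 < m₂) (h3 : m₂ < 3 * n) (y h : FF p) :
    sX ∣ th P 1 m₁ y * th P n m₂ h - th P (n + 1) (m₁ + m₂) (y * h) := by
  have e1 := th_mod_mid P (n := 1) le_rfl h0 (by push_cast; omega) y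
  have e2 := th_mod_mid P hn h2 h3 h
  have e3 := th_mod_mid P (n := n + 1) (by omega) (m := m₁ + m₂) (by omega)
    (by push_cast; omega) (y * h)
  have e4 := Gen2_mul e1 e2
  have e5 : iota y * mono 0 m₁ * (iota h * mono 0 m₂) = iota (y * h) * (mono 0 (m₁ + m₂) : UU p) := by
    rw [map_mul, ← add_zero (0 : V →₀ ℕ), ← mono_mul_mono, add_zero]
    ring
  rw [e5] at e4
  have e6 := dvd_sub e4 e3
  rwa [sub_sub_sub_cancel_right] at e6

/-- (ii), (iii) `th(1, 0, y) th(n, m, h) = th(n + 1, m, y h) + th(n + 1, m + 3, (G y) h)` modulo `s`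
for `0 < m < 3 n` (so `0 < m < m + 3 < 3 (n + 1)`). -/
theorem th_mul_zero (P : Par p) {n : ℕ} (hn : 1 ≤ n) {m : ℤ} (h0 : 0 < m) (h1 : m < 3 * n)
    (y h : FF p) :
    sX ∣ th P 1 0 y * th P n m h - (th P (n + 1) m (y * h) + th P (n + 1) (m + 3) (GG P y * h)) := by
  have e1 := th_mod_zero P (n := 1) le_rfl y
  have e2 := th_mod_mid P hn h0 h1 h
  have e3 := th_mod_mid P (n := n + 1) (by omega) (m := m) (by omega)
    (by push_cast; omega) (y * h)
  have e4 := th_mod_mid P (n := n + 1) (by omega) (m := m + 3) (by omega)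
    (by push_cast; omega) (GG P y * h)
  have e5 := Gen2_mul e1 e2
  have e6 : (iota y + iota (GG P y) * mono 0 (3 * ((1 : ℕ) : ℤ))) * (iota h * mono 0 m) =
      iota (y * h) * (mono 0 m : UU p) + iota (GG P y * h) * mono 0 (m + 3) := by
    have e7 : (mono 0 (m + 3) : UU p) = mono 0 (3 * ((1 : ℕ) : ℤ)) * mono 0 m := by
      rw [mono_mul_mono, add_zero]
      congr 1
      push_cast
      ring
    rw [map_mul, map_mul, e7]
    ring
  rw [e6] at e5
  have e8 := dvd_sub e5 (dvd_add e3 e4)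
  convert e8 using 1
  ring

/-- (iv) `th(1, 0, y) th(n, 0, h) = th(n + 1, 0, y h) + th(n + 1, 3, (G y) h) + th(n + 1, 3 n, y G h)`
modulo `s`, for `n ≥ 1`. -/
theorem th_mul_zero_zero (P : Par p) {n : ℕ} (hn : 1 ≤ n) (y h : FF p) :
    sX ∣ th P 1 0 y * th P n 0 h - (th P (n + 1) 0 (y * h) + th P (n + 1) 3 (GG P y * h) +
      th P (n + 1) (3 * n) (y * GG P h)) := by
  have e1 := th_mod_zero P (n := 1) le_rfl y
  have e2 := th_mod_zero P hn h
  have e3 := th_mod_zero P (n := n + 1) (by omega) (y * h)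
  have e4 := th_mod_mid P (n := n + 1) (by omega) (m := 3) (by omega)
    (by push_cast; omega) (GG P y * h)
  have e5 := th_mod_mid P (n := n + 1) (by omega) (m := 3 * n) (by omega)
    (by push_cast; omega) (y * GG P h)
  have e6 := Gen2_mul e1 e2
  have e7 : (mono 0 (3 * ((n + 1 : ℕ) : ℤ)) : UU p) = mono 0 3 * mono 0 (3 * n) := by
    rw [mono_mul_mono, add_zero]
    congr 1
    push_cast
    ring
  have e8 : (mono 0 (3 * ((1 : ℕ) : ℤ)) : UU p) = mono 0 3 := by
    congr 1
  rw [e7] at e3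
  rw [e8] at e6
  have e9 := dvd_sub e6 (dvd_add (dvd_add e3 e4) e5)
  convert e9 using 1
  simp only [map_mul]
  ring

end Pool.Agent.W_35cfd6_h24
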