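import Pool.Agent.W_35cfd6_h24.Gen2

/-!
# Generation in degree one, III: the induction
-/

set_option autoImplicit false

namespace Pool.Agent.W_35cfd6_h24

open MvPowerSeries

variable {p : ℕ}

theorem Gen3_th (P : Par p) {n : ℕ} {m : ℤ} (h0 : 0 ≤ m) (h1 : m ≤ 3 * n + 3) {y h : FF p}
    (hy : IsHom 1 y) (hh : IsHom n h) :
    th P (n + 1) m (y * h) ∈ RR P ∧ IsHom (n + 1) (th P (n + 1) m (y * h)) := by
  have hyh : IsHom (n + 1) (y * h) := by
    have := hy.mul hh
    rwa [Nat.add_comm] at this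
  have h2 : m ≤ 3 * ((n + 1 : ℕ) : ℤ) := by
    push_cast
    linarith
  exact ⟨th_mem P (Nat.le_add_left 1 n) h0 h2 hyh, isHom_th P (Nat.le_add_left 1 n) h0 h2 hyh⟩

theorem Gen3_mul (P : Par p) {n : ℕ} (hn : 1 ≤ n)
    (ih : ∀ u ∈ RR P, IsHom n u → Gd P n u) {m₁ m₂ : ℤ} (h0 : 0 ≤ m₁) (h1 : m₁ < 3)
    (h2 : 0 ≤ m₂) (h3 : m₂ ≤ 3 * n) {y h : FF p}
    (hy : IsHom 1 y) (hh : IsHom n h) : Gd P (n + 1) (th P 1 m₁ y * th P n m₂ h) := by
  have := (Gd.th_one (P := P) h0 h1 hy).mul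
    (ih _ (th_mem P hn h2 h3 hh) (isHom_th P hn h2 h3 hh))
  rwa [Nat.add_comm 1 n] at this

/-- The middle rows, from degree `n ≥ 1` to degree `n + 1`: `2 ≤ m ≤ 3 (n + 1) - 2`. If
`m ≤ 3 n` write `m = 1 + (m - 1)` with `0 < m - 1 < 3 n`; if `m = 3 n + 1` write
`m = 2 + (3 n - 1)`. Use `th_mul_mid`, `Gd.mul` (with `Gd.th_one` and the hypothesis for
`th P n (m - m₁) h`) and `Gd.congr`. -/
theorem gen_mid (P : Par p) {n : ℕ} (hn : 1 ≤ n)
    (ih : ∀ u ∈ RR P, IsHom n u → Gd P n u) {m : ℤ} (h0 : 2 ≤ m) (h1 : m ≤ 3 * n + 1) {y h : FF p}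
    (hy : IsHom 1 y) (hh : IsHom n h) : Gd P (n + 1) (th P (n + 1) m (y * h)) := by
  obtain ⟨hm1, hm2⟩ := Gen3_th P (n := n) (m := m) (by linarith) (by linarith) hy hh
  by_cases hm : m ≤ 3 * n
  · have h2 := Gen3_mul P hn ih (m₁ := 1) (m₂ := m - 1) (by norm_num) (by norm_num) (by linarith)
      (by linarith) hy hh
    have h3 := th_mul_mid P hn (m₁ := 1) (m₂ := m - 1) (by norm_num) (by norm_num) (by linarith)
      (by linarith) y h
    rw [show (1 : ℤ) + (m - 1) = m by ring] at h3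
    exact h2.congr hm1 hm2 h3
  · have hm' : m = 3 * n + 1 := by omega
    have hn' : (1 : ℤ) ≤ n := by exact_mod_cast hn
    have h2 := Gen3_mul P hn ih (m₁ := 2) (m₂ := 3 * n - 1) (by norm_num) (by norm_num)
      (by linarith) (by linarith) hy hh
    have h3 := th_mul_mid P hn (m₁ := 2) (m₂ := 3 * n - 1) (by norm_num) (by norm_num)
      (by linarith) (by linarith) y h
    rw [show (2 : ℤ) + (3 * n - 1) = m by rw [hm']; ring] at h3
    exact h2.congr hm1 hm2 h3

/-- Row `1`: `th_mul_zero` with `m = 1` and `gen_mid` for row `4 ≤ 3 n + 1`. -/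
theorem gen_one (P : Par p) {n : ℕ} (hn : 1 ≤ n)
    (ih : ∀ u ∈ RR P, IsHom n u → Gd P n u) {y h : FF p}
    (hy : IsHom 1 y) (hh : IsHom n h) : Gd P (n + 1) (th P (n + 1) 1 (y * h)) := by
  have hn' : (1 : ℤ) ≤ n := by exact_mod_cast hn
  obtain ⟨hm1, hm2⟩ := Gen3_th P (n := n) (m := 1) (by norm_num) (by linarith) hy hh
  have h2 := Gen3_mul P hn ih (m₁ := 0) (m₂ := 1) (by norm_num) (by norm_num) (by norm_num)
    (by linarith) hy hh
  have h3 := th_mul_zero P hn (m := 1) (by norm_num) (by linarith) y h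
  rw [show (1 : ℤ) + 3 = 4 by norm_num] at h3
  have h4 := gen_mid P hn ih (m := 4) (by norm_num) (by linarith) (hy.GG P) hh
  refine (h2.sub h4).congr hm1 hm2 ?_
  convert h3 using 1
  ring

/-- Row `3 n + 2`: `th_mul_zero` with `G⁻¹ y` (`GG P.inv y`) in place of `y` and `m = 3 n - 1`, and
`gen_mid` for the row `3 n - 1 ≥ 2`. -/
theorem gen_top (P : Par p) {n : ℕ} (hn : 1 ≤ n)
    (ih : ∀ u ∈ RR P, IsHom n u → Gd P n u) {y h : FF p}
    (hy : IsHom 1 y) (hh : IsHom n h) : Gd P (n + 1) (th P (n + 1) (3 * n + 2) (y * h)) := by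
  have hn' : (1 : ℤ) ≤ n := by exact_mod_cast hn
  obtain ⟨hm1, hm2⟩ := Gen3_th P (n := n) (m := 3 * n + 2) (by linarith) (by linarith) hy hh
  have h2 := Gen3_mul P hn ih (m₁ := 0) (m₂ := 3 * n - 1) (by norm_num) (by norm_num)
    (by linarith) (by linarith) (hy.GG P.inv) hh
  have h3 := th_mul_zero P hn (m := 3 * n - 1) (by linarith) (by linarith) (GG P.inv y) h
  rw [show (3 : ℤ) * n - 1 + 3 = 3 * n + 2 by ring, GG_GG_inv] at h3
  have h4 := gen_mid P hn ih (m := 3 * n - 1) (by linarith) (by linarith) (hy.GG P.inv) hh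
  refine (h2.sub h4).congr hm1 hm2 ?_
  convert h3 using 1
  ring

/-- Row `0`: `th_mul_zero_zero` and `gen_mid` for the rows `3` and `3 n` (`y * G h` with `G h`
homogeneous of degree `n`). -/
theorem gen_zero (P : Par p) {n : ℕ} (hn : 1 ≤ n)
    (ih : ∀ u ∈ RR P, IsHom n u → Gd P n u) {y h : FF p}
    (hy : IsHom 1 y) (hh : IsHom n h) : Gd P (n + 1) (th P (n + 1) 0 (y * h)) := by
  have hn' : (1 : ℤ) ≤ n := by exact_mod_cast hn
  obtain ⟨hm1, hm2⟩ := Gen3_th P (n := n) (m := 0) le_rfl (by linarith) hy hh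
  have h2 := Gen3_mul P hn ih (m₁ := 0) (m₂ := 0) le_rfl (by norm_num) le_rfl
    (by linarith) hy hh
  have h3 := th_mul_zero_zero P hn y h
  have h4 := gen_mid P hn ih (m := 3) (by norm_num) (by linarith) (hy.GG P) hh
  have h5 := gen_mid P hn ih (m := 3 * n) (by linarith) (by linarith) hy (hh.GG P)
  refine ((h2.sub h4).sub h5).congr hm1 hm2 ?_
  convert h3 using 1
  ring

/-- `j` is the least index with `e (some j) > 0` -/
def Gen3_l (e : V →₀ ℕ) (j : Fin 4) : Prop := 0 < e (some j) ∧ ∀ i < j, e (some i) = 0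

theorem Gen3_l_unique {e : V →₀ ℕ} {j j' : Fin 4} (h : Gen3_l e j) (h' : Gen3_l e j') : j = j' := by
  rcases lt_trichotomy j j' with h1 | h1 | h1
  · have h2 := h'.2 j h1
    have h3 := h.1
    omega
  · exact h1
  · have h2 := h.2 j' h1
    have h3 := h'.1
    omega

theorem Gen3_l_exists {e : V →₀ ℕ} (h : dg e ≠ 0) : ∃ j, Gen3_l e j := by
  classical
  have hne : (Finset.univ.filter fun j : Fin 4 => 0 < e (some j)).Nonempty := by
    by_contra hcon
    apply h
    rw [Finset.not_nonempty_iff_eq_empty, Finset.filter_eq_empty_iff] at hcon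
    unfold dg
    exact Finset.sum_eq_zero fun j hj => Nat.eq_zero_of_not_pos (hcon hj)
  refine ⟨(Finset.univ.filter fun j : Fin 4 => 0 < e (some j)).min' hne,
    (Finset.mem_filter.1 (Finset.min'_mem _ hne)).2, fun i hi => ?_⟩
  by_contra h0
  have h1 := Finset.min'_le (Finset.univ.filter fun j : Fin 4 => 0 < e (some j)) i
    (Finset.mem_filter.2 ⟨Finset.mem_univ _, Nat.pos_of_ne_zero h0⟩)
  exact absurd hi (not_lt.2 h1)

/-- the part of `f` with least index `j`, divided by `x_j` -/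
noncomputable def Gen3_h (f : FF p) (j : Fin 4) : FF p := fun e =>
  open Classical in
  if Gen3_l (e + Finsupp.single (some j) 1) j then coeff (e + Finsupp.single (some j) 1) f else 0

theorem Gen3_coeff_h (f : FF p) (j : Fin 4) (e : V →₀ ℕ) : coeff e (Gen3_h f j) =
    open Classical in
    if Gen3_l (e + Finsupp.single (some j) 1) j then coeff (e + Finsupp.single (some j) 1) f
    else 0 := rfl

theorem Gen3_coeff (f : FF p) (j : Fin 4) (e : V →₀ ℕ) :
    coeff e (X (some j) * Gen3_h f j) =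
      open Classical in if Gen3_l e j then coeff e f else 0 := by
  classical
  rw [X, coeff_monomial_mul]
  by_cases h : Finsupp.single (some j) 1 ≤ e
  · rw [if_pos h, one_mul, Gen3_coeff_h, tsub_add_cancel_of_le h]
  · rw [if_neg h, if_neg]
    intro h1
    apply h
    rw [Finsupp.single_le_iff]
    exact h1.1

/-- A homogeneous element of `FF p` of degree `n + 1` is `∑ j, x_j h_j` with `h_j` homogeneous of
degree `n` (assign every exponent `e` with `dg e = n + 1` to the least `j` with `e (some j) > 0`). -/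
theorem exists_split {n : ℕ} {f : FF p} (hf : IsHom (n + 1) f) :
    ∃ h : Fin 4 → FF p, (∀ j, IsHom n (h j)) ∧ f = ∑ j : Fin 4, X (some j) * h j := by
  classical
  refine ⟨Gen3_h f, fun j e he => ?_, ?_⟩
  · rw [Gen3_coeff_h] at he
    split_ifs at he with h1
    · have h2 := hf _ he
      rw [dg_add, dg_single_some] at h2
      omega
    · exact absurd rfl he
  · ext e
    rw [map_sum]
    simp only [Gen3_coeff]
    by_cases h0 : coeff e f = 0
    · rw [h0]
      exact (Finset.sum_eq_zero fun j _ => by split_ifs <;> rfl).symm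
    · obtain ⟨j, hj⟩ := Gen3_l_exists (e := e) (by rw [hf e h0]; exact Nat.succ_ne_zero n)
      rw [Finset.sum_eq_single j, if_pos hj]
      · intro j' _ hj'
        rw [if_neg]
        intro h1
        exact hj' (Gen3_l_unique h1 hj)
      · intro h1
        exact absurd (Finset.mem_univ _) h1

theorem Gen3_row (P : Par p) {n : ℕ} (hn : 1 ≤ n)
    (ih : ∀ u ∈ RR P, IsHom n u → Gd P n u) {m : ℕ} (hm : m < 3 * (n + 1)) {y h : FF p}
    (hy : IsHom 1 y) (hh : IsHom n h) : Gd P (n + 1) (th P (n + 1) m (y * h)) := by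
  by_cases h0 : m = 0
  · subst h0
    exact gen_zero P hn ih hy hh
  by_cases h1 : m = 1
  · subst h1
    exact gen_one P hn ih hy hh
  by_cases h2 : m = 3 * n + 2
  · subst h2
    have h3 := gen_top P hn ih hy hh
    have h4 : ((3 * n + 2 : ℕ) : ℤ) = 3 * n + 2 := by push_cast; ring
    rw [h4]
    exact h3
  · exact gen_mid P hn ih (by omega) (by omega) hy hh

theorem Gen3_split (P : Par p) {n : ℕ} (hn : 1 ≤ n)
    (ih : ∀ u ∈ RR P, IsHom n u → Gd P n u) {m : ℕ} (hm : m < 3 * (n + 1)) {f : FF p}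
    (hf : IsHom (n + 1) f) : Gd P (n + 1) (th P (n + 1) m f) := by
  obtain ⟨h, hh, hfh⟩ := exists_split hf
  have h0 : (0 : ℤ) ≤ m := Int.natCast_nonneg m
  have h1 : (m : ℤ) ≤ 3 * ((n + 1 : ℕ) : ℤ) := by
    push_cast
    omega
  rw [hfh, Fin.sum_univ_four, th_add P (Nat.le_add_left 1 n) h0 h1,
    th_add P (Nat.le_add_left 1 n) h0 h1, th_add P (Nat.le_add_left 1 n) h0 h1]
  exact (((Gen3_row P hn ih hm (IsHom.X _) (hh _)).add
    (Gen3_row P hn ih hm (IsHom.X _) (hh _))).add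
    (Gen3_row P hn ih hm (IsHom.X _) (hh _))).add (Gen3_row P hn ih hm (IsHom.X _) (hh _))

/-- Every homogeneous element of `RR P` of degree `n` is congruent modulo `s` to a polynomial in
the generators. Induction on `n`: `Gd.of_hom_zero`, `Gd.of_hom_one`; for `n + 1` with `n ≥ 1` use
`RR_decomp`, `Gd.sum`, `exists_split` with `th_add`, and the four lemmas above for the rows
`0 ≤ m < 3 (n + 1)`. -/
theorem gen_all (P : Par p) (n : ℕ) : ∀ u ∈ RR P, IsHom n u → Gd P n u := by
  induction n with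
  | zero => exact fun u hu h => Gd.of_hom_zero hu h
  | succ n ih =>
    intro u hu h
    by_cases hn : n = 0
    · subst hn
      exact Gd.of_hom_one hu h
    · have hn1 : 1 ≤ n := Nat.one_le_iff_ne_zero.2 hn
      rw [RR_decomp P (Nat.le_add_left 1 n) hu h]
      refine Gd.sum _ fun m hm => ?_
      exact Gen3_split P hn1 ih (Finset.mem_range.1 hm) (h.row m)

end Pool.Agent.W_35cfd6_h24
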