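import Pool.Agent.W_35cfd6_h24.RowMul

/-!
# The embedding of `UU p` in a field of Hahn series
-/

set_option autoImplicit false

namespace Pool.Agent.W_35cfd6_h24

open MvPowerSeries

variable {p : ℕ}

/-- The exponent group: `Fin 7 → ℤ` with the lexicographic order. -/
abbrev G7 := Lex (Fin 7 → ℤ)

/-- The exponent of `T^m s^(e none) x^e`: total degree (without `T`), `T`-exponent, `s`-exponent,
`x`-exponents. -/
def code (e : V →₀ ℕ) (m : ℤ) : G7 :=
  toLex ![(e none : ℤ) + dg e, m, e none, e (some 0), e (some 1), e (some 2), e (some 3)]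

theorem code_add (e e' : V →₀ ℕ) (m m' : ℤ) : code (e + e') (m + m') = code e m + code e' m' := by
  have h : dg (e + e') = dg e + dg e' := by simp [dg, Finset.sum_add_distrib]
  unfold code
  rw [← toLex_add]
  refine congrArg toLex (funext fun i => ?_)
  fin_cases i
  · simp [h]; ring
  all_goals simp

theorem code_injective {e e' : V →₀ ℕ} {m m' : ℤ} (h : code e m = code e' m') :
    e = e' ∧ m = m' := by
  have h1 := toLex.injective h
  have hm : m = m' := by simpa using congrFun h1 1
  have h2 : e none = e' none := by simpa using congrFun h1 2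
  have h3 : e (some 0) = e' (some 0) := by simpa using congrFun h1 3
  have h4 : e (some 1) = e' (some 1) := by simpa using congrFun h1 4
  have h5 : e (some 2) = e' (some 2) := by simpa using congrFun h1 5
  have h6 : e (some 3) = e' (some 3) := by simpa using congrFun h1 6
  refine ⟨?_, hm⟩
  ext v
  rcases v with _ | j
  · exact h2
  · fin_cases j
    · exact h3
    · exact h4
    · exact h5
    · exact h6

theorem Hahn2_le {γ γ' : G7} (h : γ < γ') : (ofLex γ) 0 ≤ (ofLex γ') 0 := by
  obtain ⟨i, hi, hlt⟩ := h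
  by_cases h0 : i = 0
  · subst h0
    exact le_of_lt hlt
  · exact le_of_eq (hi 0 (Fin.pos_of_ne_zero h0))

/-- The set of codes of a locally finite set of exponents is well ordered: the first coordinate is
the total degree, a natural number; a nonempty subset has a least total degree, and the elements of
the set with given total degree are finitely many (finitely many `e`, and for each of them finitely
many `m`), so there is a least one among them. (`Set.IsPWO` and `Set.IsWF` agree for linear
orders.) -/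
theorem isPWO_code (u : UU p) : {γ : G7 | ∃ e m, γ = code e m ∧ co u e m ≠ 0}.IsPWO := by
  refine Set.partiallyWellOrderedOn_iff_exists_lt.2 fun f hf => ?_
  by_contra hcon
  push Not at hcon
  have hfin : {γ : G7 | (∃ e m, γ = code e m ∧ co u e m ≠ 0) ∧
      (ofLex γ) 0 ≤ (ofLex (f 0)) 0}.Finite := by
    have h1 : {e : V →₀ ℕ | ∀ v, e v ≤ ((ofLex (f 0)) 0).toNat}.Finite := by
      refine (Set.finite_Iic (Finsupp.equivFunOnFinite.symm
        (fun _ : V => ((ofLex (f 0)) 0).toNat) : V →₀ ℕ)).subset fun e he v => he v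
    refine (h1.biUnion fun e _ => (finite_co u e).image (code e)).subset ?_
    rintro γ ⟨⟨e, m, rfl, hne⟩, hle⟩
    refine Set.mem_biUnion (x := e) ?_ ⟨m, hne, rfl⟩
    have h2 : (ofLex (code e m)) 0 = (e none : ℤ) + dg e := rfl
    rw [h2] at hle
    intro v
    have h3 : e v ≤ e none + dg e := by
      rcases v with _ | j
      · exact Nat.le_add_right _ _
      · exact (Finset.single_le_sum (f := fun j => e (some j)) (fun _ _ => Nat.zero_le _)
          (Finset.mem_univ j)).trans (Nat.le_add_left _ _)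
    omega
  have hlt : ∀ m n, m < n → f n < f m := fun m n h => hcon m n h
  have hinj : Function.Injective f := by
    intro m n h
    rcases lt_trichotomy m n with h1 | h1 | h1
    · exact absurd h (hlt m n h1).ne'
    · exact h1
    · exact absurd h (hlt n m h1).ne
  refine Set.infinite_of_injective_forall_mem hinj (fun n => ?_) hfin
  refine ⟨hf n, ?_⟩
  rcases Nat.eq_zero_or_pos n with h1 | h1
  · rw [h1]
  · exact Hahn2_le (hlt 0 n h1)

/-- the coefficients -/
noncomputable def Hahn2_c (u : UU p) (γ : G7) : ZMod p :=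
  open Classical in
  if h : ∃ x : (V →₀ ℕ) × ℤ, code x.1 x.2 = γ then co u h.choose.1 h.choose.2 else 0

theorem Hahn2_c_code (u : UU p) (e : V →₀ ℕ) (m : ℤ) : Hahn2_c u (code e m) = co u e m := by
  have h : ∃ x : (V →₀ ℕ) × ℤ, code x.1 x.2 = code e m := ⟨(e, m), rfl⟩
  unfold Hahn2_c
  rw [dif_pos h]
  obtain ⟨h1, h2⟩ := code_injective h.choose_spec
  rw [h1, h2]

theorem Hahn2_c_ne (u : UU p) {γ : G7} (h : ∀ e m, code e m ≠ γ) : Hahn2_c u γ = 0 := by
  unfold Hahn2_c
  rw [dif_neg]
  rintro ⟨x, hx⟩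
  exact h _ _ hx

theorem Hahn2_ex {u : UU p} {γ : G7} (h : Hahn2_c u γ ≠ 0) :
    ∃ e m, γ = code e m ∧ co u e m ≠ 0 := by
  by_cases h1 : ∃ e m, code e m = γ
  · obtain ⟨e, m, rfl⟩ := h1
    rw [Hahn2_c_code] at h
    exact ⟨e, m, rfl, h⟩
  · push Not at h1
    exact absurd (Hahn2_c_ne u h1) h

theorem Hahn2_supp (u : UU p) : (Function.support (Hahn2_c u)).IsPWO :=
  (isPWO_code u).mono fun _ h => Hahn2_ex h

/-- the Hahn series -/
noncomputable def Hahn2_s (u : UU p) : HahnSeries G7 (ZMod p) where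
  coeff := Hahn2_c u
  isPWO_support' := Hahn2_supp u

theorem Hahn2_s_coeff (u : UU p) (γ : G7) : (Hahn2_s u).coeff γ = Hahn2_c u γ := rfl

theorem Hahn2_s_mul (u v : UU p) : Hahn2_s (u * v) = Hahn2_s u * Hahn2_s v := by
  classical
  ext γ
  rw [HahnSeries.coeff_mul, Hahn2_s_coeff]
  by_cases h1 : ∃ e m, code e m = γ
  · obtain ⟨e, M, rfl⟩ := h1
    rw [Hahn2_c_code, co_mul]
    set S : Finset ℤ := (Finset.HasAntidiagonal.antidiagonal e).biUnion
      fun x => (MvPowerSeries.coeff x.1 u).coeff.support with hS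
    have hmem : ∀ x ∈ Finset.HasAntidiagonal.antidiagonal e, ∀ m, co u x.1 m ≠ 0 → m ∈ S := by
      intro x hx m hm
      rw [hS, Finset.mem_biUnion]
      exact ⟨x, hx, Finsupp.mem_support_iff.mpr hm⟩
    have h2 : ∑ x ∈ Finset.HasAntidiagonal.antidiagonal e, ∑ᶠ m : ℤ, co u x.1 m * co v x.2 (M - m)
        = ∑ y ∈ (Finset.HasAntidiagonal.antidiagonal e) ×ˢ S,
          co u y.1.1 y.2 * co v y.1.2 (M - y.2) := by
      rw [Finset.sum_product]
      refine Finset.sum_congr rfl fun x hx => ?_
      refine finsum_eq_finsetSum_of_support_subset _ fun m hm => ?_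
      rw [Function.mem_support] at hm
      exact hmem x hx m (left_ne_zero_of_mul hm)
    rw [h2]
    refine Finset.sum_bij_ne_zero
      (fun y _ _ => (code y.1.1 y.2, code y.1.2 (M - y.2))) ?_ ?_ ?_ ?_
    · intro y hy hne
      rw [Finset.mem_product, Finset.HasAntidiagonal.mem_antidiagonal] at hy
      rw [Finset.mem_antidiagonal]
      refine ⟨?_, ?_, ?_⟩
      · rw [HahnSeries.mem_support, Hahn2_s_coeff, Hahn2_c_code]
        exact left_ne_zero_of_mul hne
      · rw [HahnSeries.mem_support, Hahn2_s_coeff, Hahn2_c_code]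
        exact right_ne_zero_of_mul hne
      · rw [← code_add, hy.1, add_sub_cancel]
    · intro y hy hne y' hy' hne' hyy
      rw [Prod.mk.injEq] at hyy
      obtain ⟨h3, h4⟩ := code_injective hyy.1
      obtain ⟨h5, -⟩ := code_injective hyy.2
      exact Prod.ext (Prod.ext h3 h5) h4
    · intro y hy hne
      rw [Finset.mem_antidiagonal] at hy
      rw [Hahn2_s_coeff, Hahn2_s_coeff] at hne
      obtain ⟨e₁, m₁, h3, h3'⟩ := Hahn2_ex (left_ne_zero_of_mul hne)
      obtain ⟨e₂, m₂, h4, h4'⟩ := Hahn2_ex (right_ne_zero_of_mul hne)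
      have h5 := hy.2.2
      rw [h3, h4, ← code_add] at h5
      obtain ⟨h6, h7⟩ := code_injective h5
      have h8 : M - m₁ = m₂ := by omega
      refine ⟨((e₁, e₂), m₁), ?_, ?_, ?_⟩
      · rw [Finset.mem_product]
        exact ⟨Finset.HasAntidiagonal.mem_antidiagonal.2 h6,
          hmem (e₁, e₂) (Finset.HasAntidiagonal.mem_antidiagonal.2 h6) m₁ h3'⟩
      · simp only
        rw [h8]
        rw [h3, h4, Hahn2_c_code, Hahn2_c_code] at hne
        exact hne
      · simp only
        rw [h8, ← h3, ← h4]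
    · intro y hy hne
      simp only [Hahn2_s_coeff, Hahn2_c_code]
  · push Not at h1
    rw [Hahn2_c_ne _ h1]
    symm
    refine Finset.sum_eq_zero fun y hy => ?_
    by_contra hne
    rw [Finset.mem_antidiagonal] at hy
    rw [Hahn2_s_coeff, Hahn2_s_coeff] at hne
    obtain ⟨e₁, m₁, h3, h3'⟩ := Hahn2_ex (left_ne_zero_of_mul hne)
    obtain ⟨e₂, m₂, h4, h4'⟩ := Hahn2_ex (right_ne_zero_of_mul hne)
    have h5 := hy.2.2
    rw [h3, h4, ← code_add] at h5
    exact h1 _ _ h5

theorem Hahn2_code_zero : code 0 0 = 0 := by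
  have h := code_add 0 0 0 0
  rw [add_zero, add_zero] at h
  exact left_eq_add.1 h

theorem Hahn2_s_one : Hahn2_s (1 : UU p) = 1 := by
  ext γ
  rw [Hahn2_s_coeff, HahnSeries.coeff_one]
  by_cases h1 : ∃ e m, code e m = γ
  · obtain ⟨e, m, rfl⟩ := h1
    rw [Hahn2_c_code, co_one]
    by_cases h2 : e = 0 ∧ m = 0
    · rw [if_pos h2, h2.1, h2.2, Hahn2_code_zero, if_pos rfl]
    · rw [if_neg h2, if_neg]
      intro h3
      rw [← Hahn2_code_zero] at h3
      exact h2 (code_injective h3)
  · push Not at h1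
    rw [Hahn2_c_ne _ h1, if_neg]
    rintro rfl
    exact h1 0 0 Hahn2_code_zero

theorem Hahn2_s_add (u v : UU p) : Hahn2_s (u + v) = Hahn2_s u + Hahn2_s v := by
  ext γ
  rw [HahnSeries.coeff_add, Hahn2_s_coeff, Hahn2_s_coeff, Hahn2_s_coeff]
  by_cases h1 : ∃ e m, code e m = γ
  · obtain ⟨e, m, rfl⟩ := h1
    rw [Hahn2_c_code, Hahn2_c_code, Hahn2_c_code, co_add]
  · push Not at h1
    rw [Hahn2_c_ne _ h1, Hahn2_c_ne _ h1, Hahn2_c_ne _ h1, add_zero]

theorem Hahn2_s_zero : Hahn2_s (0 : UU p) = 0 := by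
  have h := Hahn2_s_add (0 : UU p) 0
  rw [add_zero] at h
  exact left_eq_add.1 h

/-- The embedding. Define `φ u` with coefficient `co u e m` at `code e m` (well defined by
`code_injective`) and `0` elsewhere; the support is `PWO` by `isPWO_code`. It is additive,
`φ 1 = 1`, and multiplicative: the coefficient of `φ u * φ v` at `γ` is the sum of
`(φ u).coeff γ₁ * (φ v).coeff γ₂` over the pairs of elements of the supports with `γ₁ + γ₂ = γ`,
i.e. over the pairs of exponents `(e₁, m₁), (e₂, m₂)` with nonzero coefficients and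
`code (e₁ + e₂) (m₁ + m₂) = γ`. If `γ` is not a code the sum is empty; if `γ = code e M` it is the
sum in `co_mul` (over the antidiagonal of `e` and over `m₁`, with `m₂ = M - m₁`). -/
theorem exists_toHahn (p : ℕ) [Fact p.Prime] : ∃ φ : UU p →+* HahnSeries G7 (ZMod p),
    (∀ u e m, (φ u).coeff (code e m) = co u e m) ∧
    (∀ u γ, (∀ e m, code e m ≠ γ) → (φ u).coeff γ = 0) := by
  refine ⟨{ toFun := Hahn2_s
            map_one' := Hahn2_s_one
            map_mul' := Hahn2_s_mul
            map_zero' := Hahn2_s_zero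
            map_add' := Hahn2_s_add }, fun u e m => ?_, fun u γ h => ?_⟩
  · exact Hahn2_c_code u e m
  · exact Hahn2_c_ne u h

/-- The embedding of `UU p` in the field of Hahn series. -/
noncomputable def toHahn (p : ℕ) [Fact p.Prime] : UU p →+* HahnSeries G7 (ZMod p) :=
  (exists_toHahn p).choose

theorem toHahn_coeff [Fact p.Prime] (u : UU p) (e : V →₀ ℕ) (m : ℤ) :
    (toHahn p u).coeff (code e m) = co u e m := (exists_toHahn p).choose_spec.1 u e m

theorem toHahn_coeff_ne [Fact p.Prime] (u : UU p) {γ : G7} (h : ∀ e m, code e m ≠ γ) :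
    (toHahn p u).coeff γ = 0 := (exists_toHahn p).choose_spec.2 u γ h

end Pool.Agent.W_35cfd6_h24
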