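import Pool.Agent.W_35cfd6_h24.Hahn2

/-!
# The cone of exponents
-/

set_option autoImplicit false

namespace Pool.Agent.W_35cfd6_h24

open MvPowerSeries

variable {p : ℕ}

theorem toHahn_injective (p : ℕ) [Fact p.Prime] : Function.Injective (toHahn p) := by
  rw [injective_iff_map_eq_zero]
  intro u hu
  refine ext_co fun e m => ?_
  rw [← toHahn_coeff, hu, co_zero]
  rfl

/-- The cone: `γ 0` is the total degree, the `x`-exponents are nonnegative, and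
`j γ_1 - 3 (x-degree) j (j + 1) / 2 ≤ γ_2` for all integers `j`. -/
def CC : AddSubmonoid G7 where
  carrier := {γ | ofLex γ 0 = ofLex γ 2 + (ofLex γ 3 + ofLex γ 4 + ofLex γ 5 + ofLex γ 6) ∧
    0 ≤ ofLex γ 3 ∧ 0 ≤ ofLex γ 4 ∧ 0 ≤ ofLex γ 5 ∧ 0 ≤ ofLex γ 6 ∧
    ∀ j : ℤ, j * ofLex γ 1 - 3 * (ofLex γ 3 + ofLex γ 4 + ofLex γ 5 + ofLex γ 6) *
      (j * (j + 1) / 2) ≤ ofLex γ 2}
  add_mem' := by
    rintro a b ⟨h0, h3, h4, h5, h6, hj⟩ ⟨k0, k3, k4, k5, k6, kj⟩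
    refine ⟨?_, ?_, ?_, ?_, ?_, fun j => ?_⟩
    · change ofLex a 0 + ofLex b 0 = ofLex a 2 + ofLex b 2 + (ofLex a 3 + ofLex b 3 +
        (ofLex a 4 + ofLex b 4) + (ofLex a 5 + ofLex b 5) + (ofLex a 6 + ofLex b 6))
      linarith
    · change 0 ≤ ofLex a 3 + ofLex b 3
      linarith
    · change 0 ≤ ofLex a 4 + ofLex b 4
      linarith
    · change 0 ≤ ofLex a 5 + ofLex b 5
      linarith
    · change 0 ≤ ofLex a 6 + ofLex b 6
      linarith
    · have h := hj j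
      have k := kj j
      change j * (ofLex a 1 + ofLex b 1) - 3 * (ofLex a 3 + ofLex b 3 +
        (ofLex a 4 + ofLex b 4) + (ofLex a 5 + ofLex b 5) + (ofLex a 6 + ofLex b 6)) *
          (j * (j + 1) / 2) ≤ ofLex a 2 + ofLex b 2
      linarith
  zero_mem' := by
    refine ⟨?_, ?_, ?_, ?_, ?_, fun j => ?_⟩
    · change (0 : ℤ) = 0 + (0 + 0 + 0 + 0)
      rfl
    · exact le_refl (0 : ℤ)
    · exact le_refl (0 : ℤ)
    · exact le_refl (0 : ℤ)
    · exact le_refl (0 : ℤ)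
    · change j * 0 - 3 * (0 + 0 + 0 + 0) * (j * (j + 1) / 2) ≤ 0
      simp

theorem code_mem_CC (e : V →₀ ℕ) (m : ℤ) :
    code e m ∈ CC ↔ ∀ j : ℤ, j * m - 3 * dg e * (j * (j + 1) / 2) ≤ e none := by
  have hdg : (dg e : ℤ) = (e (some 0) : ℤ) + e (some 1) + e (some 2) + e (some 3) := by
    unfold dg
    rw [Fin.sum_univ_four]
    push_cast
    ring
  have key : code e m ∈ CC ↔ ((e none : ℤ) + dg e = (e none : ℤ) + ((e (some 0) : ℤ) +
      e (some 1) + e (some 2) + e (some 3)) ∧ 0 ≤ (e (some 0) : ℤ) ∧ 0 ≤ (e (some 1) : ℤ) ∧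
      0 ≤ (e (some 2) : ℤ) ∧ 0 ≤ (e (some 3) : ℤ) ∧
      ∀ j : ℤ, j * m - 3 * ((e (some 0) : ℤ) + e (some 1) + e (some 2) + e (some 3)) *
        (j * (j + 1) / 2) ≤ (e none : ℤ)) := Iff.rfl
  rw [key, hdg]
  constructor
  · rintro ⟨-, -, -, -, -, h⟩
    exact h
  · intro h
    exact ⟨rfl, Int.natCast_nonneg _, Int.natCast_nonneg _, Int.natCast_nonneg _,
      Int.natCast_nonneg _, h⟩

theorem HahnC_root (a b : ℤ) (h : ∀ j : ℕ, 0 ≤ a + j * b) : 0 ≤ b := by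
  by_contra hb
  have h0 := h 0
  have h1 := h (a.toNat + 1)
  push_cast at h0 h1
  rw [zero_mul, add_zero] at h0
  rw [Int.toNat_of_nonneg h0] at h1
  nlinarith

theorem HahnC_apply (γ δ : G7) (j : ℕ) (i : Fin 7) :
    ofLex (δ + j • γ) i = ofLex δ i + j * ofLex γ i := by
  have h : ofLex (δ + j • γ) i = ofLex δ i + j • ofLex γ i := rfl
  rw [h, nsmul_eq_mul]

/-- The cone is defined by homogeneous linear inequalities (and one equality): if `L δ + j L γ ≥ 0`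
for all natural numbers `j` then `L γ ≥ 0`. -/
theorem CC_root (γ δ : G7) (h : ∀ j : ℕ, δ + j • γ ∈ CC) : γ ∈ CC := by
  have key : ∀ j : ℕ, (ofLex (δ + j • γ) 0 = ofLex (δ + j • γ) 2 + (ofLex (δ + j • γ) 3 +
      ofLex (δ + j • γ) 4 + ofLex (δ + j • γ) 5 + ofLex (δ + j • γ) 6) ∧
    0 ≤ ofLex (δ + j • γ) 3 ∧ 0 ≤ ofLex (δ + j • γ) 4 ∧ 0 ≤ ofLex (δ + j • γ) 5 ∧
    0 ≤ ofLex (δ + j • γ) 6 ∧
    ∀ i : ℤ, i * ofLex (δ + j • γ) 1 - 3 * (ofLex (δ + j • γ) 3 + ofLex (δ + j • γ) 4 +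
      ofLex (δ + j • γ) 5 + ofLex (δ + j • γ) 6) *
      (i * (i + 1) / 2) ≤ ofLex (δ + j • γ) 2) := h
  simp only [HahnC_apply] at key
  refine ⟨?_, ?_, ?_, ?_, ?_, fun i => ?_⟩
  · have h0 := (key 0).1
    have h1 := (key 1).1
    push_cast at h0 h1
    linarith
  · exact HahnC_root _ _ fun j => (key j).2.1
  · exact HahnC_root _ _ fun j => (key j).2.2.1
  · exact HahnC_root _ _ fun j => (key j).2.2.2.1
  · exact HahnC_root _ _ fun j => (key j).2.2.2.2.1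
  · have := HahnC_root (ofLex δ 2 - (i * ofLex δ 1 - 3 * (ofLex δ 3 + ofLex δ 4 +
      ofLex δ 5 + ofLex δ 6) * (i * (i + 1) / 2)))
      (ofLex γ 2 - (i * ofLex γ 1 - 3 * (ofLex γ 3 + ofLex γ 4 +
      ofLex γ 5 + ofLex γ 6) * (i * (i + 1) / 2))) (fun j => by
        have := (key j).2.2.2.2.2 i
        linarith)
    linarith

theorem HahnC_code (γ : G7) (h : γ ∈ CC) : ∃ e m, code e m = γ := by
  obtain ⟨h0, h3, h4, h5, h6, hj⟩ := h
  have h2 : 0 ≤ ofLex γ 2 := by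
    have := hj 0
    simpa using this
  obtain ⟨n2, k2⟩ := Int.eq_ofNat_of_zero_le h2
  obtain ⟨n3, k3⟩ := Int.eq_ofNat_of_zero_le h3
  obtain ⟨n4, k4⟩ := Int.eq_ofNat_of_zero_le h4
  obtain ⟨n5, k5⟩ := Int.eq_ofNat_of_zero_le h5
  obtain ⟨n6, k6⟩ := Int.eq_ofNat_of_zero_le h6
  rw [k2, k3, k4, k5, k6] at h0
  refine ⟨Finsupp.equivFunOnFinite.symm fun v => v.elim n2 ![n3, n4, n5, n6], ofLex γ 1, ?_⟩
  have hfun : ofLex (code (Finsupp.equivFunOnFinite.symm fun v => v.elim n2 ![n3, n4, n5, n6])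
      (ofLex γ 1)) = ofLex γ := by
    funext i
    fin_cases i
    · refine Eq.trans ?_ h0.symm
      simp [code, dg, Fin.sum_univ_four]
    · rfl
    · exact k2.symm
    · exact k3.symm
    · exact k4.symm
    · exact k5.symm
    · exact k6.symm
  exact ofLex_inj.mp hfun

/-- A Hahn series with support in the cone comes from `UU p`: each `γ ∈ CC` is `code e m` for
natural exponents `e` (`j = 0` gives `γ 2 ≥ 0`), and for given `e` there are finitely many `m` with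
`code e m ∈ CC`: `j = 1` gives `m ≤ e none + 3 dg e`, `j = -1` gives `-m ≤ e none`. Use `mkU`. -/
theorem exists_of_support [Fact p.Prime] (y : HahnSeries G7 (ZMod p))
    (h : y.support ⊆ (CC : Set G7)) :
    ∃ Y : UU p, toHahn p Y = y ∧ ∀ e m, co Y e m ≠ 0 → code e m ∈ CC := by
  have hC : ∀ e m, y.coeff (code e m) ≠ 0 → code e m ∈ CC := fun e m hm => h hm
  have hf : ∀ e : V →₀ ℕ, (Function.support fun m : ℤ => y.coeff (code e m)).Finite := by
    intro e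
    refine (Set.finite_Icc (-(e none : ℤ)) ((e none : ℤ) + 3 * dg e)).subset fun m hm => ?_
    have hm1 := (code_mem_CC e m).1 (hC e m hm)
    have h1 := hm1 1
    have h2 := hm1 (-1)
    norm_num at h1 h2
    constructor <;> linarith
  refine ⟨mkU (fun e m => y.coeff (code e m)) hf, ?_, fun e m hm => hC e m (by simpa using hm)⟩
  refine HahnSeries.ext ?_
  funext γ
  by_cases hγ : ∃ e m, code e m = γ
  · obtain ⟨e, m, rfl⟩ := hγ
    rw [toHahn_coeff, co_mkU]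
  · rw [toHahn_coeff_ne _ fun e m hem => hγ ⟨e, m, hem⟩]
    by_contra hne
    exact hγ (HahnC_code γ (h (Ne.symm hne)))

end Pool.Agent.W_35cfd6_h24
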