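import Pool.Agent.W_35cfd6_h24.Psi

/-!
# The coefficient of `(x_0 x_1 x_2 x_3)^m` in an invariant form of degree `4 m`
-/

set_option autoImplicit false

namespace Pool.Agent.W_35cfd6_h24

open MvPowerSeries

variable {p : ℕ}

/-- The coefficient of `x^i` (`i` an exponent; its `s`-exponent is ignored) as a power series
in `s`. -/
noncomputable def xc (i : V →₀ ℕ) (f : FF p) : PowerSeries (ZMod p) :=
  PowerSeries.mk fun t => coeff (i.erase none + Finsupp.single none t) f

/-- The matrix of `x_0 ↦ (y_0 - y_1) / 2`, `x_1 ↦ σ (y_0 + y_1) / 2`, `x_2 ↦ (y_2 - y_3) / 2`,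
`x_3 ↦ σ (y_2 + y_3) / 2`. -/
noncomputable def Lmat (p : ℕ) [Fact p.Prime] : MT p :=
  let h : PowerSeries (ZMod p) := PowerSeries.C ((2 : ZMod p)⁻¹)
  !![h, -h, 0, 0;
     PowerSeries.X * h, PowerSeries.X * h, 0, 0;
     0, 0, h, -h;
     0, 0, PowerSeries.X * h, PowerSeries.X * h]

/-- The matrix of `y_0 ↦ x_1 + σ x_0`, `y_1 ↦ x_1 - σ x_0`, `y_2 ↦ x_3 + σ x_2`,
`y_3 ↦ x_3 - σ x_2`. -/
noncomputable def Mmat (p : ℕ) : MT p :=
  !![PowerSeries.X, 1, 0, 0;
     -PowerSeries.X, 1, 0, 0;
     0, 0, PowerSeries.X, 1;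
     0, 0, -PowerSeries.X, 1]

/-- The diagonal matrix of the eigenvalues. -/
noncomputable def Par.Dmat (P : Par p) : MT p := Matrix.diagonal ![P.wU, P.wU', P.wV, P.wV']

theorem Inv_sq_X : sq (PowerSeries.X : PowerSeries (ZMod p)) = PowerSeries.X ^ 2 := by
  unfold sq
  exact PowerSeries.expand_X 2 two_ne_zero

theorem mat_L [Fact p.Prime] (P : Par p) : P.mat.map sq * Lmat p = Lmat p * P.Dmat := by
  refine Matrix.ext fun i j => ?_
  fin_cases i <;> fin_cases j <;>
    simp [Matrix.mul_apply, Fin.sum_univ_four, Lmat, Par.Dmat, Par.mat, Par.wU, Par.wU', Par.wV,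
      Par.wV', Matrix.diagonal, Inv_sq_X] <;> ring

theorem Inv_two [Fact p.Prime] (hp : p ≠ 2) :
    (PowerSeries.C ((2 : ZMod p)⁻¹) : PowerSeries (ZMod p)) * 2 = 1 := by
  have h2 : (2 : ZMod p) ≠ 0 := by
    intro h
    have h3 : ((2 : ℕ) : ZMod p) = 0 := by exact_mod_cast h
    rw [ZMod.natCast_eq_zero_iff] at h3
    exact hp ((Nat.prime_dvd_prime_iff_eq Fact.out Nat.prime_two).1 h3)
  have h3 : (2 : PowerSeries (ZMod p)) = PowerSeries.C (2 : ZMod p) := by
    rw [map_ofNat]
  rw [h3, ← map_mul, inv_mul_cancel₀ h2, map_one]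

theorem L_M [Fact p.Prime] (hp : p ≠ 2) :
    Lmat p * Mmat p = Matrix.diagonal (fun _ => (PowerSeries.X : PowerSeries (ZMod p))) := by
  have h := Inv_two (p := p) hp
  refine Matrix.ext fun i j => ?_
  fin_cases i <;> fin_cases j <;>
    simp [Matrix.mul_apply, Fin.sum_univ_four, Lmat, Mmat, Matrix.diagonal] <;>
    first | ring1 | linear_combination PowerSeries.X * h

theorem Inv_coeff_xc (i : V →₀ ℕ) (f : FF p) (t : ℕ) : PowerSeries.coeff t (xc i f) =
    coeff (i.erase none + Finsupp.single none t) f := PowerSeries.coeff_mk _ _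

theorem Inv_coeff_mon (δ : V →₀ ℕ) (a : ℕ) (c : PowerSeries (ZMod p)) :
    coeff (δ + Finsupp.single none a) (monomial δ 1 * ev c : FF p) = PowerSeries.coeff a c := by
  rw [coeff_add_monomial_mul, one_mul, coeff_ev, if_pos (by simp), Finsupp.single_eq_same]
  rfl

theorem Inv_lin_mon (d : Fin 4 → PowerSeries (ZMod p)) (δ : V →₀ ℕ) :
    lin (Matrix.diagonal d) (monomial δ (1 : ZMod p)) =
      monomial δ 1 * ev (∏ k : Fin 4, d k ^ δ (some k)) := by
  have h : ∀ i : Fin 4, ∑ j : Fin 4, ev (A := ZMod p) (Matrix.diagonal d i j) * X (some j) =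
      ev (d i) * X (some i) := by
    intro i
    rw [Finset.sum_eq_single i]
    · rw [Matrix.diagonal_apply_eq]
    · intro j _ hj
      rw [Matrix.diagonal_apply_ne _ hj.symm, map_zero, zero_mul]
    · intro h
      exact absurd (Finset.mem_univ i) h
  rw [lin_monomial, KapG_monomial, map_prod]
  simp only [h, Fin.prod_univ_four, map_pow, mul_pow]
  ring

/-- A diagonal substitution multiplies the coefficient (power series in `s`) of `x^i` by the product
of the `d_k^(i_k)`. (`lin_monomial` and `coeff_lin`, or write the coefficient of `lin` at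
`single none t + i` as a sum over the exponents `single none t' + i`, `t' ≤ t`.) -/
theorem xc_lin_diagonal (d : Fin 4 → PowerSeries (ZMod p)) (i : V →₀ ℕ) (f : FF p) :
    xc i (lin (Matrix.diagonal d) f) = (∏ k : Fin 4, d k ^ i (some k)) * xc i f := by
  classical
  refine PowerSeries.ext fun t => ?_
  rw [Inv_coeff_xc, coeff_lin, PowerSeries.coeff_mul]
  set i' : V →₀ ℕ := i.erase none with hi'
  have hi0 : i' none = 0 := Finsupp.erase_same
  have hij : ∀ k : Fin 4, i' (some k) = i (some k) := fun k => Finsupp.erase_ne (by simp)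
  set e : V →₀ ℕ := i' + Finsupp.single none t with he
  have hej : ∀ k : Fin 4, e (some k) = i (some k) := fun k => by
    rw [he, Finsupp.add_apply, hij, Finsupp.single_eq_of_ne (by simp), add_zero]
  have he0 : e none = t := by
    rw [he, Finsupp.add_apply, hi0, Finsupp.single_eq_same, zero_add]
  rw [finsum_eq_finsetSum_of_support_subset (s := (Finset.HasAntidiagonal.antidiagonal t).image
    fun x : ℕ × ℕ => i' + Finsupp.single none x.2)]
  · rw [Finset.sum_image]
    · refine Finset.sum_congr rfl fun x hx => ?_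
      rw [Finset.HasAntidiagonal.mem_antidiagonal] at hx
      rw [Inv_coeff_xc, ← hi']
      congr 1
      rw [linK, Inv_lin_mon]
      have h1 : e = i' + Finsupp.single none x.2 + Finsupp.single none x.1 := by
        rw [he, add_assoc, ← Finsupp.single_add, add_comm x.2, hx]
      rw [h1, Inv_coeff_mon]
      have h2 : ∀ k : Fin 4, (i' + Finsupp.single none x.2 : V →₀ ℕ) (some k) = i (some k) := fun k => by
        rw [Finsupp.add_apply, hij, Finsupp.single_eq_of_ne (by simp), add_zero]
      simp only [h2]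
      rfl
    · intro x hx y hy hxy
      have h1 : x.1 + x.2 = t := Finset.HasAntidiagonal.mem_antidiagonal.1 hx
      have h2 : y.1 + y.2 = t := Finset.HasAntidiagonal.mem_antidiagonal.1 hy
      have h3 : (i' + Finsupp.single none x.2 : V →₀ ℕ) none =
          (i' + Finsupp.single none y.2 : V →₀ ℕ) none :=
        congrArg (fun z : V →₀ ℕ => z none) hxy
      rw [Finsupp.add_apply, Finsupp.add_apply, Finsupp.single_eq_same,
        Finsupp.single_eq_same] at h3
      exact Prod.ext (by omega) (by omega)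
  · intro δ hδ
    rw [Function.mem_support] at hδ
    have hne : linK (Matrix.diagonal d) δ e ≠ 0 := by
      intro h
      rw [h, map_zero, zero_mul] at hδ
      exact hδ rfl
    obtain ⟨-, h2⟩ := linK_ne _ hne
    have h3 : ∀ k : Fin 4, e (some k) = δ (some k) := by
      intro k
      by_contra hk
      apply hne
      rw [linK, Inv_lin_mon]
      exact KapG_coeff_zero δ e _ k hk
    rw [Finset.coe_image]
    refine ⟨(t - δ none, δ none), ?_, ?_⟩
    · rw [Finset.mem_coe, Finset.HasAntidiagonal.mem_antidiagonal]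
      change t - δ none + δ none = t
      omega
    · ext v
      rcases v with _ | k
      · change (i' + Finsupp.single none (δ none) : V →₀ ℕ) none = δ none
        rw [Finsupp.add_apply, hi0, Finsupp.single_eq_same, zero_add]
      · change (i' + Finsupp.single none (δ none) : V →₀ ℕ) (some k) = δ (some k)
        rw [Finsupp.add_apply, hij, Finsupp.single_eq_of_ne (by simp), add_zero, ← h3, hej]

/-- An invariant of the diagonal substitution only contains the monomials
`(y_0 y_1)^a (y_2 y_3)^b`: if `xc i g ≠ 0` then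
`wU^(i_0) wU'^(i_1) wV^(i_2) wV'^(i_3) = 1` (the power series over `F_p` in one variable form a
domain). If `i_0 ≥ i_1` and `i_2 ≥ i_3` this is `wU^(i_0 - i_1) wV^(i_2 - i_3) = 1`
(`Par.wU_mul_pow`), and similarly in the other three cases; use `Good.indep1`, `Good.indep2`. -/
theorem xc_invariant [Fact p.Prime] {P : Par p} (hP : P.Good) {g : FF p}
    (hg : lin P.Dmat g = g) {i : V →₀ ℕ} (hi : xc i g ≠ 0) :
    i (some 0) = i (some 1) ∧ i (some 2) = i (some 3) := by
  have h1 := xc_lin_diagonal ![P.wU, P.wU', P.wV, P.wV'] i g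
  have h1' : lin (Matrix.diagonal ![P.wU, P.wU', P.wV, P.wV']) g = g := hg
  rw [h1', Fin.prod_univ_four] at h1
  have h2 : P.wU ^ i (some 0) * P.wU' ^ i (some 1) * P.wV ^ i (some 2) * P.wV' ^ i (some 3) = 1 := by
    have h3 : (P.wU ^ i (some 0) * P.wU' ^ i (some 1) * P.wV ^ i (some 2) * P.wV' ^ i (some 3)) *
        xc i g = 1 * xc i g := by
      rw [one_mul]
      exact h1.symm
    exact mul_right_cancel₀ hi h3
  rcases le_total (i (some 1)) (i (some 0)) with h01 | h01 <;>
    rcases le_total (i (some 3)) (i (some 2)) with h23 | h23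
  · obtain ⟨a, ha⟩ := Nat.exists_eq_add_of_le h01
    obtain ⟨b, hb⟩ := Nat.exists_eq_add_of_le h23
    have h3 : P.wU ^ a * P.wV ^ b = 1 := by
      calc P.wU ^ a * P.wV ^ b = (P.wU ^ i (some 1) * P.wU' ^ i (some 1)) *
            (P.wV ^ i (some 3) * P.wV' ^ i (some 3)) * (P.wU ^ a * P.wV ^ b) := by
              rw [P.wU_mul_pow, P.wV_mul_pow]
              ring
        _ = P.wU ^ i (some 0) * P.wU' ^ i (some 1) * P.wV ^ i (some 2) * P.wV' ^ i (some 3) := by
              rw [ha, hb, pow_add, pow_add]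
              ring
        _ = 1 := h2
    obtain ⟨h4, h5⟩ := hP.indep1 a b h3
    constructor <;> omega
  · obtain ⟨a, ha⟩ := Nat.exists_eq_add_of_le h01
    obtain ⟨b, hb⟩ := Nat.exists_eq_add_of_le h23
    have h3 : P.wU ^ a = P.wV ^ b := by
      calc P.wU ^ a = (P.wU ^ i (some 1) * P.wU' ^ i (some 1)) *
            (P.wV ^ i (some 3) * P.wV' ^ i (some 3)) * P.wU ^ a := by
              rw [P.wU_mul_pow, P.wV_mul_pow]
              ring
        _ = (P.wU ^ i (some 0) * P.wU' ^ i (some 1) * P.wV ^ i (some 2) * P.wV' ^ i (some 3)) *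
              P.wV ^ b := by
              rw [ha, hb, pow_add, pow_add]
              ring
        _ = P.wV ^ b := by rw [h2, one_mul]
    obtain ⟨h4, h5⟩ := hP.indep2 a b h3
    constructor <;> omega
  · obtain ⟨a, ha⟩ := Nat.exists_eq_add_of_le h01
    obtain ⟨b, hb⟩ := Nat.exists_eq_add_of_le h23
    have h3 : P.wU ^ a = P.wV ^ b := by
      symm
      calc P.wV ^ b = (P.wU ^ i (some 1) * P.wU' ^ i (some 1)) *
            (P.wV ^ i (some 3) * P.wV' ^ i (some 3)) * P.wV ^ b := by
              rw [P.wU_mul_pow, P.wV_mul_pow]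
              ring
        _ = (P.wU ^ i (some 0) * P.wU' ^ i (some 1) * P.wV ^ i (some 2) * P.wV' ^ i (some 3)) *
              P.wU ^ a := by
              rw [ha, hb, pow_add, pow_add]
              ring
        _ = P.wU ^ a := by rw [h2, one_mul]
    obtain ⟨h4, h5⟩ := hP.indep2 a b h3
    constructor <;> omega
  · obtain ⟨a, ha⟩ := Nat.exists_eq_add_of_le h01
    obtain ⟨b, hb⟩ := Nat.exists_eq_add_of_le h23
    have h3 : P.wU ^ a * P.wV ^ b = 1 := by
      calc P.wU ^ a * P.wV ^ b =
            (P.wU ^ i (some 0) * P.wU' ^ i (some 1) * P.wV ^ i (some 2) * P.wV' ^ i (some 3)) *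
              (P.wU ^ a * P.wV ^ b) := by rw [h2, one_mul]
        _ = (P.wU ^ i (some 1) * P.wU' ^ i (some 1)) *
            (P.wV ^ i (some 3) * P.wV' ^ i (some 3)) := by
              rw [ha, hb, pow_add, pow_add]
              ring
        _ = 1 := by rw [P.wU_mul_pow, P.wV_mul_pow, one_mul]
    obtain ⟨h4, h5⟩ := hP.indep1 a b h3
    constructor <;> omega

theorem Inv_xc_sum {ι : Type*} (s : Finset ι) (i : V →₀ ℕ) (f : ι → FF p) :
    xc i (∑ x ∈ s, f x) = ∑ x ∈ s, xc i (f x) := by
  refine PowerSeries.ext fun t => ?_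
  rw [Inv_coeff_xc, map_sum, map_sum]
  exact Finset.sum_congr rfl fun x _ => (Inv_coeff_xc i (f x) t).symm

theorem Inv_xc_mon (i : V →₀ ℕ) (k₀ k₁ k₂ k₃ : ℕ) (c : PowerSeries (ZMod p)) :
    xc i (monomial (KapG_ex 0 k₀ k₁ k₂ k₃) 1 * ev c : FF p) =
      if i (some 0) = k₀ ∧ i (some 1) = k₁ ∧ i (some 2) = k₂ ∧ i (some 3) = k₃ then c else 0 := by
  have hij : ∀ k : Fin 4, (i.erase none) (some k) = i (some k) := fun k =>
    Finsupp.erase_ne (by simp)
  refine PowerSeries.ext fun t => ?_
  rw [Inv_coeff_xc]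
  split_ifs with h
  · obtain ⟨h0, h1, h2, h3⟩ := h
    have h4 : i.erase none = KapG_ex 0 k₀ k₁ k₂ k₃ := by
      ext v
      rcases v with _ | k
      · exact Finsupp.erase_same
      · rw [hij]
        fin_cases k
        · exact h0
        · exact h1
        · exact h2
        · exact h3
    rw [h4, Inv_coeff_mon]
  · rw [map_zero]
    have hex : ∃ k : Fin 4, i (some k) ≠ KapG_ex 0 k₀ k₁ k₂ k₃ (some k) := by
      by_contra hcon
      push Not at hcon
      exact h ⟨hcon 0, hcon 1, hcon 2, hcon 3⟩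
    obtain ⟨k, hk⟩ := hex
    refine KapG_coeff_zero _ _ _ k ?_
    rw [Finsupp.add_apply, hij, Finsupp.single_eq_of_ne (by simp), add_zero]
    exact hk

theorem Inv_xc_congr {i j : V →₀ ℕ} (f : FF p) (h : ∀ k : Fin 4, i (some k) = j (some k)) :
    xc i f = xc j f := by
  have h1 : i.erase none = j.erase none := by
    ext v
    rcases v with _ | k
    · rw [Finsupp.erase_same, Finsupp.erase_same]
    · rw [Finsupp.erase_ne (by simp), Finsupp.erase_ne (by simp), h]
  unfold xc
  rw [h1]

theorem Inv_ext {f g : FF p} (h : ∀ i, xc i f = xc i g) : f = g := by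
  refine MvPowerSeries.ext fun e => ?_
  have h1 := congrArg (PowerSeries.coeff (e none)) (h e)
  rw [Inv_coeff_xc, Inv_coeff_xc] at h1
  have h2 : e.erase none + Finsupp.single none (e none) = e := by
    rw [add_comm]
    exact Finsupp.single_add_erase none e
  rwa [h2] at h1

/-- the coefficients of `(x_1^2 - s^2 x_0^2)^a` -/
noncomputable def Inv_q (a k : ℕ) : PowerSeries (ZMod p) :=
  (-PowerSeries.X ^ 2) ^ k * ((a.choose k : ℕ) : PowerSeries (ZMod p))

theorem Inv_block (a : ℕ) (i₀ i₁ : Fin 4) :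
    ((sX * X (some i₀) + X (some i₁)) ^ a * (-sX * X (some i₀) + X (some i₁)) ^ a : FF p) =
      ∑ k ∈ Finset.range (a + 1),
        ev (Inv_q (p := p) a k) * (X (some i₀) ^ (2 * k) * X (some i₁) ^ (2 * (a - k))) := by
  have h1 : ((sX * X (some i₀) + X (some i₁)) ^ a * (-sX * X (some i₀) + X (some i₁)) ^ a : FF p) =
      (-(sX ^ 2) * X (some i₀) ^ 2 + X (some i₁) ^ 2) ^ a := by
    rw [← mul_pow]
    congr 1
    ring
  rw [h1, add_pow]
  refine Finset.sum_congr rfl fun k _ => ?_
  rw [Inv_q, map_mul, map_pow, map_neg, map_pow, ev_X, map_natCast, mul_pow, ← pow_mul, ← pow_mul]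
  ring

theorem Inv_lin_M (a b : ℕ) (c : PowerSeries (ZMod p)) :
    lin (Mmat p) (monomial (KapG_ex 0 a a b b) 1 * ev c : FF p) =
      ∑ k ∈ Finset.range (a + 1), ∑ l ∈ Finset.range (b + 1),
        monomial (KapG_ex 0 (2 * k) (2 * (a - k)) (2 * l) (2 * (b - l))) 1 *
          ev (c * (Inv_q a k * Inv_q b l)) := by
  rw [map_mul, lin_ev, lin_monomial]
  have h0 : KapG_ex 0 a a b b none = 0 := rfl
  have h1 : KapG_ex 0 a a b b (some 0) = a := rfl
  have h2 : KapG_ex 0 a a b b (some 1) = a := rfl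
  have h3 : KapG_ex 0 a a b b (some 2) = b := rfl
  have h4 : KapG_ex 0 a a b b (some 3) = b := rfl
  rw [Fin.prod_univ_four, h0, h1, h2, h3, h4]
  have h5 : (sX ^ 0 * ((∑ j : Fin 4, ev (Mmat p 0 j) * X (some j)) ^ a *
      (∑ j : Fin 4, ev (Mmat p 1 j) * X (some j)) ^ a *
      (∑ j : Fin 4, ev (Mmat p 2 j) * X (some j)) ^ b *
      (∑ j : Fin 4, ev (Mmat p 3 j) * X (some j)) ^ b) * ev c : FF p) =
      ev c * (((sX * X (some 0) + X (some 1)) ^ a * (-sX * X (some 0) + X (some 1)) ^ a) *
        ((sX * X (some 2) + X (some 3)) ^ b * (-sX * X (some 2) + X (some 3)) ^ b)) := by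
    simp only [Mmat, Fin.sum_univ_four]
    simp [ev_X]
    ring
  rw [h5, Inv_block, Inv_block, Finset.sum_mul_sum, Finset.mul_sum]
  refine Finset.sum_congr rfl fun k _ => ?_
  rw [Finset.mul_sum]
  refine Finset.sum_congr rfl fun l _ => ?_
  have h6 := KapG_term (p := p) 0 (2 * k) (2 * (a - k)) (2 * l) (2 * (b - l)) (Inv_q a k)
    (Inv_q b l)
  rw [pow_zero, one_mul] at h6
  rw [h6, map_mul (ev (p := p) (A := ZMod p)) c]
  ring

theorem Inv_decomp {m : ℕ} {g : FF p} (hg : IsHom (4 * m) g)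
    (h : ∀ i : V →₀ ℕ, xc i g ≠ 0 → i (some 0) = i (some 1) ∧ i (some 2) = i (some 3)) :
    g = ∑ a ∈ Finset.range (2 * m + 1), monomial (KapG_ex 0 a a (2 * m - a) (2 * m - a)) 1 *
      ev (xc (KapG_ex 0 a a (2 * m - a) (2 * m - a)) g) := by
  classical
  refine Inv_ext fun i => ?_
  rw [Inv_xc_sum]
  simp only [Inv_xc_mon]
  by_cases hi : xc i g = 0
  · rw [hi]
    symm
    refine Finset.sum_eq_zero fun a _ => ?_
    split_ifs with h1
    · obtain ⟨h1, h2, h3, h4⟩ := h1
      rw [← hi]
      refine Inv_xc_congr g fun k => ?_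
      fin_cases k
      · exact h1.symm
      · exact h2.symm
      · exact h3.symm
      · exact h4.symm
    · rfl
  · obtain ⟨h01, h23⟩ := h i hi
    have hdg : i (some 0) + i (some 1) + i (some 2) + i (some 3) = 4 * m := by
      obtain ⟨t, ht⟩ : ∃ t, PowerSeries.coeff t (xc i g) ≠ 0 := by
        by_contra hcon
        push Not at hcon
        exact hi (PowerSeries.ext fun t => by rw [hcon t, map_zero])
      rw [Inv_coeff_xc] at ht
      have h1 := hg _ ht
      rw [dg_add, dg_single_none, add_zero, dg, Fin.sum_univ_four,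
        Finsupp.erase_ne (by simp), Finsupp.erase_ne (by simp), Finsupp.erase_ne (by simp),
        Finsupp.erase_ne (by simp)] at h1
      exact h1
    rw [Finset.sum_eq_single (i (some 0))]
    · rw [if_pos ⟨rfl, h01.symm, by omega, by omega⟩]
      refine Inv_xc_congr g fun k => ?_
      fin_cases k
      · rfl
      · exact h01.symm
      · change i (some 2) = 2 * m - i (some 0)
        omega
      · change i (some 3) = 2 * m - i (some 0)
        omega
    · intro a _ ha
      rw [if_neg]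
      rintro ⟨h1, -⟩
      exact ha h1.symm
    · intro hn
      rw [Finset.mem_range] at hn
      omega

theorem Inv_xc_M {m : ℕ} {g : FF p} (hg : IsHom (4 * m) g)
    (h : ∀ i : V →₀ ℕ, xc i g ≠ 0 → i (some 0) = i (some 1) ∧ i (some 2) = i (some 3))
    {i : V →₀ ℕ} {k l : ℕ} (hk : k ≤ m) (hl : l ≤ m) (h0 : i (some 0) = 2 * k)
    (h1 : i (some 1) = 2 * (m - k)) (h2 : i (some 2) = 2 * l) (h3 : i (some 3) = 2 * (m - l)) :
    xc i (lin (Mmat p) g) = xc (KapG_ex 0 m m m m) g * (Inv_q m k * Inv_q m l) := by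
  classical
  conv_lhs => rw [Inv_decomp hg h]
  rw [map_sum, Inv_xc_sum, Finset.sum_eq_single m]
  · rw [Inv_lin_M, Inv_xc_sum, Finset.sum_eq_single k]
    · rw [Inv_xc_sum, Finset.sum_eq_single l]
      · rw [Inv_xc_mon, if_pos ⟨h0, h1, h2, by omega⟩]
        have h4 : 2 * m - m = m := by omega
        rw [h4]
      · intro l' _ hl'
        rw [Inv_xc_mon, if_neg]
        rintro ⟨-, -, h5, -⟩
        omega
      · intro hn
        rw [Finset.mem_range] at hn
        omega
    · intro k' _ hk'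
      rw [Inv_xc_sum]
      refine Finset.sum_eq_zero fun l' _ => ?_
      rw [Inv_xc_mon, if_neg]
      rintro ⟨h5, -⟩
      omega
    · intro hn
      rw [Finset.mem_range] at hn
      omega
  · intro a ha hne
    rw [Finset.mem_range] at ha
    rw [Inv_lin_M, Inv_xc_sum]
    refine Finset.sum_eq_zero fun k' hk' => ?_
    rw [Finset.mem_range] at hk'
    rw [Inv_xc_sum]
    refine Finset.sum_eq_zero fun l' hl' => ?_
    rw [Finset.mem_range] at hl'
    rw [Inv_xc_mon, if_neg]
    rintro ⟨h5, h6, h7, h8⟩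
    omega
  · intro hn
    rw [Finset.mem_range] at hn
    omega

/-- Let `g` be homogeneous of degree `4 m` and contain only the monomials `(y_0 y_1)^a (y_2 y_3)^b`
(`a + b = 2 m`), with coefficients `c_a` (power series in `σ`). Then `lin (Mmat p) g =
∑_a c_a (x_1² - σ² x_0²)^a (x_3² - σ² x_2²)^b`. The exponents `i` with `i_0 + i_1 = 2 m` only occur
in the term `a = m`. For `i = (0, 2 m, 0, 2 m)` the coefficient is `c_m`; for
`i = (m, m, m, m)`, `m` even, it is `c_m * (C(m, m/2) (-σ²)^(m/2))^2 = c_m * C(m, m/2)^2 * σ^(2m)`. -/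
theorem xc_lin_M [Fact p.Prime] {m : ℕ} (hm : Even m) {g : FF p} (hg : IsHom (4 * m) g)
    (h : ∀ i : V →₀ ℕ, xc i g ≠ 0 → i (some 0) = i (some 1) ∧ i (some 2) = i (some 3)) :
    xc (xone m) (lin (Mmat p) g) = PowerSeries.X ^ (2 * m) *
      PowerSeries.C (((m.choose (m / 2) : ℕ) : ZMod p) ^ 2) *
      xc (Finsupp.single (some 1) (2 * m) + Finsupp.single (some 3) (2 * m))
        (lin (Mmat p) g) := by
  classical
  obtain ⟨n, hn⟩ := hm
  have e1 : ∀ k : Fin 4, xone m (some k) = m := fun k => rfl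
  have e2 := Inv_xc_M hg h (i := xone m) (k := n) (l := n) (by omega) (by omega)
    (by rw [e1]; omega) (by rw [e1]; omega) (by rw [e1]; omega) (by rw [e1]; omega)
  have e3 := Inv_xc_M hg h
    (i := Finsupp.single (some 1) (2 * m) + Finsupp.single (some 3) (2 * m)) (k := 0) (l := 0)
    (by omega) (by omega) (by simp) (by simp) (by simp) (by simp)
  rw [e2, e3]
  have e4 : m / 2 = n := by omega
  have e5 : (-PowerSeries.X ^ 2 : PowerSeries (ZMod p)) ^ n * (-PowerSeries.X ^ 2) ^ n =
      PowerSeries.X ^ (2 * m) := by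
    rw [← mul_pow]
    have : (-PowerSeries.X ^ 2 : PowerSeries (ZMod p)) * -PowerSeries.X ^ 2 =
        PowerSeries.X ^ 4 := by ring
    rw [this, ← pow_mul]
    congr 1
    omega
  rw [e4]
  simp only [Inv_q, map_pow, map_natCast, pow_zero, Nat.choose_zero_right, Nat.cast_one, mul_one]
  rw [← e5]
  ring

/-- The key lemma on invariants. Let `f` be homogeneous of degree `4 m`, `m = p^e - 1` (even), and
`G f = f`. Then the coefficients of `s^t (x_0 x_1 x_2 x_3)^m` in `f` vanish for `t < m`. Proof: let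
`f' = eps f`; by `eps_lin` `lin (P.mat.map sq) f' = f'`. Let `g = lin (Lmat p) f'`. By `lin_lin` and
`mat_L`, `lin P.Dmat g = lin (Lmat p * P.Dmat) f' = lin (P.mat.map sq * Lmat p) f' =
lin (Lmat p) (lin (P.mat.map sq) f') = g`. By `xc_invariant` the hypothesis of `xc_lin_M` holds. By
`L_M` and `lin_lin`, `lin (Mmat p) g = lin (diagonal X) f'`, so by `xc_lin_diagonal`
`xc i (lin (Mmat p) g) = X^(dg i) * xc i f' = X^(4 m) * xc i f'` for `dg i = 4 m`. Hence by `xc_lin_M`
(cancel `X^(4 m)`) `xc (xone m) f' = X^(2 m) * (..)`, so the coefficient of `f'` at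
`expo (2 t) m` (the double of `expo t m`, `coeff_eps_dbl`) vanishes for `2 t < 2 m`. -/
theorem coeff_invariant [Fact p.Prime] (hp : p ≠ 2) {P : Par p} (hP : P.Good) {e : ℕ}
    {f : FF p} (hf : IsHom (4 * (p ^ e - 1)) f) (hG : GG P f = f) {t : ℕ} (ht : t < p ^ e - 1) :
    coeff (expo t (p ^ e - 1)) f = 0 := by
  classical
  set m : ℕ := p ^ e - 1 with hm
  have hme : Even m := by
    have hodd : Odd (p ^ e) := ((Fact.out : p.Prime).odd_of_ne_two hp).pow
    obtain ⟨k, hk⟩ := hodd
    exact ⟨k, by omega⟩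
  have h1 : lin (P.mat.map sq) (eps f) = eps f := by
    rw [← eps_lin]
    congr 1
  set g : FF p := lin (Lmat p) (eps f) with hgdef
  have h2 : lin P.Dmat g = g := by
    rw [hgdef, lin_lin, ← mat_L, ← lin_lin, h1]
  have hgh : IsHom (4 * m) g := ((isHom_eps_iff (4 * m) f).2 hf).lin (Lmat p)
  have h3 := xc_lin_M hme hgh fun i hi => xc_invariant hP h2 hi
  have h4 : lin (Mmat p) g =
      lin (Matrix.diagonal fun _ => (PowerSeries.X : PowerSeries (ZMod p))) (eps f) := by
    rw [hgdef, lin_lin, L_M hp]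
  rw [h4, xc_lin_diagonal, xc_lin_diagonal] at h3
  have e1 : ∀ k : Fin 4, xone m (some k) = m := fun k => rfl
  have h5 : (∏ k : Fin 4, (PowerSeries.X : PowerSeries (ZMod p)) ^ (xone m) (some k)) =
      PowerSeries.X ^ (4 * m) := by
    simp only [e1, Fin.prod_univ_four]
    ring
  have h6 : (∏ k : Fin 4, (PowerSeries.X : PowerSeries (ZMod p)) ^
      (Finsupp.single (some 1) (2 * m) + Finsupp.single (some 3) (2 * m) : V →₀ ℕ) (some k)) =
      PowerSeries.X ^ (4 * m) := by
    rw [Fin.prod_univ_four]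
    have a0 : (Finsupp.single (some 1) (2 * m) + Finsupp.single (some 3) (2 * m) : V →₀ ℕ)
      (some 0) = 0 := by simp
    have a1 : (Finsupp.single (some 1) (2 * m) + Finsupp.single (some 3) (2 * m) : V →₀ ℕ)
      (some 1) = 2 * m := by simp
    have a2 : (Finsupp.single (some 1) (2 * m) + Finsupp.single (some 3) (2 * m) : V →₀ ℕ)
      (some 2) = 0 := by simp
    have a3 : (Finsupp.single (some 1) (2 * m) + Finsupp.single (some 3) (2 * m) : V →₀ ℕ)
      (some 3) = 2 * m := by simp
    rw [a0, a1, a2, a3]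
    ring
  rw [h5, h6] at h3
  have h7 : xc (xone m) (eps f) = PowerSeries.X ^ (2 * m) *
      (PowerSeries.C (((m.choose (m / 2) : ℕ) : ZMod p) ^ 2) *
        xc (Finsupp.single (some 1) (2 * m) + Finsupp.single (some 3) (2 * m)) (eps f)) := by
    have h8 : (PowerSeries.X : PowerSeries (ZMod p)) ^ (4 * m) ≠ 0 :=
      pow_ne_zero _ PowerSeries.X_ne_zero
    refine mul_left_cancel₀ h8 ?_
    rw [h3]
    ring
  have h8 := congrArg (PowerSeries.coeff (2 * t)) h7
  rw [Inv_coeff_xc, PowerSeries.coeff_X_pow_mul', if_neg (by omega)] at h8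
  have h9 : (xone m).erase none + Finsupp.single none (2 * t) = dbl (expo t m) := by
    ext v
    rcases v with _ | k
    · simp [dbl, expo, xone]
      omega
    · simp [dbl, expo, xone]
  rw [h9, coeff_eps_dbl] at h8
  exact h8

end Pool.Agent.W_35cfd6_h24
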