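import Pool.Agent.W_35cfd6_h24.Th2
import Pool.Agent.W_35cfd6_h24.Kap2
import Pool.Agent.W_35cfd6_h24.KapG

/-!
# Graded `p^(-e)`-linear maps of the ring `RR P`: basic properties
-/

set_option autoImplicit false

namespace Pool.Agent.W_35cfd6_h24

open MvPowerSeries

variable {p : ℕ}

/-- A graded `p^(-e)`-linear map of shift `c`: additive maps `f n` from the homogeneous elements of
degree `p^e n + c` of `RR P` to those of degree `n`, with `f (n + k) (r^(p^e) u) = r f n u` for `r`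
homogeneous of degree `k`. -/
structure GMap (P : Par p) (e c : ℕ) where
  f : ℕ → UU p → UU p
  mem : ∀ n u, u ∈ RR P → IsHom (p ^ e * n + c) u → f n u ∈ RR P
  hom : ∀ n u, u ∈ RR P → IsHom (p ^ e * n + c) u → IsHom n (f n u)
  add : ∀ n u v, u ∈ RR P → v ∈ RR P → IsHom (p ^ e * n + c) u → IsHom (p ^ e * n + c) v →
    f n (u + v) = f n u + f n v
  mul : ∀ n k r u, r ∈ RR P → IsHom k r → u ∈ RR P → IsHom (p ^ e * n + c) u →
    f (n + k) (r ^ p ^ e * u) = r * f n u

variable {P : Par p} {e c : ℕ} (ψ : GMap P e c)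

theorem GMap.map_zero (n : ℕ) : ψ.f n 0 = 0 := by
  have h := ψ.add n 0 0 (zero_mem _) (zero_mem _) (IsHom.zero _) (IsHom.zero _)
  rw [add_zero] at h
  exact left_eq_add.1 h

theorem GMap.map_sub {n : ℕ} {u v : UU p} (hu : u ∈ RR P) (hv : v ∈ RR P)
    (hu' : IsHom (p ^ e * n + c) u) (hv' : IsHom (p ^ e * n + c) v) :
    ψ.f n (u - v) = ψ.f n u - ψ.f n v := by
  have h := ψ.add n (u - v) v (sub_mem hu hv) hv (hu'.sub hv') hv'
  rw [sub_add_cancel] at h
  rw [h, add_sub_cancel_right]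

theorem GMap.map_sum {ι : Type*} (s : Finset ι) {n : ℕ} {u : ι → UU p}
    (hu : ∀ i ∈ s, u i ∈ RR P) (hu' : ∀ i ∈ s, IsHom (p ^ e * n + c) (u i)) :
    ψ.f n (∑ i ∈ s, u i) = ∑ i ∈ s, ψ.f n (u i) := by
  classical
  induction s using Finset.induction_on with
  | empty => rw [Finset.sum_empty, Finset.sum_empty, ψ.map_zero]
  | insert a s ha ih =>
    have h1 : ∀ i ∈ s, u i ∈ RR P := fun i hi => hu i (Finset.mem_insert_of_mem hi)
    have h2 : ∀ i ∈ s, IsHom (p ^ e * n + c) (u i) := fun i hi => hu' i (Finset.mem_insert_of_mem hi)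
    rw [Finset.sum_insert ha, Finset.sum_insert ha, ψ.add n _ _ (hu a (Finset.mem_insert_self a s))
      (sum_mem h1) (hu' a (Finset.mem_insert_self a s)) (IsHom.sum s h2), ih h1 h2]

theorem K1_natCast [Fact p.Prime] (a : ZMod p) :
    (iota (C a) : UU p) = ((a.val : ℕ) : UU p) := by
  conv_lhs => rw [← ZMod.natCast_zmod_val a, map_natCast, map_natCast]

/-- Linearity over `F_p`: take `r` the constant `a` (`iota (C a)`), with `a ^ p ^ e = a`. -/
theorem GMap.map_smul [Fact p.Prime] {n : ℕ} (a : ZMod p) {u : UU p} (hu : u ∈ RR P)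
    (hu' : IsHom (p ^ e * n + c) u) :
    ψ.f n (iota (C a) * u) = iota (C a) * ψ.f n u := by
  have hr : (iota (C a) : UU p) ∈ RR P := by
    rw [K1_natCast]
    exact natCast_mem _ _
  have hr' : IsHom 0 (iota (C a) : UU p) := by
    have h1 : IsHom (dg 0) (MvPowerSeries.monomial (0 : V →₀ ℕ) a) := IsHom.monomial 0 a
    rw [dg_zero] at h1
    exact IsHom.iota h1
  have h := ψ.mul n 0 (iota (C a)) u hr hr' hu hu'
  rw [← map_pow, ← map_pow, ZMod.pow_card_pow] at h
  exact h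

/-- If `s^(q K)` divides `u` then `s^K` divides `ψ u`: `u = (s^K)^q v` with `v ∈ RR P`
(`RR_of_sX_pow_mul`) homogeneous. -/
theorem GMap.map_dvd {n K : ℕ} {u : UU p} (hu : u ∈ RR P) (hu' : IsHom (p ^ e * n + c) u)
    (h : sX ^ (p ^ e * K) ∣ u) : sX ^ K ∣ ψ.f n u := by
  obtain ⟨v, hv⟩ := h
  subst hv
  have hv1 : v ∈ RR P := RR_of_sX_pow_mul hu
  have hv2 : IsHom (p ^ e * n + c) v := hu'.of_sX_pow_mul
  have hr' : IsHom 0 (sX ^ K : UU p) := by
    have := (IsHom.sX (A := LL p)).pow K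
    rwa [Nat.mul_zero] at this
  have h := ψ.mul n 0 (sX ^ K) v (pow_mem (sX_mem_RR P) K) hr' hv1 hv2
  rw [← pow_mul, Nat.mul_comm K] at h
  exact ⟨ψ.f n v, h⟩

/-- The product of powers of theta functions of monomials. With `q = p^e`: `thm v = mono v + s^(v
none + L') a` (`thm_approx`), so in characteristic `p` `thm v ^ q = mono v ^ q + s^(q (v none + L')) a^q`
and `mono v mv ^ q = mono (q v) (q mv)`; `thm u = mono u + s^(u none + L) b`, `mono v ^ q` is
divisible by `s^(q v none)`. So the product is `mono (u + q v) (mu + q mv)` modulo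
`s^(u none + q v none + L)` (as `L ≤ q L'`), and so is `thm (u + q v) (mu + q mv)` because
`L ≤ mu + q mv` and `L ≤ 3 dg (u + q v) - (mu + q mv)`. -/
theorem thm_pow_mul_sub_dvd [Fact p.Prime] (P : Par p) (e : ℕ) {u v : V →₀ ℕ} {mu mv : ℤ}
    {L L' : ℕ} (hu : 1 ≤ dg u) (hv : 1 ≤ dg v) (h1 : (L : ℤ) ≤ mu)
    (h2 : (L : ℤ) ≤ 3 * dg u - mu) (h3 : (L' : ℤ) ≤ mv) (h4 : (L' : ℤ) ≤ 3 * dg v - mv)
    (hL : L ≤ p ^ e * L') :
    sX ^ (u none + p ^ e * v none + L) ∣
      thm P v mv ^ p ^ e * thm P u mu - thm P (u + p ^ e • v) (mu + (p : ℤ) ^ e * mv) := by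
  have hmu : 0 ≤ mu := le_trans (Int.natCast_nonneg L) h1
  have hmu' : mu ≤ 3 * dg u := by linarith [Int.natCast_nonneg L]
  have hmv : 0 ≤ mv := le_trans (Int.natCast_nonneg L') h3
  have hmv' : mv ≤ 3 * dg v := by linarith [Int.natCast_nonneg L']
  have hq : (0 : ℤ) ≤ (p : ℤ) ^ e := by positivity
  have hA : sX ^ (p ^ e * (v none + L')) ∣ thm P v mv ^ p ^ e - mono v mv ^ p ^ e := by
    rw [← sub_pow_char_pow, Nat.mul_comm, pow_mul]
    exact pow_dvd_pow_of_dvd (thm_approx P hv h3 h4) _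
  have hB : sX ^ (u none + L) ∣ thm P u mu - mono u mu := thm_approx P hu h1 h2
  have hB' : sX ^ (u none) ∣ thm P u mu := thm_dvd P hu hmu hmu'
  have hM : (mono v mv : UU p) ^ p ^ e = mono (p ^ e • v) ((p : ℤ) ^ e * mv) := by
    rw [mono_pow]
    push_cast
    rfl
  have hM' : sX ^ (p ^ e * v none) ∣ (mono v mv : UU p) ^ p ^ e := by
    rw [hM]
    exact sX_pow_dvd_mono (p ^ e • v) _
  have hN : (u + p ^ e • v : V →₀ ℕ) none = u none + p ^ e * v none := rfl
  have hdg : dg (u + p ^ e • v) = dg u + p ^ e * dg v := by rw [dg_add, dg_smul]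
  have hC : sX ^ (u none + p ^ e * v none + L) ∣
      thm P (u + p ^ e • v) (mu + (p : ℤ) ^ e * mv) - mono (u + p ^ e • v)
        (mu + (p : ℤ) ^ e * mv) := by
    rw [← hN]
    refine thm_approx P ?_ ?_ ?_
    · rw [hdg]
      omega
    · have := mul_nonneg hq hmv
      linarith
    · rw [hdg]
      push_cast
      have := mul_nonneg hq (show (0 : ℤ) ≤ 3 * dg v - mv by linarith)
      nlinarith
  have hD : sX ^ (u none + p ^ e * v none + L) ∣
      (thm P v mv ^ p ^ e - mono v mv ^ p ^ e) * thm P u mu := by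
    have h5 := mul_dvd_mul hA hB'
    rw [← pow_add] at h5
    refine (pow_dvd_pow _ ?_).trans h5
    have h6 : p ^ e * (v none + L') = p ^ e * v none + p ^ e * L' := Nat.mul_add _ _ _
    omega
  have hE : sX ^ (u none + p ^ e * v none + L) ∣
      (mono v mv : UU p) ^ p ^ e * (thm P u mu - mono u mu) := by
    have h5 := mul_dvd_mul hM' hB
    rw [← pow_add] at h5
    refine (pow_dvd_pow _ ?_).trans h5
    omega
  have hF : (mono v mv : UU p) ^ p ^ e * mono u mu =
      mono (u + p ^ e • v) (mu + (p : ℤ) ^ e * mv) := by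
    rw [hM, mono_mul_mono, add_comm u, add_comm mu]
  have hG : thm P v mv ^ p ^ e * thm P u mu - thm P (u + p ^ e • v) (mu + (p : ℤ) ^ e * mv) =
      (thm P v mv ^ p ^ e - mono v mv ^ p ^ e) * thm P u mu +
      (mono v mv : UU p) ^ p ^ e * (thm P u mu - mono u mu) -
      (thm P (u + p ^ e • v) (mu + (p : ℤ) ^ e * mv) - mono (u + p ^ e • v)
        (mu + (p : ℤ) ^ e * mv)) := by
    rw [← hF]
    ring
  rw [hG]
  exact dvd_sub (dvd_add hD hE) hC

/-- Multiplication by a deep theta function shifts coefficients: `thm v = mono v + s^(v none + L) a`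
with `L > w none`, and the coefficient of `s^(v none + L) a g` at `w + v` vanishes. -/
theorem co_thm_mul (P : Par p) {v w : V →₀ ℕ} {mv mw : ℤ} (hv : 1 ≤ dg v)
    (h3 : ((w none : ℤ) + 1) ≤ mv) (h4 : ((w none : ℤ) + 1) ≤ 3 * dg v - mv) (g : UU p) :
    co (thm P v mv * g) (w + v) (mw + mv) = co g w mw := by
  have h0 : sX ^ (v none + (w none + 1)) ∣ thm P v mv - mono v mv :=
    thm_approx P hv (by push_cast; exact h3) (by push_cast; exact h4)
  have h1 : sX ^ (v none + (w none + 1)) ∣ (thm P v mv - mono v mv) * g := h0.mul_right g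
  have h2 := (sX_pow_dvd_iff_co _ _).1 h1 (w + v) (mw + mv) (by
    rw [Finsupp.add_apply]
    omega)
  rw [sub_mul, co_sub, sub_eq_zero] at h2
  rw [h2, ← coeff_row, row_mono_mul, add_sub_cancel_right, add_comm w v,
    coeff_add_monomial_mul, one_mul, coeff_row]

end Pool.Agent.W_35cfd6_h24
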