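import Pool.Agent.W_35cfd6_h24.K1

/-!
# Graded `p^(-e)`-linear maps: shift invariance of the coefficients
-/

set_option autoImplicit false

namespace Pool.Agent.W_35cfd6_h24

open MvPowerSeries

variable {p : ℕ} {P : Par p} {e c : ℕ} (ψ : GMap P e c)

theorem K2_q [Fact p.Prime] (e : ℕ) : 1 ≤ p ^ e :=
  Nat.one_le_pow _ _ (Fact.out : p.Prime).pos

/-- A deep exponent has positive degree. -/
theorem K2_dg [Fact p.Prime] {e : ℕ} {u : V →₀ ℕ} {mu : ℤ} {K : ℕ}
    (h1 : (p : ℤ) ^ e * (K + 1) ≤ mu) (h2 : (p : ℤ) ^ e * (K + 1) ≤ 3 * dg u - mu) :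
    0 ≤ mu ∧ mu ≤ 3 * dg u ∧ 1 ≤ dg u := by
  have hq : (1 : ℤ) ≤ (p : ℤ) ^ e := by exact_mod_cast K2_q (p := p) e
  have hK : (0 : ℤ) ≤ K := Int.natCast_nonneg K
  have h3 : (1 : ℤ) ≤ (p : ℤ) ^ e * (K + 1) := by
    nlinarith
  have h4 : (1 : ℤ) ≤ dg u := by omega
  refine ⟨by omega, by omega, by exact_mod_cast h4⟩

/-- The comparison step. -/
theorem K2_step [Fact p.Prime] {n k : ℕ} {u v : V →₀ ℕ} {mu mv : ℤ} {K : ℕ} {L : ℕ}
    (hdeg : dg u = p ^ e * n + c) (hk : dg v = k) (hv : 1 ≤ dg v)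
    (h1 : (p : ℤ) ^ e * (L + 1) ≤ mu) (h2 : (p : ℤ) ^ e * (L + 1) ≤ 3 * dg u - mu)
    (h3 : (L : ℤ) + 1 ≤ mv) (h4 : (L : ℤ) + 1 ≤ 3 * dg v - mv)
    (hK : K ≤ v none + L + 1) :
    sX ^ K ∣ thm P v mv * ψ.f n (thm P u mu) -
      ψ.f (n + k) (thm P (u + p ^ e • v) (mu + (p : ℤ) ^ e * mv)) := by
  subst hk
  have hq : (1 : ℤ) ≤ (p : ℤ) ^ e := by exact_mod_cast K2_q (p := p) e
  obtain ⟨hu0, hu1, hu2⟩ := K2_dg h1 h2
  have hL : (0 : ℤ) ≤ L := Int.natCast_nonneg L
  have hmv0 : 0 ≤ mv := by omega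
  have hmv1 : mv ≤ 3 * dg v := by omega
  have hvm := thm_mem P hv hmv0 hmv1
  have hvh := thm_hom P hv hmv0 hmv1
  have hum := thm_mem P hu2 hu0 hu1
  have huh := thm_hom P hu2 hu0 hu1
  rw [hdeg] at huh
  have hd : dg (u + p ^ e • v) = p ^ e * (n + dg v) + c := by
    rw [dg_add, dg_smul, hdeg]; ring
  have hdz : ((dg (u + p ^ e • v) : ℕ) : ℤ) = dg u + (p : ℤ) ^ e * dg v := by
    rw [dg_add, dg_smul]; push_cast; ring
  have hB0 : 0 ≤ mu + (p : ℤ) ^ e * mv := by
    have := mul_nonneg (by omega : (0 : ℤ) ≤ (p : ℤ) ^ e) hmv0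
    omega
  have hB1 : mu + (p : ℤ) ^ e * mv ≤ 3 * dg (u + p ^ e • v) := by
    have h5 := mul_le_mul_of_nonneg_left hmv1 (by omega : (0 : ℤ) ≤ (p : ℤ) ^ e)
    rw [hdz]
    nlinarith
  have hB2 : 1 ≤ dg (u + p ^ e • v) := by
    rw [dg_add]; omega
  have hBm := thm_mem P hB2 hB0 hB1
  have hBh := thm_hom P hB2 hB0 hB1
  rw [hd] at hBh
  have hAm : thm P v mv ^ p ^ e * thm P u mu ∈ RR P := mul_mem (pow_mem hvm _) hum
  have hAh : IsHom (p ^ e * (n + dg v) + c) (thm P v mv ^ p ^ e * thm P u mu) := by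
    have h6 := (hvh.pow (p ^ e)).mul huh
    have h7 : p ^ e * dg v + (p ^ e * n + c) = p ^ e * (n + dg v) + c := by ring
    rwa [h7] at h6
  have hdvd := thm_pow_mul_sub_dvd P e (L := p ^ e * (L + 1)) (L' := L + 1) hu2 hv
    (by push_cast; exact h1) (by push_cast; exact h2) (by push_cast; exact h3)
    (by push_cast; exact h4) le_rfl
  have hdvd2 : sX ^ (p ^ e * K) ∣ thm P v mv ^ p ^ e * thm P u mu -
      thm P (u + p ^ e • v) (mu + (p : ℤ) ^ e * mv) := by
    refine (pow_dvd_pow _ ?_).trans hdvd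
    have h8 : p ^ e * K ≤ p ^ e * (v none + L + 1) := Nat.mul_le_mul_left _ hK
    have h9 : p ^ e * (v none + L + 1) = p ^ e * v none + p ^ e * (L + 1) := by ring
    omega
  have h10 := ψ.map_dvd (sub_mem hAm hBm) (hAh.sub hBh) hdvd2
  rw [ψ.map_sub hAm hBm hAh hBh, ψ.mul n (dg v) _ _ hvm hvh hum huh] at h10
  exact h10

theorem K2_co_eq {K : ℕ} {a b : UU p} (h : sX ^ K ∣ a - b) {w : V →₀ ℕ} (hw : w none < K)
    (m : ℤ) : co a w m = co b w m := by
  have h1 := (sX_pow_dvd_iff_co K (a - b)).1 h w m hw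
  rw [co_sub, sub_eq_zero] at h1
  exact h1

/-- Shift invariance. With `q = p^e`, `L = q (w none + 1)`, `L' = w none + 1`: by
`thm_pow_mul_sub_dvd` the elements `thm v ^ q * thm u` and `thm (u + q v)` of `RR P` differ by a
multiple of `s^(u none + q v none + L)`, hence of `s^(q (v none + w none + 1))`; so their images
under `ψ` differ by a multiple of `s^(v none + w none + 1)` (`GMap.map_dvd`, `GMap.map_sub`) and have
the same coefficient at `w + v`. The image of the first one is `thm v * ψ (thm u)`; use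
`co_thm_mul`. (`1 ≤ dg u` follows from `h1`, `h2`.) -/
theorem GMap.shift [Fact p.Prime] {n : ℕ} {u v w : V →₀ ℕ} {mu mv mw : ℤ}
    (hdeg : dg u = p ^ e * n + c) (hv : 1 ≤ dg v)
    (h1 : (p : ℤ) ^ e * (w none + 1) ≤ mu) (h2 : (p : ℤ) ^ e * (w none + 1) ≤ 3 * dg u - mu)
    (h3 : (w none : ℤ) + 1 ≤ mv) (h4 : (w none : ℤ) + 1 ≤ 3 * dg v - mv) :
    co (ψ.f (n + dg v) (thm P (u + p ^ e • v) (mu + (p : ℤ) ^ e * mv))) (w + v) (mw + mv) =
      co (ψ.f n (thm P u mu)) w mw := by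
  have hstep := K2_step ψ (K := v none + w none + 1) (L := w none) hdeg rfl hv h1 h2 h3 h4 le_rfl
  rw [← K2_co_eq hstep (by rw [Finsupp.add_apply]; omega) (mw + mv)]
  exact co_thm_mul P hv h3 h4 _

/-- The coefficient of `ψ (thm u)` at `w` only depends on `q w - u` if `u` is deep. Apply
`GMap.shift` to `(u, w)` with `v = w' + xone N`, `mv = mw' + N` and to `(u', w')` with
`v' = w + xone N`, `mv' = mw + N`, for a natural number `N` large (all conditions hold for `N`
large, as `dg (xone N) = 4 N`): then `u + q v = u' + q v'`, `w + v = w' + v'`, and similarly for the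
`T`-exponents and the degrees. -/
theorem GMap.indep [Fact p.Prime] {n n' : ℕ} {u u' w w' : V →₀ ℕ} {mu mu' mw mw' : ℤ}
    (hdeg : dg u = p ^ e * n + c) (hdeg' : dg u' = p ^ e * n' + c)
    (h1 : (p : ℤ) ^ e * (w none + 1) ≤ mu) (h2 : (p : ℤ) ^ e * (w none + 1) ≤ 3 * dg u - mu)
    (h1' : (p : ℤ) ^ e * (w' none + 1) ≤ mu') (h2' : (p : ℤ) ^ e * (w' none + 1) ≤ 3 * dg u' - mu')
    (hy : p ^ e • w + u' = p ^ e • w' + u)
    (hT : (p : ℤ) ^ e * mw - mu = (p : ℤ) ^ e * mw' - mu') :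
    co (ψ.f n (thm P u mu)) w mw = co (ψ.f n' (thm P u' mu')) w' mw' := by
  have hq := K2_q (p := p) e
  have hdgeq : n + dg w' = n' + dg w := by
    have h3 := congrArg dg hy
    rw [dg_add, dg_add, dg_smul, dg_smul, hdeg, hdeg'] at h3
    have h4 : p ^ e * (n + dg w') = p ^ e * (n' + dg w) := by
      rw [mul_add, mul_add]; omega
    exact Nat.eq_of_mul_eq_mul_left (by omega) h4
  obtain ⟨N, hN⟩ : ∃ N : ℕ, N = w none + w' none + 1 + mw.natAbs + mw'.natAbs := ⟨_, rfl⟩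
  have e1 := ψ.shift (v := w' + xone N) (mv := mw' + N) hdeg
    (by rw [dg_add, dg_xone]; omega) h1 h2 (mw := mw) (by omega)
    (by rw [dg_add, dg_xone]; push_cast; omega)
  have e2 := ψ.shift (v := w + xone N) (mv := mw + N) hdeg'
    (by rw [dg_add, dg_xone]; omega) h1' h2' (mw := mw') (by omega)
    (by rw [dg_add, dg_xone]; push_cast; omega)
  have f1 : u + p ^ e • (w' + xone N) = u' + p ^ e • (w + xone N) := by
    have h3 : u + p ^ e • w' = u' + p ^ e • w := by
      rw [add_comm u, ← hy, add_comm]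
    rw [smul_add, smul_add, ← add_assoc, ← add_assoc, h3]
  have f2 : mu + (p : ℤ) ^ e * (mw' + N) = mu' + (p : ℤ) ^ e * (mw + N) := by
    rw [mul_add, mul_add]; omega
  have f3 : n + dg (w' + xone N) = n' + dg (w + xone N) := by
    rw [dg_add, dg_add]; omega
  have f4 : w + (w' + xone N) = w' + (w + xone N) := add_left_comm _ _ _
  have f5 : mw + (mw' + N) = mw' + (mw + N) := add_left_comm _ _ _
  rw [← e1, ← e2, f1, f2, f3, f4, f5]

/-- Vanishing. Case `i = none`: `s^(u none)` divides `thm u` (`thm_dvd`), and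
`u none ≥ q (w none + 1)`, so `s^(w none + 1)` divides `ψ (thm u)` (`GMap.map_dvd`). Case
`i = some j`: first shift (`GMap.shift`) with `v = xone N`, `mv = N`, `N` large; so replace `u` by
`u + q xone N`, `w` by `w + xone N`, `n` by `n + 4 N`. Put `k = w (some j) + N + 1`,
`v = single (some j) k`, `mv = w none + 1`; then `u + q xone N = u'' + q v` with `u''` an exponent
(`u (some j) ≥ q (w (some j) + 1)`), of `T`-exponent `m'' = mu + q N - q (w none + 1)`; for `N` large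
`q (w none + 1) ≤ m''`, `q (w none + 1) ≤ 3 dg u'' - m''` and `w none + 1 ≤ 3 k - mv`, `dg u'' ≥ 1`.
By `thm_pow_mul_sub_dvd` (`L = q (w none + 1)`, `L' = w none + 1`) and `GMap.map_dvd` the coefficient
at `w + xone N` of `ψ (thm (u + q xone N))` is that of `thm v * ψ (thm u'')` (degrees:
`dg u'' = q (n + 4 N - k) + c`; note `k ≤ n + 4 N` as `q k ≤ dg u + 4 q N = q (n + 4 N) + c` for the
first and `dg u'' ≥ c`: if `k > n + 4 N` then the coefficient at `w + xone N` vanishes already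
because `ψ.f (n + 4 N)` has degree `n + 4 N < k ≤ dg (w + xone N)`), and
`thm v = mono v + s^(w none + 1) a` (`thm_approx`), so it is the coefficient at `w + xone N` of
`mono v mv * ψ (thm u'')`, zero because `v (some j) = k > (w + xone N) (some j)`. -/
theorem GMap.vanish [Fact p.Prime] {n : ℕ} {u w : V →₀ ℕ} {mu mw : ℤ}
    (hdeg : dg u = p ^ e * n + c)
    (h1 : (p : ℤ) ^ e * (w none + 1) ≤ mu) (h2 : (p : ℤ) ^ e * (w none + 1) ≤ 3 * dg u - mu)
    {i : V} (hi : p ^ e * (w i + 1) ≤ u i) :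
    co (ψ.f n (thm P u mu)) w mw = 0 := by
  have hq := K2_q (p := p) e
  obtain ⟨hu0, hu1, hu2⟩ := K2_dg h1 h2
  have hum := thm_mem P hu2 hu0 hu1
  have huh := thm_hom P hu2 hu0 hu1
  rw [hdeg] at huh
  rcases i with _ | j
  · have h3 : sX ^ (p ^ e * (w none + 1)) ∣ thm P u mu :=
      (pow_dvd_pow _ hi).trans (thm_dvd P hu2 hu0 hu1)
    exact (sX_pow_dvd_iff_co _ _).1 (ψ.map_dvd hum huh h3) w mw (by omega)
  obtain ⟨N, hN⟩ : ∃ N : ℕ, N = w none + w (some j) + 1 := ⟨_, rfl⟩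
  obtain ⟨k, hk⟩ : ∃ k : ℕ, k = w (some j) + N + 1 := ⟨_, rfl⟩
  have e1 := ψ.shift (v := xone N) (mv := N) hdeg
    (by rw [dg_xone]; omega) h1 h2 (mw := mw) (by omega)
    (by rw [dg_xone]; push_cast; omega)
  rw [← e1]
  have hxj : xone N (some j) = N := rfl
  have hx0 : xone N none = 0 := xone_none N
  have hdw : w (some j) ≤ dg w := Finset.single_le_sum (f := fun j => w (some j))
    (fun _ _ => Nat.zero_le _) (Finset.mem_univ j)
  have hqz : (1 : ℤ) ≤ (p : ℤ) ^ e := by exact_mod_cast hq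
  have hz0 : 0 ≤ mu + (p : ℤ) ^ e * N := by
    have := mul_nonneg (by omega : (0 : ℤ) ≤ (p : ℤ) ^ e) (Int.natCast_nonneg N)
    omega
  have hdx : dg (u + p ^ e • xone N) = p ^ e * (n + 4 * N) + c := by
    rw [dg_add, dg_smul, dg_xone, hdeg]; ring
  have hz1 : mu + (p : ℤ) ^ e * N ≤ 3 * dg (u + p ^ e • xone N) := by
    have h5 := mul_nonneg (by omega : (0 : ℤ) ≤ (p : ℤ) ^ e) (Int.natCast_nonneg N)
    rw [dg_add, dg_smul, dg_xone]
    push_cast
    nlinarith
  have hz2 : 1 ≤ dg (u + p ^ e • xone N) := by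
    rw [dg_add]; omega
  by_cases hkn : n + 4 * N < k
  · by_contra hne
    have hBm := thm_mem P hz2 hz0 hz1
    have hBh := thm_hom P hz2 hz0 hz1
    rw [hdx] at hBh
    have h6 := ψ.hom (n + 4 * N) _ hBm hBh
    have h7 : dg (w + xone N) = n + 4 * N := by
      apply h6
      intro h8
      apply hne
      rw [dg_xone, co, h8]
      rfl
    rw [dg_add, dg_xone] at h7
    omega
  · push Not at hkn
    have hle : p ^ e • Finsupp.single (some j) k ≤ u + p ^ e • xone N := by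
      rw [Finsupp.smul_single, Finsupp.single_le_iff, Finsupp.add_apply, Finsupp.smul_apply, hxj,
        smul_eq_mul, smul_eq_mul, hk]
      have h8 : p ^ e * (w (some j) + N + 1) = p ^ e * (w (some j) + 1) + p ^ e * N := by ring
      omega
    obtain ⟨u2, hu2'⟩ : ∃ u2 : V →₀ ℕ, u + p ^ e • xone N = u2 + p ^ e • Finsupp.single (some j) k :=
      ⟨_, (tsub_add_cancel_of_le hle).symm⟩
    have hdk : dg (Finsupp.single (some j) k : V →₀ ℕ) = k := dg_single_some j k
    have hdu2 : dg u2 = p ^ e * (n + 4 * N - k) + c := by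
      have h9 := congrArg dg hu2'
      rw [hdx, dg_add, dg_smul, hdk] at h9
      have h10 : p ^ e * (n + 4 * N) = p ^ e * (n + 4 * N - k) + p ^ e * k := by
        rw [← mul_add, Nat.sub_add_cancel hkn]
      omega
    have hu20 : u2 none = u none := by
      have h9 := congrArg (fun f : V →₀ ℕ => f none) hu2'
      simpa [hx0] using h9.symm
    have hdz : (dg u2 : ℤ) = dg u + 4 * ((p : ℤ) ^ e * N) - (p : ℤ) ^ e * k := by
      have h9 := congrArg dg hu2'
      rw [dg_add, dg_add, dg_smul, dg_smul, dg_xone, hdk] at h9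
      have h10 : ((dg u + p ^ e * (4 * N) : ℕ) : ℤ) = ((dg u2 + p ^ e * k : ℕ) : ℤ) := by rw [h9]
      push_cast at h10
      linarith
    have hA : (p : ℤ) ^ e * (w none + 1) ≤ (p : ℤ) ^ e * N :=
      mul_le_mul_of_nonneg_left (by omega) (by omega)
    have hB : (p : ℤ) ^ e * k = (p : ℤ) ^ e * (w (some j) + 1) + (p : ℤ) ^ e * N := by
      rw [hk]; push_cast; ring
    have hC : (p : ℤ) ^ e * (w (some j) + 1) ≤ (p : ℤ) ^ e * N :=
      mul_le_mul_of_nonneg_left (by omega) (by omega)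
    have hD : 0 ≤ (p : ℤ) ^ e * (w none + 1) := mul_nonneg (by omega) (by omega)
    have hstep := K2_step ψ (n := n + 4 * N - k) (k := k) (u := u2)
      (v := Finsupp.single (some j) k) (mu := mu + (p : ℤ) ^ e * N - (p : ℤ) ^ e * (w none + 1))
      (mv := w none + 1) (K := w none + 1) (L := w none) hdu2 hdk (by rw [hdk]; omega)
      (by omega) (by rw [hdz]; omega) le_rfl (by rw [hdk]; omega) (by omega)
    have hT : mu + (p : ℤ) ^ e * N - (p : ℤ) ^ e * (w none + 1) + (p : ℤ) ^ e * (w none + 1) =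
        mu + (p : ℤ) ^ e * N := by ring
    rw [← hu2', Nat.sub_add_cancel hkn, hT] at hstep
    rw [dg_xone, ← K2_co_eq hstep (by rw [Finsupp.add_apply, hx0]; omega)]
    have hap := thm_approx P (e := Finsupp.single (some j) k) (m := w none + 1) (L := w none + 1)
      (by rw [hdk]; omega) (by push_cast; exact le_rfl) (by rw [hdk]; push_cast; omega)
    have hap2 : sX ^ (w none + 1) ∣ thm P (Finsupp.single (some j) k) (w none + 1) *
          ψ.f (n + 4 * N - k) (thm P u2 (mu + (p : ℤ) ^ e * N - (p : ℤ) ^ e * (w none + 1))) -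
        mono (Finsupp.single (some j) k) (w none + 1) *
          ψ.f (n + 4 * N - k) (thm P u2 (mu + (p : ℤ) ^ e * N - (p : ℤ) ^ e * (w none + 1))) := by
      rw [← sub_mul]
      refine dvd_mul_of_dvd_left ((pow_dvd_pow _ ?_).trans hap) _
      omega
    rw [K2_co_eq hap2 (by rw [Finsupp.add_apply, hx0]; omega), co, mono, coeff_monomial_mul,
      if_neg]
    · rfl
    · rw [Finsupp.single_le_iff, Finsupp.add_apply, hxj]
      omega

end Pool.Agent.W_35cfd6_h24
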