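import Pool.Agent.W_35cfd6_h24.K2

/-!
# Graded `p^(-e)`-linear maps: the kernel
-/

set_option autoImplicit false

namespace Pool.Agent.W_35cfd6_h24

open MvPowerSeries

variable {p : ℕ} {P : Par p} {e c : ℕ} (ψ : GMap P e c)

theorem K3_xone_mul (q D : ℕ) : xone (q * D) = q • xone D := by
  ext v
  rw [Finsupp.smul_apply]
  cases v with
  | none => simp [xone]
  | some j => simp [xone]

theorem K3_q [Fact p.Prime] (e : ℕ) : 1 ≤ p ^ e :=
  Nat.one_le_pow _ _ (Fact.out : p.Prime).pos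

theorem K3_split [Fact p.Prime] (e : ℕ) (ε : V →₀ ℕ) : (p ^ e - 1) • ε + ε = p ^ e • ε := by
  conv_lhs => rw [← one_nsmul ε, smul_smul, ← add_nsmul]
  rw [mul_one, Nat.sub_add_cancel (K3_q (p := p) e)]

theorem K3_dg [Fact p.Prime] (e c : ℕ) (ε : V →₀ ℕ) (D : ℕ) (h : dg ε + c = 4 * (p ^ e - 1)) :
    dg ((p ^ e - 1) • ε + ones (p ^ e - 1) + xone (p ^ e * D)) =
      p ^ e * (dg ε + 4 * D) + c := by
  obtain ⟨r, hr⟩ : ∃ r, p ^ e = r + 1 := ⟨p ^ e - 1, (Nat.sub_add_cancel (K3_q (p := p) e)).symm⟩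
  rw [dg_add, dg_add, dg_smul, dg_ones, dg_xone]
  rw [hr] at h ⊢
  simp only [Nat.add_sub_cancel] at h ⊢
  rw [← h]
  ring

theorem K3_none (e : ℕ) (ε : V →₀ ℕ) (D : ℕ) : (ε + xone D) none = ε none := by
  rw [Finsupp.add_apply, xone_none, add_zero]

/-- The depth used for the coefficient at `(ε, μ)`. -/
def refD (ε : V →₀ ℕ) (μ : ℤ) : ℕ := ε none + 1 + μ.natAbs

/-- The coefficients of the kernel of `ψ`: the coefficient at `w = ε + xone D`, `T^D`, of
`ψ (thm u)`, `u = (q - 1) ε + ones (q - 1) + xone (q D)`, with `T`-exponent `q D - μ`. -/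
noncomputable def GMap.kerc (ε : V →₀ ℕ) (μ : ℤ) : ZMod p :=
  open Classical in
  if dg ε + c = 4 * (p ^ e - 1) then
    co (ψ.f (dg ε + 4 * refD ε μ)
      (thm P ((p ^ e - 1) • ε + ones (p ^ e - 1) + xone (p ^ e * refD ε μ))
        ((p : ℤ) ^ e * refD ε μ - μ))) (ε + xone (refD ε μ)) (refD ε μ)
  else 0

/-- The coefficients of `ψ (thm u)` for deep `u` in terms of the kernel: `GMap.indep` with
`u' = (q - 1) ε + ones (q - 1) + xone (q D)`, `w' = ε + xone D`, `D = refD ε μ`,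
`μ = q mw - mu`. Degrees: `q dg w + 4 (q - 1) = dg u + dg ε`, `dg u = q n + c`, `dg w = n`, so
`dg ε + c = 4 (q - 1)`, and `dg u' = q (dg ε + 4 D) + c`. Depth of `u'`:
`q D - μ ≥ q (ε none + 1)` as `q |μ| ≥ μ`, and `3 dg u' ≥ 12 q D`. -/
theorem GMap.ker_eq [Fact p.Prime] {n : ℕ} {u w ε : V →₀ ℕ} {mu mw : ℤ}
    (hdeg : dg u = p ^ e * n + c) (hw : dg w = n)
    (h1 : (p : ℤ) ^ e * (w none + 1) ≤ mu) (h2 : (p : ℤ) ^ e * (w none + 1) ≤ 3 * dg u - mu)
    (hε : p ^ e • w + ones (p ^ e - 1) = u + ε) :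
    co (ψ.f n (thm P u mu)) w mw = ψ.kerc ε ((p : ℤ) ^ e * mw - mu) := by
  have hq1 := K3_q (p := p) e
  have hdg : dg ε + c = 4 * (p ^ e - 1) := by
    have h := congrArg dg hε
    rw [dg_add, dg_add, dg_smul, dg_ones, hdeg, hw] at h
    omega
  rw [GMap.kerc, if_pos hdg]
  set μ : ℤ := (p : ℤ) ^ e * mw - mu with hμ
  set D : ℕ := refD ε μ with hD
  have hDv : (D : ℤ) = ε none + 1 + |μ| := by
    rw [hD, refD]
    push_cast
    rfl
  have hqz : (1 : ℤ) ≤ (p : ℤ) ^ e := by exact_mod_cast hq1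
  have habs : μ ≤ |μ| := le_abs_self μ
  have habs' : -μ ≤ |μ| := neg_le_abs μ
  have habs0 : 0 ≤ |μ| := abs_nonneg μ
  have hε0 : (0 : ℤ) ≤ ε none := Int.natCast_nonneg _
  have hqabs : |μ| ≤ (p : ℤ) ^ e * |μ| := le_mul_of_one_le_left habs0 hqz
  have hqε : (0 : ℤ) ≤ (p : ℤ) ^ e * ((ε none : ℤ) + 1) := by positivity
  have hqD : (p : ℤ) ^ e * D = (p : ℤ) ^ e * ((ε none : ℤ) + 1) + (p : ℤ) ^ e * |μ| := by
    rw [hDv]; ring
  have hdeg' := K3_dg (p := p) e c ε D hdg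
  refine GMap.indep ψ hdeg hdeg' h1 h2 ?_ ?_ ?_ ?_
  · rw [K3_none e]
    linarith
  · rw [K3_none e, hdeg']
    push_cast
    have h3 : (0 : ℤ) ≤ (p : ℤ) ^ e * (dg ε : ℤ) := by positivity
    have h4 : (0 : ℤ) ≤ (c : ℤ) := Int.natCast_nonneg _
    nlinarith
  · rw [smul_add, ← K3_xone_mul, ← K3_split (p := p) e ε]
    calc p ^ e • w + ((p ^ e - 1) • ε + ones (p ^ e - 1) + xone (p ^ e * D))
        = (p ^ e • w + ones (p ^ e - 1)) + (p ^ e - 1) • ε + xone (p ^ e * D) := by abel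
      _ = (u + ε) + (p ^ e - 1) • ε + xone (p ^ e * D) := by rw [hε]
      _ = _ := by abel
  · rw [hμ]; ring

/-- If `u` is not below `q w + ones (q - 1)` then some `u i ≥ q (w i + 1)`: `GMap.vanish`. -/
theorem GMap.ker_zero [Fact p.Prime] {n : ℕ} {u w : V →₀ ℕ} {mu mw : ℤ}
    (hdeg : dg u = p ^ e * n + c)
    (h1 : (p : ℤ) ^ e * (w none + 1) ≤ mu) (h2 : (p : ℤ) ^ e * (w none + 1) ≤ 3 * dg u - mu)
    (h : ¬ u ≤ p ^ e • w + ones (p ^ e - 1)) :
    co (ψ.f n (thm P u mu)) w mw = 0 := by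
  have hq1 := K3_q (p := p) e
  have h3 : ∃ i, ¬ u i ≤ (p ^ e • w + ones (p ^ e - 1)) i := by
    by_contra hcon
    push Not at hcon
    exact h fun i => hcon i
  obtain ⟨i, hi⟩ := h3
  refine GMap.vanish ψ hdeg h1 h2 (i := i) ?_
  rw [Finsupp.add_apply, Finsupp.smul_apply, smul_eq_mul] at hi
  have h4 : ones (p ^ e - 1) i = p ^ e - 1 := rfl
  rw [h4] at hi
  rw [mul_add, mul_one]
  omega

/-- The kernel is finitely supported in `T`. Let `dg ε + c = 4 (q - 1)` (otherwise all coefficients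
vanish). For every residue `ρ`, `0 ≤ ρ < q`, let `D = ε none + 2`,
`u = (q - 1) ε + ones (q - 1) + xone (q D)`, `mu = q D - ρ`, `w = ε + xone D`; by `GMap.ker_eq`
`ψ.kerc ε (q mw - mu) = co (ψ.f n (thm P u mu)) w mw` for all `mw : ℤ`, nonzero for only finitely
many `mw` (`finite_co`). Every `μ : ℤ` is `q mw - (q D - ρ)` for suitable `ρ`, `mw`. So the support is
contained in a finite union of finite sets. -/
theorem GMap.ker_finite [Fact p.Prime] (ε : V →₀ ℕ) :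
    (Function.support (ψ.kerc ε)).Finite := by
  have hq1 := K3_q (p := p) e
  have hqz : (1 : ℤ) ≤ (p : ℤ) ^ e := by exact_mod_cast hq1
  by_cases hdg : dg ε + c = 4 * (p ^ e - 1)
  swap
  · refine (Set.finite_empty).subset fun μ hμ => ?_
    exfalso
    exact hμ (by rw [GMap.kerc, if_neg hdg])
  set D : ℕ := ε none + 2 with hD
  have key : ∀ ρ : ℕ, ρ < p ^ e → ∀ mw : ℤ,
      co (ψ.f (dg ε + 4 * D) (thm P ((p ^ e - 1) • ε + ones (p ^ e - 1) + xone (p ^ e * D))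
        ((p : ℤ) ^ e * D - ρ))) (ε + xone D) mw =
      ψ.kerc ε ((p : ℤ) ^ e * mw - ((p : ℤ) ^ e * D - ρ)) := by
    intro ρ hρ mw
    have hρz : (ρ : ℤ) < (p : ℤ) ^ e := by exact_mod_cast hρ
    have hdeg := K3_dg (p := p) e c ε D hdg
    have hDz : (D : ℤ) = ε none + 2 := by rw [hD]; push_cast; rfl
    refine GMap.ker_eq ψ hdeg ?_ ?_ ?_ ?_
    · rw [dg_add, dg_xone]
    · rw [K3_none e, hDz]
      linarith
    · rw [K3_none e, hdeg, hDz]
      push_cast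
      have h3 : (0 : ℤ) ≤ (p : ℤ) ^ e * (dg ε : ℤ) := by positivity
      have h4 : (0 : ℤ) ≤ (c : ℤ) := Int.natCast_nonneg _
      have h5 : (0 : ℤ) ≤ (p : ℤ) ^ e * (ε none : ℤ) := by positivity
      have h6 : (0 : ℤ) ≤ (ρ : ℤ) := Int.natCast_nonneg _
      rw [hDz]
      nlinarith
    · rw [smul_add, ← K3_xone_mul, ← K3_split (p := p) e ε]
      abel
  refine ((Finset.range (p ^ e)).finite_toSet.biUnion fun ρ _ =>
    (finite_co (ψ.f (dg ε + 4 * D) (thm P ((p ^ e - 1) • ε + ones (p ^ e - 1) + xone (p ^ e * D))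
        ((p : ℤ) ^ e * D - (ρ : ℕ)))) (ε + xone D)).image
      fun mw : ℤ => (p : ℤ) ^ e * mw - ((p : ℤ) ^ e * D - (ρ : ℕ))).subset ?_
  intro μ hμ
  have hq0 : ((p : ℤ) ^ e) ≠ 0 := by positivity
  have h1 := Int.emod_nonneg μ hq0
  have h2 := Int.emod_lt_of_pos μ (by positivity : (0 : ℤ) < (p : ℤ) ^ e)
  have h3 := Int.emod_add_mul_ediv μ ((p : ℤ) ^ e)
  have h4 : ((μ % (p : ℤ) ^ e).toNat : ℤ) = μ % (p : ℤ) ^ e := Int.toNat_of_nonneg h1
  have h5 : (μ % (p : ℤ) ^ e).toNat < p ^ e := by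
    have : ((μ % (p : ℤ) ^ e).toNat : ℤ) < ((p ^ e : ℕ) : ℤ) := by
      rw [h4]; push_cast; exact h2
    exact_mod_cast this
  rw [Set.mem_iUnion₂]
  refine ⟨(μ % (p : ℤ) ^ e).toNat, by rw [Finset.coe_range, Set.mem_Iio]; exact h5, ?_⟩
  have h6 : (p : ℤ) ^ e * (μ / (p : ℤ) ^ e + D) -
      ((p : ℤ) ^ e * D - ((μ % (p : ℤ) ^ e).toNat : ℕ)) = μ := by
    rw [h4]
    linarith
  refine ⟨μ / (p : ℤ) ^ e + D, ?_, h6⟩
  rw [Set.mem_setOf_eq, key _ h5, h6]
  exact hμ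

/-- The kernel of `ψ`. -/
noncomputable def GMap.ker [Fact p.Prime] : UU p := mkU ψ.kerc ψ.ker_finite

theorem GMap.co_ker [Fact p.Prime] (ε : V →₀ ℕ) (μ : ℤ) : co ψ.ker ε μ = ψ.kerc ε μ := rfl

theorem GMap.ker_deg [Fact p.Prime] {ε : V →₀ ℕ} {μ : ℤ} (h : co ψ.ker ε μ ≠ 0) :
    dg ε + c = 4 * (p ^ e - 1) := by
  rw [GMap.co_ker, GMap.kerc] at h
  by_contra hne
  exact h (by rw [if_neg hne])

theorem GMap.ker_hom [Fact p.Prime] : IsHom (4 * (p ^ e - 1) - c) ψ.ker := by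
  intro ε hε
  have h1 : ∃ μ, co ψ.ker ε μ ≠ 0 := by
    by_contra hcon
    push Not at hcon
    apply hε
    refine AddMonoidAlgebra.ext (Finsupp.ext fun m => ?_)
    exact hcon m
  obtain ⟨μ, hμ⟩ := h1
  have h2 := GMap.ker_deg ψ hμ
  omega

theorem GMap.ker_eq_zero [Fact p.Prime] (h : 4 * (p ^ e - 1) < c) : ψ.ker = 0 := by
  refine ext_co fun ε μ => ?_
  rw [co_zero]
  by_contra hne
  have h2 := GMap.ker_deg ψ hne
  omega

theorem K3_co_C_mono (a : ZMod p) (u : V →₀ ℕ) (m : ℤ) (ε : V →₀ ℕ) (μ : ℤ) :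
    co (iota (C a) * mono u m : UU p) ε μ = if ε = u ∧ μ = m then a else 0 := by
  classical
  rw [← coeff_row, row_iota_mul, coeff_C_mul, row_mono]
  by_cases h : μ = m
  · rw [if_pos h, coeff_monomial]
    by_cases h' : ε = u
    · rw [if_pos h', if_pos ⟨h', h⟩, mul_one]
    · rw [if_neg h', if_neg (fun hh => h' hh.1), mul_zero]
  · rw [if_neg h, if_neg (fun hh => h hh.2), map_zero, mul_zero]

/-- The expansion of `th(v)^q f` for deep `v`. Let `f ∈ RR P` be homogeneous of degree `q n + c`,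
`K` a natural number, `S` the finite set of all `(u, mu)` with `u none < K` and `co f u mu ≠ 0`
(finite: `finite_dg`, `finite_co`). For all natural numbers `D` large enough, with
`v = xone D`, `mv = D`: `s^K` divides
`thm v ^ q * f - ∑_((u, mu) ∈ S) co f u mu * thm (u + q v) (mu + q D)`, because
`thm v ^ q = mono (q v) (q D) + s^(q D) a^q` with `q D ≥ K`, `mono (q v) (q D) * f` is modulo `s^K`
the sum of the `co f u mu * mono (u + q v) (mu + q D)` over `S`, and by `thm_approx`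
`thm (u + q v) (mu + q D) = mono (u + q v) (mu + q D)` modulo `s^K` if `K ≤ mu + q D` and
`K ≤ 3 dg (u + q v) - mu - q D`, which hold for the finitely many `(u, mu) ∈ S` if `D` is large. -/
theorem expansion [Fact p.Prime] {f : UU p} {d : ℕ} (hf : IsHom d f) (e K : ℕ)
    (S : Finset ((V →₀ ℕ) × ℤ)) (hS : ∀ u mu, (u, mu) ∈ S ↔ u none < K ∧ co f u mu ≠ 0) :
    ∃ D₀ : ℕ, ∀ D, D₀ ≤ D → sX ^ K ∣ thm P (xone D) D ^ p ^ e * f -
      ∑ x ∈ S, iota (C (co f x.1 x.2)) * thm P (x.1 + p ^ e • xone D) (x.2 + (p : ℤ) ^ e * D) := by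
  classical
  have hq1 := K3_q (p := p) e
  have hqz : (1 : ℤ) ≤ (p : ℤ) ^ e := by exact_mod_cast hq1
  refine ⟨K + 1 + ∑ x ∈ S, x.2.natAbs, fun D hD => ?_⟩
  have hDK : K + 1 ≤ D := by
    have : 0 ≤ ∑ x ∈ S, x.2.natAbs := Nat.zero_le _
    omega
  have hSD : ∀ x ∈ S, K + 1 + x.2.natAbs ≤ D := by
    intro x hx
    have := Finset.single_le_sum (f := fun x : (V →₀ ℕ) × ℤ => x.2.natAbs)
      (fun _ _ => Nat.zero_le _) hx
    omega
  have hDq : (D : ℤ) ≤ (p : ℤ) ^ e * D := le_mul_of_one_le_left (Int.natCast_nonneg _) hqz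
  -- step 1
  have h1 : (sX : UU p) ^ K ∣ thm P (xone D) D ^ p ^ e - mono (xone D) D ^ p ^ e := by
    have h2 : sX ^ ((xone D) none + D) ∣ thm P (xone D) (D : ℤ) - mono (xone D) D := by
      refine thm_approx P ?_ le_rfl ?_
      · rw [dg_xone]; omega
      · rw [dg_xone]; push_cast; omega
    refine ((pow_dvd_pow _ ?_).trans h2).trans (sub_dvd_pow_sub_pow _ _ _)
    omega
  -- step 2
  have h3 : (sX : UU p) ^ K ∣ f - ∑ x ∈ S, iota (C (co f x.1 x.2)) * mono x.1 x.2 := by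
    rw [sX_pow_dvd_iff_co]
    intro ε m hε
    rw [co_sub, co_sum, sub_eq_zero]
    simp only [K3_co_C_mono]
    by_cases hne : co f ε m = 0
    · rw [hne]
      symm
      refine Finset.sum_eq_zero fun x hx => ?_
      split_ifs with h
      · rw [← h.1, ← h.2, hne]
      · rfl
    · have hmem : (ε, m) ∈ S := (hS ε m).2 ⟨hε, hne⟩
      rw [Finset.sum_eq_single (ε, m)]
      · simp
      · intro x _ hx
        rw [if_neg]
        rintro ⟨h4, h5⟩
        exact hx (Prod.ext h4.symm h5.symm)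
      · intro h
        exact absurd hmem h
  -- step 3
  have h4 : ∀ x ∈ S, (sX : UU p) ^ K ∣ iota (C (co f x.1 x.2)) *
      mono (x.1 + p ^ e • xone D) (x.2 + (p : ℤ) ^ e * D) -
      iota (C (co f x.1 x.2)) * thm P (x.1 + p ^ e • xone D) (x.2 + (p : ℤ) ^ e * D) := by
    intro x hx
    rw [← mul_sub, ← neg_sub, mul_neg, dvd_neg]
    refine dvd_mul_of_dvd_right ?_ _
    have h5 := hSD x hx
    have h6 : (K : ℤ) + 1 + |x.2| ≤ D := by
      have : ((K + 1 + x.2.natAbs : ℕ) : ℤ) ≤ D := by exact_mod_cast h5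
      push_cast at this
      exact this
    have h7 := le_abs_self x.2
    have h8 := neg_le_abs x.2
    have hdg : dg (x.1 + p ^ e • xone D) = dg x.1 + p ^ e * (4 * D) := by
      rw [dg_add, dg_smul, dg_xone]
    have hDq' : D ≤ p ^ e * D := Nat.le_mul_of_pos_left _ hq1
    refine (pow_dvd_pow _ (Nat.le_add_left K _)).trans (thm_approx P (L := K) ?_ ?_ ?_)
    · rw [hdg]
      have : p ^ e * (4 * D) = 4 * (p ^ e * D) := by ring
      omega
    · linarith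
    · rw [hdg]
      push_cast
      have h9 : (0 : ℤ) ≤ (dg x.1 : ℤ) := Int.natCast_nonneg _
      nlinarith
  have h5 : thm P (xone D) D ^ p ^ e * f -
      ∑ x ∈ S, iota (C (co f x.1 x.2)) * thm P (x.1 + p ^ e • xone D) (x.2 + (p : ℤ) ^ e * D) =
      (thm P (xone D) D ^ p ^ e - mono (xone D) D ^ p ^ e) * f +
      mono (xone D) D ^ p ^ e * (f - ∑ x ∈ S, iota (C (co f x.1 x.2)) * mono x.1 x.2) +
      ∑ x ∈ S, (iota (C (co f x.1 x.2)) *
        mono (x.1 + p ^ e • xone D) (x.2 + (p : ℤ) ^ e * D) -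
      iota (C (co f x.1 x.2)) * thm P (x.1 + p ^ e • xone D) (x.2 + (p : ℤ) ^ e * D)) := by
    have h6 : mono (xone D) D ^ p ^ e * (∑ x ∈ S, iota (C (co f x.1 x.2)) * mono x.1 x.2) =
        ∑ x ∈ S, iota (C (co f x.1 x.2)) *
          mono (x.1 + p ^ e • xone D) (x.2 + (p : ℤ) ^ e * D) := by
      rw [Finset.mul_sum]
      refine Finset.sum_congr rfl fun x _ => ?_
      rw [mono_pow, mul_left_comm, mono_mul_mono]
      congr 2
      · rw [add_comm]
      · push_cast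
        rw [add_comm]
    rw [Finset.sum_sub_distrib, ← h6]
    ring
  rw [h5]
  exact dvd_add (dvd_add (dvd_mul_of_dvd_left h1 _) (dvd_mul_of_dvd_right h3 _))
    (Finset.dvd_sum h4)

/-- There is such a finite set. -/
theorem exists_S {f : UU p} {d : ℕ} (hf : IsHom d f) (K : ℕ) :
    ∃ S : Finset ((V →₀ ℕ) × ℤ), ∀ u mu, (u, mu) ∈ S ↔ u none < K ∧ co f u mu ≠ 0 := by
  classical
  have hfin : {x : (V →₀ ℕ) × ℤ | x.1 none < K ∧ co f x.1 x.2 ≠ 0}.Finite := by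
    have h1 : (⋃ u ∈ {u : V →₀ ℕ | dg u = d ∧ u none < K},
        (fun m : ℤ => (u, m)) '' {m | co f u m ≠ 0}).Finite :=
      (finite_dg d K).biUnion fun u _ => (finite_co f u).image _
    refine h1.subset ?_
    rintro ⟨u, m⟩ ⟨h2, h3⟩
    rw [Set.mem_iUnion₂]
    refine ⟨u, ⟨hf u ?_, h2⟩, ⟨m, h3, rfl⟩⟩
    intro h4
    apply h3
    simp only [co, h4]
    rfl
  refine ⟨hfin.toFinset, fun u mu => ?_⟩
  rw [Set.Finite.mem_toFinset]
  rfl

end Pool.Agent.W_35cfd6_h24
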