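import Pool.Agent.W_35cfd6_h24.K3

/-!
# Graded `p^(-e)`-linear maps: the trace formula
-/

set_option autoImplicit false

namespace Pool.Agent.W_35cfd6_h24

open MvPowerSeries

variable {p : ℕ} {P : Par p} {e c : ℕ} (ψ : GMap P e c)

/-- A form of `co_kap_mul`: let `β = q w + ones (q - 1)` and let `S` be a finite set containing
exactly the `(u, mu)` with `u none < K`, `co f u mu ≠ 0`, where `K > β none`. Then the coefficient
of `kap e (F * f)` at `(w, mw)` is the sum over the `(u, mu) ∈ S` with `u ≤ β` of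
`co f u mu * co F (β - u) (q mw - mu)`. -/
theorem co_kap_mul_sum [Fact p.Prime] (e : ℕ) (F f : UU p) (w : V →₀ ℕ) (mw : ℤ) {K : ℕ}
    (S : Finset ((V →₀ ℕ) × ℤ)) (hS : ∀ u mu, (u, mu) ∈ S ↔ u none < K ∧ co f u mu ≠ 0)
    (hK : (p ^ e • w + ones (p ^ e - 1)) none < K) :
    co (kap e (F * f)) w mw = ∑ x ∈ S with x.1 ≤ p ^ e • w + ones (p ^ e - 1),
      co f x.1 x.2 * co F (p ^ e • w + ones (p ^ e - 1) - x.1) ((p : ℤ) ^ e * mw - x.2) := by
  classical
  rw [co_kap_mul]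
  set β : V →₀ ℕ := p ^ e • w + ones (p ^ e - 1) with hβ
  set T : Finset ℤ := S.image Prod.snd with hT
  have h1 : ∀ x ∈ Finset.HasAntidiagonal.antidiagonal β,
      ∑ᶠ M : ℤ, co F x.1 M * co f x.2 ((p : ℤ) ^ e * mw - M) =
        ∑ mu ∈ T, co f x.2 mu * co F (β - x.2) ((p : ℤ) ^ e * mw - mu) := by
    intro x hx
    rw [Finset.HasAntidiagonal.mem_antidiagonal] at hx
    have hx1 : x.1 = β - x.2 := by rw [← hx, add_tsub_cancel_right]
    rw [← finsum_comp_equiv (Equiv.subLeft ((p : ℤ) ^ e * mw))]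
    have h2 : ∀ mu : ℤ, co F x.1 ((Equiv.subLeft ((p : ℤ) ^ e * mw)) mu) *
        co f x.2 ((p : ℤ) ^ e * mw - (Equiv.subLeft ((p : ℤ) ^ e * mw)) mu) =
        co f x.2 mu * co F (β - x.2) ((p : ℤ) ^ e * mw - mu) := by
      intro mu
      rw [Equiv.subLeft_apply, sub_sub_cancel, hx1, mul_comm]
    rw [finsum_congr h2]
    refine finsum_eq_finsetSum_of_support_subset _ fun mu hmu => ?_
    rw [Function.mem_support] at hmu
    rw [hT, Finset.coe_image]
    refine ⟨(x.2, mu), ?_, rfl⟩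
    rw [Finset.mem_coe, hS]
    refine ⟨?_, left_ne_zero_of_mul hmu⟩
    have h3 : x.1 none + x.2 none = β none := by rw [← hx, Finsupp.add_apply]
    omega
  rw [Finset.sum_congr rfl h1, ← Finset.sum_product']
  symm
  refine Finset.sum_of_injOn (fun y : (V →₀ ℕ) × ℤ => ((β - y.1, y.1), y.2)) ?_ ?_ ?_ ?_
  · rintro ⟨a, b⟩ _ ⟨a', b'⟩ _ h
    simp only [Prod.mk.injEq] at h
    rw [h.1.2, h.2]
  · rintro ⟨a, b⟩ hy
    have hy' := Finset.mem_filter.1 (Finset.mem_coe.1 hy)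
    refine Finset.mem_coe.2 (Finset.mem_product.2 ⟨?_, ?_⟩)
    · refine Finset.HasAntidiagonal.mem_antidiagonal.2 ?_
      exact tsub_add_cancel_of_le hy'.2
    · exact Finset.mem_image.2 ⟨(a, b), hy'.1, rfl⟩
  · rintro ⟨⟨a, b⟩, mu⟩ hx hn
    have hx' := (Finset.mem_product.1 hx).1
    rw [Finset.HasAntidiagonal.mem_antidiagonal] at hx'
    simp only at hx' hn ⊢
    have h4 : co f b mu = 0 := by
      by_contra hne
      apply hn
      have h3 : a none + b none = β none := by rw [← hx', Finsupp.add_apply]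
      refine ⟨(b, mu), ?_, ?_⟩
      · refine Finset.mem_coe.2 (Finset.mem_filter.2 ⟨(hS b mu).2 ⟨by omega, hne⟩, ?_⟩)
        simp only
        rw [← hx']
        exact le_add_self
      · simp only
        rw [← hx', add_tsub_cancel_right]
    rw [h4, zero_mul]
  · rintro ⟨a, b⟩ _
    rfl

theorem K4_co_iota_C (a : ZMod p) (g : UU p) (ε : V →₀ ℕ) (m : ℤ) :
    co (iota (C a) * g) ε m = a * co g ε m := by
  rw [← coeff_row, row_iota_mul, coeff_C_mul, coeff_row]

theorem K4_co_ne {n : ℕ} {g : UU p} (hg : IsHom n g) {ε : V →₀ ℕ} {m : ℤ} (h : co g ε m ≠ 0) :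
    dg ε = n := by
  refine hg ε fun h0 => h ?_
  rw [co, h0]
  rfl

/-- The coefficient of `ψ f` in terms of `S`. Let `dg w = n`, `K = q (w none + 1)`, `S` as in
`exists_S` (for `f`, `K`). Choose `D ≥ D₀` (`expansion`), `D ≥ w none + 1`, such that for all
`(u, mu) ∈ S` one has `K ≤ mu + q D` and `K ≤ 3 dg (u + q xone D) - (mu + q D)`
(`dg (u + q xone D) = dg u + 4 q D`). By `co_thm_mul` (`v = xone D`, `mv = D`)
`co (ψ f) w mw = co (thm v * ψ f) (w + v) (mw + D)`, which is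
`co (ψ.f (n + 4 D) (thm v ^ q * f)) (w + v) (mw + D)`. The element `thm v ^ q * f` is
`∑_S co f u mu * thm (u + q v) (mu + q D)` modulo `s^K` (all in `RR P`, homogeneous of degree
`q (n + 4 D) + c`), so by `GMap.map_dvd`, `GMap.map_sub`, `GMap.map_sum`, `GMap.map_smul` the
coefficient is `∑_S co f u mu * co (ψ.f (n + 4 D) (thm (u + q v) (mu + q D))) (w + v) (mw + D)`. By
`GMap.ker_eq` (with `ε = β - u`, `β = q w + ones (q - 1)`) the terms with `u ≤ β` are as claimed, and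
by `GMap.ker_zero` the others vanish (`u + q v ≤ q (w + v) + ones (q - 1)` iff `u ≤ β`). -/
theorem GMap.co_eq_sum [Fact p.Prime] {n : ℕ} {f : UU p} (hf : f ∈ RR P)
    (hh : IsHom (p ^ e * n + c) f) {w : V →₀ ℕ} (hw : dg w = n) (mw : ℤ)
    (S : Finset ((V →₀ ℕ) × ℤ))
    (hS : ∀ u mu, (u, mu) ∈ S ↔ u none < p ^ e * (w none + 1) ∧ co f u mu ≠ 0) :
    co (ψ.f n f) w mw = ∑ x ∈ S with x.1 ≤ p ^ e • w + ones (p ^ e - 1),
      co f x.1 x.2 * co ψ.ker (p ^ e • w + ones (p ^ e - 1) - x.1) ((p : ℤ) ^ e * mw - x.2) := by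
  classical
  have hq1 : 1 ≤ p ^ e := Nat.one_le_pow _ _ (Fact.out : p.Prime).pos
  have hq1z : (1 : ℤ) ≤ (p : ℤ) ^ e := by exact_mod_cast hq1
  obtain ⟨D₀, hD₀⟩ := expansion (P := P) hh e (p ^ e * (w none + 1)) S hS
  set K : ℕ := p ^ e * (w none + 1) with hK
  set B : ℕ := ∑ x ∈ S, x.2.natAbs with hB
  set D : ℕ := D₀ + (w none + 1) + K + B with hD
  have hBx : ∀ x ∈ S, x.2.natAbs ≤ B := fun x hx =>
    Finset.single_le_sum (f := fun x : (V →₀ ℕ) × ℤ => x.2.natAbs) (fun _ _ => Nat.zero_le _) hx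
  have hexp := hD₀ D (by omega)
  have hdv : dg (xone D) = 4 * D := dg_xone D
  have hv1 : 1 ≤ dg (xone D) := by omega
  have hqD : (D : ℤ) ≤ (p : ℤ) ^ e * D := by nlinarith
  have hmul := ψ.mul n (dg (xone D)) (thm P (xone D) D) f (thm_mem P hv1 (by omega) (by omega))
    (thm_hom P hv1 (by omega) (by omega)) hf hh
  have hco := co_thm_mul P (v := xone D) (w := w) (mv := D) (mw := mw) hv1 (by omega) (by omega)
    (ψ.f n f)
  rw [← hco, ← hmul]
  -- the properties of the terms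
  have hdu : ∀ x ∈ S, dg (x.1 + p ^ e • xone D) = p ^ e * (n + dg (xone D)) + c := by
    intro x hx
    rw [dg_add, dg_smul, K4_co_ne hh ((hS x.1 x.2).1 hx).2]
    ring
  have hm1 : ∀ x ∈ S, (K : ℤ) ≤ x.2 + (p : ℤ) ^ e * D := by
    intro x hx
    have h1 := hBx x hx
    omega
  have hm2 : ∀ x ∈ S, (K : ℤ) ≤ 3 * dg (x.1 + p ^ e • xone D) - (x.2 + (p : ℤ) ^ e * D) := by
    intro x hx
    have h1 := hBx x hx
    rw [hdu x hx, hdv]
    push_cast
    have h2 : 0 ≤ (p : ℤ) ^ e * n := by positivity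
    have h3 : (p : ℤ) ^ e * (n + 4 * D) = (p : ℤ) ^ e * n + 4 * ((p : ℤ) ^ e * D) := by ring
    rw [h3]
    omega
  have hdu1 : ∀ x ∈ S, 1 ≤ dg (x.1 + p ^ e • xone D) := by
    intro x hx
    rw [hdu x hx, hdv]
    have h2 : 1 ≤ p ^ e * (n + 4 * D) := Nat.one_le_iff_ne_zero.2
      (Nat.mul_ne_zero (by omega) (by omega))
    omega
  have hmem : ∀ x ∈ S, thm P (x.1 + p ^ e • xone D) (x.2 + (p : ℤ) ^ e * D) ∈ RR P := by
    intro x hx
    have h1 := hm1 x hx
    have h2 := hm2 x hx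
    exact thm_mem P (hdu1 x hx) (by omega) (by omega)
  have hhom : ∀ x ∈ S, IsHom (p ^ e * (n + dg (xone D)) + c)
      (thm P (x.1 + p ^ e • xone D) (x.2 + (p : ℤ) ^ e * D)) := by
    intro x hx
    have h1 := hm1 x hx
    have h2 := hm2 x hx
    rw [← hdu x hx]
    exact thm_hom P (hdu1 x hx) (by omega) (by omega)
  have hCmem : ∀ a : ZMod p, (iota (C a) : UU p) ∈ RR P := by
    intro a
    have h1 := ev_mem_RR P (PowerSeries.C a)
    have h2 : (ev (A := ZMod p) (PowerSeries.C a)) = C a := by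
      refine MvPowerSeries.ext fun ε => ?_
      rw [coeff_ev, coeff_C, PowerSeries.coeff_C]
      by_cases h0 : ε = 0
      · rw [h0]
        simp
      · rw [if_neg h0]
        split_ifs with h3 h4
        · exfalso
          apply h0
          rw [h3, h4, Finsupp.single_zero]
        · simp
        · rfl
    rwa [h2] at h1
  have hChom : ∀ a : ZMod p, IsHom 0 (iota (C a) : UU p) := by
    intro a
    refine IsHom.iota fun ε hε => ?_
    rw [coeff_C] at hε
    split_ifs at hε with h0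
    · rw [h0, dg_zero]
    · exact absurd rfl hε
  have hCm : ∀ x ∈ S, iota (C (co f x.1 x.2)) *
      thm P (x.1 + p ^ e • xone D) (x.2 + (p : ℤ) ^ e * D) ∈ RR P := fun x hx =>
    (RR P).mul_mem (hCmem _) (hmem x hx)
  have hCh : ∀ x ∈ S, IsHom (p ^ e * (n + dg (xone D)) + c) (iota (C (co f x.1 x.2)) *
      thm P (x.1 + p ^ e • xone D) (x.2 + (p : ℤ) ^ e * D)) := by
    intro x hx
    have h1 := (hChom (co f x.1 x.2)).mul (hhom x hx)
    rwa [zero_add] at h1
  have hsumm : ∑ x ∈ S, iota (C (co f x.1 x.2)) *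
      thm P (x.1 + p ^ e • xone D) (x.2 + (p : ℤ) ^ e * D) ∈ RR P := (RR P).sum_mem hCm
  have hsumh : IsHom (p ^ e * (n + dg (xone D)) + c) (∑ x ∈ S, iota (C (co f x.1 x.2)) *
      thm P (x.1 + p ^ e • xone D) (x.2 + (p : ℤ) ^ e * D)) := IsHom.sum _ hCh
  have hthm : thm P (xone D) D ∈ RR P := thm_mem P hv1 (by omega) (by omega)
  have hthh : IsHom (dg (xone D)) (thm P (xone D) D) := thm_hom P hv1 (by omega) (by omega)
  have hpm : thm P (xone D) D ^ p ^ e * f ∈ RR P := (RR P).mul_mem ((RR P).pow_mem hthm _) hf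
  have hph : IsHom (p ^ e * (n + dg (xone D)) + c) (thm P (xone D) D ^ p ^ e * f) := by
    have h1 := (hthh.pow (p ^ e)).mul hh
    have h2 : p ^ e * dg (xone D) + (p ^ e * n + c) = p ^ e * (n + dg (xone D)) + c := by ring
    rwa [h2] at h1
  have hdvd := ψ.map_dvd (n := n + dg (xone D)) (K := w none + 1) ((RR P).sub_mem hpm hsumm)
    (hph.sub hsumh) hexp
  rw [ψ.map_sub hpm hsumm hph hsumh, ψ.map_sum S hCm hCh, sX_pow_dvd_iff_co] at hdvd
  have hv0 : (w + xone D : V →₀ ℕ) none = w none := by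
    rw [Finsupp.add_apply, xone_none, add_zero]
  have h0 := hdvd (w + xone D) (mw + D) (by omega)
  rw [co_sub, co_sum, sub_eq_zero] at h0
  rw [h0, Finset.sum_filter]
  refine Finset.sum_congr rfl fun x hx => ?_
  rw [ψ.map_smul _ (hmem x hx) (hhom x hx), K4_co_iota_C]
  have hv0z : (((w + xone D : V →₀ ℕ) none : ℕ) : ℤ) = w none := by rw [hv0]
  have hKz : (p : ℤ) ^ e * ((((w + xone D : V →₀ ℕ) none : ℕ) : ℤ) + 1) = K := by
    rw [hv0z, hK]
    push_cast
    ring
  split_ifs with hle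
  · congr 1
    rw [ψ.ker_eq (ε := p ^ e • w + ones (p ^ e - 1) - x.1) (hdu x hx) (by rw [dg_add, hw])
      (by rw [hKz]; exact hm1 x hx) (by rw [hKz]; exact hm2 x hx), ψ.co_ker]
    · congr 1
      ring
    · rw [add_right_comm, add_tsub_cancel_of_le hle, smul_add]
      abel
  · rw [ψ.ker_zero (hdu x hx) (by rw [hKz]; exact hm1 x hx) (by rw [hKz]; exact hm2 x hx),
      mul_zero]
    intro h
    apply hle
    have h1 : p ^ e • (w + xone D) + ones (p ^ e - 1) =
        p ^ e • w + ones (p ^ e - 1) + p ^ e • xone D := by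
      rw [smul_add]
      abel
    rw [h1] at h
    exact le_of_add_le_add_right h

/-- The trace formula: compare coefficients at `(w, mw)`. If `dg w = n` use `exists_S`,
`GMap.co_eq_sum` and `co_kap_mul_sum` (`(q w + ones (q - 1)) none < q (w none + 1)`). If `dg w ≠ n`
both are zero: `ψ f` is homogeneous of degree `n`, and so is `kap e (ψ.ker * f)` (if `ψ.ker ≠ 0`
then `c ≤ 4 (q - 1)` and `ψ.ker * f` is homogeneous of degree
`4 (q - 1) - c + (q n + c) = q n + 4 (q - 1)`; `IsHom.kap`). -/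
theorem GMap.formula [Fact p.Prime] {n : ℕ} {f : UU p} (hf : f ∈ RR P)
    (hh : IsHom (p ^ e * n + c) f) : ψ.f n f = kap e (ψ.ker * f) := by
  have hq1 : 1 ≤ p ^ e := Nat.one_le_pow _ _ (Fact.out : p.Prime).pos
  refine ext_co fun w mw => ?_
  by_cases hw : dg w = n
  · obtain ⟨S, hS⟩ := exists_S hh (p ^ e * (w none + 1))
    rw [ψ.co_eq_sum hf hh hw mw S hS, co_kap_mul_sum e ψ.ker f w mw S hS]
    rw [Finsupp.add_apply, Finsupp.smul_apply, ones_none, smul_eq_mul, mul_add, mul_one]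
    omega
  · have h1 : co (ψ.f n f) w mw = 0 := by
      by_contra h
      exact hw (K4_co_ne (ψ.hom n f hf hh) h)
    have h2 : co (kap e (ψ.ker * f)) w mw = 0 := by
      by_cases hc : 4 * (p ^ e - 1) < c
      · rw [ψ.ker_eq_zero hc, zero_mul, co_kap, co_zero]
      · by_contra h
        apply hw
        have h3 := ψ.ker_hom.mul hh
        have h4 : 4 * (p ^ e - 1) - c + (p ^ e * n + c) = p ^ e * n + 4 * (p ^ e - 1) := by omega
        rw [h4] at h3
        exact K4_co_ne (h3.kap e) h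
    rw [h1, h2]

end Pool.Agent.W_35cfd6_h24
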