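import Pool.Agent.W_35cfd6_h24.K4

/-!
# Graded `p^(-e)`-linear maps: the functional equation of the kernel
-/

set_option autoImplicit false

namespace Pool.Agent.W_35cfd6_h24

open MvPowerSeries

variable {p : ℕ} {P : Par p} {e c : ℕ} (ψ : GMap P e c)

/-- From `finite_rows`. -/
theorem rows_small {F : UU p} {d : ℕ} (hF : IsHom d F) (K : ℕ) :
    ∃ B : ℕ, ∀ ν : ℤ, (B : ℤ) ≤ |ν| → sX ^ K ∣ row ν F := by
  obtain ⟨s, hs⟩ := (finite_rows hF K).exists_finset_coe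
  refine ⟨∑ m ∈ s, m.natAbs + 1, fun ν hν => ?_⟩
  by_contra h
  have hmem : ν ∈ s := by
    rw [← Finset.mem_coe, hs]
    exact h
  have h1 : ν.natAbs ≤ ∑ m ∈ s, m.natAbs := Finset.single_le_sum
    (f := fun m : ℤ => m.natAbs) (fun _ _ => Nat.zero_le _) hmem
  have h2 : ((∑ m ∈ s, m.natAbs + 1 : ℕ) : ℤ) ≤ (ν.natAbs : ℕ) := by
    rw [Int.natCast_natAbs]
    exact hν
  have h3 : (∑ m ∈ s, m.natAbs + 1 : ℕ) ≤ ν.natAbs := by exact_mod_cast h2
  omega

/-- A row of the product with a theta function, modulo `s^K`, if only one term of the product is not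
divisible by `s^K` (`coeff_row_mul`; the rows of `th` at indices not of the form `m + 3 N j`
vanish). -/
theorem row_mul_th (P : Par p) {N : ℕ} (hN : 1 ≤ N) {m : ℤ} (h0 : 0 ≤ m) (h1 : m ≤ 3 * N)
    (F : UU p) (h : FF p) (M : ℤ) (j₀ : ℤ) {K : ℕ}
    (hF : ∀ j : ℤ, j ≠ j₀ → sX ^ K ∣ row (M - (m + 3 * N * j)) F) :
    sX ^ K ∣ row M (F * th P N m h) -
      row (M - (m + 3 * N * j₀)) F * row (m + 3 * N * j₀) (th P N m h) := by
  rw [sX_pow_dvd_iff]
  intro e he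
  rw [map_sub, sub_eq_zero, coeff_row_mul]
  rw [finsum_eq_single _ (M - (m + 3 * N * j₀))]
  · rw [sub_sub_cancel]
  · intro μ hμ
    by_cases hd : (3 * N : ℤ) ∣ (M - μ) - m
    · obtain ⟨j, hj⟩ := hd
      have hjj : j ≠ j₀ := by
        rintro rfl
        apply hμ
        linarith
      have h1 := hF j hjj
      have h2 : M - (m + 3 * N * j) = μ := by linarith
      rw [h2] at h1
      exact (sX_pow_dvd_iff K _).1 (h1.mul_right _) e he
    · rw [row_th_ne P hN h0 h1 h hd, mul_zero, map_zero]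

/-- `s` does not divide `G x_0 = a x_0 + b x_1`, as `a(0)^2 = 1`. -/
theorem not_dvd_GG_X [Fact p.Prime] (P : Par p) : ¬ sX ∣ GG P (X (some 0) : FF p) := by
  intro h
  have h1 : sX ^ 1 ∣ GG P (X (some 0) : FF p) := by rwa [pow_one]
  rw [GG_dvd_iff, sX_pow_dvd_iff] at h1
  have h2 := h1 (Finsupp.single (some 0) 1) (by simp)
  rw [X, coeff_monomial_same] at h2
  exact one_ne_zero h2

/-- The functional equation tested on `h`. Let `q = p^e`, `μ : ℤ`, `M = μ⁺`, `m = q M - μ ≥ 0`, `h`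
homogeneous of degree `q n₀ + c`, `K` arbitrary. We show that `s^K` divides
`kapF e ((s^m row (μ - 3 c) F - s^(q M) G (row μ F)) * G h)`, `F = ψ.ker`. Let `t` be large,
`N = q (n₀ + t) + c`, `n = n₀ + t`, `f = th P N m (h * x_0^(q t))`, homogeneous of degree `N`, in
`RR P` (need `m ≤ 3 N`, `1 ≤ N`), and `g = ψ.f n f = kap e (F * f) ∈ RR P` (`GMap.formula`), so by
`mem_RR_iff_hom`, `row (M + 3 n) g = s^M G (row M g)` (`M ≥ 0`).
By `row_kap`, `row M g = kapF e (row (q M) (F * f))`, and by `row_mul_th` with `j₀ = 0`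
(`q M - (m + 3 N j) = μ - 3 N j`, and `|μ - 3 N j| ≥ 3 N - |μ| ≥ B` for `j ≠ 0`, `B` from
`rows_small` for `q K`) it is `kapF e (row μ F * h * x_0^(q t)) = x_0^t kapF e (row μ F * h)`
modulo `s^K` (`kapF_dvd`, `kapF_pow_mul`). Similarly
`row (M + 3 n) g = kapF e (row (q M + 3 q n) (F * f))`, where
`q M + 3 q n - (m + 3 N j) = μ - 3 c - 3 N (j - 1)`, so with `j₀ = 1` and
`row (m + 3 N) f = s^m G h (G x_0)^(q t)` (`row_th`, `eE_one`) it is
`(G x_0)^t kapF e (s^m row (μ - 3 c) F * G h)` modulo `s^K`. And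
`s^M G (x_0^t kapF e (row μ F * h)) = (G x_0)^t kapF e (s^(q M) G (row μ F) * G h)` (`kapF_GG`,
`kapF_sX_pow_mul`). So `s^K` divides `(G x_0)^t * kapF e (..)`; use `dvd_of_dvd_mul_left` and
`not_dvd_GG_X` (`s` is prime). -/
theorem GMap.rel_test [Fact p.Prime] (μ : ℤ) {n₀ : ℕ} {h : FF p}
    (hh : IsHom (p ^ e * n₀ + c) h) (K : ℕ) :
    sX ^ K ∣ kapF e ((sX ^ ((p : ℤ) ^ e * μ.toNat - μ).toNat * row (μ - 3 * c) ψ.ker -
      sX ^ (p ^ e * μ.toNat) * GG P (row μ ψ.ker)) * GG P h) := by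
  have hq1 : 1 ≤ p ^ e := Nat.one_le_pow _ _ (Fact.out : p.Prime).pos
  have hq1z : (1 : ℤ) ≤ (p : ℤ) ^ e := by exact_mod_cast hq1
  obtain ⟨B, hB⟩ := rows_small ψ.ker_hom (p ^ e * K)
  obtain ⟨M, hM⟩ : ∃ M : ℕ, M = μ.toNat := ⟨_, rfl⟩
  rw [← hM]
  have hMμ : μ ≤ M := by rw [hM]; exact Int.self_le_toNat μ
  obtain ⟨m, hm⟩ : ∃ m : ℤ, m = (p : ℤ) ^ e * M - μ := ⟨_, rfl⟩
  rw [← hm]
  have hm0 : 0 ≤ m := by
    have h1 : (M : ℤ) ≤ (p : ℤ) ^ e * M := le_mul_of_one_le_left (Int.natCast_nonneg M) hq1z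
    linarith
  obtain ⟨t, ht⟩ : ∃ t : ℕ, t = B + μ.natAbs + 3 * c + m.toNat + 1 := ⟨_, rfl⟩
  obtain ⟨N, hN⟩ : ∃ N : ℕ, N = p ^ e * (n₀ + t) + c := ⟨_, rfl⟩
  have htN : t ≤ N := by
    have h1 : 1 * (n₀ + t) ≤ p ^ e * (n₀ + t) := Nat.mul_le_mul_right _ hq1
    omega
  have hN1 : 1 ≤ N := by omega
  have hmN : m ≤ 3 * N := by omega
  have hNz : (N : ℤ) = (p : ℤ) ^ e * (n₀ + t) + c := by rw [hN]; push_cast; ring
  set x : FF p := X (some 0) with hx
  have hhom : IsHom N (h * x ^ (p ^ e * t)) := by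
    have h1 := hh.mul ((IsHom.X (A := ZMod p) 0).pow (p ^ e * t))
    have h2 : p ^ e * n₀ + c + p ^ e * t * 1 = N := by rw [hN]; ring
    rwa [h2] at h1
  set f : UU p := th P N m (h * x ^ (p ^ e * t)) with hf
  have hfm : f ∈ RR P := th_mem P hN1 hm0 hmN hhom
  have hfh : IsHom (p ^ e * (n₀ + t) + c) f := by
    have h1 := isHom_th P hN1 hm0 hmN hhom
    rwa [← hN]
  have hgm := ψ.mem (n₀ + t) f hfm hfh
  have hgh := ψ.hom (n₀ + t) f hfm hfh
  have hrel := (mem_RR_iff_hom P hgh).1 hgm (M : ℤ)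
  rw [ψ.formula hfm hfh, row_kap, row_kap] at hrel
  have e0 : (-(M : ℤ)).toNat = 0 := by omega
  have e1 : ((M : ℕ) : ℤ).toNat = M := by omega
  rw [e0, e1, pow_zero, one_mul] at hrel
  -- the first expansion
  have hA := row_mul_th P hN1 hm0 hmN ψ.ker (h * x ^ (p ^ e * t)) ((p : ℤ) ^ e * M) 0
    (K := p ^ e * K) (fun j hj => by
      have h1 : (p : ℤ) ^ e * M - (m + 3 * N * j) = μ - 3 * N * j := by rw [hm]; ring
      rw [h1]
      apply hB
      have h2 : (1 : ℤ) ≤ |j| := Int.one_le_abs hj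
      have h3 : |3 * (N : ℤ) * j| = 3 * N * |j| := by
        rw [abs_mul, abs_of_nonneg (by positivity)]
      have h4 : |3 * (N : ℤ) * j| - |μ| ≤ |3 * (N : ℤ) * j - μ| := abs_sub_abs_le_abs_sub _ _
      rw [abs_sub_comm, h3] at h4
      have h5 : 3 * (N : ℤ) ≤ 3 * N * |j| := le_mul_of_one_le_right (by positivity) h2
      have h6 : |μ| = (μ.natAbs : ℤ) := (Int.natCast_natAbs μ).symm
      omega)
  have hA1 : (p : ℤ) ^ e * M - (m + 3 * N * 0) = μ := by rw [hm]; ring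
  rw [hA1, row_th P hN1 hm0 hmN, eE_zero, Int.toNat_zero, pow_zero, one_mul, GE_zpow_zero] at hA
  have hA2 := kapF_dvd e K hA
  have hA3 : kapF e (row μ ψ.ker * (h * x ^ (p ^ e * t))) = x ^ t * kapF e (row μ ψ.ker * h) := by
    rw [← kapF_pow_mul, ← pow_mul, mul_comm t]
    congr 1
    ring
  rw [kapF_sub, hA3] at hA2
  -- the second expansion
  have hC := row_mul_th P hN1 hm0 hmN ψ.ker (h * x ^ (p ^ e * t))
    ((p : ℤ) ^ e * (M + 3 * ((n₀ + t : ℕ) : ℤ))) 1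
    (K := p ^ e * K) (fun j hj => by
      have h1 : (p : ℤ) ^ e * (M + 3 * ((n₀ + t : ℕ) : ℤ)) - (m + 3 * N * j) =
          (μ - 3 * c) - 3 * N * (j - 1) := by
        rw [hm, hNz]
        push_cast
        ring
      rw [h1]
      apply hB
      have h2 : (1 : ℤ) ≤ |j - 1| := Int.one_le_abs (sub_ne_zero.2 hj)
      have h3 : |3 * (N : ℤ) * (j - 1)| = 3 * N * |j - 1| := by
        rw [abs_mul, abs_of_nonneg (by positivity)]
      have h4 : |3 * (N : ℤ) * (j - 1)| - |μ - 3 * c| ≤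
          |3 * (N : ℤ) * (j - 1) - (μ - 3 * c)| := abs_sub_abs_le_abs_sub _ _
      rw [abs_sub_comm (3 * (N : ℤ) * (j - 1)) (μ - 3 * c), h3] at h4
      have h5 : 3 * (N : ℤ) ≤ 3 * N * |j - 1| := le_mul_of_one_le_right (by positivity) h2
      have h6 : |μ - 3 * c| ≤ |μ| + 3 * c := by
        have := abs_sub μ (3 * (c : ℤ))
        rwa [abs_of_nonneg (by positivity : (0 : ℤ) ≤ 3 * c)] at this
      have h7 : |μ| = (μ.natAbs : ℤ) := (Int.natCast_natAbs μ).symm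
      omega)
  have hC1 : (p : ℤ) ^ e * (M + 3 * ((n₀ + t : ℕ) : ℤ)) - (m + 3 * N * 1) = μ - 3 * c := by
    rw [hm, hNz]
    push_cast
    ring
  have hGE : (GE P ^ (1 : ℤ)) (h * x ^ (p ^ e * t)) = GG P h * (GG P x) ^ (p ^ e * t) := by
    rw [zpow_one, GE_apply, map_mul, map_pow]
  rw [hC1, row_th P hN1 hm0 hmN, eE_one, hGE] at hC
  have hC2 := kapF_dvd e K hC
  have hC3 : kapF e (row (μ - 3 * c) ψ.ker * (sX ^ m.toNat * (GG P h * (GG P x) ^ (p ^ e * t)))) =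
      (GG P x) ^ t * kapF e (sX ^ m.toNat * row (μ - 3 * c) ψ.ker * GG P h) := by
    rw [← kapF_pow_mul, ← pow_mul, mul_comm t]
    congr 1
    ring
  rw [kapF_sub, hC3, hrel] at hC2
  -- the relation
  have hD := (GG_dvd P hA2).mul_left (sX ^ M)
  rw [_root_.map_sub, map_mul, map_pow, ← kapF_GG P e (row μ ψ.ker * h), map_mul (GG P) (row μ ψ.ker) h]
    at hD
  have hD1 : sX ^ M * (GG P (kapF e (row ((p : ℤ) ^ e * M) (ψ.ker * f))) -
      (GG P x) ^ t * kapF e (GG P (row μ ψ.ker) * GG P h)) =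
      sX ^ M * GG P (kapF e (row ((p : ℤ) ^ e * M) (ψ.ker * f))) -
        (GG P x) ^ t * kapF e (sX ^ (p ^ e * M) * GG P (row μ ψ.ker) * GG P h) := by
    rw [mul_assoc (sX ^ (p ^ e * M)), kapF_sX_pow_mul]
    ring
  rw [hD1] at hD
  have hE := dvd_sub hD hC2
  have hE1 : (sX ^ M * GG P (kapF e (row ((p : ℤ) ^ e * M) (ψ.ker * f))) -
        (GG P x) ^ t * kapF e (sX ^ (p ^ e * M) * GG P (row μ ψ.ker) * GG P h)) -
      (sX ^ M * GG P (kapF e (row ((p : ℤ) ^ e * M) (ψ.ker * f))) -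
        (GG P x) ^ t * kapF e (sX ^ m.toNat * row (μ - 3 * c) ψ.ker * GG P h)) =
      (GG P x) ^ t * kapF e ((sX ^ m.toNat * row (μ - 3 * c) ψ.ker -
        sX ^ (p ^ e * M) * GG P (row μ ψ.ker)) * GG P h) := by
    rw [sub_mul, kapF_sub]
    ring
  rw [hE1] at hE
  exact dvd_of_dvd_mul_left (fun hd => not_dvd_GG_X P (sX_prime.dvd_of_dvd_pow hd)) hE

/-- The functional equation of the kernel. Let `Q` be the difference in `GMap.rel_test`. By
`eq_zero_of_dvd`, `kapF e (Q * h') = 0` for all `h'` homogeneous of a degree `q n₀ + c`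
(take `h = G⁻¹ h'`). `Q` is homogeneous of degree `4 (q - 1) - c` (if `c > 4 (q - 1)` then
`ψ.ker = 0` and all is trivial). If `dg ε = 4 (q - 1) - c`, `h' = monomial ((q - 1) (ε + ones 1)) 1`
has degree `(q - 1) (4 (q - 1) - c + 4) = q (4 (q - 1) - c) + c`, and `coeff_kapF_mul_monomial` gives
`coeff ε Q = 0`. So `Q = 0`. If `μ ≥ 0` it reads
`s^((q - 1) μ) row (μ - 3 c) F = s^(q μ) G (row μ F)`: cancel `s^((q - 1) μ)`; if `μ < 0` it reads
`s^(-μ) row (μ - 3 c) F = G (row μ F)`. -/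
theorem GMap.rel [Fact p.Prime] (μ : ℤ) :
    sX ^ (-μ).toNat * row (μ - 3 * c) ψ.ker = sX ^ μ.toNat * GG P (row μ ψ.ker) := by
  have hq1 : 1 ≤ p ^ e := Nat.one_le_pow _ _ (Fact.out : p.Prime).pos
  by_cases hc : 4 * (p ^ e - 1) < c
  · rw [ψ.ker_eq_zero hc, row_zero, row_zero, _root_.map_zero, mul_zero, mul_zero]
  push Not at hc
  set Q : FF p := sX ^ ((p : ℤ) ^ e * μ.toNat - μ).toNat * row (μ - 3 * c) ψ.ker -
      sX ^ (p ^ e * μ.toNat) * GG P (row μ ψ.ker) with hQ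
  have hQh : IsHom (4 * (p ^ e - 1) - c) Q :=
    ((ψ.ker_hom.row _).sX_pow_mul).sub (((ψ.ker_hom.row _).GG P).sX_pow_mul)
  have hQ0 : Q = 0 := by
    refine MvPowerSeries.ext fun ε => ?_
    rw [_root_.map_zero]
    by_contra hne
    have hdg := hQh ε hne
    apply hne
    have hh' : IsHom (p ^ e * (4 * (p ^ e - 1) - c) + c)
        (monomial ((p ^ e - 1) • (ε + ones 1)) 1 : FF p) := by
      have h1 := IsHom.monomial (A := ZMod p) ((p ^ e - 1) • (ε + ones 1)) 1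
      have h2 : dg ((p ^ e - 1) • (ε + ones 1)) = p ^ e * (4 * (p ^ e - 1) - c) + c := by
        rw [dg_smul, dg_add, dg_ones, hdg]
        obtain ⟨r, hr⟩ : ∃ r, p ^ e = r + 1 := ⟨p ^ e - 1, (Nat.sub_add_cancel hq1).symm⟩
        rw [hr] at hc ⊢
        simp only [Nat.add_sub_cancel] at hc ⊢
        obtain ⟨d, hd⟩ : ∃ d, 4 * r = d + c := ⟨4 * r - c, (Nat.sub_add_cancel hc).symm⟩
        rw [hd, Nat.add_sub_cancel]
        nlinarith
      rwa [h2] at h1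
    have key : kapF e (Q * monomial ((p ^ e - 1) • (ε + ones 1)) 1) = 0 := by
      refine eq_zero_of_dvd _ fun K => ⟨K, le_rfl, ?_⟩
      have h1 := ψ.rel_test μ (hh'.GG P.inv) K
      rw [GG_GG_inv] at h1
      exact h1
    rw [← coeff_kapF_mul_monomial e Q ε, key, _root_.map_zero]
  rw [hQ, sub_eq_zero] at hQ0
  rcases le_or_gt 0 μ with hμ | hμ
  · obtain ⟨M, rfl⟩ := Int.eq_ofNat_of_zero_le hμ
    have e1 : ((M : ℤ)).toNat = M := Int.toNat_natCast M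
    have e2 : (-(M : ℤ)).toNat = 0 := by omega
    have e3 : ((p : ℤ) ^ e * M - M).toNat = (p ^ e - 1) * M := by
      have h1 : ((p : ℤ) ^ e * M - M) = (((p ^ e - 1) * M : ℕ) : ℤ) := by
        push_cast [hq1]
        ring
      rw [h1, Int.toNat_natCast]
    have e4 : p ^ e * M = (p ^ e - 1) * M + M := by
      conv_lhs => rw [← Nat.sub_add_cancel hq1]
      ring
    rw [e1, e3, e4, pow_add, mul_assoc] at hQ0
    rw [e1, e2, pow_zero, one_mul]
    exact sX_pow_mul_cancel hQ0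
  · have e1 : μ.toNat = 0 := by omega
    rw [e1, Nat.cast_zero, mul_zero, mul_zero, zero_sub, pow_zero, one_mul] at hQ0
    rw [e1, pow_zero, one_mul]
    exact hQ0

end Pool.Agent.W_35cfd6_h24
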