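import Pool.Agent.W_35cfd6_h24.K5
import Pool.Agent.W_35cfd6_h24.Inv

/-!
# Graded `p^(-e)`-linear maps: consequences of the functional equation
-/

set_option autoImplicit false

namespace Pool.Agent.W_35cfd6_h24

open MvPowerSeries

variable {p : ℕ} {P : Par p} {e c : ℕ}

/-- Divisibility is inherited along the relation, upwards: if `μ + 3 c ≥ 0` then (`GMap.rel` at
`μ + 3 c`) `row μ F = s^(μ + 3 c) G (row (μ + 3 c) F)`. So if `K` divides row `μ + 3 c` then
`K + (μ + 3 c)` divides row `μ`. -/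
theorem GMap.ker_dvd_up [Fact p.Prime] (ψ : GMap P e c) {μ : ℤ} (hμ : 0 ≤ μ + 3 * c) {K : ℕ}
    (h : sX ^ K ∣ row (μ + 3 * c) ψ.ker) :
    sX ^ (K + (μ + 3 * c).toNat) ∣ row μ ψ.ker := by
  have h1 := ψ.rel (μ + 3 * c)
  have h2 : (-(μ + 3 * (c : ℤ))).toNat = 0 := by omega
  rw [h2, pow_zero, one_mul, add_sub_cancel_right] at h1
  rw [h1, add_comm K, pow_add]
  exact mul_dvd_mul_left _ (GG_dvd P h)

/-- Downwards: if `μ ≤ 0` then `G (row μ F) = s^(-μ) row (μ - 3 c) F`. -/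
theorem GMap.ker_dvd_down [Fact p.Prime] (ψ : GMap P e c) {μ : ℤ} (hμ : μ ≤ 0) {K : ℕ}
    (h : sX ^ K ∣ row (μ - 3 * c) ψ.ker) :
    sX ^ (K + (-μ).toNat) ∣ row μ ψ.ker := by
  have h1 := ψ.rel μ
  have h2 : μ.toNat = 0 := by omega
  rw [h2, pow_zero, one_mul] at h1
  rw [← GG_dvd_iff P, ← h1, add_comm K, pow_add]
  exact mul_dvd_mul_left _ h

/-- For `c ≥ 1` the kernel vanishes. For `μ ≥ 1 - 3 c`: by `GMap.ker_dvd_up` and induction on `K`,
`s^K` divides row `μ` for all such `μ` and all `K` (`μ + 3 c ≥ 1` and `μ + 3 c` is again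
`≥ 1 - 3 c`). For `μ ≤ -1`: by `GMap.ker_dvd_down` similarly. Since `c ≥ 1` every `μ` satisfies
`μ ≥ 1 - 3 c` or `μ ≤ -1`. So all rows vanish (`eq_zero_of_dvd`). -/
theorem GMap.ker_zero_of_pos [Fact p.Prime] (ψ : GMap P e c) (hc : 1 ≤ c) : ψ.ker = 0 := by
  have h1 : ∀ (K : ℕ) (μ : ℤ), 1 - 3 * (c : ℤ) ≤ μ → sX ^ K ∣ row μ ψ.ker := by
    intro K
    induction K with
    | zero => intro μ _; rw [pow_zero]; exact one_dvd _
    | succ K ih =>
      intro μ hμ
      have h2 := ψ.ker_dvd_up (μ := μ) (by omega) (ih (μ + 3 * c) (by omega))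
      exact (pow_dvd_pow sX (by omega)).trans h2
  have h2 : ∀ (K : ℕ) (μ : ℤ), μ ≤ -1 → sX ^ K ∣ row μ ψ.ker := by
    intro K
    induction K with
    | zero => intro μ _; rw [pow_zero]; exact one_dvd _
    | succ K ih =>
      intro μ hμ
      have h3 := ψ.ker_dvd_down (μ := μ) (by omega) (ih (μ - 3 * c) (by omega))
      exact (pow_dvd_pow sX (by omega)).trans h3
  refine ext_row fun μ => ?_
  rw [row_zero]
  refine eq_zero_of_dvd _ fun K => ⟨K, le_rfl, ?_⟩
  by_cases hμ : 1 - 3 * (c : ℤ) ≤ μ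
  · exact h1 K μ hμ
  · exact h2 K μ (by omega)

/-- For `c = 0` the rows `μ ≠ 0` of the kernel vanish: `s^(μ⁻) F_μ = s^(μ⁺) G F_μ` implies that
`F_μ` is divisible by all powers of `s` (`GMap.ker_dvd_up`, `GMap.ker_dvd_down` with `c = 0`). -/
theorem GMap.ker_row_zero [Fact p.Prime] (ψ : GMap P e 0) {μ : ℤ} (hμ : μ ≠ 0) :
    row μ ψ.ker = 0 := by
  refine eq_zero_of_dvd _ fun K => ⟨K, le_rfl, ?_⟩
  have e1 : row (μ + 3 * ((0 : ℕ) : ℤ)) ψ.ker = row μ ψ.ker := by
    rw [Nat.cast_zero, mul_zero, add_zero]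
  have e2 : row (μ - 3 * ((0 : ℕ) : ℤ)) ψ.ker = row μ ψ.ker := by
    rw [Nat.cast_zero, mul_zero, sub_zero]
  induction K with
  | zero => rw [pow_zero]; exact one_dvd _
  | succ K ih =>
    rcases lt_or_gt_of_ne hμ with h | h
    · have h3 := ψ.ker_dvd_down (μ := μ) (K := K) (by omega) (by rw [e2]; exact ih)
      exact (pow_dvd_pow sX (by omega)).trans h3
    · have h3 := ψ.ker_dvd_up (μ := μ) (K := K) (by omega) (by rw [e1]; exact ih)
      exact (pow_dvd_pow sX (by omega)).trans h3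

/-- For `c = 0` row `0` of the kernel is `G`-invariant. -/
theorem GMap.ker_row_inv [Fact p.Prime] (ψ : GMap P e 0) :
    GG P (row 0 ψ.ker) = row 0 ψ.ker := by
  have h := ψ.rel 0
  rw [Nat.cast_zero, mul_zero, sub_zero, neg_zero, Int.toNat_zero, pow_zero, one_mul,
    one_mul] at h
  exact h.symm

/-- For `c ≥ 1`, `ψ = 0` (`GMap.formula`, `GMap.ker_zero_of_pos`). -/
theorem GMap.eq_zero_of_pos [Fact p.Prime] (ψ : GMap P e c) (hc : 1 ≤ c) {n : ℕ} {u : UU p}
    (hu : u ∈ RR P) (hh : IsHom (p ^ e * n + c) u) : ψ.f n u = 0 := by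
  rw [ψ.formula hu hh, ψ.ker_zero_of_pos hc, zero_mul]
  have h := kap_sub e (0 : UU p) 0
  rwa [sub_self, sub_self] at h

/-- For `c = 0` and `e ≥ 1`, `ψ.f 0` maps elements of `s F_p[[s]]` to elements without constant
coefficient. By `GMap.formula`, `GMap.ker_row_zero` and `RR_hom_zero`,
`ψ.f 0 u = kap e (iota F₀ * iota (row 0 u))`, `F₀ = row 0 ψ.ker`, so its coefficient at `(0, 0)` is
the coefficient of `F₀ * row 0 u` at `ones (q - 1) = expo (q - 1) (q - 1)`. As `row 0 u` is a power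
series in `s` without constant coefficient this is a combination of coefficients of `F₀` at
`expo t (q - 1)`, `t < q - 1`, which vanish by `coeff_invariant` (`F₀` is homogeneous of degree
`4 (q - 1)` and `G`-invariant). -/
theorem GMap.co_zero [Fact p.Prime] (hp : p ≠ 2) (hP : P.Good) (ψ : GMap P e 0) {u : UU p}
    (hu : u ∈ RR P) (hh : IsHom 0 u) (h0 : co u 0 0 = 0) : co (ψ.f 0 u) 0 0 = 0 := by
  classical
  have hq : 1 ≤ p ^ e := Nat.one_le_pow _ _ (Fact.out : p.Prime).pos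
  have hh' : IsHom (p ^ e * 0 + 0) u := by rw [mul_zero, add_zero]; exact hh
  rw [ψ.formula hu hh', co_kap, smul_zero, zero_add, mul_zero, mul_comm]
  have hu0 : u = iota (row 0 u) := RR_hom_zero hu hh
  rw [hu0, ← coeff_row, row_iota_mul, coeff_mul]
  refine Finset.sum_eq_zero fun x hx => ?_
  rw [Finset.HasAntidiagonal.mem_antidiagonal] at hx
  by_contra hne
  have h1 : coeff x.1 (row 0 u) ≠ 0 := left_ne_zero_of_mul hne
  have h2 : coeff x.2 (row 0 ψ.ker) ≠ 0 := right_ne_zero_of_mul hne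
  have h3 : dg x.1 = 0 := hh.row 0 _ h1
  have h4 : ∀ j : Fin 4, x.1 (some j) = 0 := fun j => by
    rw [dg] at h3
    exact Finset.sum_eq_zero_iff.1 h3 j (Finset.mem_univ j)
  have h5 : x.1 none ≠ 0 := by
    intro h5
    apply h1
    have h6 : x.1 = 0 := by
      ext v
      rcases v with _ | j
      · exact h5
      · exact h4 j
    rw [h6, coeff_row]
    exact h0
  have h6 : x.1 none + x.2 none = p ^ e - 1 := by
    rw [← Finsupp.add_apply, hx, ones_none]
  have h7 : x.2 = expo (x.2 none) (p ^ e - 1) := by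
    ext v
    rcases v with _ | j
    · rw [Psi_expo_none]
    · rw [Psi_expo_some]
      have h8 : x.1 (some j) + x.2 (some j) = p ^ e - 1 := by
        rw [← Finsupp.add_apply, hx]
        rfl
      rw [h4 j, zero_add] at h8
      exact h8
  apply h2
  rw [h7]
  refine coeff_invariant hp hP ?_ ψ.ker_row_inv (by omega)
  have h9 := ψ.ker_hom.row 0
  rwa [Nat.sub_zero] at h9

end Pool.Agent.W_35cfd6_h24
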