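import Mathlib

/-!
# Quotients of power series rings over a perfect (finite) field: completeness, `F`-finiteness

Pure commutative algebra over Mathlib.
-/

set_option autoImplicit false

namespace Pool.Agent.W_35cfd6_h24

open IsLocalRing MvPowerSeries

theorem PSR_finite {A B : Type*} [CommRing A] [CommRing B] (f : A →+* B) {ι : Type*} [Fintype ι]
    (m : ι → B) (h : ∀ b : B, ∃ g : ι → A, b = ∑ i, f (g i) * m i) : f.Finite := by
  classical
  let _ := f.toAlgebra
  change Module.Finite A B
  refine ⟨⟨Finset.univ.image m, ?_⟩⟩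
  rw [eq_top_iff]
  rintro b -
  obtain ⟨g, hg⟩ := h b
  rw [hg]
  refine Submodule.sum_mem _ fun i _ => ?_
  have h1 : f (g i) * m i = g i • m i := rfl
  rw [h1]
  refine Submodule.smul_mem _ _ (Submodule.subset_span ?_)
  rw [Finset.mem_coe, Finset.mem_image]
  exact ⟨i, Finset.mem_univ _, rfl⟩

theorem PSR_mem_max {σ : Type*} {k : Type*} [Field k] (f : MvPowerSeries σ k) :
    f ∈ maximalIdeal (MvPowerSeries σ k) ↔ coeff 0 f = 0 := by
  rw [mem_maximalIdeal, mem_nonunits_iff, MvPowerSeries.isUnit_iff_constantCoeff, isUnit_iff_ne_zero,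
    not_not, coeff_zero_eq_constantCoeff_apply]

theorem PSR_pow_sub {σ : Type*} {k : Type*} [Field k] (n : ℕ) :
    ∀ f ∈ maximalIdeal (MvPowerSeries σ k) ^ n, ∀ d : σ →₀ ℕ, d.degree < n → coeff d f = 0 := by
  classical
  induction n with
  | zero =>
    intro f _ d hd
    exact absurd hd (Nat.not_lt_zero _)
  | succ n ih =>
    intro f hf
    rw [pow_succ] at hf
    refine Submodule.mul_induction_on hf ?_ ?_
    · intro a ha b hb d hd
      rw [coeff_mul]
      refine Finset.sum_eq_zero ?_
      rintro ⟨x, y⟩ hxy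
      rw [Finset.HasAntidiagonal.mem_antidiagonal] at hxy
      simp only at hxy ⊢
      rw [← hxy, map_add] at hd
      rcases Nat.lt_or_ge x.degree n with h | h
      · rw [ih a ha x h, zero_mul]
      · have h1 : y.degree = 0 := by omega
        have h2 : y = 0 := (Finsupp.degree_eq_zero_iff y).1 h1
        rw [h2, (PSR_mem_max b).1 hb, mul_zero]
    · intro a b ha hb d hd
      rw [map_add, ha d hd, hb d hd, add_zero]

theorem PSR_split {σ : Type*} [Fintype σ] {k : Type*} [Field k] (n : ℕ)
    (f : MvPowerSeries σ k) (hf : ∀ d : σ →₀ ℕ, d.degree < n + 1 → coeff d f = 0) :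
    ∃ g : σ → MvPowerSeries σ k, (∀ v, ∀ d : σ →₀ ℕ, d.degree < n → coeff d (g v) = 0) ∧
      f = ∑ v, monomial (Finsupp.single v 1) 1 * g v := by
  classical
  have hv : ∀ d : σ →₀ ℕ, d ≠ 0 → ∃ v, d v ≠ 0 := by
    intro d hd
    by_contra hcon
    push Not at hcon
    exact hd (Finsupp.ext hcon)
  obtain ⟨vv, hvv⟩ : ∃ vv : (σ →₀ ℕ) → Option σ, ∀ d, d ≠ 0 → ∃ v, vv d = some v ∧ d v ≠ 0 := by
    refine ⟨fun d => if h : d ≠ 0 then some (hv d h).choose else none, fun d hd => ?_⟩
    refine ⟨(hv d hd).choose, ?_, (hv d hd).choose_spec⟩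
    simp only []
    rw [dif_pos hd]
  obtain ⟨g, hg⟩ : ∃ g : σ → MvPowerSeries σ k, ∀ v e, coeff e (g v) =
      if vv (e + Finsupp.single v 1) = some v then coeff (e + Finsupp.single v 1) f else 0 :=
    ⟨fun v => fun e => if vv (e + Finsupp.single v 1) = some v then
      coeff (e + Finsupp.single v 1) f else 0, fun _ _ => rfl⟩
  refine ⟨g, ?_, ?_⟩
  · intro v d hd
    rw [hg]
    split_ifs
    · refine hf _ ?_
      rw [map_add, Finsupp.degree_single]
      omega
    · rfl
  · ext d
    rw [map_sum]
    simp only [coeff_monomial_mul, one_mul]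
    rcases eq_or_ne d 0 with h0 | h0
    · rw [h0, hf 0 (by rw [map_zero]; omega)]
      symm
      refine Finset.sum_eq_zero fun v _ => ?_
      rw [if_neg]
      intro h
      have := h v
      simp at this
    · obtain ⟨v, h1, h2⟩ := hvv d h0
      rw [Finset.sum_eq_single v]
      · have h3 : Finsupp.single v 1 ≤ d := by
          rw [Finsupp.single_le_iff]
          omega
        rw [if_pos h3]
        rw [hg, tsub_add_cancel_of_le h3, if_pos h1]
      · intro w _ hw
        by_cases h3 : Finsupp.single w 1 ≤ d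
        · rw [if_pos h3]
          rw [hg, tsub_add_cancel_of_le h3, if_neg]
          rw [h1]
          intro h
          exact hw (Option.some_injective _ h).symm
        · rw [if_neg h3]
      · intro h
        exact absurd (Finset.mem_univ v) h

/-- In a power series ring in finitely many variables over a field, the `n`-th power of the maximal
ideal consists of the power series of order at least `n`. Proof: the maximal ideal is generated by
the variables (a power series without constant coefficient is `∑ v, X v * g_v`: assign each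
exponent `d ≠ 0` to some `v` with `d v > 0`); a power series all of whose exponents have degree
`≥ n + 1` is `∑ v, X v * g_v` with all exponents of `g_v` of degree `≥ n`; induction. -/
theorem mem_maximalIdeal_pow_iff {σ : Type*} [Finite σ] {k : Type*} [Field k] (n : ℕ)
    (f : MvPowerSeries σ k) :
    f ∈ maximalIdeal (MvPowerSeries σ k) ^ n ↔ ∀ d : σ →₀ ℕ, d.degree < n → coeff d f = 0 := by
  classical
  cases nonempty_fintype σ
  refine ⟨PSR_pow_sub n f, ?_⟩
  induction n generalizing f with
  | zero =>
    intro _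
    rw [pow_zero, Ideal.one_eq_top]
    exact Submodule.mem_top
  | succ n ih =>
    intro hf
    obtain ⟨g, hg, hfg⟩ := PSR_split n f hf
    rw [hfg, pow_succ']
    refine Submodule.sum_mem _ fun v _ => Ideal.mul_mem_mul ?_ (ih (g v) (hg v))
    rw [PSR_mem_max, coeff_monomial, if_neg]
    intro h
    have := DFunLike.congr_fun h v
    simp at this

/-- A power series ring in finitely many variables over a field is complete. Proof: Hausdorff and
precomplete from `mem_maximalIdeal_pow_iff`: given a Cauchy sequence `f_n` the coefficients at `d`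
are constant for `n > d.degree`; take the limit coefficientwise. -/
theorem isAdicComplete_mvPowerSeries (σ : Type*) [Finite σ] (k : Type*) [Field k] :
    IsAdicComplete (maximalIdeal (MvPowerSeries σ k)) (MvPowerSeries σ k) := by
  have hmem : ∀ (n : ℕ) (x y : MvPowerSeries σ k),
      (x ≡ y [SMOD (maximalIdeal (MvPowerSeries σ k) ^ n • ⊤ :
        Submodule (MvPowerSeries σ k) (MvPowerSeries σ k))]) ↔
      ∀ d : σ →₀ ℕ, d.degree < n → coeff d x = coeff d y := by
    intro n x y
    rw [SModEq.sub_mem, smul_eq_mul, Ideal.mul_top, mem_maximalIdeal_pow_iff]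
    refine forall_congr' fun d => imp_congr_right fun _ => ?_
    rw [map_sub, sub_eq_zero]
  have hH : IsHausdorff (maximalIdeal (MvPowerSeries σ k)) (MvPowerSeries σ k) := by
    refine ⟨fun x hx => ?_⟩
    ext d
    exact (hmem (d.degree + 1) x 0).1 (hx _) d (Nat.lt_succ_self _)
  have hP : IsPrecomplete (maximalIdeal (MvPowerSeries σ k)) (MvPowerSeries σ k) := by
    refine ⟨fun f hf => ?_⟩
    obtain ⟨L, hL⟩ : ∃ L : MvPowerSeries σ k, ∀ d, coeff d L = coeff d (f (d.degree + 1)) :=
      ⟨fun d => coeff d (f (d.degree + 1)), fun _ => rfl⟩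
    refine ⟨L, fun n => (hmem n _ _).2 ?_⟩
    intro d hd
    rw [hL]
    exact ((hmem (d.degree + 1) _ _).1 (hf (by omega)) d (Nat.lt_succ_self _)).symm
  exact { hH, hP with }

/-- A local ring which is a quotient of a complete Noetherian local ring is complete. Proof:
Hausdorff by Krull's intersection theorem (`R` is a Noetherian local ring; Mathlib has
`IsHausdorff` instances for Noetherian local rings or `Ideal.iInf_pow_eq_bot_of_isLocalRing`).
Precomplete: the map sends `maximalIdeal A` onto `maximalIdeal R` and so `maximalIdeal A ^ n` onto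
`maximalIdeal R ^ n`. Given `f n` with `f n - f (n + 1) ∈ maximalIdeal R ^ n`, lift `f 0` to `g 0`
and `f (n + 1) - f n` to elements `h n ∈ maximalIdeal A ^ n`, put `g (n + 1) = g n + h n`; the limit
`g` of the `g n` exists and `φ g` is a limit of `f n`. -/
theorem isAdicComplete_of_surjective {A R : Type*} [CommRing A] [IsLocalRing A]
    [IsNoetherianRing A] [IsAdicComplete (maximalIdeal A) A] [CommRing R] [IsLocalRing R]
    (φ : A →+* R) (hφ : Function.Surjective φ) :
    IsAdicComplete (maximalIdeal R) R := by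
  have hN : IsNoetherianRing R := isNoetherianRing_of_surjective A R φ hφ
  have hH : IsHausdorff (maximalIdeal R) R := inferInstance
  have hmap : ∀ n : ℕ, (maximalIdeal A ^ n).map φ = maximalIdeal R ^ n := by
    intro n
    rw [Ideal.map_pow, map_maximalIdeal_of_surjective φ hφ]
  have hlift : ∀ (n : ℕ) (r : R), r ∈ maximalIdeal R ^ n → ∃ a ∈ maximalIdeal A ^ n, φ a = r := by
    intro n r hr
    rw [← hmap n] at hr
    exact (Ideal.mem_map_iff_of_surjective φ hφ).1 hr
  have hP : IsPrecomplete (maximalIdeal R) R := by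
    refine ⟨fun f hf => ?_⟩
    have hstep : ∀ n, f (n + 1) - f n ∈ maximalIdeal R ^ n := by
      intro n
      have h1 := (hf (Nat.le_succ n)).symm
      rw [SModEq.sub_mem, smul_eq_mul, Ideal.mul_top] at h1
      exact h1
    obtain ⟨g₀, hg₀⟩ := hφ (f 0)
    choose h hh1 hh2 using fun n => hlift n _ (hstep n)
    obtain ⟨g, hg⟩ : ∃ g : ℕ → A, g = fun n => g₀ + ∑ i ∈ Finset.range n, h i := ⟨_, rfl⟩
    have hφg : ∀ n, φ (g n) = f n := by
      intro n
      induction n with
      | zero => rw [hg]; simp [hg₀]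
      | succ n ih =>
        have h1 : g (n + 1) = g n + h n := by
          rw [hg]
          simp only []
          rw [Finset.sum_range_succ, add_assoc]
        rw [h1, map_add, ih, hh2]
        ring
    have hcauchy : ∀ {m n : ℕ}, m ≤ n → g m ≡ g n [SMOD (maximalIdeal A ^ m • ⊤ : Submodule A A)] := by
      intro m n hmn
      rw [SModEq.comm, SModEq.sub_mem, smul_eq_mul, Ideal.mul_top]
      have h1 : g n - g m = ∑ i ∈ Finset.Ico m n, h i := by
        rw [Finset.sum_Ico_eq_sub _ hmn, hg]
        ring
      rw [h1]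
      refine Ideal.sum_mem _ fun i hi => ?_
      exact Ideal.pow_le_pow_right (Finset.mem_Ico.1 hi).1 (hh1 i)
    obtain ⟨L, hL⟩ := IsPrecomplete.prec (inferInstance : IsPrecomplete (maximalIdeal A) A) hcauchy
    refine ⟨φ L, fun n => ?_⟩
    have h1 := hL n
    rw [SModEq.sub_mem, smul_eq_mul, Ideal.mul_top] at h1 ⊢
    rw [← hφg n, ← map_sub, ← hmap n]
    exact Ideal.mem_map_of_mem φ h1
  exact { hH, hP with }

/-- A power series ring in finitely many variables over `F_p` is `F`-finite: it is generated over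
its `p`-th powers by the monomials with exponents `< p`:
`f = ∑_ρ x^ρ f_ρ ^ p` with `f_ρ = fun α => coeff (p α + ρ) f` (as `c ^ p = c` in `F_p`). -/
theorem frobenius_finite_mvPowerSeries (p : ℕ) [Fact p.Prime] (σ : Type*) [Finite σ]
    [CharP (MvPowerSeries σ (ZMod p)) p] :
    (frobenius (MvPowerSeries σ (ZMod p)) p).Finite := by
  classical
  cases nonempty_fintype σ
  have hp : p ≠ 0 := (Fact.out : p.Prime).ne_zero
  have hp0 : 0 < p := Nat.pos_of_ne_zero hp
  obtain ⟨ex, hex⟩ : ∃ ex : (σ → Fin p) → (σ →₀ ℕ),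
      ex = fun ρ => Finsupp.equivFunOnFinite.symm fun v => (ρ v : ℕ) := ⟨_, rfl⟩
  have hex' : ∀ ρ v, ex ρ v = (ρ v : ℕ) := by
    intro ρ v
    rw [hex]
    rfl
  have hpow : ∀ g : MvPowerSeries σ (ZMod p), g ^ p = g.expand p hp := by
    intro g
    rw [← map_frobenius_expand p hp, ZMod.frobenius_zmod]
    simp
  have hdec : ∀ f : MvPowerSeries σ (ZMod p), ∃ g : (σ → Fin p) → MvPowerSeries σ (ZMod p),
      f = ∑ ρ, g ρ ^ p * monomial (ex ρ) 1 := by
    intro f
    obtain ⟨g, hg⟩ : ∃ g : (σ → Fin p) → MvPowerSeries σ (ZMod p), ∀ ρ α,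
        coeff α (g ρ) = coeff (p • α + ex ρ) f :=
      ⟨fun ρ => fun α => coeff (p • α + ex ρ) f, fun _ _ => rfl⟩
    refine ⟨g, ?_⟩
    ext d
    rw [map_sum]
    obtain ⟨ρ₀, hρ₀⟩ : ∃ ρ₀ : σ → Fin p, ρ₀ = fun v => ⟨d v % p, Nat.mod_lt _ hp0⟩ := ⟨_, rfl⟩
    have hρ₀' : ∀ v, ex ρ₀ v = d v % p := by
      intro v
      rw [hex', hρ₀]
    have hle : ex ρ₀ ≤ d := by
      intro v
      rw [hρ₀']
      exact Nat.mod_le _ _
    obtain ⟨α, hα⟩ : ∃ α : σ →₀ ℕ, α = Finsupp.equivFunOnFinite.symm fun v => d v / p := ⟨_, rfl⟩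
    have hd : d = p • α + ex ρ₀ := by
      ext v
      rw [Finsupp.add_apply, Finsupp.smul_apply, hρ₀', hα]
      change d v = p • (d v / p) + d v % p
      rw [smul_eq_mul]
      exact (Nat.div_add_mod _ _).symm
    rw [Finset.sum_eq_single ρ₀]
    · rw [coeff_mul_monomial, if_pos hle, mul_one, hpow]
      have h1 : d - ex ρ₀ = p • α := by
        conv_lhs => rw [hd]
        rw [add_tsub_cancel_right]
      rw [h1, coeff_expand_smul, hg, ← hd]
    · intro ρ _ hρ
      rw [coeff_mul_monomial]
      split_ifs with h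
      · rw [mul_one, hpow]
        obtain ⟨v, hv⟩ := Function.ne_iff.1 hρ
        refine coeff_expand_of_not_dvd p hp _ (i := v) ?_
        rw [Finsupp.tsub_apply, hex']
        intro hdvd
        apply hv
        have h2 := h v
        rw [hex'] at h2
        have h3 : d v % p = (ρ v : ℕ) % p := by
          have h4 : (ρ v : ℕ) ≡ d v [MOD p] := (Nat.modEq_iff_dvd' h2).2 hdvd
          exact h4.symm
        rw [Nat.mod_eq_of_lt (ρ v).2] at h3
        rw [hρ₀]
        exact Fin.ext h3.symm
      · rfl
    · intro h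
      exact absurd (Finset.mem_univ _) h
  exact PSR_finite _ (fun ρ : σ → Fin p => monomial (ex ρ) (1 : ZMod p)) hdec

/-- A quotient of an `F`-finite ring is `F`-finite: the images of generators are generators. -/
theorem frobenius_finite_of_surjective (p : ℕ) [Fact p.Prime] {A R : Type*} [CommRing A]
    [CharP A p] [CommRing R] [CharP R p] (φ : A →+* R) (hφ : Function.Surjective φ)
    (h : (frobenius A p).Finite) : (frobenius R p).Finite := by
  have h1 : (frobenius R p).comp φ = φ.comp (frobenius A p) := by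
    ext a
    simp [frobenius_def]
  have h2 : ((frobenius R p).comp φ).Finite := by
    rw [h1]
    exact (RingHom.Finite.of_surjective φ hφ).comp h
  exact RingHom.Finite.of_comp_finite h2

end Pool.Agent.W_35cfd6_h24
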