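import Pool.Agent.W_35cfd6_h24.Pi2
import Pool.Agent.W_35cfd6_h24.PSR
import Pool.Agent.W_35cfd6_h24.Kap2

/-!
# Ring-theoretic properties of `RR P`
-/

set_option autoImplicit false

namespace Pool.Agent.W_35cfd6_h24

open IsLocalRing MvPowerSeries

variable {p : ℕ}

/-- From `piR_surjective`. -/
theorem isNoetherianRing_RR [Fact p.Prime] (P : Par p) : IsNoetherianRing (RR P) := by
  exact isNoetherianRing_of_surjective _ _ (piR P) (piR_surjective P)

theorem isLocalRing_RR [Fact p.Prime] (P : Par p) : IsLocalRing (RR P) := by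
  exact IsLocalRing.of_surjective' (piR P) (piR_surjective P)

theorem Props_charUU [Fact p.Prime] : CharP (UU p) p :=
  charP_of_injective_algebraMap (algebraMap (ZMod p) (UU p)).injective p

/-- `RR P` is a subring of `UU p`. -/
theorem charP_RR [Fact p.Prime] (P : Par p) : CharP (RR P) p := by
  have := Props_charUU (p := p)
  exact RingHom.charP (RR P).subtype Subtype.val_injective p

theorem isDomain_RR [Fact p.Prime] (P : Par p) : IsDomain (RR P) := by
  have h1 : NoZeroDivisors (LL p) := inferInstance
  have h2 : NoZeroDivisors (UU p) := inferInstance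
  have h3 : NoZeroDivisors (RR P) := inferInstance
  exact NoZeroDivisors.to_isDomain _

theorem isAdicComplete_RR [Fact p.Prime] (P : Par p) [IsLocalRing (RR P)] :
    IsAdicComplete (maximalIdeal (RR P)) (RR P) := by
  have := isAdicComplete_mvPowerSeries W (ZMod p)
  exact isAdicComplete_of_surjective (piR P) (piR_surjective P)

theorem frobenius_finite_RR [Fact p.Prime] (P : Par p) [CharP (RR P) p] :
    (frobenius (RR P) p).Finite := by
  have : CharP (MvPowerSeries W (ZMod p)) p :=
    charP_of_injective_algebraMap (algebraMap (ZMod p) (MvPowerSeries W (ZMod p))).injective p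
  exact frobenius_finite_of_surjective p (piR P) (piR_surjective P)
    (frobenius_finite_mvPowerSeries p W)

theorem Props_const [Fact p.Prime] (P : Par p) (u : RR P) :
    coeff 0 (u : UU p) = algebraMap (ZMod p) (LL p) (co (u : UU p) 0 0) := by
  refine AddMonoidAlgebra.ext (Finsupp.ext fun m => ?_)
  have h0 : (coeff 0 (u : UU p)).coeff m = co (u : UU p) 0 m := rfl
  rw [h0, AddMonoidAlgebra.coe_algebraMap]
  simp only [Function.comp_apply, Algebra.algebraMap_self, RingHom.id_apply]
  rw [AddMonoidAlgebra.coeff_single, Finsupp.single_apply]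
  split_ifs with hm
  · rw [← hm]
  · have h1 := RR_row_of_hom_zero (RR_cmp u.2 0) (isHom_cmp 0 (u : UU p)) (m := m) (Ne.symm hm)
    have h2 := congrArg (coeff (0 : V →₀ ℕ)) h1
    rw [row_cmp, coeff_cmp, if_pos dg_zero, coeff_row, map_zero] at h2
    exact h2

/-- The evaluation of the constant coefficient at `T = 1`. -/
noncomputable def Props_rho (P : Par p) : RR P →+* ZMod p :=
  ((AddMonoidAlgebra.lift (ZMod p) (ZMod p) ℤ (1 : Multiplicative ℤ →* ZMod p) :
    LL p →ₐ[ZMod p] ZMod p) : LL p →+* ZMod p).comp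
    ((constantCoeff (σ := V) (R := LL p)).comp (RR P).subtype)

theorem Props_rho_apply [Fact p.Prime] (P : Par p) (u : RR P) :
    Props_rho P u = co (u : UU p) 0 0 := by
  have h1 : Props_rho P u = (AddMonoidAlgebra.lift (ZMod p) (ZMod p) ℤ
      (1 : Multiplicative ℤ →* ZMod p)) (coeff 0 (u : UU p)) := rfl
  rw [h1, Props_const, AlgHom.commutes, Algebra.algebraMap_self, RingHom.id_apply]

/-- The maximal ideal consists of the elements whose constant coefficient vanishes. The map
`UU p → ZMod p` which takes the constant coefficient (in the Laurent polynomials) and puts `T = 1`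
is a ring homomorphism; on `RR P` it is `u ↦ co u 0 0`, because `cmp 0 u` has no rows `m ≠ 0`
(`RR_row_of_hom_zero`). It is onto, so its kernel is the maximal ideal. -/
theorem mem_maximalIdeal_RR [Fact p.Prime] (P : Par p) [IsLocalRing (RR P)] (u : RR P) :
    u ∈ maximalIdeal (RR P) ↔ co (u : UU p) 0 0 = 0 := by
  have h1 : (RingHom.ker (Props_rho P)).IsMaximal :=
    RingHom.ker_isMaximal_of_surjective _ (ZMod.ringHom_surjective _)
  rw [← IsLocalRing.eq_maximalIdeal h1, RingHom.mem_ker, Props_rho_apply]

theorem Props_split {q : ℕ} (f : MvPowerSeries W (ZMod p))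
    (hf : ∀ d : W →₀ ℕ, coeff d f ≠ 0 → ∃ w : Fin 3 × Fin 4, q ≤ d (some w)) :
    ∃ g : Fin 3 × Fin 4 → MvPowerSeries W (ZMod p),
      f = ∑ w, monomial (Finsupp.single (some w) q) 1 * g w := by
  classical
  obtain ⟨vv, hvv⟩ : ∃ vv : (W →₀ ℕ) → Option (Fin 3 × Fin 4), ∀ d, coeff d f ≠ 0 →
      ∃ w, vv d = some w ∧ q ≤ d (some w) := by
    refine ⟨fun d => if h : coeff d f ≠ 0 then some (hf d h).choose else none, fun d hd => ?_⟩
    refine ⟨(hf d hd).choose, ?_, (hf d hd).choose_spec⟩
    simp only []
    rw [dif_pos hd]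
  obtain ⟨g, hg⟩ : ∃ g : Fin 3 × Fin 4 → MvPowerSeries W (ZMod p), ∀ v e, coeff e (g v) =
      if vv (e + Finsupp.single (some v) q) = some v then
        coeff (e + Finsupp.single (some v) q) f else 0 :=
    ⟨fun v => fun e => if vv (e + Finsupp.single (some v) q) = some v then
      coeff (e + Finsupp.single (some v) q) f else 0, fun _ _ => rfl⟩
  refine ⟨g, ?_⟩
  ext d
  rw [map_sum]
  simp only [coeff_monomial_mul, one_mul]
  by_cases h0 : coeff d f = 0
  · rw [h0]
    symm
    refine Finset.sum_eq_zero fun v _ => ?_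
    by_cases h3 : Finsupp.single (some v) q ≤ d
    · rw [if_pos h3, hg, tsub_add_cancel_of_le h3, h0]
      split_ifs <;> rfl
    · rw [if_neg h3]
  · obtain ⟨v, h1, h2⟩ := hvv d h0
    rw [Finset.sum_eq_single v]
    · have h3 : Finsupp.single (some v) q ≤ d := by
        rw [Finsupp.single_le_iff]
        exact h2
      rw [if_pos h3, hg, tsub_add_cancel_of_le h3, if_pos h1]
    · intro w _ hw
      by_cases h3 : Finsupp.single (some w) q ≤ d
      · rw [if_pos h3, hg, tsub_add_cancel_of_le h3, if_neg]
        rw [h1]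
        intro h
        exact hw (Option.some_injective _ h).symm
      · rw [if_neg h3]
    · intro h
      exact absurd (Finset.mem_univ v) h

/-- The high part of an element of the ring is in the Frobenius power of the maximal ideal. If all
components of `u ∈ RR P` of degree `< N`, `N = 12 p^e`, vanish then `u` is a finite sum
`∑ r_i ^ q * b_i` with `r_i` generators `gens P w` and `b_i ∈ RR P`: write `u = piU P f`
(`exists_piU`), replace `f` by `yge N f` (`piU_yge`); in every exponent `d` of `yge N f` one of the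
12 numbers `d (some w)` is at least `q`; assign `d` to such a `w`, so `f = ∑_w Y_w^q f_w`. -/
theorem high_part [Fact p.Prime] (P : Par p) (e : ℕ) {u : UU p} (hu : u ∈ RR P)
    (h : ∀ n < 12 * p ^ e, cmp n u = 0) :
    ∃ b : Fin 3 × Fin 4 → UU p, (∀ w, b w ∈ RR P) ∧ u = ∑ w, gens P w ^ p ^ e * b w := by
  classical
  obtain ⟨f, hf⟩ := exists_piU P hu
  have h1 : piU P f = piU P (yge (12 * p ^ e) f) := by
    refine piU_yge P _ f fun i hi => ?_
    rw [hf]
    exact h i hi
  obtain ⟨g, hg⟩ := Props_split (q := p ^ e) (yge (12 * p ^ e) f) (by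
    intro d hd
    have h2 : coeff d (yge (12 * p ^ e) f) =
      if 12 * p ^ e ≤ ∑ w : Fin 3 × Fin 4, d (some w) then coeff d f else 0 := rfl
    rw [h2] at hd
    split_ifs at hd with h3
    · by_contra hcon
      push Not at hcon
      have h4 : ∑ w : Fin 3 × Fin 4, d (some w) < ∑ _w : Fin 3 × Fin 4, p ^ e :=
        Finset.sum_lt_sum_of_nonempty Finset.univ_nonempty fun w _ => hcon w
      rw [Finset.sum_const, Finset.card_univ] at h4
      simp at h4
      omega
    · exact absurd rfl hd)
  refine ⟨fun w => piU P (g w), fun w => piU_mem P _, ?_⟩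
  rw [← hf, h1, hg, map_sum]
  refine Finset.sum_congr rfl fun w _ => ?_
  rw [map_mul, piU_monomial]
  congr 1
  rw [Finset.prod_eq_single (some w)]
  · rw [Finsupp.single_eq_same]
    rfl
  · intro v _ hv
    rw [Finsupp.single_eq_of_ne hv, pow_zero]
  · intro hv
    exact absurd (Finset.mem_univ _) hv

end Pool.Agent.W_35cfd6_h24
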