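import Pool.Agent.W_35cfd6_h24.K6
import Pool.Agent.W_35cfd6_h24.Props

/-!
# `p^(-e)`-linear maps of `RR P` preserve the maximal ideal
-/

set_option autoImplicit false

namespace Pool.Agent.W_35cfd6_h24

open MvPowerSeries

variable {p : ℕ}

/-- The graded maps defined by a `p^(-e)`-linear map `φ` of `RR P`: `f n u` is the component of
degree `n` of `φ u`. (`RR_cmp`, `isHom_cmp`, additivity of `cmp`; `φ (r^q u) = r φ u` and
`IsHom.cmp_mul`.) -/
noncomputable def ofPhi (P : Par p) (e c : ℕ) (φ : RR P →+ RR P)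
    (hφ : ∀ r f : RR P, φ (r ^ p ^ e * f) = r * φ f) : GMap P e c where
  f n u := open Classical in if h : u ∈ RR P then cmp n ((φ ⟨u, h⟩ : RR P) : UU p) else 0
  mem := by
    intro n u hu _
    rw [dif_pos hu]
    exact RR_cmp (φ ⟨u, hu⟩).2 n
  hom := by
    intro n u hu _
    rw [dif_pos hu]
    exact isHom_cmp n _
  add := by
    intro n u v hu hv _ _
    rw [dif_pos hu, dif_pos hv, dif_pos ((RR P).add_mem hu hv), ← cmp_add]
    have h1 : (⟨u + v, (RR P).add_mem hu hv⟩ : RR P) = ⟨u, hu⟩ + ⟨v, hv⟩ := rfl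
    rw [h1, map_add]
    rfl
  mul := by
    intro n k r u hr hk hu _
    rw [dif_pos hu, dif_pos ((RR P).mul_mem ((RR P).pow_mem hr (p ^ e)) hu)]
    have h1 : (⟨r ^ p ^ e * u, (RR P).mul_mem ((RR P).pow_mem hr (p ^ e)) hu⟩ : RR P) =
        ⟨r, hr⟩ ^ p ^ e * ⟨u, hu⟩ := rfl
    rw [h1, hφ, ← hk.cmp_mul n]
    rfl

theorem ofPhi_f (P : Par p) (e c : ℕ) (φ : RR P →+ RR P)
    (hφ : ∀ r f : RR P, φ (r ^ p ^ e * f) = r * φ f) (n : ℕ) (u : RR P) :
    (ofPhi P e c φ hφ).f n (u : UU p) = cmp n ((φ u : RR P) : UU p) := by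
  have h1 : (ofPhi P e c φ hφ).f n (u : UU p) = open Classical in
      if h : (u : UU p) ∈ RR P then cmp n ((φ ⟨u, h⟩ : RR P) : UU p) else 0 := rfl
  rw [h1, dif_pos u.2]

theorem K7_co_cmp (u : UU p) : co (cmp 0 u) 0 0 = co u 0 0 := by
  rw [co, co, coeff_cmp, if_pos dg_zero]

/-- Claim B. Let `N = 12 q`, `q = p^e`. Write `x = ∑_(n < N) cmp n x + y`, where all components of
`y ∈ RR P` of degree `< N` vanish. The coefficient of `φ (cmp n x)` at `(0, 0)` is the one of its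
component of degree `0`, which is `(ofPhi P e n φ hφ).f 0 (cmp n x)`: for `n ≥ 1` it vanishes by
`GMap.eq_zero_of_pos` (`cmp n x` has degree `q * 0 + n`), and for `n = 0` its coefficient at `(0, 0)`
vanishes by `GMap.co_zero`. By `high_part`, `y = ∑_w (gens P w)^q * b_w`, so
`φ y = ∑_w gens P w * φ b_w` has no component of degree `0`. -/
theorem claimB [Fact p.Prime] (hp : p ≠ 2) {P : Par p} (hP : P.Good) (e : ℕ)
    (φ : RR P →+ RR P) (hφ : ∀ r f : RR P, φ (r ^ p ^ e * f) = r * φ f) {x : RR P}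
    (hx : co (x : UU p) 0 0 = 0) : co ((φ x : RR P) : UU p) 0 0 = 0 := by
  classical
  -- the additive functional
  let L : RR P →+ ZMod p :=
    { toFun := fun u => co (u : UU p) 0 0
      map_zero' := by
        exact co_zero 0 0
      map_add' := fun u v => by
        exact co_add (u : UU p) (v : UU p) 0 0 }
  have hL : ∀ u : RR P, L u = co (u : UU p) 0 0 := fun _ => rfl
  set N := 12 * p ^ e with hN
  let X : ℕ → RR P := fun n => ⟨cmp n (x : UU p), RR_cmp x.2 n⟩
  set y : RR P := x - ∑ n ∈ Finset.range N, X n with hy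
  have hx1 : x = (∑ n ∈ Finset.range N, X n) + y := by
    rw [hy]
    abel
  have hcoe : (y : UU p) = (x : UU p) - ∑ n ∈ Finset.range N, cmp n (x : UU p) := by
    rw [hy, AddSubgroupClass.coe_sub, AddSubmonoidClass.coe_finsetSum]
  have hy0 : ∀ n < N, cmp n (y : UU p) = 0 := by
    intro n hn
    rw [hcoe, cmp_sub, cmp_sum, Finset.sum_eq_single n]
    · rw [(isHom_cmp n (x : UU p)).cmp_self, sub_self]
    · intro m _ hm
      exact (isHom_cmp m (x : UU p)).cmp_ne hm.symm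
    · intro h
      exact absurd (Finset.mem_range.2 hn) h
  obtain ⟨b, hb, hyb⟩ := high_part P e y.2 hy0
  have hyb' : y = ∑ w : Fin 3 × Fin 4, (⟨gens P w, gens_mem P w⟩ : RR P) ^ p ^ e * ⟨b w, hb w⟩ := by
    apply Subtype.ext
    rw [AddSubmonoidClass.coe_finsetSum]
    exact hyb
  have hLy : L (φ y) = 0 := by
    rw [hyb', map_sum, map_sum]
    refine Finset.sum_eq_zero fun w _ => ?_
    rw [hφ, hL, ← K7_co_cmp]
    have h1 : (((⟨gens P w, gens_mem P w⟩ : RR P) * φ ⟨b w, hb w⟩ : RR P) : UU p) =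
        gens P w * ((φ ⟨b w, hb w⟩ : RR P) : UU p) := rfl
    rw [h1, (gens_hom P w).cmp_mul_of_lt Nat.zero_lt_one, co_zero]
  have hLX : ∀ n, L (φ (X n)) = 0 := by
    intro n
    have h1 : cmp 0 ((φ (X n) : RR P) : UU p) = (ofPhi P e n φ hφ).f 0 ((X n : RR P) : UU p) :=
      (ofPhi_f P e n φ hφ 0 (X n)).symm
    have hh : IsHom (p ^ e * 0 + n) ((X n : RR P) : UU p) := by
      rw [Nat.mul_zero, Nat.zero_add]
      exact isHom_cmp n (x : UU p)
    rw [hL, ← K7_co_cmp, h1]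
    rcases Nat.eq_zero_or_pos n with hn | hn
    · subst hn
      refine GMap.co_zero hp hP _ (X 0).2 ?_ ?_
      · exact isHom_cmp 0 (x : UU p)
      · have h2 : ((X 0 : RR P) : UU p) = cmp 0 (x : UU p) := rfl
        rw [h2, K7_co_cmp]
        exact hx
    · rw [GMap.eq_zero_of_pos _ hn (X n).2 hh, co_zero]
  have h3 : L (φ x) = 0 := by
    rw [hx1, map_add, map_sum, map_add, map_sum, hLy, add_zero]
    exact Finset.sum_eq_zero fun n _ => hLX n
  exact h3

end Pool.Agent.W_35cfd6_h24
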