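import Pool.Agent.W_35cfd6_h24.Lin

/-!
# The trace: basic properties
-/

set_option autoImplicit false

namespace Pool.Agent.W_35cfd6_h24

open MvPowerSeries

variable {p : ℕ}

theorem coeff_kapF (e : ℕ) (f : FF p) (α : V →₀ ℕ) :
    coeff α (kapF e f) = coeff (p ^ e • α + ones (p ^ e - 1)) f := by
  rfl

@[simp] theorem kapF_zero (e : ℕ) : kapF e (0 : FF p) = 0 := by
  ext α
  rw [coeff_kapF, map_zero, map_zero]

@[simp] theorem kapF_add (e : ℕ) (f g : FF p) : kapF e (f + g) = kapF e f + kapF e g := by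
  ext α
  rw [coeff_kapF, map_add, map_add, coeff_kapF, coeff_kapF]

@[simp] theorem kapF_sub (e : ℕ) (f g : FF p) : kapF e (f - g) = kapF e f - kapF e g := by
  ext α
  rw [coeff_kapF, map_sub, map_sub, coeff_kapF, coeff_kapF]

theorem kapF_sum {ι : Type*} (s : Finset ι) (e : ℕ) (f : ι → FF p) :
    kapF e (∑ i ∈ s, f i) = ∑ i ∈ s, kapF e (f i) := by
  ext α
  rw [coeff_kapF, map_sum, map_sum]
  exact Finset.sum_congr rfl fun i _ => (coeff_kapF e (f i) α).symm

theorem Kap1_coeff_pow [Fact p.Prime] (e : ℕ) (v : FF p) (ε : V →₀ ℕ) :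
    coeff ε (v ^ p ^ e) =
      coeff ε (expand (p ^ e) (pow_ne_zero e (Fact.out : p.Prime).ne_zero) v) := by
  rw [← map_iterateFrobenius_expand p (Fact.out : p.Prime).ne_zero v e, coeff_map,
    iterateFrobenius_def, ZMod.pow_card_pow]

theorem Kap1_coeff_smul [Fact p.Prime] (e : ℕ) (v : FF p) (β : V →₀ ℕ) :
    coeff (p ^ e • β) (v ^ p ^ e) = coeff β v := by
  rw [Kap1_coeff_pow, coeff_expand_smul]

theorem Kap1_coeff_of_not_dvd [Fact p.Prime] (e : ℕ) (v : FF p) {ε : V →₀ ℕ} {i : V}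
    (h : ¬ p ^ e ∣ ε i) : coeff ε (v ^ p ^ e) = 0 := by
  rw [Kap1_coeff_pow, coeff_expand_of_not_dvd _ _ _ h]

/-- Frobenius linearity of the trace, `q = p^e`. Proof: the coefficient of `v ^ q` at `ε` is
`coeff β v` if `ε = q β` and `0` if `ε` is not divisible by `q` (in characteristic `p`, and
`c ^ q = c` in `ZMod p`). So the coefficient of `v ^ q * f` at `q α + ones (q - 1)` is the sum over
`β ≤ α` of `coeff β v * coeff (q (α - β) + ones (q - 1)) f` (if `q β ≤ q α + ones (q - 1)` then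
`β ≤ α`), which is the coefficient of `v * kapF e f` at `α`. -/
theorem kapF_pow_mul [Fact p.Prime] (e : ℕ) (v f : FF p) :
    kapF e (v ^ p ^ e * f) = v * kapF e f := by
  classical
  have hq : 0 < p ^ e := pow_pos (Fact.out : p.Prime).pos e
  ext α
  rw [coeff_kapF, coeff_mul, coeff_mul]
  symm
  refine Finset.sum_of_injOn
    (fun y : (V →₀ ℕ) × (V →₀ ℕ) => (p ^ e • y.1, p ^ e • y.2 + ones (p ^ e - 1))) ?_ ?_ ?_ ?_
  · intro y _ z _ h
    have h1 := congrArg Prod.fst h
    have h2 := congrArg Prod.snd h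
    simp only at h1 h2
    have h3 := add_right_cancel h2
    have hinj : Function.Injective (fun β : V →₀ ℕ => p ^ e • β) := by
      intro β γ hβ
      ext v
      have := DFunLike.congr_fun hβ v
      simp only [Finsupp.smul_apply, smul_eq_mul] at this
      exact Nat.eq_of_mul_eq_mul_left hq this
    exact Prod.ext (hinj h1) (hinj h3)
  · intro y hy
    have hy' : y.1 + y.2 = α := Finset.HasAntidiagonal.mem_antidiagonal.1 hy
    refine Finset.mem_coe.2 (Finset.HasAntidiagonal.mem_antidiagonal.2 ?_)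
    simp only
    rw [← add_assoc, ← smul_add, hy']
  · intro x hx hne
    have hx' : x.1 + x.2 = p ^ e • α + ones (p ^ e - 1) :=
      Finset.HasAntidiagonal.mem_antidiagonal.1 hx
    by_cases hd : ∀ i, p ^ e ∣ x.1 i
    · exfalso
      apply hne
      obtain ⟨β, hβ⟩ : ∃ β : V →₀ ℕ, p ^ e • β = x.1 :=
        ⟨x.1.mapRange (fun a => a / p ^ e) (by simp), by
          ext i
          simp [(Nat.mul_div_cancel' (hd i))]⟩
      have hcoord : ∀ i, p ^ e * β i + x.2 i = p ^ e * α i + (p ^ e - 1) := by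
        intro i
        have h1 := DFunLike.congr_fun hx' i
        rw [← hβ] at h1
        simpa [ones] using h1
      have hle : ∀ i, β i ≤ α i := by
        intro i
        by_contra hlt
        have h1 : α i + 1 ≤ β i := by omega
        have h2 : p ^ e * (α i + 1) ≤ p ^ e * β i := Nat.mul_le_mul_left _ h1
        have h3 := hcoord i
        rw [Nat.mul_add, Nat.mul_one] at h2
        omega
      refine ⟨(β, α - β), ?_, ?_⟩
      · refine Finset.mem_coe.2 (Finset.HasAntidiagonal.mem_antidiagonal.2 ?_)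
        simp only
        ext i
        simp only [Finsupp.add_apply, Finsupp.tsub_apply]
        have := hle i
        omega
      · refine Prod.ext hβ ?_
        ext i
        have h1 := hcoord i
        have h2 := hle i
        have h3 : p ^ e * (α i - β i) + p ^ e * β i = p ^ e * α i := by
          rw [← Nat.mul_add, Nat.sub_add_cancel h2]
        simp only [Finsupp.add_apply, Finsupp.smul_apply, Finsupp.tsub_apply, smul_eq_mul, ones,
          Finsupp.equivFunOnFinite_symm_apply_apply]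
        omega
    · push Not at hd
      obtain ⟨i, hi⟩ := hd
      rw [Kap1_coeff_of_not_dvd e v hi, zero_mul]
  · intro y _
    simp only
    rw [Kap1_coeff_smul, coeff_kapF]

theorem kapF_sX_pow_mul [Fact p.Prime] (e K : ℕ) (f : FF p) :
    kapF e (sX ^ (p ^ e * K) * f) = sX ^ K * kapF e f := by
  rw [mul_comm (p ^ e) K, pow_mul, kapF_pow_mul]

theorem kapF_dvd [Fact p.Prime] (e K : ℕ) {f : FF p} (h : sX ^ (p ^ e * K) ∣ f) :
    sX ^ K ∣ kapF e f := by
  obtain ⟨c, rfl⟩ := h
  rw [kapF_sX_pow_mul]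
  exact dvd_mul_right _ _

/-- `dg (q α + ones (q - 1)) = q dg α + 4 (q - 1)`. -/
theorem cmp_kapF (e n : ℕ) [Fact p.Prime] (f : FF p) :
    cmp n (kapF e f) = kapF e (cmp (p ^ e * n + 4 * (p ^ e - 1)) f) := by
  have hq : 0 < p ^ e := pow_pos (Fact.out : p.Prime).pos e
  ext α
  rw [coeff_cmp, coeff_kapF, coeff_kapF, coeff_cmp, dg_add, dg_smul, dg_ones]
  by_cases h : dg α = n
  · rw [if_pos h, if_pos (by rw [h])]
  · rw [if_neg h, if_neg]
    intro h1
    exact h (Nat.eq_of_mul_eq_mul_left hq (Nat.add_right_cancel h1))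

theorem IsHom.kapF (e : ℕ) {n : ℕ} [Fact p.Prime] {f : FF p}
    (h : IsHom (p ^ e * n + 4 * (p ^ e - 1)) f) :
    IsHom n (Pool.Agent.W_35cfd6_h24.kapF e f) := by
  have h1 := cmp_kapF e n f
  rw [h.cmp_self] at h1
  rw [← h1]
  exact isHom_cmp n _

/-- The trace detects coefficients: `q ε + ones (q - 1) = ε + (q - 1) (ε + ones 1)`. -/
theorem coeff_kapF_mul_monomial (e : ℕ) [Fact p.Prime] (f : FF p) (ε : V →₀ ℕ) :
    coeff ε (kapF e (f * monomial ((p ^ e - 1) • (ε + ones 1)) 1)) = coeff ε f := by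
  have hq : 0 < p ^ e := pow_pos (Fact.out : p.Prime).pos e
  have h1 : p ^ e • ε + ones (p ^ e - 1) = ε + (p ^ e - 1) • (ε + ones 1) := by
    ext i
    obtain ⟨k, hk⟩ : ∃ k, p ^ e = k + 1 := ⟨p ^ e - 1, by omega⟩
    simp only [hk, Finsupp.add_apply, Finsupp.smul_apply, smul_eq_mul, ones,
      Finsupp.equivFunOnFinite_symm_apply_apply, Nat.add_sub_cancel]
    ring
  rw [coeff_kapF, h1, coeff_add_mul_monomial, mul_one]

theorem co_kap [Fact p.Prime] (e : ℕ) (u : UU p) (α : V →₀ ℕ) (m : ℤ) :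
    co (kap e u) α m = co u (p ^ e • α + ones (p ^ e - 1)) ((p : ℤ) ^ e * m) := by
  rfl

theorem row_kap [Fact p.Prime] (e : ℕ) (u : UU p) (m : ℤ) :
    row m (kap e u) = kapF e (row ((p : ℤ) ^ e * m) u) := by
  ext α
  rw [coeff_row, co_kap, coeff_kapF, coeff_row]

@[simp] theorem kap_add [Fact p.Prime] (e : ℕ) (u v : UU p) :
    kap e (u + v) = kap e u + kap e v := by
  refine ext_row fun m => ?_
  rw [row_kap, row_add, row_add, kapF_add, row_kap, row_kap]

@[simp] theorem kap_sub [Fact p.Prime] (e : ℕ) (u v : UU p) :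
    kap e (u - v) = kap e u - kap e v := by
  refine ext_row fun m => ?_
  rw [row_kap, row_sub, row_sub, kapF_sub, row_kap, row_kap]

theorem kap_sum [Fact p.Prime] {ι : Type*} (s : Finset ι) (e : ℕ) (u : ι → UU p) :
    kap e (∑ i ∈ s, u i) = ∑ i ∈ s, kap e (u i) := by
  refine ext_row fun m => ?_
  rw [row_kap, row_sum, row_sum, kapF_sum]
  exact Finset.sum_congr rfl fun i _ => (row_kap e (u i) m).symm

theorem cmp_kap [Fact p.Prime] (e n : ℕ) (u : UU p) :
    cmp n (kap e u) = kap e (cmp (p ^ e * n + 4 * (p ^ e - 1)) u) := by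
  refine ext_row fun m => ?_
  rw [row_cmp, row_kap, row_kap, row_cmp, cmp_kapF]

theorem IsHom.kap [Fact p.Prime] (e : ℕ) {n : ℕ} {u : UU p}
    (h : IsHom (p ^ e * n + 4 * (p ^ e - 1)) u) :
    IsHom n (Pool.Agent.W_35cfd6_h24.kap e u) := by
  have h1 := cmp_kap e n u
  rw [h.cmp_self] at h1
  rw [← h1]
  exact isHom_cmp n _

end Pool.Agent.W_35cfd6_h24
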