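import Pool.Agent.W_35cfd6_h24.Lin2

/-!
# The automorphism `G` and its integral powers
-/

set_option autoImplicit false

namespace Pool.Agent.W_35cfd6_h24

open MvPowerSeries

variable {p : ℕ}

section
variable {A : Type*} [CommRing A] [Algebra (ZMod p) A]

theorem GG_inv_GG (P : Par p) (f : MvPowerSeries V A) : GG P.inv (GG P f) = f := by
  rw [GG, GG, lin_lin, mat_mul_inv, lin_one]

theorem GG_GG_inv (P : Par p) (f : MvPowerSeries V A) : GG P (GG P.inv f) = f := by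
  rw [GG, GG, lin_lin, mat_inv_mul, lin_one]

theorem GG_injective (P : Par p) :
    Function.Injective (GG P : MvPowerSeries V A →ₐ[A] MvPowerSeries V A) :=
  fun f g h => by rw [← GG_inv_GG P f, h, GG_inv_GG]

@[simp] theorem GG_sX (P : Par p) : GG P (sX : MvPowerSeries V A) = sX := lin_sX _

theorem GG_ev (P : Par p) (c : PowerSeries (ZMod p)) : GG P (ev (A := A) c) = ev c := lin_ev _ _

theorem GG_cmp (P : Par p) (n : ℕ) (f : MvPowerSeries V A) :
    GG P (cmp n f) = cmp n (GG P f) := lin_cmp _ _ _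

theorem IsHom.GG (P : Par p) {n : ℕ} {f : MvPowerSeries V A} (hf : IsHom n f) :
    IsHom n (Pool.Agent.W_35cfd6_h24.GG P f) := hf.lin _

theorem GG_dvd (P : Par p) {K : ℕ} {f : MvPowerSeries V A} (h : sX ^ K ∣ f) :
    sX ^ K ∣ GG P f := lin_dvd _ h

theorem GG_dvd_iff (P : Par p) {K : ℕ} {f : MvPowerSeries V A} :
    sX ^ K ∣ GG P f ↔ sX ^ K ∣ f :=
  ⟨fun h => by rw [← GG_inv_GG P f]; exact GG_dvd _ h, GG_dvd P⟩

end

theorem row_GG (P : Par p) (m : ℤ) (u : UU p) : row m (GG P u) = GG P (row m u) := row_lin _ _ _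

theorem GG_iota (P : Par p) (f : FF p) : GG P (iota f) = iota (GG P f) := lin_iota _ _

/-- `G` as an automorphism of `FF p`. -/
noncomputable def GE (P : Par p) : FF p ≃ₐ[ZMod p] FF p :=
  AlgEquiv.ofAlgHom (GG P) (GG P.inv) (AlgHom.ext fun f => GG_GG_inv P f)
    (AlgHom.ext fun f => GG_inv_GG P f)

theorem GE_apply (P : Par p) (f : FF p) : GE P f = GG P f := rfl

theorem GE_symm_apply (P : Par p) (f : FF p) : (GE P).symm f = GG P.inv f := rfl

/-- `G^(j+1) = G G^j`. -/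
theorem GE_zpow_succ (P : Par p) (j : ℤ) (f : FF p) :
    (GE P ^ (j + 1)) f = GG P ((GE P ^ j) f) := by
  rw [add_comm, zpow_add, zpow_one]; rfl

theorem GE_zpow_add (P : Par p) (i j : ℤ) (f : FF p) :
    (GE P ^ (i + j)) f = (GE P ^ i) ((GE P ^ j) f) := by
  rw [zpow_add]; rfl

@[simp] theorem GE_zpow_zero (P : Par p) (f : FF p) : (GE P ^ (0 : ℤ)) f = f := rfl

/-- Induction principle for the integral powers of `G`. -/
theorem GE_zpow_ind (P : Par p) (Q : (FF p → FF p) → Prop) (h0 : Q id)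
    (h1 : ∀ g, Q g → Q fun f => GG P (g f)) (h2 : ∀ g, Q g → Q fun f => GG P.inv (g f)) (j : ℤ) :
    Q fun f => (GE P ^ j) f := by
  induction j using Int.induction_on with
  | zero => exact h0
  | succ i ih =>
    have := h1 _ ih
    simpa only [← GE_zpow_succ] using this
  | pred i ih =>
    have := h2 _ ih
    have h : ∀ f, (GE P ^ (-(i : ℤ) - 1)) f = GG P.inv ((GE P ^ (-(i : ℤ))) f) := by
      intro f
      have h3 : (GE P ^ (-(i : ℤ))) f = GG P ((GE P ^ (-(i : ℤ) - 1)) f) := by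
        rw [← GE_zpow_succ, sub_add_cancel]
      rw [h3, GG_inv_GG]
    simpa only [h] using this

@[simp] theorem GE_zpow_sX (P : Par p) (j : ℤ) : (GE P ^ j) (sX : FF p) = sX :=
  GE_zpow_ind P (fun g => g sX = sX) rfl (fun g hg => by beta_reduce; rw [hg, GG_sX])
    (fun g hg => by beta_reduce; rw [hg, GG_sX]) j

theorem GE_zpow_ev (P : Par p) (j : ℤ) (c : PowerSeries (ZMod p)) :
    (GE P ^ j) (ev c) = ev c :=
  GE_zpow_ind P (fun g => g (ev c) = ev c) rfl (fun g hg => by beta_reduce; rw [hg, GG_ev])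
    (fun g hg => by beta_reduce; rw [hg, GG_ev]) j

theorem GE_zpow_cmp (P : Par p) (j : ℤ) (n : ℕ) (f : FF p) :
    (GE P ^ j) (cmp n f) = cmp n ((GE P ^ j) f) :=
  GE_zpow_ind P (fun g => g (cmp n f) = cmp n (g f)) rfl
    (fun g hg => by beta_reduce; rw [hg, GG_cmp]) (fun g hg => by beta_reduce; rw [hg, GG_cmp]) j

theorem IsHom.GE_zpow (P : Par p) (j : ℤ) {n : ℕ} {f : FF p} (hf : IsHom n f) :
    IsHom n ((GE P ^ j) f) :=
  GE_zpow_ind P (fun g => IsHom n (g f)) hf (fun _ hg => hg.GG P) (fun _ hg => hg.GG P.inv) j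

theorem GE_zpow_dvd (P : Par p) (j : ℤ) {K : ℕ} {f : FF p} (hf : sX ^ K ∣ f) :
    sX ^ K ∣ (GE P ^ j) f :=
  GE_zpow_ind P (fun g => sX ^ K ∣ g f) hf (fun _ hg => GG_dvd P hg) (fun _ hg => GG_dvd P.inv hg) j

theorem GE_zpow_dvd_iff (P : Par p) (j : ℤ) {K : ℕ} {f : FF p} :
    sX ^ K ∣ (GE P ^ j) f ↔ sX ^ K ∣ f := by
  refine ⟨fun h => ?_, GE_zpow_dvd P j⟩
  have := GE_zpow_dvd P (-j) h
  rwa [← GE_zpow_add, neg_add_cancel, GE_zpow_zero] at this

end Pool.Agent.W_35cfd6_h24
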