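import Pool.Agent.W_35cfd6_h24.Cmp
import Pool.Agent.W_35cfd6_h24.Dvd

/-!
# Linear substitutions, I: coefficients
-/

set_option autoImplicit false

namespace Pool.Agent.W_35cfd6_h24

open MvPowerSeries

variable {p : ℕ}

section
variable {A : Type*} [CommRing A] [Algebra (ZMod p) A]

/-- Proof: `ev` is a substitution; use `PowerSeries.coeff_subst` and
`coeff e (X none ^ n) = if e = single none n then 1 else 0`. -/
theorem coeff_ev (c : PowerSeries (ZMod p)) (e : V →₀ ℕ) :
    coeff e (ev (A := A) c) = if e = Finsupp.single none (e none) then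
      algebraMap (ZMod p) A (PowerSeries.coeff (e none) c) else 0 := by
  classical
  rw [ev, PowerSeries.coe_substAlgHom, PowerSeries.coeff_subst hasSubst_sX,
    finsum_eq_single _ (e none)]
  · rw [sX, coeff_X_pow]
    split_ifs with h
    · rw [Algebra.algebraMap_eq_smul_one]
    · rw [smul_zero]
  · intro n hn
    rw [sX, coeff_X_pow, if_neg, smul_zero]
    intro h
    apply hn
    rw [h, Finsupp.single_eq_same]

theorem ev_X : ev (A := A) (PowerSeries.X : PowerSeries (ZMod p)) = sX := by
  exact PowerSeries.substAlgHom_X hasSubst_sX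

theorem constantCoeff_ev (c : PowerSeries (ZMod p)) :
    constantCoeff (ev (A := A) c) = algebraMap (ZMod p) A (PowerSeries.constantCoeff c) := by
  rw [← coeff_zero_eq_constantCoeff_apply, coeff_ev, if_pos (by simp)]
  simp

theorem IsHom.ev (c : PowerSeries (ZMod p)) :
    IsHom 0 (Pool.Agent.W_35cfd6_h24.ev (A := A) c) := by
  intro e he
  rw [coeff_ev] at he
  split_ifs at he with h
  · rw [h, dg_single_none]
  · exact absurd rfl he

theorem lin_sX (N : MT p) : lin N (sX : MvPowerSeries V A) = sX := by
  exact substAlgHom_X (hasSubst_lvec N) none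

theorem lin_X (N : MT p) (i : Fin 4) :
    lin N (X (some i) : MvPowerSeries V A) = ∑ j : Fin 4, ev (N i j) * X (some j) := by
  exact substAlgHom_X (hasSubst_lvec N) (some i)

theorem lin_C (N : MT p) (a : A) : lin N (C a : MvPowerSeries V A) = C a := by
  exact (lin N).commutes a

/-- The image of a monomial is the product of the powers of the images of the variables:
`substAlgHom` sends `monomial d 1 = ∏ v, X v ^ d v` to `∏ v, (lvec N v) ^ d v`. -/
theorem lin_monomial (N : MT p) (d : V →₀ ℕ) :
    lin N (monomial d (1 : A)) = sX ^ d none *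
      ∏ i : Fin 4, (∑ j : Fin 4, ev (N i j) * X (some j)) ^ d (some i) := by
  rw [lin, substAlgHom_monomial, map_one, one_mul, Finsupp.prod_fintype _ _ (fun _ => pow_zero _),
    Fintype.prod_option]
  rfl

end

/-- The coefficients of the images of monomials under `lin N`. -/
noncomputable def linK (N : MT p) (d e : V →₀ ℕ) : ZMod p :=
  coeff e (lin N (monomial d (1 : ZMod p)))

theorem Lin1_prod {A : Type*} [CommRing A] {ι : Type*} (s : Finset ι) (n : ι → ℕ)
    (u : ι → MvPowerSeries V A) (h : ∀ i ∈ s, IsHom (n i) (u i)) :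
    IsHom (∑ i ∈ s, n i) (∏ i ∈ s, u i) := by
  classical
  induction s using Finset.induction_on with
  | empty =>
    rw [Finset.sum_empty, Finset.prod_empty]
    exact IsHom.one
  | insert a s ha ih =>
    rw [Finset.sum_insert ha, Finset.prod_insert ha]
    exact (h a (Finset.mem_insert_self a s)).mul
      (ih fun i hi => h i (Finset.mem_insert_of_mem hi))

/-- The image of the monomial `d` is divisible by `s ^ d none` and homogeneous of degree `dg d`
(`lin_monomial`). -/
theorem linK_ne (N : MT p) {d e : V →₀ ℕ} (h : linK N d e ≠ 0) :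
    dg d = dg e ∧ d none ≤ e none := by
  rw [linK, lin_monomial] at h
  refine ⟨?_, ?_⟩
  · have h1 : IsHom (dg d) (sX ^ d none * ∏ i : Fin 4,
        (∑ j : Fin 4, ev (N i j) * X (some j) : MvPowerSeries V (ZMod p)) ^ d (some i)) := by
      refine IsHom.sX_pow_mul ?_
      have h2 : dg d = ∑ i : Fin 4, d (some i) * (0 + 1) := by
        simp [dg]
      rw [h2]
      refine Lin1_prod _ _ _ fun i _ => IsHom.pow (IsHom.sum _ fun j _ => ?_) _
      exact (IsHom.ev _).mul (IsHom.X j)
    exact (h1 e h).symm
  · by_contra hlt
    exact h ((sX_pow_dvd_iff (d none) _).1 (dvd_mul_right _ _) e (by omega))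

section
variable {A : Type*} [CommRing A] [Algebra (ZMod p) A]

/-- By `lin_monomial` the image of the monomial is the image under `map (algebraMap (ZMod p) A)` of
the corresponding element over `ZMod p` (`map` sends `X v` to `X v` and `ev c` to `ev c`, the last
by `coeff_ev`). -/
theorem coeff_lin_monomial (N : MT p) (d e : V →₀ ℕ) :
    coeff e (lin N (monomial d (1 : A))) = algebraMap (ZMod p) A (linK N d e) := by
  have hev : ∀ c : PowerSeries (ZMod p), MvPowerSeries.map (algebraMap (ZMod p) A)
      (ev (A := ZMod p) c) = ev (A := A) c := by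
    intro c
    refine MvPowerSeries.ext fun e => ?_
    rw [coeff_map, coeff_ev, coeff_ev]
    split_ifs
    · rfl
    · rw [map_zero]
  have h : lin N (monomial d (1 : A)) =
      MvPowerSeries.map (algebraMap (ZMod p) A) (lin N (monomial d (1 : ZMod p))) := by
    rw [lin_monomial, lin_monomial, map_mul, map_pow, map_prod, sX, sX, map_X]
    congr 1
    refine Finset.prod_congr rfl fun i _ => ?_
    rw [map_pow, map_sum]
    congr 1
    refine Finset.sum_congr rfl fun j _ => ?_
    rw [map_mul, hev, map_X]
  rw [h, coeff_map, linK]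

/-- By `linK_ne` and `finite_dg`. -/
theorem linK_support (N : MT p) (e : V →₀ ℕ) : {d | linK N d e ≠ 0}.Finite := by
  refine (finite_dg (dg e) (e none + 1)).subset fun d hd => ?_
  obtain ⟨h1, h2⟩ := linK_ne N hd
  exact ⟨h1, by omega⟩

theorem coeff_lin_finite (N : MT p) (f : MvPowerSeries V A) (e : V →₀ ℕ) :
    (Function.support fun d => algebraMap (ZMod p) A (linK N d e) * coeff d f).Finite := by
  refine (linK_support N e).subset fun d hd => ?_
  intro h
  apply hd
  simp only
  rw [h, map_zero, zero_mul]

/-- The coefficients of `lin N f`. Proof: `MvPowerSeries.coeff_subst` and `coeff_lin_monomial`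
(`monomial d 1` is mapped to the product of powers of `lvec N`). -/
theorem coeff_lin (N : MT p) (f : MvPowerSeries V A) (e : V →₀ ℕ) :
    coeff e (lin N f) = ∑ᶠ d, algebraMap (ZMod p) A (linK N d e) * coeff d f := by
  rw [lin, substAlgHom_apply, coeff_subst (hasSubst_lvec N)]
  refine finsum_congr fun d => ?_
  rw [← coeff_lin_monomial, lin, substAlgHom_monomial, map_one, one_mul, smul_eq_mul, mul_comm]

end

end Pool.Agent.W_35cfd6_h24
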