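import Pool.Agent.W_35cfd6_h24.Rows

/-!
# Rows of products
-/

set_option autoImplicit false

namespace Pool.Agent.W_35cfd6_h24

open MvPowerSeries

variable {p : ℕ}

theorem RowMul_LL (a b : LL p) (M : ℤ) :
    (a * b).coeff M = ∑ᶠ m : ℤ, a.coeff m * b.coeff (M - m) := by
  classical
  rw [AddMonoidAlgebra.coeff_mul_apply_left,
    finsum_eq_finsetSum_of_support_subset (s := a.coeff.support)]
  · refine Finset.sum_congr rfl fun m _ => ?_
    rw [sub_eq_add_neg, add_comm M]
  · intro m hm
    rw [Function.mem_support] at hm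
    rw [Finset.mem_coe, Finsupp.mem_support_iff]
    intro h
    rw [h, zero_mul] at hm
    exact hm rfl

theorem RowMul_sum (M : ℤ) (u v : UU p) (e : V →₀ ℕ) (m : ℤ) :
    coeff e (row m u * row (M - m) v) =
      ∑ x ∈ Finset.HasAntidiagonal.antidiagonal e, co u x.1 m * co v x.2 (M - m) := by
  rw [coeff_mul]
  rfl

/-- Formula for the coefficients of a product in `UU p`. Proof: `coeff_mul` for power series, and
for the Laurent polynomial coefficients `AddMonoidAlgebra` multiplication: the coefficient of `T^M`
in `a * b` is the finite sum over `m` of `a_m b_(M-m)` (e.g. expand `a = ∑ a_m T^m` over the support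
and use the formula for the coefficient of `T^m a_m * b`). -/
theorem co_mul (u v : UU p) (e : V →₀ ℕ) (M : ℤ) :
    co (u * v) e M = ∑ x ∈ Finset.HasAntidiagonal.antidiagonal e, ∑ᶠ m : ℤ, co u x.1 m * co v x.2 (M - m) := by
  classical
  unfold co
  rw [coeff_mul, AddMonoidAlgebra.coeff_sum, Finsupp.finsetSum_apply]
  exact Finset.sum_congr rfl fun x _ => RowMul_LL _ _ M

/-- For fixed `e`, only finitely many `m` contribute to the coefficient of the product of rows: the
coefficient of `row m u * row (M - m) v` at `e` is the sum over the antidiagonal of `e` of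
`co u x.1 m * co v x.2 (M - m)`, and each `co u x.1` has finite support. -/
theorem coeff_row_mul_finite (M : ℤ) (u v : UU p) (e : V →₀ ℕ) :
    (Function.support fun m : ℤ => coeff e (row m u * row (M - m) v)).Finite := by
  classical
  refine ((Finset.HasAntidiagonal.antidiagonal e).biUnion
    fun x => (MvPowerSeries.coeff x.1 u).coeff.support).finite_toSet.subset fun m hm => ?_
  rw [Function.mem_support, RowMul_sum] at hm
  obtain ⟨x, hx, hx0⟩ := Finset.exists_ne_zero_of_sum_ne_zero hm
  rw [Finset.mem_coe, Finset.mem_biUnion]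
  refine ⟨x, hx, ?_⟩
  rw [Finsupp.mem_support_iff]
  intro h
  apply hx0
  have h1 : co u x.1 m = 0 := h
  rw [h1, zero_mul]

/-- The coefficient of a row of a product. Proof: `co_mul`, `coeff_mul` and interchange of the
finite sum over the antidiagonal with `finsum`. -/
theorem coeff_row_mul (M : ℤ) (u v : UU p) (e : V →₀ ℕ) :
    coeff e (row M (u * v)) = ∑ᶠ m : ℤ, coeff e (row m u * row (M - m) v) := by
  classical
  set S : Finset ℤ := (Finset.HasAntidiagonal.antidiagonal e).biUnion
    fun x => (MvPowerSeries.coeff x.1 u).coeff.support with hS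
  have hmem : ∀ x ∈ Finset.HasAntidiagonal.antidiagonal e, ∀ m, co u x.1 m ≠ 0 → m ∈ S := by
    intro x hx m hm
    rw [hS, Finset.mem_biUnion]
    exact ⟨x, hx, Finsupp.mem_support_iff.mpr hm⟩
  rw [coeff_row, co_mul, finsum_eq_finsetSum_of_support_subset (s := S)]
  · simp only [RowMul_sum]
    rw [Finset.sum_comm]
    refine Finset.sum_congr rfl fun x hx => ?_
    refine finsum_eq_finsetSum_of_support_subset _ fun m hm => ?_
    rw [Function.mem_support] at hm
    exact hmem x hx m (left_ne_zero_of_mul hm)
  · intro m hm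
    rw [Function.mem_support, RowMul_sum] at hm
    obtain ⟨x, hx, hx0⟩ := Finset.exists_ne_zero_of_sum_ne_zero hm
    exact hmem x hx m (left_ne_zero_of_mul hx0)

/-- Multiplication by a power series without `T`. Proof: `coeff_row_mul`, or directly:
`coeff e (iota f * u)` is the sum over the antidiagonal of `algebraMap (coeff x.1 f) * coeff x.2 u`
and the coefficient of `T^m` in `algebraMap c * a` is `c * a_m`. -/
theorem row_iota_mul (f : FF p) (u : UU p) (m : ℤ) : row m (iota f * u) = f * row m u := by
  classical
  ext e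
  rw [coeff_row, coeff_mul]
  unfold co
  rw [coeff_mul, AddMonoidAlgebra.coeff_sum, Finsupp.finsetSum_apply]
  refine Finset.sum_congr rfl fun x _ => ?_
  rw [iota, coeff_map, ← Algebra.smul_def, AddMonoidAlgebra.coeff_smul_apply, smul_eq_mul]
  rfl

theorem iota_sX : iota (sX : FF p) = sX := by
  unfold iota sX
  exact MvPowerSeries.map_X _ _

theorem row_sX_pow_mul (K : ℕ) (u : UU p) (m : ℤ) :
    row m (sX ^ K * u) = sX ^ K * row m u := by
  rw [← row_iota_mul, map_pow, iota_sX]

/-- The rows of `iota f`. -/
theorem row_iota (f : FF p) (m : ℤ) : row m (iota f) = if m = 0 then f else 0 := by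
  have h := row_iota_mul f (1 : UU p) m
  rw [mul_one, row_one] at h
  rw [h]
  split_ifs
  · rw [mul_one]
  · rw [mul_zero]

/-- Multiplication by a monomial: `row M (mono e m * u) = x^e row (M - m) u`. -/
theorem row_mono_mul (e : V →₀ ℕ) (m M : ℤ) (u : UU p) :
    row M (mono e m * u) = monomial e 1 * row (M - m) u := by
  classical
  ext e'
  rw [coeff_row, coeff_monomial_mul]
  unfold co mono
  rw [coeff_monomial_mul]
  split_ifs
  · rw [AddMonoidAlgebra.coeff_single_mul_apply, coeff_row, neg_add_eq_sub]
    rfl
  · rfl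

theorem mono_mul_mono (e e' : V →₀ ℕ) (m m' : ℤ) :
    (mono e m * mono e' m' : UU p) = mono (e + e') (m + m') := by
  unfold mono
  rw [monomial_mul_monomial, AddMonoidAlgebra.single_mul_single, mul_one]

theorem mono_pow (e : V →₀ ℕ) (m : ℤ) (n : ℕ) :
    (mono e m : UU p) ^ n = mono (n • e) (n * m) := by
  induction n with
  | zero =>
    rw [pow_zero, zero_smul, Nat.cast_zero, zero_mul]
    rfl
  | succ n ih =>
    rw [pow_succ, ih, mono_mul_mono, add_smul, one_smul, Nat.cast_add, Nat.cast_one, add_mul,
      one_mul]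

end Pool.Agent.W_35cfd6_h24
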