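import Pool.Agent.W_35cfd6_h24.Lin1
import Pool.Agent.W_35cfd6_h24.RowMul

/-!
# Linear substitutions, II: components, rows, composition
-/

set_option autoImplicit false

namespace Pool.Agent.W_35cfd6_h24

open MvPowerSeries

variable {p : ℕ}

section
variable {A : Type*} [CommRing A] [Algebra (ZMod p) A]

/-- By `coeff_lin` and `linK_ne`. -/
theorem lin_cmp (N : MT p) (n : ℕ) (f : MvPowerSeries V A) :
    lin N (cmp n f) = cmp n (lin N f) := by
  refine MvPowerSeries.ext fun e => ?_
  rw [coeff_cmp, coeff_lin, coeff_lin]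
  split_ifs with h
  · refine finsum_congr fun d => ?_
    by_cases h1 : linK N d e = 0
    · rw [h1, map_zero, zero_mul, zero_mul]
    · rw [coeff_cmp, if_pos ((linK_ne N h1).1.trans h)]
  · refine (finsum_congr fun d => ?_).trans finsum_zero
    by_cases h1 : linK N d e = 0
    · rw [h1, map_zero, zero_mul]
    · rw [coeff_cmp, if_neg fun h2 => h ((linK_ne N h1).1.symm.trans h2), mul_zero]

theorem IsHom.lin (N : MT p) {n : ℕ} {f : MvPowerSeries V A} (hf : IsHom n f) :
    IsHom n (Pool.Agent.W_35cfd6_h24.lin N f) := by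
  rw [← hf.cmp_self, lin_cmp]
  exact isHom_cmp n _

theorem lin_dvd (N : MT p) {K : ℕ} {f : MvPowerSeries V A} (h : sX ^ K ∣ f) :
    sX ^ K ∣ lin N f := by
  obtain ⟨g, rfl⟩ := h
  rw [map_mul, map_pow, lin_sX]
  exact dvd_mul_right _ _

/-- The composite of two linear substitutions. Proof: both sides are substitutions
(`MvPowerSeries.subst_comp_subst_apply`, `coe_substAlgHom`), so it suffices to compare the images of
the variables: `lin M (∑ j, ev (N i j) * X j) = ∑ j, ev (N i j) * ∑ k, ev (M j k) * X k`
(`lin M (ev c) = ev c`: `lin M` fixes `s`; use again composition of substitutions, or `coeff_lin`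
and the fact that `linK M d e` for `d = single none t` is `1` if `e = d` and `0` otherwise). -/
theorem lin_ev (M : MT p) (c : PowerSeries (ZMod p)) : lin M (ev (A := A) c) = ev c := by
  classical
  have hK : ∀ (t : ℕ) (e : V →₀ ℕ), linK M (Finsupp.single none t) e =
      if e = Finsupp.single none t then 1 else 0 := by
    intro t e
    rw [linK, lin_monomial, Finsupp.single_eq_same, Finset.prod_eq_one, mul_one, sX, coeff_X_pow]
    intro i _
    rw [Finsupp.single_eq_of_ne (by simp), pow_zero]
  refine MvPowerSeries.ext fun e => ?_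
  rw [coeff_lin, finsum_eq_single _ e]
  · rw [coeff_ev]
    split_ifs with h
    · have h1 : linK M e e = 1 := by
        have h2 := hK (e none) e
        rwa [← h, if_pos rfl] at h2
      rw [h1, map_one, one_mul]
    · rw [mul_zero]
  · intro d hd
    rw [coeff_ev]
    split_ifs with h
    · rw [h, hK, if_neg, map_zero, zero_mul]
      intro h1
      exact hd (h.trans h1.symm)
    · rw [mul_zero]

theorem lin_lin (M N : MT p) (f : MvPowerSeries V A) : lin M (lin N f) = lin (N * M) f := by
  have h1 : (fun v => lin M (lvec (A := A) N v)) = lvec (N * M) := by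
    funext v
    rcases v with _ | i
    · exact lin_sX M
    · change lin M (∑ j : Fin 4, ev (N i j) * X (some j)) =
        ∑ j : Fin 4, ev ((N * M) i j) * X (some j)
      rw [map_sum]
      simp only [map_mul, lin_ev, lin_X, Matrix.mul_apply, map_sum, Finset.mul_sum,
        Finset.sum_mul]
      rw [Finset.sum_comm]
      refine Finset.sum_congr rfl fun j _ => Finset.sum_congr rfl fun k _ => ?_
      ring
  have h2 : ∀ (K : MT p) (g : MvPowerSeries V A), lin K g = subst (lvec K) g := fun K g =>
    substAlgHom_apply (hasSubst_lvec K) g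
  rw [h2 M, h2 N, h2 (N * M), subst_comp_subst_apply (hasSubst_lvec N) (hasSubst_lvec M), ← h1]
  simp only [h2]

theorem lin_one (f : MvPowerSeries V A) : lin (1 : MT p) f = f := by
  classical
  have h1 : lvec (A := A) (1 : MT p) = X := by
    funext v
    rcases v with _ | i
    · rfl
    · change ∑ j : Fin 4, ev ((1 : MT p) i j) * X (some j) = X (some i)
      rw [Finset.sum_eq_single i]
      · rw [Matrix.one_apply_eq, map_one, one_mul]
      · intro j _ hj
        rw [Matrix.one_apply_ne hj.symm, map_zero, zero_mul]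
      · intro h
        exact absurd (Finset.mem_univ i) h
  have h2 : lin (1 : MT p) f = subst (lvec (1 : MT p)) f := substAlgHom_apply (hasSubst_lvec 1) f
  rw [h2, h1, subst_self]
  rfl

end

/-- The substitution acts on the rows. Proof: the coefficient of `T^m` of `coeff_lin`:
`algebraMap c * a` has coefficients `c * a_m`. -/
theorem row_lin (N : MT p) (m : ℤ) (u : UU p) : row m (lin N u) = lin N (row m u) := by
  classical
  refine MvPowerSeries.ext fun e => ?_
  have hsub : ∀ {B : Type} [CommRing B] [Algebra (ZMod p) B] (f : MvPowerSeries V B),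
      (Function.support fun d => algebraMap (ZMod p) B (linK N d e) * coeff d f) ⊆
      ((linK_support N e).toFinset : Set (V →₀ ℕ)) := by
    intro B _ _ f d hd
    rw [Set.Finite.coe_toFinset]
    intro h
    apply hd
    simp only
    rw [h, map_zero, zero_mul]
  rw [coeff_row, co, coeff_lin, coeff_lin, finsum_eq_finsetSum_of_support_subset _ (hsub u),
    finsum_eq_finsetSum_of_support_subset _ (hsub (row m u)), AddMonoidAlgebra.coeff_sum,
    Finsupp.finsetSum_apply]
  refine Finset.sum_congr rfl fun d _ => ?_
  rw [← Algebra.smul_def, AddMonoidAlgebra.coeff_smul_apply, smul_eq_mul]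
  rfl

theorem lin_iota (N : MT p) (f : FF p) : lin N (iota f) = iota (lin N f) := by
  refine ext_row fun m => ?_
  rw [row_lin, row_iota, row_iota]
  split_ifs
  · rfl
  · rw [map_zero]

theorem Lin2_mat (a b c d : PowerSeries (ZMod p)) (h1 : a ^ 2 - PowerSeries.X * b ^ 2 = 1)
    (h2 : c ^ 2 - PowerSeries.X * d ^ 2 = 1) :
    (!![a, b, 0, 0; PowerSeries.X * b, a, 0, 0; 0, 0, c, d; 0, 0, PowerSeries.X * d, c] : MT p) *
      !![a, -b, 0, 0; PowerSeries.X * -b, a, 0, 0; 0, 0, c, -d; 0, 0, PowerSeries.X * -d, c] =
      1 := by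
  refine Matrix.ext fun i j => ?_
  fin_cases i <;> fin_cases j <;>
    simp [Matrix.mul_apply, Fin.sum_univ_four] <;>
    first | linear_combination h1 | linear_combination h2 | ring

theorem mat_mul_inv (P : Par p) : P.mat * P.inv.mat = 1 := by
  exact Lin2_mat P.a P.b P.c P.d P.hab P.hcd

theorem mat_inv_mul (P : Par p) : P.inv.mat * P.mat = 1 := by
  exact mul_eq_one_comm.mp (mat_mul_inv P)

end Pool.Agent.W_35cfd6_h24
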