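import Pool.Agent.W_35cfd6_h24.K7
import Pool.Agent.W_35cfd6_h24.Norm2
import Pool.Agent.W_35cfd6_h24.ExF
import Pool.Agent.W_35cfd6_h24.Approx
import Pool.Agent.W_35cfd6_h24.Fin1

/-!
# The counterexample: assembly
-/

set_option autoImplicit false

namespace Pool.Agent.W_35cfd6_h24

open IsLocalRing MvPowerSeries Pool.Agent.W_MP_35cfd6_ag

/-- The counterexample: for every odd prime `p` there is a complete local `F`-finite normal domain
`R` of characteristic `p` such that for every pair `I < J` of ideals primary to the maximal ideal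
the normalised free rank of `F^e_* R` differs for some `e` from
`(HK_I(e) - HK_J(e)) / ℓ(J / I)`. -/
theorem main (p : ℕ) [Fact p.Prime] (hp : p ≠ 2) :
    ∃ (R : Type) (_ : CommRing R) (_ : IsDomain R) (_ : IsLocalRing R) (_ : IsNoetherianRing R)
      (_ : IsIntegrallyClosed R) (_ : CharP R p),
      IsAdicComplete (maximalIdeal R) R ∧ (frobenius R p).Finite ∧
      ∀ I J : Ideal R, I < J → I.radical = maximalIdeal R → J.radical = maximalIdeal R →
        ∃ e : ℕ, (freeRank R (FPush p e R) : ℚ) /
            (Module.finrank (ResidueField R) (FPush p e (ResidueField R)) : ℚ) ≠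
          ((HK p I e : ℚ) - (HK p J e : ℚ)) / (lengthBetween I J : ℚ) := by
  obtain ⟨P, hP⟩ := exists_good hp
  have h1 := isDomain_RR P
  have h2 := isLocalRing_RR P
  have h3 := isNoetherianRing_RR P
  have h4 := isIntegrallyClosed_RR P
  have h5 := charP_RR P
  have hF := frobenius_finite_RR P
  refine ⟨RR P, inferInstance, h1, h2, h3, h4, h5, isAdicComplete_RR P, hF, ?_⟩
  refine abstract_main (s := sR P) ?_ hF ?_ ?_
  · rw [mem_maximalIdeal_RR]
    change co (sX : UU p) 0 0 = 0
    exact (sX_pow_dvd_iff_co 1 (sX : UU p)).1 (by rw [pow_one]) 0 0 (by simp)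
  · intro j
    obtain ⟨e, he, F, hF, hG, hk⟩ := exists_F hp hP j
    exact ⟨e, he, fun I hI u hu => claimA_aux P hF hG hk I hI u hu⟩
  · intro e _ φ x hx
    rw [mem_maximalIdeal_RR] at hx ⊢
    let φ' : RR P →+ RR P :=
      { toFun := fun f => φ (show FPush p e (RR P) from f)
        map_zero' := φ.map_zero
        map_add' := fun a b => φ.map_add _ _ }
    refine claimB hp hP e φ' (fun r f => ?_) hx
    have h := φ.map_smul r (show FPush p e (RR P) from f)
    rw [fpush_smul] at h
    exact h

end Pool.Agent.W_35cfd6_h24
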