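import Pool.Agent.W_35cfd6_h24.Th1
import Pool.Agent.W_35cfd6_h24.HahnC

/-!
# Normality, I: supports of the elements of `RR P`
-/

set_option autoImplicit false

namespace Pool.Agent.W_35cfd6_h24

open MvPowerSeries

variable {p : ℕ}

theorem Norm1_up (P : Par p) {E M : ℤ} {a b g : FF p}
    (h1 : sX ^ (-E).toNat * a = sX ^ E.toNat * g)
    (h2 : sX ^ (-M).toNat * b = sX ^ M.toNat * GG P a) :
    sX ^ (-(E + M)).toNat * b = sX ^ (E + M).toNat * GG P g := by
  obtain ⟨k, hk⟩ : ∃ k : ℕ, (-E).toNat + (-M).toNat = k + (-(E + M)).toNat :=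
    ⟨(-E).toNat + (-M).toNat - (-(E + M)).toNat, by omega⟩
  have hk' : E.toNat + M.toNat = k + (E + M).toNat := by omega
  have h3 : sX ^ (-E).toNat * GG P a = sX ^ E.toNat * GG P g := by
    have h4 := congrArg (GG P) h1
    rwa [map_mul, map_mul, map_pow, map_pow, GG_sX] at h4
  refine sX_pow_mul_cancel (K := k) ?_
  calc sX ^ k * (sX ^ (-(E + M)).toNat * b)
      = sX ^ (k + (-(E + M)).toNat) * b := by rw [pow_add]; ring
    _ = sX ^ (-E).toNat * (sX ^ (-M).toNat * b) := by rw [← hk, pow_add]; ring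
    _ = sX ^ M.toNat * (sX ^ (-E).toNat * GG P a) := by rw [h2]; ring
    _ = sX ^ (E.toNat + M.toNat) * GG P g := by rw [h3, pow_add]; ring
    _ = sX ^ k * (sX ^ (E + M).toNat * GG P g) := by rw [hk', pow_add]; ring

theorem Norm1_down (P : Par p) {E M : ℤ} {a b g : FF p}
    (h1 : sX ^ (-(E + M)).toNat * b = sX ^ (E + M).toNat * GG P g)
    (h2 : sX ^ (-M).toNat * b = sX ^ M.toNat * GG P a) :
    sX ^ (-E).toNat * a = sX ^ E.toNat * g := by
  obtain ⟨k, hk⟩ : ∃ k : ℕ, (-(E + M)).toNat + M.toNat = k + (-E).toNat :=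
    ⟨(-(E + M)).toNat + M.toNat - (-E).toNat, by omega⟩
  have hk' : (E + M).toNat + (-M).toNat = k + E.toNat := by omega
  apply GG_injective P
  rw [map_mul, map_mul, map_pow, map_pow, GG_sX]
  refine sX_pow_mul_cancel (K := k) ?_
  calc sX ^ k * (sX ^ (-E).toNat * GG P a)
      = sX ^ (k + (-E).toNat) * GG P a := by rw [pow_add]; ring
    _ = sX ^ (-(E + M)).toNat * (sX ^ M.toNat * GG P a) := by rw [← hk, pow_add]; ring
    _ = sX ^ (-M).toNat * (sX ^ (-(E + M)).toNat * b) := by rw [← h2]; ring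
    _ = sX ^ ((E + M).toNat + (-M).toNat) * GG P g := by rw [h1, pow_add]; ring
    _ = sX ^ k * (sX ^ E.toNat * GG P g) := by rw [hk', pow_add]; ring

/-- Iteration of the functional equation for arbitrary `m`. Induction on `j` in both directions.
Let `E = eE n m j`, `M = m + 3 n j`, `E' = eE n m (j + 1) = E + M` (`eE_succ`). From
`s^(E⁻) r_j = s^(E⁺) G^j r_0` and `s^(M⁻) r_(j+1) = s^(M⁺) G r_j` (`mem_RR_iff_hom`, with
`r_j = row (m + 3 n j) u`) one gets `s^(E⁻ + M⁻) r_(j+1) = s^(E⁺ + M⁺) G^(j+1) r_0`; the natural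
number `E⁻ + M⁻ - E'⁻ = E⁺ + M⁺ - E'⁺ ≥ 0` can be cancelled. Downwards: from the equation for
`j + 1` and `s^(M⁻) r_(j+1) = s^(M⁺) G r_j` one gets
`s^(E'⁻ + M⁺) G r_j = s^(E'⁺ + M⁻) G^(j+1) r_0`, cancel
`E'⁻ + M⁺ - E⁻ = E'⁺ + M⁻ - E⁺ ≥ 0` and apply `G⁻¹`. -/
theorem RR_row_iter' (P : Par p) {n : ℕ} {u : UU p} (hu : u ∈ RR P) (h : IsHom n u) (m j : ℤ) :
    sX ^ (-eE n m j).toNat * row (m + 3 * n * j) u =
      sX ^ (eE n m j).toNat * (GE P ^ j) (row m u) := by
  have hFE : ∀ j : ℤ, sX ^ (-(m + 3 * n * j)).toNat * row (m + 3 * n * (j + 1)) u =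
      sX ^ (m + 3 * n * j).toNat * GG P (row (m + 3 * n * j) u) := by
    intro j
    have h1 := (mem_RR_iff_hom P h).1 hu (m + 3 * n * j)
    have h2 : m + 3 * n * (j + 1) = m + 3 * n * j + 3 * n := by ring
    rw [h2]
    exact h1
  induction j using Int.induction_on with
  | zero =>
    rw [eE_zero, mul_zero, add_zero, neg_zero, GE_zpow_zero]
  | succ i ih =>
    rw [eE_succ, GE_zpow_succ]
    exact Norm1_up P ih (hFE i)
  | pred i ih =>
    have h1 : (-(i : ℤ)) = -(i : ℤ) - 1 + 1 := by ring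
    rw [h1, eE_succ, GE_zpow_succ] at ih
    exact Norm1_down P ih (hFE _)

/-- The exponents of elements of `RR P` are in the cone. Let `co u e m ≠ 0`, `n = dg e`; replace `u`
by `cmp n u`. For `j : ℤ` let `E = eE n m (-j) = -(j m) + 3 n (j (j + 1) / 2)`. If `E ≥ 0` the
inequality `-E ≤ e none` is trivial. If `E < 0` then by `RR_row_iter'` `s^(-E)` divides
`(GE P ^ (-j)) (row m u)`, hence `row m u` (`GE_zpow_dvd_iff`), so `-E ≤ e none` by
`sX_pow_dvd_iff`. Conclude by `code_mem_CC`. -/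
theorem RR_support (P : Par p) {u : UU p} (hu : u ∈ RR P) {e : V →₀ ℕ} {m : ℤ}
    (h : co u e m ≠ 0) : code e m ∈ CC := by
  rw [code_mem_CC]
  intro j
  have h1 := RR_row_iter' P (RR_cmp hu (dg e)) (isHom_cmp (dg e) u) m (-j)
  have hE : eE (dg e) m (-j) = -(j * m - 3 * dg e * (j * (j + 1) / 2)) := by
    rw [eE]
    have h2 : (-j) * (-j - 1) = j * (j + 1) := by ring
    rw [h2]
    ring
  rw [hE, neg_neg] at h1
  by_contra hlt
  push Not at hlt
  have hpos : 0 < j * m - 3 * dg e * (j * (j + 1) / 2) := lt_of_le_of_lt (Int.natCast_nonneg _) hlt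
  have h3 : (-(j * m - 3 * dg e * (j * (j + 1) / 2))).toNat = 0 := by omega
  rw [h3, pow_zero, one_mul] at h1
  have h4 : sX ^ (j * m - 3 * dg e * (j * (j + 1) / 2)).toNat ∣ row m (cmp (dg e) u) := by
    rw [← GE_zpow_dvd_iff P (-j), ← h1]
    exact dvd_mul_right _ _
  rw [sX_pow_dvd_iff] at h4
  have h5 := h4 e (by omega)
  rw [coeff_row, co, coeff_cmp, if_pos rfl] at h5
  exact h h5

/-- `G` does not change the `x`-degree nor `m`, and does not decrease the `s`-exponent
(`row_GG`, `coeff_lin`, `linK_ne`), and `CC` is closed under increasing `e none`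
(`code_mem_CC`). -/
theorem GG_support (P : Par p) {Y : UU p} (h : ∀ e m, co Y e m ≠ 0 → code e m ∈ CC)
    {e : V →₀ ℕ} {m : ℤ} (he : co (GG P Y) e m ≠ 0) : code e m ∈ CC := by
  rw [← coeff_row, row_GG, GG, coeff_lin] at he
  obtain ⟨d, hd⟩ : ∃ d, algebraMap (ZMod p) (ZMod p) (linK P.mat d e) * coeff d (row m Y) ≠ 0 := by
    by_contra! h'
    exact he (finsum_eq_zero_of_forall_eq_zero h')
  have h1 : linK P.mat d e ≠ 0 := by
    intro h2
    rw [h2, map_zero, zero_mul] at hd
    exact hd rfl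
  have h2 : co Y d m ≠ 0 := by
    intro h3
    rw [coeff_row, h3, mul_zero] at hd
    exact hd rfl
  obtain ⟨h3, h4⟩ := linK_ne _ h1
  have h5 := (code_mem_CC d m).1 (h d m h2)
  rw [code_mem_CC]
  intro j
  rw [← h3]
  exact (h5 j).trans (by exact_mod_cast h4)

/-- The exponent with the `s`-exponent decreased by `m`. -/
noncomputable def Norm1_sh (e : V →₀ ℕ) (m : ℤ) : V →₀ ℕ :=
  Finsupp.equivFunOnFinite.symm fun v => v.elim ((e none : ℤ) - m).toNat fun j => e (some j)

theorem Norm1_sh_none (e : V →₀ ℕ) (m : ℤ) : Norm1_sh e m none = ((e none : ℤ) - m).toNat := rfl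

theorem Norm1_sh_dg (e : V →₀ ℕ) (m : ℤ) : dg (Norm1_sh e m) = dg e := rfl

theorem Norm1_sh_sub (e : V →₀ ℕ) {m : ℤ} (h0 : 0 ≤ m) :
    e - Finsupp.single none m.toNat = Norm1_sh e m := by
  classical
  refine Finsupp.ext fun v => ?_
  rw [Finsupp.tsub_apply]
  cases v with
  | none =>
    rw [Finsupp.single_eq_same, Norm1_sh_none]
    omega
  | some j =>
    rw [Finsupp.single_eq_of_ne (by simp), Nat.sub_zero]
    rfl

theorem Norm1_sh_back (e : V →₀ ℕ) {m : ℤ} (h1 : (-m).toNat ≤ e none) (h0 : m ≤ 0) :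
    Norm1_sh (e - Finsupp.single none (-m).toNat) m = e := by
  classical
  refine Finsupp.ext fun v => ?_
  cases v with
  | none =>
    rw [Norm1_sh_none, Finsupp.tsub_apply, Finsupp.single_eq_same]
    omega
  | some j =>
    change ((e - Finsupp.single none (-m).toNat : V →₀ ℕ)) (some j) = e (some j)
    rw [Finsupp.tsub_apply, Finsupp.single_eq_of_ne (by simp), Nat.sub_zero]

/-- `a(T) = b(s T)` exists if the support of `b` is in the cone. The coefficient of `a` at `(e, m)`
is `co b e' m` where `e'` is `e` with `e none` replaced by `e none - m` if `e none - m ≥ 0`, and `0`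
otherwise. For given `e` there are finitely many `m` with nonzero coefficient: with
`l = e none - m ≥ 0`, `n = dg e`, `code_mem_CC` gives for `j = 1` that `m - 3 n ≤ l = e none - m`
and for `j = -2` that `-2 m - 3 n ≤ l = e none - m`, so `-(e none) - 3 n ≤ m` and
`2 m ≤ e none + 3 n`. The relation `s^(m⁻) a_m = s^(m⁺) b_m` holds by construction for `m ≥ 0`, and
for `m < 0` it needs that `s^(-m)` divides `b_m`, i.e. `-m ≤ e none` on the support of `b`, which is
`code_mem_CC` for `j = -1`. -/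
theorem exists_shift {b : UU p} (hb : ∀ e m, co b e m ≠ 0 → code e m ∈ CC) :
    ∃ a : UU p, (a, b) ∈ PPring p := by
  classical
  have hf : ∀ e : V →₀ ℕ, (Function.support fun m : ℤ =>
      if m ≤ e none then co b (Norm1_sh e m) m else 0).Finite := by
    intro e
    refine (Set.finite_Icc (-(e none : ℤ) - 3 * dg e) (e none)).subset fun m hm => ?_
    rw [Function.mem_support] at hm
    by_cases h1 : m ≤ e none
    · rw [if_pos h1] at hm
      have h2 := (code_mem_CC _ _).1 (hb _ _ hm) (-2)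
      rw [Norm1_sh_none, Norm1_sh_dg] at h2
      have h3 : ((-2 : ℤ) * (-2 + 1) / 2) = 1 := by norm_num
      rw [h3] at h2
      have h4 : (((e none : ℤ) - m).toNat : ℤ) = e none - m := by omega
      rw [h4] at h2
      exact ⟨by linarith, h1⟩
    · rw [if_neg h1] at hm
      exact absurd rfl hm
  refine ⟨mkU _ hf, mem_PPring.2 fun m => ?_⟩
  refine MvPowerSeries.ext fun e => ?_
  rw [coeff_sX_pow_mul, coeff_sX_pow_mul, coeff_row, coeff_row]
  simp only [co_mkU]
  rcases le_total 0 m with hm | hm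
  · have h1 : (-m).toNat = 0 := by omega
    rw [h1, if_pos (Nat.zero_le _), Finsupp.single_zero, tsub_zero, Norm1_sh_sub e hm]
    by_cases h2 : m ≤ e none
    · rw [if_pos h2, if_pos (by omega)]
    · rw [if_neg h2, if_neg (by omega)]
  · have h1 : m.toNat = 0 := by omega
    rw [h1, if_pos (Nat.zero_le (e none)), Finsupp.single_zero, tsub_zero]
    by_cases h2 : (-m).toNat ≤ e none
    · rw [if_pos h2, Norm1_sh_back e h2 hm, if_pos]
      exact hm.trans (Int.natCast_nonneg _)
    · rw [if_neg h2]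
      by_contra h3
      have h4 := (code_mem_CC _ _).1 (hb e m (Ne.symm h3)) (-1)
      have h5 : ((-1 : ℤ) * (-1 + 1) / 2) = 0 := by norm_num
      rw [h5] at h4
      omega

theorem Dsub_injective (p : ℕ) : Function.Injective (Dsub : UU p →+* UU p) := by
  intro u v h
  refine ext_co fun e m => ?_
  have h1 := congrArg (fun w => co w e (m - 3 * dg e)) h
  simp only [co_Dsub, sub_add_cancel] at h1
  exact h1

/-- Division in `RR P`. With `b = G Y` (support in the cone by `GG_support`) let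
`(a, G Y) ∈ PPring p` (`exists_shift`). Then `(a * Dsub h, G Y * G h) ∈ PPring p` and
`(Dsub f, G f) ∈ PPring p` have the same second component, so `a * Dsub h = Dsub f = Dsub h * Dsub Y`
(`PP_fst_unique`), so `a = Dsub Y` (`UU p` is a domain, `Dsub h ≠ 0`), and
`(Dsub Y, G Y) ∈ PPring p`. -/
theorem RR_div [Fact p.Prime] (P : Par p) {f h Y : UU p} (hf : f ∈ RR P) (hh : h ∈ RR P)
    (h0 : h ≠ 0) (hY : f = h * Y) (hs : ∀ e m, co Y e m ≠ 0 → code e m ∈ CC) : Y ∈ RR P := by
  obtain ⟨a, ha⟩ := exists_shift (b := GG P Y) fun e m he => GG_support P hs he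
  have h1 := mul_mem ha ((mem_RR_iff_PP P h).1 hh)
  have h2 := (mem_RR_iff_PP P f).1 hf
  have h3 : (a, GG P Y) * (Dsub h, GG P h) = (a * Dsub h, GG P f) := by
    rw [Prod.mk_mul_mk, hY, map_mul, mul_comm (GG P h)]
  rw [h3] at h1
  have h4 := PP_fst_unique h1 h2
  have h5 : Dsub h ≠ 0 := by
    intro h6
    exact h0 (Dsub_injective p (h6.trans (map_zero _).symm))
  have h6 : a = Dsub Y := by
    apply mul_right_cancel₀ h5
    rw [h4, hY, map_mul, mul_comm]
  rw [mem_RR_iff_PP, ← h6]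
  exact ha

end Pool.Agent.W_35cfd6_h24
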