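import Pool.Agent.W_35cfd6_h24.RowMul
import Pool.Agent.W_35cfd6_h24.Dvd

/-!
# The ring of pairs `(a, b)` with `a(T) = b(s T)`
-/

set_option autoImplicit false

namespace Pool.Agent.W_35cfd6_h24

open MvPowerSeries

variable {p : ℕ}

theorem PP_coeff (K : ℕ) (M : ℤ) (u v : UU p) (e : V →₀ ℕ) :
    coeff e (sX ^ K * row M (u * v)) =
      ∑ᶠ m : ℤ, coeff e (sX ^ K * (row m u * row (M - m) v)) := by
  rw [coeff_sX_pow_mul]
  split_ifs with h
  · rw [coeff_row_mul]
    refine finsum_congr fun m => ?_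
    rw [coeff_sX_pow_mul, if_pos h]
  · symm
    rw [← finsum_zero (α := ℤ)]
    refine finsum_congr fun m => ?_
    rw [coeff_sX_pow_mul, if_neg h]

theorem PP_term {a b a' b' : FF p} {m n M : ℤ} (hM : m + n = M)
    (h : sX ^ (-m).toNat * a = sX ^ m.toNat * b)
    (h' : sX ^ (-n).toNat * a' = sX ^ n.toNat * b') :
    sX ^ (-M).toNat * (a * a') = sX ^ M.toNat * (b * b') := by
  obtain ⟨k, hk⟩ : ∃ k : ℕ, (-m).toNat + (-n).toNat = k + (-M).toNat :=
    ⟨(-m).toNat + (-n).toNat - (-M).toNat, by omega⟩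
  have hk' : m.toNat + n.toNat = k + M.toNat := by omega
  refine sX_pow_mul_cancel (K := k) ?_
  calc sX ^ k * (sX ^ (-M).toNat * (a * a'))
      = sX ^ (k + (-M).toNat) * (a * a') := by rw [pow_add]; ring
    _ = (sX ^ (-m).toNat * a) * (sX ^ (-n).toNat * a') := by rw [← hk, pow_add]; ring
    _ = (sX ^ m.toNat * b) * (sX ^ n.toNat * b') := by rw [h, h']
    _ = sX ^ (k + M.toNat) * (b * b') := by rw [← hk', pow_add]; ring
    _ = sX ^ k * (sX ^ M.toNat * (b * b')) := by rw [pow_add]; ring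

/-- `PPset` is closed under multiplication. Proof: let `(a, b), (a', b')` be in `PPset` and `M : ℤ`.
For every `m : ℤ` one has
`s^(m⁻) a_m = s^(m⁺) b_m` and `s^((M-m)⁻) a'_(M-m) = s^((M-m)⁺) b'_(M-m)` (with `m⁻ = (-m).toNat`,
`m⁺ = m.toNat`), so `s^(m⁻ + (M-m)⁻) (a_m a'_(M-m)) = s^(m⁺ + (M-m)⁺) (b_m b'_(M-m))`. As
`m⁺ - m⁻ = m`, the natural number `k = m⁻ + (M-m)⁻ - M⁻` (it is `≥ 0`) is also
`m⁺ + (M-m)⁺ - M⁺`; cancel `s^k` (`sX_pow_mul_cancel`):
`s^(M⁻) (a_m a'_(M-m)) = s^(M⁺) (b_m b'_(M-m))`. Now compare coefficients at `e` with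
`coeff_sX_pow_mul` and `coeff_row_mul`, and take `finsum` over `m` (termwise equality). -/
theorem PP_mul {z w : UU p × UU p} (hz : z ∈ PPset p) (hw : w ∈ PPset p) : z * w ∈ PPset p := by
  intro M
  refine MvPowerSeries.ext fun e => ?_
  rw [Prod.fst_mul, Prod.snd_mul, PP_coeff, PP_coeff]
  refine finsum_congr fun m => ?_
  rw [PP_term (by ring : m + (M - m) = M) (hz m) (hw (M - m))]

theorem PP_one : (1 : UU p × UU p) ∈ PPset p := by
  intro M
  rw [Prod.fst_one, Prod.snd_one, row_one]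
  split_ifs with h
  · rw [h]
    rfl
  · rw [mul_zero, mul_zero]

theorem PP_add {z w : UU p × UU p} (hz : z ∈ PPset p) (hw : w ∈ PPset p) : z + w ∈ PPset p := by
  intro M
  rw [Prod.fst_add, Prod.snd_add, row_add, row_add, mul_add, mul_add, hz M, hw M]

theorem PP_zero : (0 : UU p × UU p) ∈ PPset p := by
  intro M
  rw [Prod.fst_zero, Prod.snd_zero, row_zero, mul_zero, mul_zero]

theorem PP_neg {z : UU p × UU p} (hz : z ∈ PPset p) : -z ∈ PPset p := by
  intro M
  rw [Prod.fst_neg, Prod.snd_neg, row_neg, row_neg, mul_neg, mul_neg, hz M]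

/-- The ring of pairs `(a, b)` with `a(T) = b(s T)`. -/
noncomputable def PPring (p : ℕ) : Subring (UU p × UU p) where
  carrier := PPset p
  mul_mem' := PP_mul
  one_mem' := PP_one
  add_mem' := PP_add
  zero_mem' := PP_zero
  neg_mem' := PP_neg

theorem mem_PPring {z : UU p × UU p} : z ∈ PPring p ↔
    ∀ m : ℤ, sX ^ (-m).toNat * row m z.1 = sX ^ m.toNat * row m z.2 := Iff.rfl

/-- The second component determines the first. -/
theorem PP_fst_unique {a a' b : UU p} (h : (a, b) ∈ PPring p) (h' : (a', b) ∈ PPring p) :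
    a = a' := by
  refine ext_row fun m => sX_pow_mul_cancel (K := (-m).toNat) ?_
  have h1 := mem_PPring.1 h m
  have h2 := mem_PPring.1 h' m
  exact h1.trans h2.symm

end Pool.Agent.W_35cfd6_h24
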