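import Pool.Agent.W_35cfd6_h24.Gen3

/-!
# The surjection from a power series ring onto `RR P`
-/

set_option autoImplicit false

namespace Pool.Agent.W_35cfd6_h24

open MvPowerSeries

variable {p : ℕ}

/-- The variables of the power series ring that surjects onto `RR P`. -/
abbrev W := Option (Fin 3 × Fin 4)

/-- The images of the variables: `s` and the generators of degree one. -/
noncomputable def genv (P : Par p) (w : W) : UU p := w.elim sX (gens P)

theorem hasSubst_genv (P : Par p) : HasSubst (genv P) := by
  refine hasSubst_of_constantCoeff_zero fun w => ?_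
  rcases w with _ | w
  · simp [genv]
  · change constantCoeff (gens P w) = 0
    rw [← coeff_zero_eq_constantCoeff_apply]
    by_contra h
    have := gens_hom P w 0 h
    rw [dg_zero] at this
    omega

/-- The substitution `k[[Y]] → UU p`, `Y_w ↦ genv P w`. -/
noncomputable def piU (P : Par p) : MvPowerSeries W (ZMod p) →ₐ[ZMod p] UU p :=
  substAlgHom (hasSubst_genv P)

/-- The value of a monomial: `s^(d none)` times a product of `∑ d (some _)` generators, which is
homogeneous of that degree. -/
theorem piU_monomial (P : Par p) (d : W →₀ ℕ) :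
    piU P (monomial d 1) = ∏ w : W, genv P w ^ d w := by
  unfold piU
  rw [substAlgHom_monomial, map_one, one_mul, Finsupp.prod_fintype]
  intro w
  exact pow_zero _

/-- A coefficient of `piU P f` is the finite sum (over all `d` of total degree at most the total
degree of `e`) of the coefficients of `f` times those of the monomials in the generators: each
`genv P w` has zero constant coefficient. (`MvPowerSeries.coeff_subst`.) -/
theorem coeff_piU (P : Par p) (f : MvPowerSeries W (ZMod p)) (e : V →₀ ℕ) :
    coeff e (piU P f) =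
      ∑ᶠ d : W →₀ ℕ, algebraMap (ZMod p) (LL p) (coeff d f) * coeff e (piU P (monomial d 1)) := by
  have h1 : piU P f = subst (genv P) f := by
    unfold piU
    rw [coe_substAlgHom]
  rw [h1, coeff_subst (hasSubst_genv P)]
  refine finsum_congr fun d => ?_
  rw [Algebra.smul_def]
  congr 2
  unfold piU
  rw [substAlgHom_monomial, map_one, one_mul]

/-- The product of the generators. -/
theorem Pi1_prod_hom (P : Par p) (a : Fin 3 × Fin 4 → ℕ) (s : Finset (Fin 3 × Fin 4)) :
    IsHom (∑ w ∈ s, a w) (∏ w ∈ s, gens P w ^ a w) := by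
  classical
  induction s using Finset.induction_on with
  | empty =>
    rw [Finset.sum_empty, Finset.prod_empty]
    exact IsHom.one
  | insert w s hw ih =>
    rw [Finset.sum_insert hw, Finset.prod_insert hw]
    refine IsHom.mul ?_ ih
    have h1 := (gens_hom P w).pow (a w)
    rwa [Nat.mul_one] at h1

theorem Pi1_monomial (P : Par p) (d : W →₀ ℕ) :
    piU P (monomial d 1) = MvPowerSeries.X none ^ d none *
      ∏ w : Fin 3 × Fin 4, gens P w ^ d (some w) := by
  rw [piU_monomial, Fintype.prod_option]
  rfl

/-- The coefficient at `e` of the image of the monomial `d` vanishes unless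
`∑ d (some _) = dg e` and `d none ≤ e none`. -/
theorem coeff_piU_monomial_ne (P : Par p) {d : W →₀ ℕ} {e : V →₀ ℕ}
    (h : coeff e (piU P (monomial d 1)) ≠ 0) :
    ∑ w : Fin 3 × Fin 4, d (some w) = dg e ∧ d none ≤ e none := by
  rw [Pi1_monomial] at h
  refine ⟨?_, ?_⟩
  · exact ((Pi1_prod_hom P (fun w => d (some w)) Finset.univ).sX_pow_mul _ h).symm
  · by_contra hcon
    push Not at hcon
    apply h
    rw [X_pow_eq, coeff_monomial_mul, if_neg]
    intro hle
    have := hle none
    rw [Finsupp.single_eq_same] at this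
    omega

theorem Pi1_algebraMap_mem (P : Par p) (c : ZMod p) : algebraMap (ZMod p) (UU p) c ∈ RR P := by
  obtain ⟨n, hn⟩ := ZMod.intCast_surjective c
  rw [← hn, map_intCast]
  exact intCast_mem (RR P) n

theorem Pi1_genv_mem (P : Par p) (w : W) : genv P w ∈ RR P := by
  rcases w with _ | w
  · exact sX_mem_RR P
  · exact gens_mem P w

/-- The box of the exponents with entries at most `N`. -/
noncomputable def Pi1_box (N : ℕ) : Finset (W →₀ ℕ) :=
  (Fintype.piFinset fun _ : W => Finset.range (N + 1)).image Finsupp.equivFunOnFinite.symm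

theorem Pi1_mem_box {N : ℕ} {d : W →₀ ℕ} (h : ∀ w, d w ≤ N) : d ∈ Pi1_box N := by
  unfold Pi1_box
  rw [Finset.mem_image]
  refine ⟨d, ?_, Finsupp.equivFunOnFinite.symm_apply_apply d⟩
  rw [Fintype.mem_piFinset]
  intro w
  rw [Finset.mem_range]
  exact Nat.lt_succ_of_le (h w)

theorem Pi1_dg_le (e : V →₀ ℕ) : dg e + e none = e.degree := by
  rw [Finsupp.degree_eq_sum, Fintype.sum_option, dg, add_comm]

theorem Pi1_coeff_box (P : Par p) (f : MvPowerSeries W (ZMod p)) {N : ℕ} {e : V →₀ ℕ}
    (he : e.degree ≤ N) (T : Finset (W →₀ ℕ)) (hT : ∀ d : W →₀ ℕ, (∀ w, d w ≤ N) →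
      coeff d f ≠ 0 → d none ≤ e none → d ∈ T) :
    coeff e (piU P f) =
      ∑ d ∈ T, algebraMap (ZMod p) (LL p) (coeff d f) * coeff e (piU P (monomial d 1)) := by
  rw [coeff_piU]
  refine finsum_eq_sum_of_support_subset _ ?_
  intro d hd
  rw [Function.mem_support] at hd
  have h1 := right_ne_zero_of_mul hd
  have h2 : coeff d f ≠ 0 := by
    intro h3
    apply left_ne_zero_of_mul hd
    rw [h3, map_zero]
  obtain ⟨h4, h5⟩ := coeff_piU_monomial_ne P h1
  have h6 := Pi1_dg_le e
  refine hT d (fun w => ?_) h2 h5
  rcases w with _ | w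
  · omega
  · have h7 : d (some w) ≤ ∑ w : Fin 3 × Fin 4, d (some w) :=
      Finset.single_le_sum (f := fun w => d (some w)) (fun _ _ => Nat.zero_le _)
        (Finset.mem_univ w)
    omega

/-- The image is contained in `RR P`: `RR_closed`, with `v` the image of the truncation of `f` to
total degree `≤ N` (a finite combination of products of elements of `RR P`); the two images have
the same coefficients in total degree `≤ N` by `coeff_piU` and `coeff_piU_monomial_ne`. -/
theorem piU_mem (P : Par p) (f : MvPowerSeries W (ZMod p)) : piU P f ∈ RR P := by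
  refine RR_closed fun N => ?_
  refine ⟨∑ d ∈ Pi1_box N, algebraMap (ZMod p) (UU p) (coeff d f) * piU P (monomial d 1), ?_, ?_⟩
  · refine sum_mem fun d _ => mul_mem (Pi1_algebraMap_mem P _) ?_
    rw [piU_monomial]
    exact prod_mem fun w _ => pow_mem (Pi1_genv_mem P w) _
  · intro e he
    rw [Pi1_coeff_box P f he (Pi1_box N) fun d hd _ _ => Pi1_mem_box hd, map_sum]
    refine Finset.sum_congr rfl fun d _ => ?_
    rw [MvPowerSeries.algebraMap_apply, coeff_C_mul]

/-- The component of degree `n` in the generators. -/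
noncomputable def ycmp (n : ℕ) (f : MvPowerSeries W (ZMod p)) : MvPowerSeries W (ZMod p) :=
  fun d => if ∑ w : Fin 3 × Fin 4, d (some w) = n then coeff d f else 0

/-- The part of degree at least `n` in the generators. -/
noncomputable def yge (n : ℕ) (f : MvPowerSeries W (ZMod p)) : MvPowerSeries W (ZMod p) :=
  fun d => if n ≤ ∑ w : Fin 3 × Fin 4, d (some w) then coeff d f else 0

theorem Pi1_coeff_fun {σ R : Type*} [Semiring R] (g : (σ →₀ ℕ) → R) (d : σ →₀ ℕ) :
    coeff d (g : MvPowerSeries σ R) = g d := rfl

theorem Pi1_coeff_ycmp (n : ℕ) (f : MvPowerSeries W (ZMod p)) (d : W →₀ ℕ) :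
    coeff d (ycmp n f) =
      if ∑ w : Fin 3 × Fin 4, d (some w) = n then coeff d f else 0 :=
  Pi1_coeff_fun _ d

theorem Pi1_coeff_yge (n : ℕ) (f : MvPowerSeries W (ZMod p)) (d : W →₀ ℕ) :
    coeff d (yge n f) =
      if n ≤ ∑ w : Fin 3 × Fin 4, d (some w) then coeff d f else 0 :=
  Pi1_coeff_fun _ d

/-- By `coeff_piU` and `coeff_piU_monomial_ne`. -/
theorem cmp_piU (P : Par p) (n : ℕ) (f : MvPowerSeries W (ZMod p)) :
    cmp n (piU P f) = piU P (ycmp n f) := by
  refine MvPowerSeries.ext fun e => ?_
  rw [coeff_cmp, coeff_piU, coeff_piU]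
  have hy := Pi1_coeff_ycmp n f
  split_ifs with h
  · refine finsum_congr fun d => ?_
    by_cases h1 : coeff e (piU P (monomial d 1)) = 0
    · rw [h1, mul_zero, mul_zero]
    · rw [hy, if_pos ((coeff_piU_monomial_ne P h1).1.trans h)]
  · symm
    refine finsum_eq_zero_of_forall_eq_zero fun d => ?_
    by_cases h1 : coeff e (piU P (monomial d 1)) = 0
    · rw [h1, mul_zero]
    · rw [hy, if_neg, map_zero, zero_mul]
      intro h2
      exact h ((coeff_piU_monomial_ne P h1).1.symm.trans h2)

/-- If all components of `piU P f` of degree `< n` vanish then `piU P f = piU P (yge n f)`. -/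
theorem piU_yge (P : Par p) (n : ℕ) (f : MvPowerSeries W (ZMod p))
    (h : ∀ i < n, cmp i (piU P f) = 0) : piU P f = piU P (yge n f) := by
  refine MvPowerSeries.ext fun e => ?_
  have hy := Pi1_coeff_yge n f
  rcases Nat.lt_or_ge (dg e) n with h0 | h0
  · have h1 : coeff e (piU P f) = 0 := by
      have h2 := congrArg (coeff e) (h (dg e) h0)
      rw [coeff_cmp, if_pos rfl, map_zero] at h2
      exact h2
    rw [h1, coeff_piU]
    symm
    refine finsum_eq_zero_of_forall_eq_zero fun d => ?_
    by_cases h3 : coeff e (piU P (monomial d 1)) = 0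
    · rw [h3, mul_zero]
    · rw [hy, if_neg, map_zero, zero_mul]
      have := (coeff_piU_monomial_ne P h3).1
      omega
  · rw [coeff_piU, coeff_piU]
    refine finsum_congr fun d => ?_
    by_cases h3 : coeff e (piU P (monomial d 1)) = 0
    · rw [h3, mul_zero, mul_zero]
    · rw [hy, if_pos]
      have := (coeff_piU_monomial_ne P h3).1
      omega

end Pool.Agent.W_35cfd6_h24
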