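import Pool.Agent.W_35cfd6_h24.Pi1

/-!
# The map `piU` is onto `RR P`
-/

set_option autoImplicit false

namespace Pool.Agent.W_35cfd6_h24

open MvPowerSeries

variable {p : ℕ}

/-- The exponent of the generators. -/
noncomputable def Pi2_some (d : W →₀ ℕ) : Fin 3 × Fin 4 →₀ ℕ :=
  Finsupp.equivFunOnFinite.symm fun w => d (some w)

/-- The exponent with given parts. -/
noncomputable def Pi2_join (i : ℕ) (a : Fin 3 × Fin 4 →₀ ℕ) : W →₀ ℕ :=
  Finsupp.equivFunOnFinite.symm fun w => w.elim i a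

theorem Pi2_some_apply (d : W →₀ ℕ) (w : Fin 3 × Fin 4) : Pi2_some d w = d (some w) := rfl

theorem Pi2_join_none (i : ℕ) (a : Fin 3 × Fin 4 →₀ ℕ) : Pi2_join i a none = i := rfl

theorem Pi2_join_some (i : ℕ) (a : Fin 3 × Fin 4 →₀ ℕ) (w : Fin 3 × Fin 4) :
    Pi2_join i a (some w) = a w := rfl

theorem Pi2_some_join (i : ℕ) (a : Fin 3 × Fin 4 →₀ ℕ) : Pi2_some (Pi2_join i a) = a := by
  ext w
  rfl

theorem Pi2_join_eq (d : W →₀ ℕ) : Pi2_join (d none) (Pi2_some d) = d := by
  ext w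
  rcases w with _ | w
  · rfl
  · rfl

theorem Pi2_aeval (P : Par p) (i : ℕ) (Q : MvPolynomial (Fin 3 × Fin 4) (ZMod p)) :
    (sX : UU p) ^ i * MvPolynomial.aeval (gens P) Q =
      ∑ a ∈ Q.support, algebraMap (ZMod p) (UU p) (MvPolynomial.coeff a Q) *
        piU P (monomial (Pi2_join i a) 1) := by
  rw [MvPolynomial.aeval_def, MvPolynomial.eval₂_eq', Finset.mul_sum]
  refine Finset.sum_congr rfl fun a _ => ?_
  rw [Pi1_monomial, Pi2_join_none]
  have h1 : ∏ w : Fin 3 × Fin 4, gens P w ^ Pi2_join i a (some w) =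
      ∏ w : Fin 3 × Fin 4, gens P w ^ a w := rfl
  rw [h1]
  ring

/-- Homogeneous elements are in the image. Let `u ∈ RR P` be homogeneous of degree `n`. By `gen_all`
there are recursively homogeneous `v_0 = u, v_1, v_2, ...` in `RR P` of degree `n` and homogeneous
polynomials `Q_i` of degree `n` with `v_i = aeval (gens P) Q_i + s v_(i+1)`, so
`u = ∑_(i<K) s^i aeval (gens P) Q_i + s^K v_K`. Let `f` be the power series whose coefficient at `d`
is the coefficient of `Q_(d none)` at the exponent `w ↦ d (some w)` (`Finsupp.some d` or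
`d.comapDomain some`). The coefficient of `piU P f` at `e` is, by `coeff_piU` and
`coeff_piU_monomial_ne`, that of the part of `f` with `d none < K := e none + 1`, i.e. of
`∑_(i<K) s^i aeval (gens P) Q_i` (each such part is a finite combination of monomials), which is the
coefficient of `u - s^K v_K`, and the coefficient of `s^K v_K` at `e` is zero. -/
theorem exists_piU_hom (P : Par p) {n : ℕ} {u : UU p} (hu : u ∈ RR P) (h : IsHom n u) :
    ∃ f : MvPowerSeries W (ZMod p), piU P f = u := by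
  classical
  have key : ∀ v : {v : UU p // v ∈ RR P ∧ IsHom n v},
      ∃ Q : MvPolynomial (Fin 3 × Fin 4) (ZMod p), ∃ v' : {v : UU p // v ∈ RR P ∧ IsHom n v},
        (v : UU p) = MvPolynomial.aeval (gens P) Q + sX * (v' : UU p) := by
    intro v
    obtain ⟨_, _, Q, _, v', h1, h2, h3⟩ := gen_all P n v v.2.1 v.2.2
    exact ⟨Q, ⟨v', h1, h2⟩, h3⟩
  choose Qf vf hvf using key
  obtain ⟨sq, hs0, hs1⟩ : ∃ sq : ℕ → {v : UU p // v ∈ RR P ∧ IsHom n v},
      sq 0 = ⟨u, hu, h⟩ ∧ ∀ i, sq (i + 1) = vf (sq i) :=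
    ⟨fun i => Nat.rec ⟨u, hu, h⟩ (fun _ v => vf v) i, rfl, fun _ => rfl⟩
  have hsum : ∀ K : ℕ, u = (∑ i ∈ Finset.range K,
      (sX : UU p) ^ i * MvPolynomial.aeval (gens P) (Qf (sq i))) + sX ^ K * (sq K : UU p) := by
    intro K
    induction K with
    | zero => rw [hs0]; simp
    | succ K ih =>
      rw [Finset.sum_range_succ, hs1]
      conv_lhs => rw [ih, hvf (sq K)]
      rw [pow_succ]
      ring
  obtain ⟨f, hf⟩ : ∃ f : MvPowerSeries W (ZMod p), ∀ d, coeff d f =
      MvPolynomial.coeff (Pi2_some d) (Qf (sq (d none))) :=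
    ⟨fun d => MvPolynomial.coeff (Pi2_some d) (Qf (sq (d none))), fun d => Pi1_coeff_fun _ d⟩
  refine ⟨f, MvPowerSeries.ext fun e => ?_⟩
  have hu1 : coeff e u = ∑ i ∈ Finset.range (e none + 1), ∑ a ∈ (Qf (sq i)).support,
      algebraMap (ZMod p) (LL p) (MvPolynomial.coeff a (Qf (sq i))) *
        coeff e (piU P (monomial (Pi2_join i a) 1)) := by
    conv_lhs => rw [hsum (e none + 1)]
    rw [map_add, coeff_sX_pow_mul, if_neg (by omega), add_zero, map_sum]
    refine Finset.sum_congr rfl fun i _ => ?_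
    rw [Pi2_aeval, map_sum]
    refine Finset.sum_congr rfl fun a _ => ?_
    rw [MvPowerSeries.algebraMap_apply, coeff_C_mul]
  rw [Pi1_coeff_box P f (le_refl e.degree)
    (((Finset.range (e none + 1)).sigma fun i => (Qf (sq i)).support).image
      fun x => Pi2_join x.1 x.2), hu1]
  · rw [Finset.sum_image, Finset.sum_sigma]
    · refine Finset.sum_congr rfl fun i _ => Finset.sum_congr rfl fun a _ => ?_
      rw [hf, Pi2_some_join, Pi2_join_none]
    · rintro ⟨i, a⟩ _ ⟨i', a'⟩ _ hx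
      simp only at hx
      have h1 : i = i' := by
        rw [← Pi2_join_none i a, hx, Pi2_join_none]
      have h2 : a = a' := by
        rw [← Pi2_some_join i a, hx, Pi2_some_join]
      rw [h1, h2]
  · intro d _ hd2 hd3
    rw [Finset.mem_image]
    refine ⟨⟨d none, Pi2_some d⟩, ?_, Pi2_join_eq d⟩
    rw [Finset.mem_sigma, Finset.mem_range, MvPolynomial.mem_support_iff]
    refine ⟨by simp only; omega, ?_⟩
    rw [hf] at hd2
    exact hd2

/-- Every element of `RR P` is in the image: for `u ∈ RR P` choose `f_n` with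
`piU P f_n = cmp n u` (`RR_cmp`, `exists_piU_hom`) and let `f` have coefficient
`coeff d (f_n)` at `d`, `n = ∑ d (some _)`. Then `ycmp n f = ycmp n f_n`, so by `cmp_piU`
`cmp n (piU P f) = cmp n (piU P f_n) = cmp n u`; conclude by `ext_cmp`. -/
theorem exists_piU (P : Par p) {u : UU p} (hu : u ∈ RR P) :
    ∃ f : MvPowerSeries W (ZMod p), piU P f = u := by
  choose F hF using fun n => exists_piU_hom P (RR_cmp hu n) (isHom_cmp n u)
  obtain ⟨f, hf⟩ : ∃ f : MvPowerSeries W (ZMod p), ∀ d, coeff d f =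
      coeff d (F (∑ w : Fin 3 × Fin 4, d (some w))) :=
    ⟨fun d => coeff d (F (∑ w : Fin 3 × Fin 4, d (some w))), fun d => Pi1_coeff_fun _ d⟩
  refine ⟨f, ext_cmp fun n => ?_⟩
  have h1 : ycmp n f = ycmp n (F n) := by
    refine MvPowerSeries.ext fun d => ?_
    rw [Pi1_coeff_ycmp, Pi1_coeff_ycmp]
    split_ifs with h
    · rw [hf, h]
    · rfl
  rw [cmp_piU, h1, ← cmp_piU, hF, (isHom_cmp n u).cmp_self]

/-- The surjection onto `RR P`. -/
noncomputable def piR (P : Par p) : MvPowerSeries W (ZMod p) →+* RR P :=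
  ((piU P : MvPowerSeries W (ZMod p) →ₐ[ZMod p] UU p) :
    MvPowerSeries W (ZMod p) →+* UU p).codRestrict (RR P) (piU_mem P)

theorem coe_piR (P : Par p) (f : MvPowerSeries W (ZMod p)) :
    ((piR P f : RR P) : UU p) = piU P f := rfl

theorem piR_surjective (P : Par p) : Function.Surjective (piR P) := by
  intro r
  obtain ⟨f, hf⟩ := exists_piU P r.2
  exact ⟨f, Subtype.ext hf⟩

end Pool.Agent.W_35cfd6_h24
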