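import Pool.Agent.W_35cfd6_h24.Units

/-!
# The units of `F_p[[σ]]`: existence of a good pair
-/

set_option autoImplicit false

namespace Pool.Agent.W_35cfd6_h24

variable {p : ℕ}

theorem Units1_sq_X : sq (PowerSeries.X : PowerSeries (ZMod p)) = PowerSeries.X ^ 2 :=
  PowerSeries.expand_X 2 two_ne_zero

theorem Units1_mul (a b : PowerSeries (ZMod p)) :
    (sq a + PowerSeries.X * sq b) * (sq a - PowerSeries.X * sq b) =
      sq (a ^ 2 - PowerSeries.X * b ^ 2) := by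
  rw [map_sub, map_mul, map_pow, map_pow, Units1_sq_X]
  ring

theorem Units1_coeff_one (f : PowerSeries (ZMod p)) :
    PowerSeries.coeff 1 (PowerSeries.X * f) = PowerSeries.constantCoeff f := by
  have h := PowerSeries.coeff_succ_X_mul 0 f
  rwa [zero_add, PowerSeries.coeff_zero_eq_constantCoeff_apply] at h

theorem Units1_coeff_even (a : PowerSeries (ZMod p)) (n : ℕ) :
    PowerSeries.coeff (2 * n) (sq a) = PowerSeries.coeff n a :=
  PowerSeries.coeff_expand_mul 2 two_ne_zero a n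

theorem Units1_coeff_odd (a : PowerSeries (ZMod p)) {n : ℕ} (hn : ¬ 2 ∣ n) :
    PowerSeries.coeff n (sq a) = 0 :=
  PowerSeries.coeff_expand_of_not_dvd 2 two_ne_zero a hn

theorem Units1_sq_inj {a b : PowerSeries (ZMod p)} (h : sq a = sq b) : a = b := by
  ext n
  rw [← Units1_coeff_even, h, Units1_coeff_even]

theorem Units1_neg_coeff (f : PowerSeries (ZMod p)) (n : ℕ) :
    PowerSeries.coeff n (PowerSeries.evalNegHom f) = (-1) ^ n * PowerSeries.coeff n f :=
  PowerSeries.coeff_rescale f (-1) n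

theorem Units1_neg_sq (a : PowerSeries (ZMod p)) : PowerSeries.evalNegHom (sq a) = sq a := by
  ext n
  rw [Units1_neg_coeff]
  by_cases h : 2 ∣ n
  · rw [(even_iff_two_dvd.2 h).neg_one_pow, one_mul]
  · rw [Units1_coeff_odd a h, mul_zero]

theorem Units1_neg_X_pow_dvd {K : ℕ} {f : PowerSeries (ZMod p)} (h : PowerSeries.X ^ K ∣ f) :
    PowerSeries.X ^ K ∣ PowerSeries.evalNegHom f := by
  rw [PowerSeries.X_pow_dvd_iff] at h ⊢
  intro m hm
  rw [Units1_neg_coeff, h m hm, mul_zero]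

/-- `sq X = X ^ 2`, and `sq` is multiplicative: `(a(σ²) + σ b(σ²)) (a(σ²) - σ b(σ²)) =
sq (a² - X b²) = 1`. -/
theorem Par.wU_mul (P : Par p) : P.wU * P.wU' = 1 := by
  rw [Par.wU, Par.wU', Units1_mul, P.hab, map_one]

theorem Par.wV_mul (P : Par p) : P.wV * P.wV' = 1 := by
  rw [Par.wV, Par.wV', Units1_mul, P.hcd, map_one]

theorem Par.wU_mul_pow (P : Par p) (n : ℕ) : P.wU ^ n * P.wU' ^ n = 1 := by
  rw [← mul_pow, P.wU_mul, one_pow]

theorem Par.wV_mul_pow (P : Par p) (n : ℕ) : P.wV ^ n * P.wV' ^ n = 1 := by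
  rw [← mul_pow, P.wV_mul, one_pow]

/-- The even and odd parts of a power series `w` with `w(-σ) w(σ) = 1`: with
`w = sq a + X * sq b`, `w(-σ) = sq a - X * sq b`, and
`sq (a ^ 2 - X * b ^ 2) = w(-σ) w(σ) = 1`, so `a ^ 2 - X * b ^ 2 = 1` (`sq` is injective).
`PowerSeries.evalNegHom` is `w(σ) ↦ w(-σ)`. -/
theorem exists_even_odd (w : PowerSeries (ZMod p)) (hw : PowerSeries.evalNegHom w * w = 1) :
    ∃ a b : PowerSeries (ZMod p), w = sq a + PowerSeries.X * sq b ∧
      a ^ 2 - PowerSeries.X * b ^ 2 = 1 := by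
  set a : PowerSeries (ZMod p) := PowerSeries.mk fun n => PowerSeries.coeff (2 * n) w with ha
  set b : PowerSeries (ZMod p) := PowerSeries.mk fun n => PowerSeries.coeff (2 * n + 1) w with hb
  have h1 : w = sq a + PowerSeries.X * sq b := by
    ext n
    rw [map_add]
    rcases Nat.even_or_odd' n with ⟨k, rfl | rfl⟩
    · rw [Units1_coeff_even, ha, PowerSeries.coeff_mk]
      rcases k with _ | k
      · rw [mul_zero, PowerSeries.coeff_zero_X_mul, add_zero]
      · rw [show 2 * (k + 1) = (2 * k + 1) + 1 by ring, PowerSeries.coeff_succ_X_mul,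
          Units1_coeff_odd b (by omega), add_zero]
    · rw [PowerSeries.coeff_succ_X_mul, Units1_coeff_odd a (by omega), Units1_coeff_even, hb,
        PowerSeries.coeff_mk, zero_add]
  refine ⟨a, b, h1, Units1_sq_inj ?_⟩
  rw [← Units1_mul, map_one, ← hw]
  have h2 : PowerSeries.evalNegHom w = sq a - PowerSeries.X * sq b := by
    conv_lhs => rw [h1]
    rw [map_add, map_mul, Units1_neg_sq, Units1_neg_sq, PowerSeries.evalNegHom_X]
    ring
  rw [h2, ← h1, mul_comm]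

/-- `U = (1 + σ) / (1 - σ)`. -/
noncomputable def Uo (p : ℕ) [Fact p.Prime] : PowerSeries (ZMod p) :=
  (1 + PowerSeries.X) * (1 - PowerSeries.X)⁻¹

theorem Units1_inv (p : ℕ) [Fact p.Prime] :
    (1 - PowerSeries.X : PowerSeries (ZMod p))⁻¹ * (1 - PowerSeries.X) = 1 :=
  PowerSeries.inv_mul_cancel _ (by simp)

theorem evalNeg_Uo (p : ℕ) [Fact p.Prime] : PowerSeries.evalNegHom (Uo p) * Uo p = 1 := by
  have h1 := Units1_inv p
  have h2 := congrArg PowerSeries.evalNegHom h1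
  rw [map_mul, map_sub, map_one, PowerSeries.evalNegHom_X] at h2
  rw [Uo, map_mul, map_add, map_one, PowerSeries.evalNegHom_X]
  calc (1 + -PowerSeries.X) * PowerSeries.evalNegHom (1 - PowerSeries.X : PowerSeries (ZMod p))⁻¹ *
        ((1 + PowerSeries.X) * (1 - PowerSeries.X)⁻¹)
      = (PowerSeries.evalNegHom (1 - PowerSeries.X : PowerSeries (ZMod p))⁻¹ *
          (1 - -PowerSeries.X)) * ((1 - PowerSeries.X)⁻¹ * (1 - PowerSeries.X)) := by ring
    _ = 1 := by rw [h1, h2, one_mul]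

theorem Units1_isUnit (p : ℕ) [Fact p.Prime] : IsUnit (Uo p) :=
  IsUnit.of_mul_eq_one_right _ (evalNeg_Uo p)

theorem Units1_charP (p : ℕ) [Fact p.Prime] : CharP (PowerSeries (ZMod p)) p :=
  charP_of_injective_algebraMap (algebraMap (ZMod p) (PowerSeries (ZMod p))).injective p

theorem Units1_pow_sub_one (p : ℕ) [Fact p.Prime] (f : PowerSeries (ZMod p)) (t : ℕ) :
    f ^ (p ^ t) - 1 = (f - 1) ^ (p ^ t) := by
  have := Units1_charP p
  have : ExpChar (PowerSeries (ZMod p)) p := ExpChar.prime Fact.out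
  rw [sub_pow_expChar_pow, one_pow]

/-- `U ≡ 1 + 2 σ` modulo `σ²`. -/
theorem Uo_mod (p : ℕ) [Fact p.Prime] :
    PowerSeries.X ^ 2 ∣ Uo p - (1 + 2 * PowerSeries.X) := by
  refine ⟨2 * (1 - PowerSeries.X)⁻¹, ?_⟩
  have h1 := Units1_inv p
  rw [Uo]
  linear_combination (1 + 2 * PowerSeries.X) * h1

/-- `U ^ (p ^ t) ≡ 1` modulo `σ ^ (p ^ t)`, because `(1 + σ g) ^ (p ^ t) = 1 + σ^(p^t) g^(p^t)`. -/
theorem dvd_Uo_pow (p : ℕ) [Fact p.Prime] (t : ℕ) :
    PowerSeries.X ^ (p ^ t) ∣ Uo p ^ (p ^ t) - 1 := by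
  rw [Units1_pow_sub_one]
  refine pow_dvd_pow_of_dvd ?_ _
  obtain ⟨c, hc⟩ := Uo_mod p
  refine ⟨2 + PowerSeries.X * c, ?_⟩
  linear_combination hc

/-- If `p ≠ 2`, `N ≥ 1` and `σ ^ K` divides `U ^ N - 1` then `K ≤ N`. Write `N = c p^t` with `c`
prime to `p`. Then `U ^ c = 1 + σ g` with `g` having constant coefficient `2 c ≠ 0`, so
`U ^ N - 1 = σ^(p^t) g^(p^t)` has order exactly `p^t ≤ N`. -/
theorem le_of_dvd_Uo_pow [Fact p.Prime] (hp : p ≠ 2) {N K : ℕ} (hN : 1 ≤ N)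
    (h : PowerSeries.X ^ K ∣ Uo p ^ N - 1) : K ≤ N := by
  obtain ⟨t, c, hc, rfl⟩ :=
    Nat.exists_eq_pow_mul_and_not_dvd (show N ≠ 0 by omega) p (Fact.out : p.Prime).ne_one
  have hc0 : 1 ≤ c := by
    rcases Nat.eq_zero_or_pos c with h0 | h0
    · exact absurd (h0 ▸ dvd_zero p) hc
    · exact h0
  have hc1 : PowerSeries.constantCoeff (Uo p) = 1 := by
    obtain ⟨d, hd⟩ := Uo_mod p
    have h1 : Uo p = 1 + 2 * PowerSeries.X + PowerSeries.X ^ 2 * d := by
      linear_combination hd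
    rw [h1]
    simp
  have hc2 : PowerSeries.coeff 1 (Uo p) = 2 := by
    obtain ⟨d, hd⟩ := Uo_mod p
    have h1 : Uo p = 1 + PowerSeries.X * (2 + PowerSeries.X * d) := by
      linear_combination hd
    rw [h1, map_add, Units1_coeff_one, PowerSeries.coeff_one, if_neg one_ne_zero]
    simp only [map_add, map_mul, PowerSeries.constantCoeff_X, zero_mul, add_zero, zero_add]
    exact map_ofNat _ 2
  obtain ⟨g, hg⟩ : PowerSeries.X ∣ Uo p ^ c - 1 := by
    rw [PowerSeries.X_dvd_iff, map_sub, map_pow, hc1, one_pow, map_one, sub_self]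
  have hg0 : PowerSeries.constantCoeff g = 2 * c := by
    have h1 := congrArg (PowerSeries.coeff 1) hg
    rw [map_sub, PowerSeries.coeff_one_pow, hc1, hc2, one_pow, mul_one, PowerSeries.coeff_one,
      if_neg one_ne_zero, sub_zero, Units1_coeff_one] at h1
    rw [← h1, mul_comm]
  have hg1 : ¬ PowerSeries.X ∣ g := by
    rw [PowerSeries.X_dvd_iff, hg0, mul_eq_zero, not_or]
    constructor
    · intro h2
      have h3 : ((2 : ℕ) : ZMod p) = 0 := by exact_mod_cast h2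
      rw [ZMod.natCast_eq_zero_iff] at h3
      exact hp ((Nat.prime_dvd_prime_iff_eq Fact.out Nat.prime_two).1 h3)
    · rw [ZMod.natCast_eq_zero_iff]
      exact hc
  rw [mul_comm, pow_mul, Units1_pow_sub_one, hg, mul_pow] at h
  have hle : K ≤ p ^ t := by
    by_contra hlt
    push Not at hlt
    have h2 : (PowerSeries.X : PowerSeries (ZMod p)) ^ (p ^ t + 1) ∣
        PowerSeries.X ^ (p ^ t) * g ^ (p ^ t) := (pow_dvd_pow _ hlt).trans h
    rw [pow_succ] at h2
    have h3 := (mul_dvd_mul_iff_left (pow_ne_zero _ PowerSeries.X_ne_zero)).1 h2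
    exact hg1 (PowerSeries.X_prime.dvd_of_dvd_pow h3)
  calc K ≤ p ^ t := hle
    _ ≤ p ^ t * c := Nat.le_mul_of_pos_right _ hc0

/-- The exponents `a_k = ∑_(1 ≤ i ≤ k) p^(i^2)`. -/
def aK (p k : ℕ) : ℕ := ∑ i ∈ Finset.range k, p ^ ((i + 1) ^ 2)

theorem aK_succ (p k : ℕ) : aK p (k + 1) = aK p k + p ^ ((k + 1) ^ 2) := by
  rw [aK, aK, Finset.sum_range_succ]

/-- `a_k ≤ p^(k^2 + 1) - 1` (induction; `p ≥ 2`). -/
theorem aK_le [Fact p.Prime] (k : ℕ) : aK p k ≤ p ^ (k ^ 2 + 1) - 1 := by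
  have hp : 2 ≤ p := (Fact.out : p.Prime).two_le
  induction k with
  | zero =>
    rw [aK, Finset.sum_range_zero]
    exact Nat.zero_le _
  | succ k ih =>
    rw [aK_succ]
    have h1 : p ^ (k ^ 2 + 1) ≤ p ^ ((k + 1) ^ 2) :=
      Nat.pow_le_pow_right (by omega) (by
        have : (k + 1) ^ 2 = k ^ 2 + 2 * k + 1 := by ring
        omega)
    have h2 : 2 * p ^ ((k + 1) ^ 2) ≤ p ^ ((k + 1) ^ 2 + 1) := by
      rw [pow_succ p ((k + 1) ^ 2), mul_comm]
      exact Nat.mul_le_mul_left _ hp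
    have h3 : 0 < p ^ (k ^ 2 + 1) := by positivity
    omega

/-- The infinite product `V = ∏_i U^(p^(i^2))`, the limit of `U ^ a_k`: by `dvd_Uo_pow`,
`σ^(p^((k+1)^2))` divides `U^(a_(k+1)) - U^(a_k)`. Define `V` by
`coeff n V = coeff n (U ^ a_n)` (`p^((n+1)^2) > n`). The identity `V(-σ) V(σ) = 1` holds modulo
every power of `σ`. -/
theorem exists_V (p : ℕ) [Fact p.Prime] : ∃ v : PowerSeries (ZMod p),
    (∀ k, PowerSeries.X ^ (p ^ ((k + 1) ^ 2)) ∣ v - Uo p ^ aK p k) ∧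
      PowerSeries.evalNegHom v * v = 1 := by
  have hp : 2 ≤ p := (Fact.out : p.Prime).two_le
  have hlt : ∀ n : ℕ, n < p ^ ((n + 1) ^ 2) := by
    intro n
    calc n < 2 ^ n := Nat.lt_two_pow_self
      _ ≤ p ^ n := Nat.pow_le_pow_left hp n
      _ ≤ p ^ ((n + 1) ^ 2) := Nat.pow_le_pow_right (by omega) (by nlinarith)
  have hmono : ∀ k m : ℕ, PowerSeries.X ^ (p ^ ((k + 1) ^ 2)) ∣
      Uo p ^ aK p (k + m) - Uo p ^ aK p k := by
    intro k m
    induction m with
    | zero =>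
      rw [add_zero, sub_self]
      exact dvd_zero _
    | succ m ih =>
      have h1 : Uo p ^ aK p (k + (m + 1)) - Uo p ^ aK p k =
          Uo p ^ aK p (k + m) * (Uo p ^ (p ^ ((k + m + 1) ^ 2)) - 1) +
            (Uo p ^ aK p (k + m) - Uo p ^ aK p k) := by
        rw [show k + (m + 1) = (k + m) + 1 by ring, aK_succ, pow_add]
        ring
      rw [h1]
      refine dvd_add (dvd_mul_of_dvd_right ?_ _) ih
      refine (pow_dvd_pow _ (Nat.pow_le_pow_right (by omega) ?_)).trans (dvd_Uo_pow p _)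
      exact Nat.pow_le_pow_left (by omega) 2
  have hco : ∀ k m n : ℕ, n < p ^ ((k + 1) ^ 2) →
      PowerSeries.coeff n (Uo p ^ aK p (k + m)) = PowerSeries.coeff n (Uo p ^ aK p k) := by
    intro k m n hn
    have h1 := (PowerSeries.X_pow_dvd_iff.1 (hmono k m)) n hn
    rw [map_sub] at h1
    exact sub_eq_zero.1 h1
  set v : PowerSeries (ZMod p) :=
    PowerSeries.mk fun n => PowerSeries.coeff n (Uo p ^ aK p n) with hv
  have h1 : ∀ k, PowerSeries.X ^ (p ^ ((k + 1) ^ 2)) ∣ v - Uo p ^ aK p k := by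
    intro k
    rw [PowerSeries.X_pow_dvd_iff]
    intro n hn
    rw [map_sub, hv, PowerSeries.coeff_mk, sub_eq_zero]
    rcases le_total k n with h2 | h2
    · obtain ⟨m, rfl⟩ := Nat.exists_eq_add_of_le h2
      exact hco k m _ hn
    · obtain ⟨m, rfl⟩ := Nat.exists_eq_add_of_le h2
      exact (hco n m n (hlt n)).symm
  refine ⟨v, h1, ?_⟩
  rw [← sub_eq_zero]
  ext n
  have h2 : PowerSeries.X ^ (p ^ ((n + 1) ^ 2)) ∣ PowerSeries.evalNegHom v * v - 1 := by
    have h3 : PowerSeries.evalNegHom (Uo p ^ aK p n) * Uo p ^ aK p n = 1 := by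
      rw [map_pow, ← mul_pow, evalNeg_Uo, one_pow]
    have h4 : PowerSeries.evalNegHom v * v - 1 =
        PowerSeries.evalNegHom (v - Uo p ^ aK p n) * v +
          PowerSeries.evalNegHom (Uo p ^ aK p n) * (v - Uo p ^ aK p n) := by
      rw [map_sub]
      linear_combination h3
    rw [h4]
    exact dvd_add (dvd_mul_of_dvd_left (Units1_neg_X_pow_dvd (h1 n)) _)
      (dvd_mul_of_dvd_right (h1 n) _)
  rw [PowerSeries.X_pow_dvd_iff.1 h2 n (hlt n), map_zero]

/-- Existence of a good pair. `P.wU = U`, `P.wV = V` (`exists_even_odd`). Put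
`K_k = p^((k+1)^2)`.
approx: given `j` choose `k` with `p^(2k) ≥ 2 j + 2`, `e = k^2 + 1`, `a = a_k ≤ p^e - 1`; then
`K_k = p^e p^(2k) ≥ p^e (2 j + 2) ≥ 2 p^e j + 2`.
indep1: if `U^a V^b = 1` then `σ^(K_k)` divides `U^(a + b a_k) - 1`; for large `k`,
`a + b a_k ≤ a + b (p^(k^2+1) - 1) < K_k`, so by `le_of_dvd_Uo_pow` `a + b a_k = 0`, hence
`a = b = 0` (`a_k ≥ 1` for `k ≥ 1`).
indep2: if `U^a = V^b` then `σ^(K_k)` divides `U^a - U^(b a_k)`, so, `U` being a unit,
`U^|a - b a_k| - 1`; for large `k`, `|a - b a_k| ≤ a + b a_k < K_k`, so `a = b a_k` for all large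
`k`; as `a_k` is strictly increasing `b = 0`, `a = 0`. -/
theorem exists_good [Fact p.Prime] (hp : p ≠ 2) : ∃ P : Par p, P.Good := by
  have hp2 : 2 ≤ p := (Fact.out : p.Prime).two_le
  obtain ⟨a, b, hU, hab⟩ := exists_even_odd (Uo p) (evalNeg_Uo p)
  obtain ⟨v, hv, hvn⟩ := exists_V p
  obtain ⟨c, d, hV, hcd⟩ := exists_even_odd v hvn
  have hK : ∀ k : ℕ, p ^ ((k + 1) ^ 2) = p ^ (k ^ 2 + 1) * p ^ (2 * k) := by
    intro k
    rw [← pow_add]
    congr 1
    ring
  have hbig : ∀ k m : ℕ, m < 2 * k → m < p ^ (2 * k) := by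
    intro k m hm
    calc m < 2 * k := hm
      _ < 2 ^ (2 * k) := Nat.lt_two_pow_self
      _ ≤ p ^ (2 * k) := Nat.pow_le_pow_left hp2 _
  have hpos : ∀ k : ℕ, 1 ≤ p ^ (k ^ 2 + 1) := fun k => Nat.one_le_pow _ _ (by omega)
  have hsmall : ∀ x y k : ℕ, x + y < 2 * k → x + y * aK p k < p ^ ((k + 1) ^ 2) := by
    intro x y k hk
    have h1 := hbig k _ hk
    have h2 := hpos k
    have h3 : aK p k ≤ p ^ (k ^ 2 + 1) := (aK_le k).trans (Nat.sub_le _ _)
    rw [hK]
    calc x + y * aK p k ≤ p ^ (k ^ 2 + 1) * x + p ^ (k ^ 2 + 1) * y := by nlinarith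
      _ = p ^ (k ^ 2 + 1) * (x + y) := by ring
      _ < p ^ (k ^ 2 + 1) * p ^ (2 * k) := (Nat.mul_lt_mul_left (by omega)).2 h1
  have haK : ∀ k : ℕ, 1 ≤ aK p (k + 1) := by
    intro k
    rw [aK_succ]
    have : 1 ≤ p ^ ((k + 1) ^ 2) := Nat.one_le_pow _ _ (by omega)
    omega
  refine ⟨⟨a, b, c, d, hab, hcd⟩, ?_, ?_, ?_⟩
  · intro x y h
    have h0 : Uo p ^ x * v ^ y = 1 := by
      rw [hU, hV]
      exact h
    have key : ∀ k : ℕ, x + y < 2 * k → x + y * aK p k = 0 := by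
      intro k hk
      by_contra hne
      have h1 : PowerSeries.X ^ (p ^ ((k + 1) ^ 2)) ∣ Uo p ^ (x + y * aK p k) - 1 := by
        have h2 : PowerSeries.X ^ (p ^ ((k + 1) ^ 2)) ∣ v ^ y - (Uo p ^ aK p k) ^ y :=
          (hv k).trans (sub_dvd_pow_sub_pow _ _ _)
        have h3 : Uo p ^ (x + y * aK p k) - 1 = -(Uo p ^ x * (v ^ y - (Uo p ^ aK p k) ^ y)) := by
          rw [← pow_mul, mul_comm (aK p k) y, pow_add]
          linear_combination h0
        rw [h3]
        exact (dvd_neg.2 (dvd_mul_of_dvd_right h2 _))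
      have h4 := le_of_dvd_Uo_pow hp (by omega) h1
      have h5 := hsmall x y k hk
      omega
    have h6 := key (x + y + 1) (by omega)
    have h7 := haK (x + y)
    have h8 : x = 0 := by omega
    have h9 : y * aK p (x + y + 1) = 0 := by omega
    rcases Nat.mul_eq_zero.1 h9 with h10 | h10
    · exact ⟨h8, h10⟩
    · omega
  · intro x y h
    have h0 : Uo p ^ x = v ^ y := by
      rw [hU, hV]
      exact h
    have key : ∀ k : ℕ, x + y < 2 * k → x = y * aK p k := by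
      intro k hk
      have h1 : PowerSeries.X ^ (p ^ ((k + 1) ^ 2)) ∣ Uo p ^ x - Uo p ^ (y * aK p k) := by
        have h2 : PowerSeries.X ^ (p ^ ((k + 1) ^ 2)) ∣ v ^ y - (Uo p ^ aK p k) ^ y :=
          (hv k).trans (sub_dvd_pow_sub_pow _ _ _)
        rw [h0, mul_comm y, pow_mul]
        exact h2
      have h5 := hsmall x y k hk
      by_contra hne
      rcases Nat.lt_or_gt_of_ne hne with h6 | h6
      · obtain ⟨m, hm⟩ := Nat.exists_eq_add_of_lt h6
        have h7 : Uo p ^ x - Uo p ^ (y * aK p k) = Uo p ^ x * -(Uo p ^ (m + 1) - 1) := by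
          rw [hm, show x + m + 1 = x + (m + 1) by ring, pow_add]
          ring
        rw [h7, ((Units1_isUnit p).pow x).dvd_mul_left, dvd_neg] at h1
        have h8 := le_of_dvd_Uo_pow hp (by omega) h1
        omega
      · obtain ⟨m, hm⟩ := Nat.exists_eq_add_of_lt h6
        have h7 : Uo p ^ x - Uo p ^ (y * aK p k) =
            Uo p ^ (y * aK p k) * (Uo p ^ (m + 1) - 1) := by
          rw [hm, show y * aK p k + m + 1 = y * aK p k + (m + 1) by ring, pow_add]
          ring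
        rw [h7, ((Units1_isUnit p).pow _).dvd_mul_left] at h1
        have h8 := le_of_dvd_Uo_pow hp (by omega) h1
        omega
    have h6 := key (x + y + 1) (by omega)
    have h7 := key (x + y + 1 + 1) (by omega)
    rw [aK_succ, mul_add, ← h6] at h7
    have h8 : y * p ^ ((x + y + 1 + 1) ^ 2) = 0 := by omega
    rcases Nat.mul_eq_zero.1 h8 with h9 | h9
    · subst h9
      rw [Nat.zero_mul] at h6
      exact ⟨h6, rfl⟩
    · have : 1 ≤ p ^ ((x + y + 1 + 1) ^ 2) := Nat.one_le_pow _ _ (by omega)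
      omega
  · intro j
    refine ⟨(j + 1) ^ 2 + 1, aK p (j + 1), by omega, aK_le _, ?_⟩
    have h1 : Par.wV ⟨a, b, c, d, hab, hcd⟩ = v := hV.symm
    have h2 : Par.wU ⟨a, b, c, d, hab, hcd⟩ = Uo p := hU.symm
    rw [h1, h2]
    refine (pow_dvd_pow _ ?_).trans (hv (j + 1))
    rw [hK]
    have h3 : 2 * j + 2 ≤ p ^ (2 * (j + 1)) := (hbig (j + 1) (2 * j + 1) (by omega))
    have h4 := hpos (j + 1)
    calc 2 * p ^ ((j + 1) ^ 2 + 1) * j + 2 ≤ p ^ ((j + 1) ^ 2 + 1) * (2 * j + 2) := by nlinarith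
      _ ≤ p ^ ((j + 1) ^ 2 + 1) * p ^ (2 * (j + 1)) := Nat.mul_le_mul_left _ h3

end Pool.Agent.W_35cfd6_h24
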