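import Pool.Agent.W_35cfd6_h24.Eps
import Pool.Agent.W_35cfd6_h24.Units1
import Pool.Agent.W_35cfd6_h24.KapG

/-!
# Approximate invariants with good trace

Here `FF p` is used with `s` in the role of `σ`, `σ^2 = s` (see `eps`).
-/

set_option autoImplicit false

namespace Pool.Agent.W_35cfd6_h24

open MvPowerSeries

variable {p : ℕ}

/-- `x_1 + σ x_0`. -/
noncomputable def lp : FF p := X (some 1) + sX * X (some 0)
/-- `x_1 - σ x_0`. -/
noncomputable def lm : FF p := X (some 1) - sX * X (some 0)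
/-- `x_3 + σ x_2`. -/
noncomputable def lp' : FF p := X (some 3) + sX * X (some 2)
/-- `x_3 - σ x_2`. -/
noncomputable def lm' : FF p := X (some 3) - sX * X (some 2)

theorem Psi_sqX : sq (PowerSeries.X : PowerSeries (ZMod p)) = PowerSeries.X ^ 2 := by
  rw [sq, PowerSeries.expand_X]

theorem Psi_row0 (P : Par p) : lin (P.mat.map sq) (X (some 0) : FF p) =
    ev (sq P.a) * X (some 0) + ev (sq P.b) * X (some 1) := by
  rw [lin_X, Fin.sum_univ_four]
  simp [Par.mat]

theorem Psi_row1 (P : Par p) : lin (P.mat.map sq) (X (some 1) : FF p) =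
    sX ^ 2 * ev (sq P.b) * X (some 0) + ev (sq P.a) * X (some 1) := by
  rw [lin_X, Fin.sum_univ_four]
  simp [Par.mat, Psi_sqX, ev_X]

theorem Psi_row2 (P : Par p) : lin (P.mat.map sq) (X (some 2) : FF p) =
    ev (sq P.c) * X (some 2) + ev (sq P.d) * X (some 3) := by
  rw [lin_X, Fin.sum_univ_four]
  simp [Par.mat]

theorem Psi_row3 (P : Par p) : lin (P.mat.map sq) (X (some 3) : FF p) =
    sX ^ 2 * ev (sq P.d) * X (some 2) + ev (sq P.c) * X (some 3) := by
  rw [lin_X, Fin.sum_univ_four]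
  simp [Par.mat, Psi_sqX, ev_X]

/-- `G (x_1 + σ x_0) = σ² b x_0 + a x_1 + σ (a x_0 + b x_1) = (a + σ b) (x_1 + σ x_0)` with
`a = sq P.a`, `b = sq P.b`. -/
theorem lin_lp (P : Par p) : lin (P.mat.map sq) (lp : FF p) = ev P.wU * lp := by
  rw [lp, map_add, map_mul, lin_sX, Psi_row0, Psi_row1, Par.wU, map_add, map_mul, ev_X]
  ring

theorem lin_lm (P : Par p) : lin (P.mat.map sq) (lm : FF p) = ev P.wU' * lm := by
  rw [lm, map_sub, map_mul, lin_sX, Psi_row0, Psi_row1, Par.wU', map_sub, map_mul, ev_X]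
  ring

theorem lin_lp' (P : Par p) : lin (P.mat.map sq) (lp' : FF p) = ev P.wV * lp' := by
  rw [lp', map_add, map_mul, lin_sX, Psi_row2, Psi_row3, Par.wV, map_add, map_mul, ev_X]
  ring

theorem lin_lm' (P : Par p) : lin (P.mat.map sq) (lm' : FF p) = ev P.wV' * lm' := by
  rw [lm', map_sub, map_mul, lin_sX, Psi_row2, Psi_row3, Par.wV', map_sub, map_mul, ev_X]
  ring

/-- `(l₊ l₋ l'₊ l'₋)^m - (1/2) (l₋^(m+a) l₊^(m-a) l'₊^(m+1) l'₋^(m-1) + its conjugate)`. -/
noncomputable def Psi [Fact p.Prime] (m a : ℕ) : FF p :=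
  (lp * lm * lp' * lm') ^ m - C ((2 : ZMod p)⁻¹) *
    (lm ^ (m + a) * lp ^ (m - a) * lp' ^ (m + 1) * lm' ^ (m - 1) +
      lp ^ (m + a) * lm ^ (m - a) * lm' ^ (m + 1) * lp' ^ (m - 1))

theorem Psi_hom1 (i j : Fin 4) : IsHom 1 (X (some i) + sX * X (some j) : FF p) := by
  refine (IsHom.X i).add ?_
  have h := (IsHom.X (A := ZMod p) j).sX_pow_mul (K := 1)
  rwa [pow_one] at h

theorem Psi_hom2 (i j : Fin 4) : IsHom 1 (X (some i) - sX * X (some j) : FF p) := by
  refine (IsHom.X i).sub ?_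
  have h := (IsHom.X (A := ZMod p) j).sX_pow_mul (K := 1)
  rwa [pow_one] at h

theorem Psi_homC (c : ZMod p) : IsHom 0 (C c : FF p) := by
  have h := IsHom.monomial (A := ZMod p) 0 c
  rwa [dg_zero, monomial_zero_eq_C_apply] at h

theorem Psi_hom [Fact p.Prime] {m a : ℕ} (hm : 1 ≤ m) (ha : a ≤ m) :
    IsHom (4 * m) (Psi m a : FF p) := by
  have h1 : IsHom 1 (lp : FF p) := Psi_hom1 1 0
  have h2 : IsHom 1 (lm : FF p) := Psi_hom2 1 0
  have h3 : IsHom 1 (lp' : FF p) := Psi_hom1 3 2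
  have h4 : IsHom 1 (lm' : FF p) := Psi_hom2 3 2
  rw [Psi]
  refine IsHom.sub ?_ ?_
  · have h := (((h1.mul h2).mul h3).mul h4).pow m
    have e : m * (1 + 1 + 1 + 1) = 4 * m := by ring
    rwa [e] at h
  · have h5 := (((h2.pow (m + a)).mul (h1.pow (m - a))).mul (h3.pow (m + 1))).mul (h4.pow (m - 1))
    have h6 := (((h1.pow (m + a)).mul (h2.pow (m - a))).mul (h4.pow (m + 1))).mul (h3.pow (m - 1))
    have e : (m + a) * 1 + (m - a) * 1 + (m + 1) * 1 + (m - 1) * 1 = 4 * m := by omega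
    rw [e] at h5 h6
    have h7 := (Psi_homC (p := p) ((2 : ZMod p)⁻¹)).mul (h5.add h6)
    rwa [zero_add] at h7

/-- `σ ↦ -σ`. -/
noncomputable def Psi_R : FF p →+* FF p :=
  MvPowerSeries.rescale fun v : V => v.elim (-1 : ZMod p) fun _ => 1

theorem Psi_R_coeff (f : FF p) (e : V →₀ ℕ) :
    coeff e (Psi_R f) = (-1) ^ e none * coeff e f := by
  rw [Psi_R, coeff_rescale]
  congr 1
  rw [Finsupp.prod_fintype _ _ (fun i => pow_zero _), Fintype.prod_option]
  simp

theorem Psi_R_X (j : Fin 4) : Psi_R (X (some j) : FF p) = X (some j) := by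
  classical
  refine MvPowerSeries.ext fun e => ?_
  rw [Psi_R_coeff, coeff_X]
  split_ifs with h
  · rw [h, Finsupp.single_eq_of_ne (by simp), pow_zero, one_mul]
  · rw [mul_zero]

theorem Psi_R_sX : Psi_R (sX : FF p) = -sX := by
  classical
  refine MvPowerSeries.ext fun e => ?_
  rw [Psi_R_coeff, map_neg, sX, coeff_X]
  split_ifs with h
  · rw [h, Finsupp.single_eq_same, pow_one]
    ring
  · rw [mul_zero, neg_zero]

theorem Psi_R_C (c : ZMod p) : Psi_R (C c : FF p) = C c := by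
  classical
  refine MvPowerSeries.ext fun e => ?_
  rw [Psi_R_coeff, coeff_C]
  split_ifs with h
  · rw [h]
    simp
  · rw [mul_zero]

theorem Psi_two [Fact p.Prime] (hp : p ≠ 2) : (2 : ZMod p) ≠ 0 := by
  intro h
  have h1 : ((2 : ℕ) : ZMod p) = 0 := by exact_mod_cast h
  rw [ZMod.natCast_eq_zero_iff] at h1
  exact hp ((Nat.prime_dvd_prime_iff_eq (Fact.out : p.Prime) Nat.prime_two).1 h1)

/-- `Psi` is invariant under `σ ↦ -σ` (the ring homomorphism
`MvPowerSeries.rescale fun v => v.elim (-1) fun _ => 1`, which exchanges `lp` and `lm`, and `lp'`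
and `lm'`, and multiplies the coefficient at `e` by `(-1) ^ e none`), and `-1 ≠ 1`. -/
theorem Psi_even [Fact p.Prime] (hp : p ≠ 2) (m a : ℕ) (e : V →₀ ℕ) (h : Odd (e none)) :
    coeff e (Psi m a : FF p) = 0 := by
  have h1 : Psi_R (lp : FF p) = lm := by
    rw [lp, lm, map_add, map_mul, Psi_R_sX, Psi_R_X, Psi_R_X]
    ring
  have h2 : Psi_R (lm : FF p) = lp := by
    rw [lp, lm, map_sub, map_mul, Psi_R_sX, Psi_R_X, Psi_R_X]
    ring
  have h3 : Psi_R (lp' : FF p) = lm' := by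
    rw [lp', lm', map_add, map_mul, Psi_R_sX, Psi_R_X, Psi_R_X]
    ring
  have h4 : Psi_R (lm' : FF p) = lp' := by
    rw [lp', lm', map_sub, map_mul, Psi_R_sX, Psi_R_X, Psi_R_X]
    ring
  have h5 : Psi_R (Psi m a : FF p) = Psi m a := by
    rw [Psi]
    simp only [map_sub, map_add, map_mul, map_pow, h1, h2, h3, h4, Psi_R_C]
    ring
  have h6 := Psi_R_coeff (Psi m a : FF p) e
  rw [h5, h.neg_one_pow] at h6
  have h7 : (2 : ZMod p) * coeff e (Psi m a : FF p) = 0 := by linear_combination h6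
  exact (mul_eq_zero.1 h7).resolve_left (Psi_two hp)

/-- Modulo `σ`: `lp ≡ lm ≡ x_1`, `lp' ≡ lm' ≡ x_3`, so all three products are
`x_1^(2 m) x_3^(2 m)` and `1 - (1/2) (1 + 1) = 0`. -/
theorem Psi_dvd [Fact p.Prime] (hp : p ≠ 2) {m a : ℕ} (hm : 1 ≤ m) (ha : a ≤ m) :
    sX ∣ (Psi m a : FF p) := by
  rw [← Ideal.mem_span_singleton, ← Ideal.Quotient.eq_zero_iff_mem]
  set π := Ideal.Quotient.mk (Ideal.span {(sX : FF p)}) with hπ
  have hs : π sX = 0 := by
    rw [hπ, Ideal.Quotient.eq_zero_iff_mem, Ideal.mem_span_singleton]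
  have h1 : π lp = π (X (some 1)) := by rw [lp, map_add, map_mul, hs, zero_mul, add_zero]
  have h2 : π lm = π (X (some 1)) := by rw [lm, map_sub, map_mul, hs, zero_mul, sub_zero]
  have h3 : π lp' = π (X (some 3)) := by rw [lp', map_add, map_mul, hs, zero_mul, add_zero]
  have h4 : π lm' = π (X (some 3)) := by rw [lm', map_sub, map_mul, hs, zero_mul, sub_zero]
  rw [Psi]
  simp only [map_sub, map_add, map_mul, map_pow, h1, h2, h3, h4]
  obtain ⟨k, rfl⟩ := Nat.exists_eq_add_of_le ha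
  obtain ⟨l, hl⟩ := Nat.exists_eq_add_of_le hm
  have e1 : a + k - a = k := by omega
  have e2 : a + k - 1 = l := by omega
  rw [e1, e2]
  set x := π (X (some 1)) with hx
  set y := π (X (some 3)) with hy
  have e3 : y ^ (a + k + 1) * y ^ l = y ^ (2 * (a + k)) := by
    rw [← pow_add]
    congr 1
    omega
  have e4 : x ^ (a + k + a) * x ^ k = x ^ (2 * (a + k)) := by
    rw [← pow_add]
    congr 1
    omega
  have e5 : x ^ (a + k + a) * x ^ k * y ^ (a + k + 1) * y ^ l =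
      x ^ (2 * (a + k)) * y ^ (2 * (a + k)) := by
    rw [e4, mul_assoc, e3]
  have e6 : π (C ((2 : ZMod p)⁻¹)) * 2 = 1 := by
    have h : (C ((2 : ZMod p)⁻¹) : FF p) * 2 = 1 := by
      have h' : (C ((2 : ZMod p)⁻¹) : FF p) * C 2 = 1 := by
        rw [← map_mul, inv_mul_cancel₀ (Psi_two hp), map_one]
      have h'' : (C (2 : ZMod p) : FF p) = 2 := map_ofNat _ _
      rwa [h''] at h'
    have h1 := congrArg π h
    rwa [map_mul, map_one, map_ofNat] at h1
  rw [e5]
  have e7 : (x * x * y * y) ^ (a + k) = x ^ (2 * (a + k)) * y ^ (2 * (a + k)) := by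
    rw [pow_mul, pow_mul, ← mul_pow]
    congr 1
    ring
  rw [e7]
  linear_combination (-(x ^ (2 * (a + k)) * y ^ (2 * (a + k)))) * e6

theorem Psi_unit {S : Type*} [CommRing S] {u u' v v' : S} (hu : u * u' = 1) (hv : v * v' = 1)
    {a k l m : ℕ} (h : v = u ^ a) (h1 : m = a + k) (h2 : m = 1 + l) (x y z t : S) :
    (u' * x) ^ (m + a) * (u * y) ^ k * (v * z) ^ (m + 1) * (v' * t) ^ l =
      x ^ (m + a) * y ^ k * z ^ (m + 1) * t ^ l := by
  have e1 : u' ^ (m + a) * u ^ k * v ^ (m + 1) * v' ^ l = 1 := by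
    have e2 : u' ^ (m + a) * u ^ k = (u * u') ^ k * u' ^ (2 * a) := by
      rw [mul_pow, mul_comm (u ^ k), mul_assoc, mul_comm (u ^ k), ← mul_assoc, ← pow_add]
      congr 2
      omega
    have e3 : v ^ (m + 1) * v' ^ l = (v * v') ^ l * v ^ 2 := by
      rw [mul_pow, mul_comm (v ^ l), mul_assoc, ← pow_add, mul_comm]
      congr 2
      omega
    rw [mul_assoc, e3, e2, hu, hv, one_pow, one_pow, one_mul, one_mul, h, ← pow_mul,
      mul_comm a 2, ← mul_pow, mul_comm u' u, hu, one_pow]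
  calc (u' * x) ^ (m + a) * (u * y) ^ k * (v * z) ^ (m + 1) * (v' * t) ^ l =
      (u' ^ (m + a) * u ^ k * v ^ (m + 1) * v' ^ l) *
        (x ^ (m + a) * y ^ k * z ^ (m + 1) * t ^ l) := by
        rw [mul_pow, mul_pow, mul_pow, mul_pow]
        ring
    _ = _ := by rw [e1, one_mul]

/-- Approximate invariance. `G` multiplies the second product by
`wU'^(m+a) wU^(m-a) wV^(m+1) wV'^(m-1) = wU'^(2a) wV^2`, which is `1` modulo `σ^K` since
`wV ≡ wU^a`, and the third one by `wU^(2a) wV'^2`, also `1` modulo `σ^K` since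
`wV' - wU'^a = wV' wU'^a (wU^a - wV)`. The first product is invariant. -/
theorem Psi_GG [Fact p.Prime] (P : Par p) {m a K : ℕ} (hm : 1 ≤ m) (ha : a ≤ m)
    (h : PowerSeries.X ^ K ∣ P.wV - P.wU ^ a) :
    sX ^ K ∣ lin (P.mat.map sq) (Psi m a : FF p) - Psi m a := by
  rw [← Ideal.mem_span_singleton, ← Ideal.Quotient.eq_zero_iff_mem]
  set π := Ideal.Quotient.mk (Ideal.span {(sX ^ K : FF p)}) with hπ
  obtain ⟨k, hk⟩ := Nat.exists_eq_add_of_le ha
  obtain ⟨l, hl⟩ := Nat.exists_eq_add_of_le hm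
  have e1 : m - a = k := by omega
  have e2 : m - 1 = l := by omega
  have hUU : (ev P.wU : FF p) * ev P.wU' = 1 := by rw [← map_mul, P.wU_mul, map_one]
  have hVV : (ev P.wV : FF p) * ev P.wV' = 1 := by rw [← map_mul, P.wV_mul, map_one]
  have hv : π (ev P.wV) = π (ev P.wU) ^ a := by
    obtain ⟨c, hc⟩ := h
    have h1 := congrArg (ev (A := ZMod p)) hc
    rw [map_sub, map_mul, map_pow, map_pow, ev_X] at h1
    rw [← map_pow, ← sub_eq_zero, ← map_sub, h1, hπ, Ideal.Quotient.eq_zero_iff_mem,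
      Ideal.mem_span_singleton]
    exact dvd_mul_right _ _
  have hπU : π (ev P.wU) * π (ev P.wU') = 1 := by rw [← map_mul, hUU, map_one]
  have hπV : π (ev P.wV) * π (ev P.wV') = 1 := by rw [← map_mul, hVV, map_one]
  have hπU' : π (ev P.wU') * π (ev P.wU) = 1 := by rw [mul_comm, hπU]
  have hπV' : π (ev P.wV') * π (ev P.wV) = 1 := by rw [mul_comm, hπV]
  have hv' : π (ev P.wV') = π (ev P.wU') ^ a := by
    calc π (ev P.wV') = π (ev P.wV') * (π (ev P.wU) * π (ev P.wU')) ^ a := by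
          rw [hπU, one_pow, mul_one]
      _ = (π (ev P.wV') * π (ev P.wU) ^ a) * π (ev P.wU') ^ a := by rw [mul_pow, mul_assoc]
      _ = π (ev P.wU') ^ a := by rw [← hv, hπV', one_mul]
  rw [map_sub, sub_eq_zero, Psi]
  simp only [map_sub, map_add, map_mul, map_pow, lin_lp, lin_lm, lin_lp', lin_lm', lin_C, e1, e2]
  rw [Psi_unit hπU hπV hv hk hl (π lm) (π lp) (π lp') (π lm'),
    Psi_unit hπU' hπV' hv' hk hl (π lp) (π lm) (π lm') (π lp')]
  congr 1
  congr 1
  calc π (ev P.wU) * π lp * (π (ev P.wU') * π lm) * (π (ev P.wV) * π lp') *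
      (π (ev P.wV') * π lm') = (π (ev P.wU) * π (ev P.wU')) * (π (ev P.wV) * π (ev P.wV')) *
        (π lp * π lm * π lp' * π lm') := by ring
    _ = _ := by rw [hπU, hπV, one_mul, one_mul]

/-- The exponent `(t; m, m, m, m)`. -/
noncomputable def expo (t m : ℕ) : V →₀ ℕ := xone m + Finsupp.single none t

theorem Psi_expo_some (t m : ℕ) (j : Fin 4) : expo t m (some j) = m := by
  rw [expo, Finsupp.add_apply, Finsupp.single_eq_of_ne (by simp), add_zero]
  rfl

theorem Psi_expo_none (t m : ℕ) : expo t m none = t := by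
  rw [expo, Finsupp.add_apply, Finsupp.single_eq_same, xone_none, zero_add]

theorem Psi_frob [Fact p.Prime] (e : ℕ) (x y : FF p) :
    (x + y) ^ p ^ e = x ^ p ^ e + y ^ p ^ e := by
  have : CharP (FF p) p := charP_of_injective_algebraMap (algebraMap (ZMod p) (FF p)).injective p
  exact add_pow_char_pow x y p e

theorem Psi_coeff_lt {e : V →₀ ℕ} {n : ℕ} (i j : Fin 4) (hi : e (some i) < n)
    (hj : e (some j) < n) (u v : FF p) :
    coeff e (X (some i) ^ n * u + X (some j) ^ n * v) = 0 := by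
  rw [map_add, X_pow_dvd_iff.1 (dvd_mul_right (X (some i) ^ n) u) e hi,
    X_pow_dvd_iff.1 (dvd_mul_right (X (some j) ^ n) v) e hj, add_zero]

/-- The exponent of a term of the first product. -/
noncomputable def Psi_ex (m k l : ℕ) : V →₀ ℕ :=
  KapG_ex (2 * (m - k) + 2 * (m - l)) (2 * (m - k)) (2 * k) (2 * (m - l)) (2 * l)

theorem Psi_first [Fact p.Prime] (m : ℕ) : ((lp * lm * lp' * lm') ^ m : FF p) =
    ∑ k ∈ Finset.range (m + 1), ∑ l ∈ Finset.range (m + 1),
      monomial (Psi_ex m k l) (((-1) ^ (m - k) * (m.choose k : ℕ)) *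
        ((-1) ^ (m - l) * (m.choose l : ℕ)) : ZMod p) := by
  have h1 : (lp * lm * lp' * lm' : FF p) =
      (X (some 1) ^ 2 + -(sX ^ 2 * X (some 0) ^ 2)) *
        (X (some 3) ^ 2 + -(sX ^ 2 * X (some 2) ^ 2)) := by
    rw [lp, lm, lp', lm']
    ring
  rw [h1, mul_pow, add_pow, add_pow, Finset.sum_mul_sum]
  refine Finset.sum_congr rfl fun k _ => Finset.sum_congr rfl fun l _ => ?_
  have h2 : (monomial (Psi_ex m k l) (((-1) ^ (m - k) * (m.choose k : ℕ)) *
        ((-1) ^ (m - l) * (m.choose l : ℕ)) : ZMod p) : FF p) =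
      C (((-1) ^ (m - k) * (m.choose k : ℕ)) * ((-1) ^ (m - l) * (m.choose l : ℕ)) : ZMod p) *
        monomial (Psi_ex m k l) 1 := by
    rw [← monomial_zero_eq_C_apply, monomial_mul_monomial, zero_add, mul_one]
  rw [h2, KapG_monomial]
  have h3 : Psi_ex m k l none = 2 * (m - k) + 2 * (m - l) := rfl
  have h4 : Psi_ex m k l (some 0) = 2 * (m - k) := rfl
  have h5 : Psi_ex m k l (some 1) = 2 * k := rfl
  have h6 : Psi_ex m k l (some 2) = 2 * (m - l) := rfl
  have h7 : Psi_ex m k l (some 3) = 2 * l := rfl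
  rw [h3, h4, h5, h6, h7]
  simp only [map_mul, map_pow, map_neg, map_one, map_natCast]
  rw [neg_pow (sX ^ 2 * X (some 0) ^ 2 : FF p), neg_pow (sX ^ 2 * X (some 2) ^ 2 : FF p),
    pow_add, mul_pow, mul_pow, ← pow_mul, ← pow_mul, ← pow_mul, ← pow_mul, ← pow_mul]
  ring

theorem Psi_first_coeff [Fact p.Prime] {e h t : ℕ} (hm : p ^ e - 1 = 2 * h) :
    coeff (expo t (p ^ e - 1)) ((lp * lm * lp' * lm') ^ (p ^ e - 1) : FF p) =
      if t = 2 * (p ^ e - 1) then 1 else 0 := by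
  classical
  rw [Psi_first, map_sum]
  simp_rw [map_sum, coeff_monomial]
  have hiff : ∀ k l, expo t (p ^ e - 1) = Psi_ex (p ^ e - 1) k l →
      k = h ∧ l = h ∧ t = 2 * (p ^ e - 1) := by
    intro k l hkl
    have h0 := DFunLike.congr_fun hkl none
    have h2 := DFunLike.congr_fun hkl (some 1)
    have h4 := DFunLike.congr_fun hkl (some 3)
    rw [Psi_expo_none] at h0
    rw [Psi_expo_some] at h2 h4
    have h0' : t = 2 * ((p ^ e - 1) - k) + 2 * ((p ^ e - 1) - l) := h0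
    have h2' : p ^ e - 1 = 2 * k := h2
    have h4' : p ^ e - 1 = 2 * l := h4
    omega
  rw [Finset.sum_eq_single h, Finset.sum_eq_single h]
  · split_ifs with h1 h2 h2
    · have h3 : (p ^ e - 1 - h) = h := by omega
      rw [h3]
      have h4 := choose_sq (p := p) e h (by omega)
      have h5 : ((-1 : ZMod p) ^ h) ^ 2 = 1 := by rw [← pow_mul, mul_comm, pow_mul]; simp
      linear_combination ((-1 : ZMod p) ^ h) ^ 2 * h4 + h5
    · exact absurd (hiff h h h1).2.2 h2
    · exfalso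
      apply h1
      ext v
      rcases v with _ | j
      · rw [Psi_expo_none]
        show t = 2 * ((p ^ e - 1) - h) + 2 * ((p ^ e - 1) - h)
        omega
      · rw [Psi_expo_some]
        fin_cases j
        · show p ^ e - 1 = 2 * ((p ^ e - 1) - h)
          omega
        · show p ^ e - 1 = 2 * h
          omega
        · show p ^ e - 1 = 2 * ((p ^ e - 1) - h)
          omega
        · show p ^ e - 1 = 2 * h
          omega
    · rfl
  · intro l _ hl
    rw [if_neg]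
    intro h1
    exact hl (hiff _ _ h1).2.1
  · intro h1
    exact absurd (Finset.mem_range.2 (by omega)) h1
  · intro k _ hk
    refine Finset.sum_eq_zero fun l _ => ?_
    rw [if_neg]
    intro h1
    exact hk (hiff _ _ h1).1
  · intro h1
    exact absurd (Finset.mem_range.2 (by omega)) h1

/-- The coefficient of `(x_0 x_1 x_2 x_3)^m` in `Psi`, `m = p^e - 1` even: in
`(lp lm)^m (lp' lm')^m = (x_1² - σ² x_0²)^m (x_3² - σ² x_2²)^m` it is
`(C(m, m/2) (-σ²)^(m/2))^2 = σ^(2m)` (`choose_sq`). In the two other products it is zero: by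
degree it would be the product of a coefficient of the form in `x_0, x_1` with the coefficient of
`(x_2 x_3)^m` in `lp'^(m+1) lm'^(m-1)`, and `lp'^(m+1) = lp'^q = x_3^q + σ^q x_2^q`
(`q = m + 1 = p^e`), so every monomial has `x_2`- or `x_3`-exponent `≥ q > m`; same for
`lm'^(m+1) lp'^(m-1)`. -/
theorem coeff_Psi [Fact p.Prime] (hp : p ≠ 2) {e a t : ℕ} (he : 1 ≤ e) (ha : a ≤ p ^ e - 1) :
    coeff (expo t (p ^ e - 1)) (Psi (p ^ e - 1) a : FF p) =
      if t = 2 * (p ^ e - 1) then 1 else 0 := by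
  have hpp : p.Prime := Fact.out
  have hq : 1 ≤ p ^ e := Nat.one_le_pow _ _ hpp.pos
  have hodd : Odd (p ^ e) := (hpp.odd_of_ne_two hp).pow
  obtain ⟨h, hh⟩ := hodd
  have hm : p ^ e - 1 = 2 * h := by omega
  have h1 : (lp' : FF p) ^ (p ^ e - 1 + 1) =
      X (some 3) ^ (p ^ e) + X (some 2) ^ (p ^ e) * sX ^ (p ^ e) := by
    rw [Nat.sub_add_cancel hq, lp', Psi_frob, mul_pow, mul_comm (sX ^ p ^ e)]
  have h2 : (lm' : FF p) ^ (p ^ e - 1 + 1) =
      X (some 3) ^ (p ^ e) + X (some 2) ^ (p ^ e) * (-sX) ^ (p ^ e) := by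
    rw [Nat.sub_add_cancel hq, lm', sub_eq_add_neg, ← neg_mul, Psi_frob, mul_pow,
      mul_comm ((-sX) ^ p ^ e)]
  have h3 : ∀ i : Fin 4, expo t (p ^ e - 1) (some i) < p ^ e := by
    intro i
    rw [Psi_expo_some]
    omega
  rw [Psi, map_sub, Psi_first_coeff hm, coeff_C_mul, h1, h2]
  have h4 : ∀ A B D E : FF p, coeff (expo t (p ^ e - 1))
      (A * B * (X (some 3) ^ p ^ e + X (some 2) ^ p ^ e * D) * E) = 0 := by
    intro A B D E
    have h5 : A * B * (X (some 3) ^ p ^ e + X (some 2) ^ p ^ e * D) * E =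
        X (some 3) ^ p ^ e * (A * B * E) + X (some 2) ^ p ^ e * (D * A * B * E) := by
      ring
    rw [h5]
    exact Psi_coeff_lt 3 2 (h3 3) (h3 2) _ _
  rw [map_add, h4, h4, add_zero, mul_zero, sub_zero]

end Pool.Agent.W_35cfd6_h24
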