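import Pool.Agent.W_35cfd6_h24.PP
import Pool.Agent.W_35cfd6_h24.Lin

/-!
# The ring `RR P`

The elements `u` of `UU p` whose homogeneous components `u_n` satisfy
`s^(m⁻) row (m + 3 n) u_n = s^(m⁺) G (row m u_n)` for all `m` (theta functions).
-/

set_option autoImplicit false

namespace Pool.Agent.W_35cfd6_h24

open MvPowerSeries

variable {p : ℕ}

/-- The ring of theta functions. -/
noncomputable def RR (P : Par p) : Subring (UU p) :=
  (PPring p).comap (Dsub.prod ((GG P : UU p →ₐ[LL p] UU p) : UU p →+* UU p))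

theorem mem_RR_iff_PP (P : Par p) (u : UU p) : u ∈ RR P ↔ (Dsub u, GG P u) ∈ PPring p := Iff.rfl

theorem Ring_degree (e : V →₀ ℕ) : e.degree = e none + dg e := by
  rw [Finsupp.degree_eq_sum, Fintype.sum_option, dg]

/-- The elements of degree `0` are power series in `s`. -/
theorem Ring_eq_ev {f : FF p} (h : IsHom 0 f) :
    f = ev (PowerSeries.mk fun n => coeff (Finsupp.single none n) f) := by
  classical
  ext e
  rw [coeff_ev]
  split_ifs with he
  · rw [PowerSeries.coeff_mk, ← he]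
    rfl
  · by_contra hne
    have h1 : dg e = 0 := h e hne
    apply he
    ext v
    cases v with
    | none => rw [Finsupp.single_eq_same]
    | some j =>
      rw [Finsupp.single_apply, if_neg (by simp)]
      rw [dg] at h1
      exact Finset.sum_eq_zero_iff.1 h1 j (Finset.mem_univ j)

theorem Ring_fix (P : Par p) {f : FF p} (h : IsHom 0 f) : GG P f = f := by
  rw [Ring_eq_ev h, GG_ev]

theorem Ring_zero {k : ℕ} {r : FF p} (h : r = sX ^ (k + 1) * r) : r = 0 := by
  have h1 : ∀ N : ℕ, r = sX ^ (N * (k + 1)) * r := by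
    intro N
    induction N with
    | zero => rw [zero_mul, pow_zero, one_mul]
    | succ N ih =>
      rw [Nat.succ_mul, pow_add, mul_assoc, ← h]
      exact ih
  refine eq_zero_of_dvd r fun K => ⟨K * (k + 1), Nat.le_mul_of_pos_right K (Nat.succ_pos k), ?_⟩
  exact ⟨r, h1 K⟩

/-- The coefficients of `Dsub u` (`MvPowerSeries.coeff_rescale`): the coefficient of `x^e` is
multiplied by `T^(-3 dg e)`. -/
theorem co_Dsub (u : UU p) (e : V →₀ ℕ) (m : ℤ) : co (Dsub u) e m = co u e (m + 3 * dg e) := by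
  classical
  rw [co, Dsub, coeff_rescale]
  have h1 : (e.prod fun (v : V) (n : ℕ) => (v.elim (1 : LL p) fun _ =>
      AddMonoidAlgebra.single (-3) 1) ^ n) = AddMonoidAlgebra.single (-(3 * (dg e : ℤ))) 1 := by
    rw [Finsupp.prod_fintype _ _ fun v => pow_zero _, Fintype.prod_option]
    simp only [Option.elim_none, Option.elim_some, one_pow, one_mul]
    rw [Finset.prod_pow_eq_pow_sum, AddMonoidAlgebra.single_pow, one_pow]
    congr 1
    rw [dg, nsmul_eq_mul]
    push_cast
    ring
  rw [h1, AddMonoidAlgebra.coeff_single_mul_apply, one_mul, neg_neg, add_comm, co]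

/-- Proof: `u ∈ RR P` iff `s^(m⁻) row m (Dsub u) = s^(m⁺) G (row m u)` for all `m` (`row_GG`); apply
`cmp n` (`ext_cmp`, `cmp_sX_pow_mul`, `GG_cmp`, `row_cmp`) and use
`cmp n (row m (Dsub u)) = row (m + 3 n) (cmp n u)` (`co_Dsub`). -/
theorem mem_RR_iff (P : Par p) (u : UU p) : u ∈ RR P ↔ ∀ (n : ℕ) (m : ℤ),
    sX ^ (-m).toNat * row (m + 3 * n) (cmp n u) = sX ^ m.toNat * GG P (row m (cmp n u)) := by
  rw [mem_RR_iff_PP, mem_PPring]
  have h1 : ∀ (n : ℕ) (m : ℤ), cmp n (row m (Dsub u)) = row (m + 3 * n) (cmp n u) := by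
    intro n m
    rw [row_cmp]
    ext e
    rw [coeff_cmp, coeff_cmp, coeff_row, coeff_row, co_Dsub]
    split_ifs with h
    · rw [h]
    · rfl
  constructor
  · intro h n m
    have h2 := congrArg (cmp n) (h m)
    simp only at h2
    rw [cmp_sX_pow_mul, cmp_sX_pow_mul, h1, row_GG, ← GG_cmp, ← row_cmp] at h2
    exact h2
  · intro h m
    refine ext_cmp fun n => ?_
    simp only
    rw [cmp_sX_pow_mul, cmp_sX_pow_mul, h1, row_GG, ← GG_cmp, ← row_cmp]
    exact h n m

theorem mem_RR_iff_hom (P : Par p) {n : ℕ} {u : UU p} (hu : IsHom n u) :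
    u ∈ RR P ↔ ∀ m : ℤ,
      sX ^ (-m).toNat * row (m + 3 * n) u = sX ^ m.toNat * GG P (row m u) := by
  rw [mem_RR_iff]
  constructor
  · intro h m
    have h1 := h n m
    rwa [hu.cmp_self] at h1
  · intro h n' m
    by_cases hn : n' = n
    · subst hn
      rw [hu.cmp_self]
      exact h m
    · rw [hu.cmp_ne hn, row_zero, row_zero, map_zero, mul_zero, mul_zero]

theorem RR_cmp {P : Par p} {u : UU p} (hu : u ∈ RR P) (n : ℕ) : cmp n u ∈ RR P := by
  exact (mem_RR_iff_hom P (isHom_cmp n u)).2 fun m => (mem_RR_iff P u).1 hu n m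

theorem RR_of_cmp {P : Par p} {u : UU p} (h : ∀ n, cmp n u ∈ RR P) : u ∈ RR P := by
  exact (mem_RR_iff P u).2 fun n m => (mem_RR_iff_hom P (isHom_cmp n u)).1 (h n) m

/-- `RR P` is saturated with respect to `s`: the conditions of `mem_RR_iff` are linear over
`F_p[s]` and `s` can be cancelled. -/
theorem RR_of_sX_pow_mul {P : Par p} {K : ℕ} {u : UU p} (h : sX ^ K * u ∈ RR P) : u ∈ RR P := by
  rw [mem_RR_iff] at h ⊢
  intro n m
  have h1 := h n m
  rw [cmp_sX_pow_mul, row_sX_pow_mul, row_sX_pow_mul, map_mul, map_pow, GG_sX,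
    mul_left_comm, mul_left_comm _ (sX ^ K)] at h1
  exact sX_pow_mul_cancel h1

theorem Ring_ev (P : Par p) (c : PowerSeries (ZMod p)) : (iota (ev c) : UU p) ∈ RR P := by
  refine (mem_RR_iff_hom P (IsHom.iota (IsHom.ev c))).2 fun m => ?_
  rw [Nat.cast_zero, mul_zero, add_zero, row_iota]
  split_ifs with hm
  · rw [hm, neg_zero, GG_ev]
  · rw [map_zero, mul_zero, mul_zero]

theorem sX_mem_RR (P : Par p) : (sX : UU p) ∈ RR P := by
  have h := Ring_ev P (PowerSeries.X : PowerSeries (ZMod p))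
  rwa [ev_X, iota_sX] at h

theorem sX_pow_mul_mem_RR {P : Par p} (K : ℕ) {u : UU p} (h : u ∈ RR P) : sX ^ K * u ∈ RR P := by
  exact mul_mem (pow_mem (sX_mem_RR P) K) h

theorem ev_mem_RR (P : Par p) (c : PowerSeries (ZMod p)) : (iota (ev c) : UU p) ∈ RR P := by
  exact Ring_ev P c

/-- Homogeneous elements of degree `0` of `RR P` have no `T`: for `m ≠ 0` the relation reads
`s^(m⁻) u_m = s^(m⁺) G u_m = s^(m⁺) u_m` (`G` fixes the elements of degree `0`, which are power
series in `s`), and `m⁻ ≠ m⁺`. -/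
theorem RR_row_of_hom_zero {P : Par p} {u : UU p} (hu : u ∈ RR P) (h : IsHom 0 u) {m : ℤ}
    (hm : m ≠ 0) : row m u = 0 := by
  have h1 := (mem_RR_iff_hom P h).1 hu m
  rw [Nat.cast_zero, mul_zero, add_zero, Ring_fix P (h.row m)] at h1
  rcases lt_or_gt_of_ne hm with h2 | h2
  · obtain ⟨k, hk⟩ : ∃ k : ℕ, (-m).toNat = k + 1 := ⟨(-m).toNat - 1, by omega⟩
    have hk2 : m.toNat = 0 := by omega
    rw [hk, hk2, pow_zero, one_mul] at h1
    exact Ring_zero h1.symm
  · obtain ⟨k, hk⟩ : ∃ k : ℕ, m.toNat = k + 1 := ⟨m.toNat - 1, by omega⟩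
    have hk2 : (-m).toNat = 0 := by omega
    rw [hk, hk2, pow_zero, one_mul] at h1
    exact Ring_zero h1

theorem RR_hom_zero {P : Par p} {u : UU p} (hu : u ∈ RR P) (h : IsHom 0 u) :
    u = iota (row 0 u) := by
  refine ext_row fun m => ?_
  rw [row_iota]
  split_ifs with hm
  · rw [hm]
  · exact RR_row_of_hom_zero hu h hm

/-- An element homogeneous of degree `0` of `UU p` whose rows `m ≠ 0` vanish is in `RR P`. -/
theorem RR_of_hom_zero {P : Par p} {u : UU p} (h : IsHom 0 u) (h0 : ∀ m ≠ 0, row m u = 0) :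
    u ∈ RR P := by
  refine (mem_RR_iff_hom P h).2 fun m => ?_
  rw [Nat.cast_zero, mul_zero, add_zero, Ring_fix P (h.row m)]
  by_cases hm : m = 0
  · rw [hm, neg_zero]
  · rw [h0 m hm, mul_zero, mul_zero]

/-- `RR P` is closed: if `u` can be approximated by elements of `RR P` in every total degree then
`u ∈ RR P`. Here `Finsupp.degree e` is the total degree of `e` (with the exponent of `s`). Proof: in
`mem_RR_iff` the coefficient at `e` of either side depends only on finitely many coefficients of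
`u` (for the right side by `coeff_lin` and `linK_ne`), with exponents of total degree at most
`Finsupp.degree e`. -/
theorem RR_closed {P : Par p} {u : UU p}
    (h : ∀ N : ℕ, ∃ v ∈ RR P, ∀ e : V →₀ ℕ, e.degree ≤ N → coeff e u = coeff e v) :
    u ∈ RR P := by
  rw [mem_RR_iff]
  intro n m
  ext e
  obtain ⟨v, hv, huv⟩ := h e.degree
  have h1 := congrArg (coeff e) ((mem_RR_iff P v).1 hv n m)
  have h2 : ∀ d : V →₀ ℕ, d.degree ≤ e.degree → ∀ m' : ℤ,
      coeff d (row m' (cmp n u)) = coeff d (row m' (cmp n v)) := by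
    intro d hd m'
    rw [row_cmp, row_cmp, coeff_cmp, coeff_cmp, coeff_row, coeff_row, co, co, huv d hd]
  have h3 : ∀ k : ℕ, (e - Finsupp.single none k).degree ≤ e.degree := by
    intro k
    rw [Ring_degree, Ring_degree]
    have h4 : dg (e - Finsupp.single none k) = dg e := by
      simp [dg]
    rw [h4, Finsupp.tsub_apply]
    omega
  rw [coeff_sX_pow_mul, coeff_sX_pow_mul] at h1 ⊢
  rw [h2 _ (h3 _), h1]
  split_ifs with h5
  · rw [GG, coeff_lin, coeff_lin]
    refine finsum_congr fun d => ?_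
    by_cases hd : linK P.mat d (e - Finsupp.single none m.toNat) = 0
    · rw [hd, map_zero, zero_mul, zero_mul]
    · obtain ⟨h6, h7⟩ := linK_ne _ hd
      rw [h2 d ?_]
      have h8 := h3 m.toNat
      rw [Ring_degree] at h8 ⊢
      omega
  · rfl

end Pool.Agent.W_35cfd6_h24
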