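import Pool.Agent.W_35cfd6_h24.Defs

/-!
# Rows of elements of `UU p`
-/

set_option autoImplicit false

namespace Pool.Agent.W_35cfd6_h24

open MvPowerSeries

variable {p : ℕ}

instance instDomLL [Fact p.Prime] : IsDomain (LL p) := inferInstance

instance instDomUU [Fact p.Prime] : IsDomain (UU p) := NoZeroDivisors.to_isDomain _

instance instDomFF [Fact p.Prime] : IsDomain (FF p) := NoZeroDivisors.to_isDomain _

instance instCharUU [Fact p.Prime] : CharP (UU p) p :=
  charP_of_injective_algebraMap (algebraMap (ZMod p) (UU p)).injective p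

instance instCharFF [Fact p.Prime] : CharP (FF p) p :=
  charP_of_injective_algebraMap (algebraMap (ZMod p) (FF p)).injective p

@[simp] theorem coeff_row (m : ℤ) (u : UU p) (e : V →₀ ℕ) : coeff e (row m u) = co u e m := rfl

theorem ext_co {u v : UU p} (h : ∀ e m, co u e m = co v e m) : u = v := by
  refine MvPowerSeries.ext fun e => ?_
  exact AddMonoidAlgebra.ext (Finsupp.ext fun m => h e m)

theorem ext_row {u v : UU p} (h : ∀ m, row m u = row m v) : u = v :=
  ext_co fun e m => by rw [← coeff_row, ← coeff_row, h]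

@[simp] theorem co_mkU (f : (V →₀ ℕ) → ℤ → ZMod p) (hf : ∀ e, (Function.support (f e)).Finite)
    (e : V →₀ ℕ) (m : ℤ) : co (mkU f hf) e m = f e m := rfl

@[simp] theorem co_zero (e : V →₀ ℕ) (m : ℤ) : co (0 : UU p) e m = 0 := by simp [co]

@[simp] theorem co_add (u v : UU p) (e : V →₀ ℕ) (m : ℤ) :
    co (u + v) e m = co u e m + co v e m := by simp [co]

@[simp] theorem co_neg (u : UU p) (e : V →₀ ℕ) (m : ℤ) : co (-u) e m = -co u e m := by simp [co]

@[simp] theorem co_sub (u v : UU p) (e : V →₀ ℕ) (m : ℤ) :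
    co (u - v) e m = co u e m - co v e m := by simp [co]

theorem co_sum {ι : Type*} (s : Finset ι) (u : ι → UU p) (e : V →₀ ℕ) (m : ℤ) :
    co (∑ i ∈ s, u i) e m = ∑ i ∈ s, co (u i) e m := by
  classical
  induction s using Finset.induction_on with
  | empty => simp
  | insert a s ha ih => rw [Finset.sum_insert ha, Finset.sum_insert ha, co_add, ih]

theorem co_mono (e : V →₀ ℕ) (m : ℤ) (e' : V →₀ ℕ) (m' : ℤ) :
    co (mono e m : UU p) e' m' = if e' = e ∧ m' = m then 1 else 0 := by
  classical
  rw [co, mono, coeff_monomial]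
  by_cases h : e' = e
  · simp [h, eq_comm]
  · simp [h]

theorem co_one (e' : V →₀ ℕ) (m' : ℤ) :
    co (1 : UU p) e' m' = if e' = 0 ∧ m' = 0 then 1 else 0 := by
  have : (1 : UU p) = mono 0 0 := rfl
  rw [this, co_mono]

theorem finite_co (u : UU p) (e : V →₀ ℕ) : {m | co u e m ≠ 0}.Finite := by
  refine (MvPowerSeries.coeff e u).coeff.support.finite_toSet.subset fun m hm => ?_
  simpa [co] using hm

@[simp] theorem row_zero (m : ℤ) : row m (0 : UU p) = 0 := by ext e; simp

@[simp] theorem row_add (m : ℤ) (u v : UU p) : row m (u + v) = row m u + row m v := by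
  ext e; simp

@[simp] theorem row_neg (m : ℤ) (u : UU p) : row m (-u) = -row m u := by ext e; simp

@[simp] theorem row_sub (m : ℤ) (u v : UU p) : row m (u - v) = row m u - row m v := by ext e; simp

theorem row_sum {ι : Type*} (s : Finset ι) (u : ι → UU p) (m : ℤ) :
    row m (∑ i ∈ s, u i) = ∑ i ∈ s, row m (u i) := by
  ext e; simp [co_sum]

theorem row_one (m : ℤ) : row m (1 : UU p) = if m = 0 then 1 else 0 := by
  classical
  ext e
  rw [coeff_row, co_one]
  by_cases h : m = 0 <;> simp [h, coeff_one]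

theorem row_mono (m : ℤ) (e : V →₀ ℕ) (m' : ℤ) :
    row m (mono e m' : UU p) = if m = m' then monomial e 1 else 0 := by
  classical
  ext e'
  rw [coeff_row, co_mono]
  by_cases h : m = m' <;> simp [h, coeff_monomial]

end Pool.Agent.W_35cfd6_h24
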