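import Pool.Agent.W_35cfd6_h24.Ring

/-!
# Theta functions: definition
-/

set_option autoImplicit false

namespace Pool.Agent.W_35cfd6_h24

open MvPowerSeries

variable {p : ℕ}

/-- The exponent of `s` in row `m + 3 n j` of a theta function: `j m + 3 n j (j - 1) / 2`. -/
def eE (n : ℕ) (m j : ℤ) : ℤ := j * m + 3 * n * (j * (j - 1) / 2)

/-- The coefficients of the theta function `th P n m h`. -/
noncomputable def thc (P : Par p) (n : ℕ) (m : ℤ) (h : FF p) (e : V →₀ ℕ) (M : ℤ) : ZMod p :=
  open Classical in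
  if (3 * n : ℤ) ∣ M - m then
    coeff e (sX ^ (eE n m ((M - m) / (3 * n))).toNat * (GE P ^ ((M - m) / (3 * n))) h)
  else 0

/-- The theta function `∑_j T^(m + 3 n j) s^(j m + 3 n j (j - 1) / 2) G^j h`, for `n ≥ 1` and
`0 ≤ m ≤ 3 n`. -/
noncomputable def th (P : Par p) (n : ℕ) (m : ℤ) (h : FF p) : UU p :=
  open Classical in
  if H : ∀ e, (Function.support (thc P n m h e)).Finite then mkU _ H else 0

/-- The theta function of a monomial. -/
noncomputable def thm (P : Par p) (e : V →₀ ℕ) (m : ℤ) : UU p :=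
  th P (dg e) m (monomial e 1)

end Pool.Agent.W_35cfd6_h24
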