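import Pool.Agent.W_35cfd6_h24.Th

/-!
# Theta functions: rows
-/

set_option autoImplicit false

namespace Pool.Agent.W_35cfd6_h24

open MvPowerSeries

variable {p : ℕ}

theorem eE_zero (n : ℕ) (m : ℤ) : eE n m 0 = 0 := by
  simp [eE]

/-- `(j + 1) j / 2 - j (j - 1) / 2 = j`. -/
theorem eE_succ (n : ℕ) (m j : ℤ) : eE n m (j + 1) = eE n m j + (m + 3 * n * j) := by
  have h : (j + 1) * (j + 1 - 1) / 2 = j * (j - 1) / 2 + j := by
    rw [show (j + 1) * (j + 1 - 1) = j * (j - 1) + j * 2 by ring]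
    exact Int.add_mul_ediv_right _ _ (by norm_num)
  rw [eE, eE, h]
  ring

theorem eE_one (n : ℕ) (m : ℤ) : eE n m 1 = m := by
  simp [eE]

theorem eE_neg_one (n : ℕ) (m : ℤ) : eE n m (-1) = 3 * n - m := by
  have h : (-1 : ℤ) * (-1 - 1) / 2 = 1 := by norm_num
  rw [eE, h]
  ring

/-- `eE (q n) (q m) j = q eE n m j`. -/
theorem eE_mul (q n : ℕ) (m j : ℤ) : eE (q * n) (q * m) j = q * eE n m j := by
  rw [eE, eE]
  push_cast
  ring

theorem Th1_two (n : ℕ) (m j : ℤ) : 2 * eE n m j = 2 * (j * m) + 3 * (n * (j * (j - 1))) := by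
  have h : 2 * (j * (j - 1) / 2) = j * (j - 1) :=
    Int.mul_ediv_cancel' (Int.even_mul_pred_self j).two_dvd
  rw [eE, mul_add]
  linear_combination (3 * (n : ℤ)) * h

theorem Th1_pred {j : ℤ} (hj : 0 ≤ j) : 0 ≤ j * (j - 1) := by
  rcases hj.eq_or_lt with h | h
  · rw [← h, zero_mul]
  · exact mul_nonneg hj (by omega)

/-- For `0 ≤ m ≤ 3 n` the exponents are nonnegative. For `j ≥ 0` clear; for `j = -i < 0` it is
`3 n i (i + 1) / 2 - i m ≥ 3 n i (i + 1) / 2 - 3 n i ≥ 0`. -/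
theorem eE_nonneg (n : ℕ) {m : ℤ} (h0 : 0 ≤ m) (h1 : m ≤ 3 * n) (j : ℤ) : 0 ≤ eE n m j := by
  have h2 := Th1_two n m j
  have hn : (0 : ℤ) ≤ n := Int.natCast_nonneg n
  rcases le_or_gt 0 j with hj | hj
  · have h3 : 0 ≤ j * (j - 1) := Th1_pred hj
    have h4 : 0 ≤ j * m := mul_nonneg hj h0
    have h5 : 0 ≤ (n : ℤ) * (j * (j - 1)) := mul_nonneg hn h3
    nlinarith
  · have h3 : 0 ≤ (-j) * ((-j) - 1) := Th1_pred (by omega)
    have h4 : 0 ≤ (-j) * (3 * n - m) := mul_nonneg (by omega) (by linarith)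
    have h5 : 0 ≤ (n : ℤ) * ((-j) * ((-j) - 1)) := mul_nonneg hn h3
    nlinarith

/-- If `L ≤ m` and `L ≤ 3 n - m`, `L ≥ 0`, then `eE n m j ≥ L` for all `j ≠ 0`. Proof: for `j ≥ 1`,
`eE ≥ j m ≥ m`. For `j = -i`, `i ≥ 1`: `eE = 3 n i (i + 1) / 2 - i m = i (3 n - m) + 3 n i (i - 1) / 2
≥ 3 n - m`. -/
theorem le_eE (n : ℕ) {m : ℤ} {L : ℕ} (h0 : (L : ℤ) ≤ m) (h1 : (L : ℤ) ≤ 3 * n - m) {j : ℤ}
    (hj : j ≠ 0) : (L : ℤ) ≤ eE n m j := by
  have h2 := Th1_two n m j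
  have hn : (0 : ℤ) ≤ n := Int.natCast_nonneg n
  have hL : (0 : ℤ) ≤ L := Int.natCast_nonneg L
  rcases lt_or_gt_of_ne hj with hj | hj
  · have h3 : 0 ≤ (-j) * ((-j) - 1) := Th1_pred (by omega)
    have h4 : 0 ≤ (-j - 1) * (3 * n - m) := mul_nonneg (by omega) (by linarith)
    have h5 : 0 ≤ (n : ℤ) * ((-j) * ((-j) - 1)) := mul_nonneg hn h3
    nlinarith
  · have h3 : 0 ≤ j * (j - 1) := Th1_pred hj.le
    have h4 : 0 ≤ (j - 1) * m := mul_nonneg (by omega) (by linarith)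
    have h5 : 0 ≤ (n : ℤ) * (j * (j - 1)) := mul_nonneg hn h3
    nlinarith

/-- Only finitely many `j` have `eE n m j < L`, as `n ≥ 1`, `0 ≤ m ≤ 3 n`. For instance
`eE n m j ≥ 3 n j (j - 1) / 2 - 3 n |j|` grows: for `|j| ≥ L + 3` one has `eE n m j ≥ L`. -/
theorem eE_finite (n : ℕ) (hn : 1 ≤ n) {m : ℤ} (h0 : 0 ≤ m) (h1 : m ≤ 3 * n) (L : ℤ) :
    {j : ℤ | eE n m j < L}.Finite := by
  have hn' : (1 : ℤ) ≤ n := by exact_mod_cast hn
  refine (Set.finite_Icc (-(|L| + 2)) (|L| + 2)).subset fun j hj => ?_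
  have hj1 : eE n m j < L := hj
  have h2 := Th1_two n m j
  have hL := le_abs_self L
  have hL0 := abs_nonneg L
  rw [Set.mem_Icc]
  by_contra hc
  rw [not_and_or, not_le, not_le] at hc
  rcases hc with hc | hc
  · have h3 : (|L| + 2) * (|L| + 1) ≤ (-j) * ((-j) - 1) :=
      mul_le_mul (by linarith) (by linarith) (by linarith) (by linarith)
    have h4 : 0 ≤ (-j) * (3 * n - m) := mul_nonneg (by linarith) (by linarith)
    have h6 : 0 ≤ (-j) * ((-j) - 1) := mul_nonneg (by linarith) (by linarith)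
    have h5 : (-j) * ((-j) - 1) ≤ (n : ℤ) * ((-j) * ((-j) - 1)) := by nlinarith
    nlinarith
  · have h3 : (|L| + 2) * (|L| + 1) ≤ j * (j - 1) :=
      mul_le_mul (by linarith) (by linarith) (by linarith) (by linarith)
    have h4 : 0 ≤ j * m := mul_nonneg (by linarith) h0
    have h6 : 0 ≤ j * (j - 1) := mul_nonneg (by linarith) (by linarith)
    have h5 : j * (j - 1) ≤ (n : ℤ) * (j * (j - 1)) := by nlinarith
    nlinarith

/-- For `n ≥ 1`, `0 ≤ m ≤ 3 n` the coefficient function is finitely supported in `T`: a nonzero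
coefficient at `(e, m + 3 n j)` needs `eE n m j ≤ e none`. -/
theorem th_support (P : Par p) {n : ℕ} (hn : 1 ≤ n) {m : ℤ} (h0 : 0 ≤ m) (h1 : m ≤ 3 * n)
    (h : FF p) (e : V →₀ ℕ) : (Function.support (thc P n m h e)).Finite := by
  classical
  refine ((eE_finite n hn h0 h1 ((e none : ℤ) + 1)).image fun j => m + 3 * n * j).subset
    fun M hM => ?_
  rw [Function.mem_support, thc] at hM
  split_ifs at hM with hd
  · obtain ⟨j, hj⟩ := hd
    have hn0 : (3 * n : ℤ) ≠ 0 := by positivity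
    have h3 : (M - m) / (3 * n) = j := by
      rw [hj, Int.mul_ediv_cancel_left _ hn0]
    rw [h3, coeff_sX_pow_mul] at hM
    refine ⟨j, ?_, by show m + 3 * n * j = M; linarith⟩
    show eE n m j < (e none : ℤ) + 1
    by_contra hc
    rw [if_neg (by omega)] at hM
    exact hM rfl
  · exact absurd rfl hM

theorem row_th (P : Par p) {n : ℕ} (hn : 1 ≤ n) {m : ℤ} (h0 : 0 ≤ m) (h1 : m ≤ 3 * n)
    (h : FF p) (j : ℤ) :
    row (m + 3 * n * j) (th P n m h) = sX ^ (eE n m j).toNat * (GE P ^ j) h := by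
  classical
  have hn0 : (3 * n : ℤ) ≠ 0 := by positivity
  ext e
  rw [coeff_row, th, dif_pos (th_support P hn h0 h1 h), co_mkU, thc, if_pos ⟨j, by ring⟩]
  have h3 : (m + 3 * n * j - m) / (3 * n) = j := by
    rw [add_sub_cancel_left, Int.mul_ediv_cancel_left _ hn0]
  rw [h3]

theorem row_th_ne (P : Par p) {n : ℕ} (hn : 1 ≤ n) {m : ℤ} (h0 : 0 ≤ m) (h1 : m ≤ 3 * n)
    (h : FF p) {M : ℤ} (hM : ¬ (3 * n : ℤ) ∣ M - m) : row M (th P n m h) = 0 := by
  classical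
  ext e
  rw [coeff_row, th, dif_pos (th_support P hn h0 h1 h), co_mkU, thc, if_neg hM]
  rfl

theorem isHom_th (P : Par p) {n : ℕ} (hn : 1 ≤ n) {m : ℤ} (h0 : 0 ≤ m) (h1 : m ≤ 3 * n)
    {h : FF p} {k : ℕ} (hh : IsHom k h) : IsHom k (th P n m h) := by
  refine isHom_of_row fun M => ?_
  by_cases hd : (3 * n : ℤ) ∣ M - m
  · obtain ⟨j, hj⟩ := hd
    have hM : M = m + 3 * n * j := by linarith
    rw [hM, row_th P hn h0 h1]
    exact (hh.GE_zpow P j).sX_pow_mul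
  · rw [row_th_ne P hn h0 h1 h hd]
    exact IsHom.zero k

/-- Theta functions are in `RR P`. Check `mem_RR_iff_hom` at row `M`. If `3 n` does not divide
`M - m` both sides are zero. If `M = m + 3 n j` then row `M + 3 n` is
`s^(eE (j + 1)) G^(j + 1) h` and `eE (j + 1) = eE j + M`, so
`s^(M⁻) s^(eE (j + 1)) = s^(M⁺) s^(eE j)` (all exponents nonnegative, `eE_nonneg`). -/
theorem th_mem (P : Par p) {n : ℕ} (hn : 1 ≤ n) {m : ℤ} (h0 : 0 ≤ m) (h1 : m ≤ 3 * n)
    {h : FF p} (hh : IsHom n h) : th P n m h ∈ RR P := by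
  refine (mem_RR_iff_hom P (isHom_th P hn h0 h1 hh)).2 fun M => ?_
  by_cases hd : (3 * n : ℤ) ∣ M - m
  · obtain ⟨j, hj⟩ := hd
    have hM : M = m + 3 * n * j := by linarith
    have hM2 : M + 3 * n = m + 3 * n * (j + 1) := by rw [hM]; ring
    have e1 := eE_nonneg n h0 h1 j
    have e2 := eE_nonneg n h0 h1 (j + 1)
    have e3 := eE_succ n m j
    rw [← hM] at e3
    rw [hM2, row_th P hn h0 h1, hM, row_th P hn h0 h1, ← hM, map_mul, map_pow, GG_sX,
      ← GE_zpow_succ, ← mul_assoc, ← mul_assoc, ← pow_add, ← pow_add]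
    congr 2
    omega
  · have hd2 : ¬ (3 * n : ℤ) ∣ (M + 3 * n) - m := by
      intro hc
      apply hd
      have h3 : M - m = (M + 3 * n - m) - 3 * n := by ring
      rw [h3]
      exact dvd_sub hc (dvd_refl _)
    rw [row_th_ne P hn h0 h1 h hd, row_th_ne P hn h0 h1 h hd2, map_zero, mul_zero, mul_zero]

theorem th_add (P : Par p) {n : ℕ} (hn : 1 ≤ n) {m : ℤ} (h0 : 0 ≤ m) (h1 : m ≤ 3 * n)
    (f g : FF p) : th P n m (f + g) = th P n m f + th P n m g := by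
  refine ext_row fun M => ?_
  rw [row_add]
  by_cases hd : (3 * n : ℤ) ∣ M - m
  · obtain ⟨j, hj⟩ := hd
    have hM : M = m + 3 * n * j := by linarith
    rw [hM, row_th P hn h0 h1, row_th P hn h0 h1, row_th P hn h0 h1, map_add, mul_add]
  · rw [row_th_ne P hn h0 h1 _ hd, row_th_ne P hn h0 h1 _ hd, row_th_ne P hn h0 h1 _ hd, add_zero]

theorem th_sub (P : Par p) {n : ℕ} (hn : 1 ≤ n) {m : ℤ} (h0 : 0 ≤ m) (h1 : m ≤ 3 * n)
    (f g : FF p) : th P n m (f - g) = th P n m f - th P n m g := by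
  refine ext_row fun M => ?_
  rw [row_sub]
  by_cases hd : (3 * n : ℤ) ∣ M - m
  · obtain ⟨j, hj⟩ := hd
    have hM : M = m + 3 * n * j := by linarith
    rw [hM, row_th P hn h0 h1, row_th P hn h0 h1, row_th P hn h0 h1, map_sub, mul_sub]
  · rw [row_th_ne P hn h0 h1 _ hd, row_th_ne P hn h0 h1 _ hd, row_th_ne P hn h0 h1 _ hd, sub_zero]

/-- Theta functions are linear over the power series in `s`. -/
theorem th_ev_mul (P : Par p) {n : ℕ} (hn : 1 ≤ n) {m : ℤ} (h0 : 0 ≤ m) (h1 : m ≤ 3 * n)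
    (c : PowerSeries (ZMod p)) (h : FF p) :
    th P n m (ev c * h) = iota (ev c) * th P n m h := by
  refine ext_row fun M => ?_
  rw [row_iota_mul]
  by_cases hd : (3 * n : ℤ) ∣ M - m
  · obtain ⟨j, hj⟩ := hd
    have hM : M = m + 3 * n * j := by linarith
    rw [hM, row_th P hn h0 h1, row_th P hn h0 h1, map_mul, GE_zpow_ev, mul_left_comm]
  · rw [row_th_ne P hn h0 h1 _ hd, row_th_ne P hn h0 h1 _ hd, mul_zero]

theorem th_sX_pow_mul (P : Par p) {n : ℕ} (hn : 1 ≤ n) {m : ℤ} (h0 : 0 ≤ m) (h1 : m ≤ 3 * n)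
    (K : ℕ) (h : FF p) : th P n m (sX ^ K * h) = sX ^ K * th P n m h := by
  refine ext_row fun M => ?_
  rw [row_sX_pow_mul]
  by_cases hd : (3 * n : ℤ) ∣ M - m
  · obtain ⟨j, hj⟩ := hd
    have hM : M = m + 3 * n * j := by linarith
    rw [hM, row_th P hn h0 h1, row_th P hn h0 h1, map_mul, map_pow, GE_zpow_sX, mul_left_comm]
  · rw [row_th_ne P hn h0 h1 _ hd, row_th_ne P hn h0 h1 _ hd, mul_zero]

/-- The leading term of a theta function: all rows other than row `m` are divisible by `s^L`. -/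
theorem th_approx (P : Par p) {n : ℕ} (hn : 1 ≤ n) {m : ℤ} {L K : ℕ} (h0 : (L : ℤ) ≤ m)
    (h1 : (L : ℤ) ≤ 3 * n - m) {h : FF p} (hh : sX ^ K ∣ h) :
    sX ^ (K + L) ∣ th P n m h - iota h * mono 0 m := by
  have hL : (0 : ℤ) ≤ L := Int.natCast_nonneg L
  have h0' : 0 ≤ m := hL.trans h0
  have h1' : m ≤ 3 * n := by linarith
  rw [sX_pow_dvd_iff_row]
  intro M
  rw [row_sub, row_iota_mul, row_mono]
  by_cases hd : (3 * n : ℤ) ∣ M - m
  · obtain ⟨j, hj⟩ := hd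
    have hM : M = m + 3 * n * j := by linarith
    by_cases hj0 : j = 0
    · rw [hj0, mul_zero, add_zero] at hM
      have h3 := row_th P hn h0' h1' h 0
      rw [mul_zero, add_zero, eE_zero, Int.toNat_zero, pow_zero, one_mul, GE_zpow_zero] at h3
      rw [hM, h3, if_pos rfl]
      have h4 : (monomial (0 : V →₀ ℕ) (1 : ZMod p)) = 1 := rfl
      rw [h4, mul_one, sub_self]
      exact dvd_zero _
    · have hn0 : (3 * n : ℤ) ≠ 0 := by positivity
      have hne : M ≠ m := by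
        intro hc
        rw [hc, sub_self] at hj
        rcases mul_eq_zero.1 hj.symm with h5 | h5
        · exact hn0 h5
        · exact hj0 h5
      rw [if_neg hne, mul_zero, sub_zero, hM, row_th P hn h0' h1', add_comm K L, pow_add]
      have h6 := le_eE n h0 h1 hj0
      exact mul_dvd_mul (pow_dvd_pow _ (by omega)) (GE_zpow_dvd P j hh)
  · have hne : M ≠ m := by
      intro hc
      rw [hc, sub_self] at hd
      exact hd (dvd_zero _)
    rw [row_th_ne P hn h0' h1' h hd, if_neg hne, mul_zero, sub_zero]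
    exact dvd_zero _

end Pool.Agent.W_35cfd6_h24
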