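import Pool.Agent.W_35cfd6_h24.Th1

/-!
# Theta functions: iteration of the functional equation, decomposition, monomials
-/

set_option autoImplicit false

namespace Pool.Agent.W_35cfd6_h24

open MvPowerSeries

variable {p : ℕ}

/-- Iteration of the functional equation. For `j ≥ 0` by induction: `m + 3 n j ≥ 0`, so
`mem_RR_iff_hom` gives `row (m + 3 n (j + 1)) u = s^(m + 3 n j) G (row (m + 3 n j) u)`, and
`eE (j + 1) = eE j + (m + 3 n j)` (`eE_succ`), all `eE ≥ 0` (`eE_nonneg`). For `j < 0` by descending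
induction: `M = m + 3 n j ≤ 0`, so `s^(-M) row (M + 3 n) u = G (row M u)`, hence
`row M u = s^(-M) G⁻¹ (row (M + 3 n) u)` (use `GE P ^ (-1)`, i.e. `GG P.inv`). -/
theorem RR_row_iter (P : Par p) {n : ℕ} (hn : 1 ≤ n) {u : UU p} (hu : u ∈ RR P) (h : IsHom n u)
    {m : ℤ} (h0 : 0 ≤ m) (h1 : m ≤ 3 * n) (j : ℤ) :
    row (m + 3 * n * j) u = sX ^ (eE n m j).toNat * (GE P ^ j) (row m u) := by
  have hn' : (1 : ℤ) ≤ n := by exact_mod_cast hn
  induction j using Int.induction_on with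
  | zero =>
    rw [eE_zero, GE_zpow_zero, mul_zero, add_zero, Int.toNat_zero, pow_zero, one_mul]
  | succ i ih =>
    have h3 : 0 ≤ m + 3 * n * (i : ℤ) := by positivity
    have h4 := (mem_RR_iff_hom P h).1 hu (m + 3 * n * (i : ℤ))
    have h5 : (-(m + 3 * n * (i : ℤ))).toNat = 0 := by
      rw [Int.toNat_eq_zero]
      omega
    rw [h5, pow_zero, one_mul, ih, map_mul, map_pow, GG_sX, ← GE_zpow_succ, ← mul_assoc, ← pow_add,
      ← Int.toNat_add h3 (eE_nonneg n h0 h1 i), add_comm (m + 3 * n * (i : ℤ)) (eE n m i),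
      ← eE_succ] at h4
    have h6 : m + 3 * n * ((i : ℤ) + 1) = m + 3 * n * (i : ℤ) + 3 * n := by ring
    rw [h6, h4]
  | pred i ih =>
    have h6 : m + 3 * n * (-(i : ℤ) - 1) + 3 * n = m + 3 * n * (-(i : ℤ)) := by ring
    have h3 : 0 ≤ -(m + 3 * n * (-(i : ℤ) - 1)) := by
      have h7 : 0 ≤ (n : ℤ) * i := by positivity
      have h8 : -(m + 3 * n * (-(i : ℤ) - 1)) = 3 * (n * i) + (3 * n - m) := by ring
      rw [h8]
      omega
    have h4 := (mem_RR_iff_hom P h).1 hu (m + 3 * n * (-(i : ℤ) - 1))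
    have h5 : (m + 3 * n * (-(i : ℤ) - 1)).toNat = 0 := by
      rw [Int.toNat_eq_zero]
      omega
    have h9 : eE n m (-(i : ℤ) - 1) = -(m + 3 * n * (-(i : ℤ) - 1)) + eE n m (-(i : ℤ)) := by
      have h10 := eE_succ n m (-(i : ℤ) - 1)
      rw [sub_add_cancel] at h10
      rw [h10]
      ring
    rw [h5, pow_zero, one_mul, h6, ih, ← mul_assoc, ← pow_add,
      ← Int.toNat_add h3 (eE_nonneg n h0 h1 _), ← h9] at h4
    apply GG_injective P
    rw [← h4, map_mul, map_pow, GG_sX, ← GE_zpow_succ, sub_add_cancel]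

theorem RR_ext (P : Par p) {n : ℕ} (hn : 1 ≤ n) {u v : UU p} (hu : u ∈ RR P) (hv : v ∈ RR P)
    (hu' : IsHom n u) (hv' : IsHom n v)
    (h : ∀ m : ℤ, 0 ≤ m → m < 3 * n → row m u = row m v) : u = v := by
  have hn' : (0 : ℤ) < 3 * n := by
    have : (1 : ℤ) ≤ n := by exact_mod_cast hn
    omega
  refine ext_row fun M => ?_
  have h2 := Int.emod_nonneg M hn'.ne'
  have h3 := Int.emod_lt_of_pos M hn'
  have h4 : M = M % (3 * n) + 3 * n * (M / (3 * n)) := (Int.emod_add_mul_ediv M (3 * n)).symm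
  have h5 := RR_row_iter P hn hu hu' h2 h3.le (M / (3 * n))
  have h6 := RR_row_iter P hn hv hv' h2 h3.le (M / (3 * n))
  rw [← h4] at h5 h6
  rw [h5, h6, h _ h2 h3]

theorem RR_decomp (P : Par p) {n : ℕ} (hn : 1 ≤ n) {u : UU p} (hu : u ∈ RR P) (h : IsHom n u) :
    u = ∑ m ∈ Finset.range (3 * n), th P n m (row m u) := by
  classical
  have hb : ∀ m ∈ Finset.range (3 * n), (0 : ℤ) ≤ (m : ℤ) ∧ (m : ℤ) ≤ 3 * n := by
    intro m hm
    rw [Finset.mem_range] at hm
    omega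
  refine RR_ext P hn hu (Subring.sum_mem _ fun m hm =>
    th_mem P hn (hb m hm).1 (hb m hm).2 (h.row m)) h
    (IsHom.sum _ fun m hm => isHom_th P hn (hb m hm).1 (hb m hm).2 (h.row m)) ?_
  intro M hM0 hM1
  rw [row_sum, Finset.sum_eq_single M.toNat]
  · have h1 : ((M.toNat : ℕ) : ℤ) = M := Int.toNat_of_nonneg hM0
    rw [h1]
    have h2 := row_th P hn hM0 hM1.le (row M u) 0
    rw [eE_zero, GE_zpow_zero, mul_zero, add_zero, Int.toNat_zero, pow_zero, one_mul] at h2
    exact h2.symm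
  · intro m hm hne
    rw [Finset.mem_range] at hm
    refine row_th_ne P hn (hb m (Finset.mem_range.2 hm)).1 (hb m (Finset.mem_range.2 hm)).2 _ ?_
    rintro ⟨k, hk⟩
    have hm' : (m : ℤ) < 3 * n := by exact_mod_cast hm
    have hm0 : (0 : ℤ) ≤ (m : ℤ) := Int.natCast_nonneg m
    have hk0 : k = 0 := by
      by_contra hk1
      rcases lt_or_gt_of_ne hk1 with h3 | h3
      · have : (3 * n : ℤ) * k ≤ (3 * n : ℤ) * (-1) :=
          mul_le_mul_of_nonneg_left (by omega) (by positivity)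
        omega
      · have : (3 * n : ℤ) * 1 ≤ (3 * n : ℤ) * k :=
          mul_le_mul_of_nonneg_left (by omega) (by positivity)
        omega
    rw [hk0, mul_zero] at hk
    omega
  · intro hne
    exfalso
    apply hne
    rw [Finset.mem_range]
    omega

/-- For `M < 0`: `s^(-M) row (M + 3 n) u = G (row M u)`, and `s ∣ G f` implies `s ∣ f`. For
`M > 3 n`: `row M u = s^(M - 3 n) G (row (M - 3 n) u)`. -/
theorem RR_row_dvd (P : Par p) {n : ℕ} {u : UU p} (hu : u ∈ RR P) (h : IsHom n u) {M : ℤ}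
    (hM : M < 0 ∨ 3 * n < M) : sX ∣ row M u := by
  rcases hM with hM | hM
  · have h4 := (mem_RR_iff_hom P h).1 hu M
    have h5 : M.toNat = 0 := by
      rw [Int.toNat_eq_zero]
      omega
    rw [h5, pow_zero, one_mul] at h4
    have h6 : (sX : FF p) ^ 1 ∣ GG P (row M u) := by
      rw [← h4]
      exact dvd_mul_of_dvd_left (pow_dvd_pow _ (by omega)) _
    rw [GG_dvd_iff, pow_one] at h6
    exact h6
  · have h4 := (mem_RR_iff_hom P h).1 hu (M - 3 * n)
    have h5 : (-(M - 3 * n)).toNat = 0 := by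
      rw [Int.toNat_eq_zero]
      omega
    rw [h5, pow_zero, one_mul, sub_add_cancel] at h4
    rw [h4]
    exact dvd_mul_of_dvd_left (dvd_pow_self _ (by omega)) _

theorem RR_row_top (P : Par p) {n : ℕ} {u : UU p} (hu : u ∈ RR P) (h : IsHom n u) :
    row (3 * n) u = GG P (row 0 u) := by
  have h4 := (mem_RR_iff_hom P h).1 hu 0
  rwa [neg_zero, Int.toNat_zero, pow_zero, one_mul, one_mul, zero_add] at h4

theorem thm_mem (P : Par p) {e : V →₀ ℕ} (he : 1 ≤ dg e) {m : ℤ} (h0 : 0 ≤ m)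
    (h1 : m ≤ 3 * dg e) : thm P e m ∈ RR P := by
  exact th_mem P he h0 h1 (IsHom.monomial e 1)

theorem thm_hom (P : Par p) {e : V →₀ ℕ} (he : 1 ≤ dg e) {m : ℤ} (h0 : 0 ≤ m)
    (h1 : m ≤ 3 * dg e) : IsHom (dg e) (thm P e m) := by
  exact isHom_th P he h0 h1 (IsHom.monomial e 1)

/-- From `th_approx` with `h = monomial e 1`, divisible by `s^(e none)`, and
`iota (monomial e 1) * mono 0 m = mono e m`. -/
theorem thm_approx (P : Par p) {e : V →₀ ℕ} (he : 1 ≤ dg e) {m : ℤ} {L : ℕ} (h0 : (L : ℤ) ≤ m)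
    (h1 : (L : ℤ) ≤ 3 * dg e - m) : sX ^ (e none + L) ∣ thm P e m - mono e m := by
  classical
  have h2 : (sX : FF p) ^ (e none) ∣ monomial e 1 := by
    rw [sX_pow_dvd_iff]
    intro e' he'
    rw [coeff_monomial_ne]
    rintro rfl
    exact lt_irrefl _ he'
  have h3 : iota (monomial e (1 : ZMod p)) * mono 0 m = (mono e m : UU p) := by
    refine ext_row fun M => ?_
    rw [row_iota_mul, row_mono, row_mono]
    split_ifs
    · rw [monomial_mul_monomial, add_zero, mul_one]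
    · rw [mul_zero]
  have h4 := th_approx P he h0 h1 h2
  rw [h3] at h4
  exact h4

theorem thm_dvd (P : Par p) {e : V →₀ ℕ} (he : 1 ≤ dg e) {m : ℤ} (h0 : 0 ≤ m)
    (h1 : m ≤ 3 * dg e) : sX ^ (e none) ∣ thm P e m := by
  have h2 := thm_approx P he (m := m) (L := 0) (by simpa using h0) (by
    rw [Nat.cast_zero]
    omega)
  rw [add_zero] at h2
  have h3 := dvd_add h2 (sX_pow_dvd_mono e m)
  rwa [sub_add_cancel] at h3

end Pool.Agent.W_35cfd6_h24
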